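import Pool.Agent.Helper54.TRI.St5

/-!
# Project TRI, module LAT
-/

set_option autoImplicit false

open Set Filter Topology Matrix
open Pool.Agent.Helper54.Wav

noncomputable section

namespace Pool.Agent.Helper54.TRI

/-- the map `φ` -/
private def phi_LAT (α : ℂ) (k a b c d : ℝ) : (Fin 2 → ℝ) →ₗ[ℝ] ℂ where
  toFun x := (k : ℂ) * ((x 0 : ℂ) * (-(d : ℂ) + b * α) + (x 1 : ℂ) * ((c : ℂ) - a * α))
  map_add' x y := by
    simp only [Pi.add_apply]
    push_cast
    ring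
  map_smul' r x := by
    simp only [Pi.smul_apply, smul_eq_mul, RingHom.id_apply, Complex.real_smul]
    push_cast
    ring

private theorem phi_apply_LAT (α : ℂ) (k a b c d : ℝ) (x : Fin 2 → ℝ) :
    phi_LAT α k a b c d x =
      (k : ℂ) * ((x 0 : ℂ) * (-(d : ℂ) + b * α) + (x 1 : ℂ) * ((c : ℂ) - a * α)) := rfl

theorem m_LAT : StLAT := by
  intro α D B p q hα hD htr hdet hq hpq
  have hα0 : α ≠ 0 := by
    rintro rfl
    exact hα rfl
  obtain ⟨β, hβ⟩ : ∃ β : ℂ, β = α⁻¹ := ⟨_, rfl⟩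
  rw [← hβ] at htr hdet ⊢
  have hβα : β * α = 1 := by rw [hβ, inv_mul_cancel₀ hα0]
  have hβim : β.im ≠ 0 := by
    intro h0
    apply hα
    rw [hβ, Complex.inv_im, div_eq_zero_iff] at h0
    rcases h0 with h1 | h1
    · linarith
    · exact absurd (Complex.normSq_eq_zero.1 h1) hα0
  -- real data
  obtain ⟨a, ha⟩ : ∃ a : ℝ, a = (p 0 : ℝ) := ⟨_, rfl⟩
  obtain ⟨b, hb⟩ : ∃ b : ℝ, b = (p 1 : ℝ) := ⟨_, rfl⟩
  obtain ⟨c, hc⟩ : ∃ c : ℝ, c = (q 0 : ℝ) := ⟨_, rfl⟩
  obtain ⟨d, hd⟩ : ∃ d : ℝ, d = (q 1 : ℝ) := ⟨_, rfl⟩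
  have e0 : a = B 0 0 * c + B 0 1 * d := by
    have h := congrFun hpq 0
    simp only [zv, Matrix.mulVec, dotProduct, Fin.sum_univ_two] at h
    rw [ha, hc, hd]
    exact h
  have e1 : b = B 1 0 * c + B 1 1 * d := by
    have h := congrFun hpq 1
    simp only [zv, Matrix.mulVec, dotProduct, Fin.sum_univ_two] at h
    rw [hb, hc, hd]
    exact h
  have htr' : B 0 0 + B 1 1 = 2 * β.re := by
    rw [← htr, Matrix.trace_fin_two]
  have hdet' : B 0 0 * B 1 1 - B 0 1 * B 1 0 = β.re * β.re + β.im * β.im := by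
    rw [← Complex.normSq_apply, ← hdet, Matrix.det_fin_two]
  -- beta = t - n alpha
  have hquad : β = ((2 * β.re : ℝ) : ℂ) - ((β.re * β.re + β.im * β.im : ℝ) : ℂ) * α := by
    have h1 : β * β = ((2 * β.re : ℝ) : ℂ) * β - ((β.re * β.re + β.im * β.im : ℝ) : ℂ) := by
      apply Complex.ext
      · simp [Complex.mul_re]
        ring
      · simp [Complex.mul_im]
        ring
    have h2 : β * β * α = (((2 * β.re : ℝ) : ℂ) * β - ((β.re * β.re + β.im * β.im : ℝ) : ℂ)) * α := by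
      rw [h1]
    have h3 : β * β * α = β := by rw [mul_assoc, hβα, mul_one]
    rw [h3] at h2
    calc β = (((2 * β.re : ℝ) : ℂ) * β - ((β.re * β.re + β.im * β.im : ℝ) : ℂ)) * α := h2
      _ = ((2 * β.re : ℝ) : ℂ) * (β * α) - ((β.re * β.re + β.im * β.im : ℝ) : ℂ) * α := by ring
      _ = _ := by rw [hβα, mul_one]
  obtain ⟨δ, hδ⟩ : ∃ δ : ℝ, δ = a * d - b * c := ⟨_, rfl⟩
  have hδ0 : δ ≠ 0 := by
    intro h0
    have h1 : (2 * B 0 1 * d + (B 0 0 - B 1 1) * c) ^ 2 + 4 * (β.im * c) ^ 2 = 0 := by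
      have h2 : a * d - b * c = 0 := by rw [← hδ, h0]
      rw [e0, e1] at h2
      have h3 : (B 0 0 - B 1 1) ^ 2 + 4 * (B 0 1 * B 1 0) = - 4 * β.im ^ 2 := by
        have h4 : (B 0 0 + B 1 1) ^ 2 = (2 * β.re) ^ 2 := by rw [htr']
        linear_combination h4 - 4 * hdet'
      linear_combination (4 * B 0 1) * h2 + c ^ 2 * h3
    have h2 : (β.im * c) ^ 2 = 0 := by nlinarith [sq_nonneg (2 * B 0 1 * d + (B 0 0 - B 1 1) * c), sq_nonneg (β.im * c)]
    have h3 : c = 0 := by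
      have := pow_eq_zero_iff (two_ne_zero) |>.1 h2
      exact (mul_eq_zero.1 this).resolve_left hβim
    rw [h3] at h1
    have h4 : B 0 1 * d = 0 := by nlinarith [sq_nonneg (B 0 1 * d)]
    have h5 : B 0 1 ≠ 0 := by
      intro h6
      have h7 : (B 0 0 + B 1 1) ^ 2 = (2 * β.re) ^ 2 := by rw [htr']
      rw [h6] at hdet'
      have h8 : 0 < β.im ^ 2 := by positivity
      nlinarith [sq_nonneg (B 0 0 - B 1 1)]
    have h6 : d = 0 := (mul_eq_zero.1 h4).resolve_left h5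
    apply hq
    funext i
    fin_cases i
    · have : (q 0 : ℝ) = 0 := by rw [← hc, h3]
      exact_mod_cast this
    · have : (q 1 : ℝ) = 0 := by rw [← hd, h6]
      exact_mod_cast this
  have hk0 : (D : ℝ) / δ ≠ 0 := by
    apply div_ne_zero _ hδ0
    exact_mod_cast hD
  refine ⟨phi_LAT α (D / δ) a b c d, ?_, ?_, ?_⟩
  · rw [injective_iff_map_eq_zero]
    intro x hx
    rw [phi_apply_LAT] at hx
    have h1 : (x 0 : ℂ) * (-(d : ℂ) + b * α) + (x 1 : ℂ) * ((c : ℂ) - a * α) = 0 := by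
      rcases mul_eq_zero.1 hx with h | h
      · exact absurd (by exact_mod_cast h) hk0
      · exact h
    have h2 := congrArg Complex.im h1
    have h3 := congrArg Complex.re h1
    simp [Complex.mul_im, Complex.mul_re] at h2 h3
    have h4 : (b * x 0 - a * x 1) * α.im = 0 := by linarith
    have h5 : b * x 0 - a * x 1 = 0 := (mul_eq_zero.1 h4).resolve_right hα
    have h6 : -(d * x 0) + c * x 1 = 0 := by
      have h7 : (b * x 0 - a * x 1) * α.re = 0 := by rw [h5, zero_mul]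
      linarith
    have h8 : δ * x 0 = 0 := by
      rw [hδ]
      linear_combination (-a) * h6 - c * h5
    have h9 : δ * x 1 = 0 := by
      rw [hδ]
      linear_combination (-b) * h6 - d * h5
    funext i
    fin_cases i
    · exact (mul_eq_zero.1 h8).resolve_left hδ0
    · exact (mul_eq_zero.1 h9).resolve_left hδ0
  · intro x
    rw [phi_apply_LAT, phi_apply_LAT]
    have h0 : (B *ᵥ x) 0 = B 0 0 * x 0 + B 0 1 * x 1 := by
      simp [Matrix.mulVec, dotProduct, Fin.sum_univ_two]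
    have h1 : (B *ᵥ x) 1 = B 1 0 * x 0 + B 1 1 * x 1 := by
      simp [Matrix.mulVec, dotProduct, Fin.sum_univ_two]
    rw [h0, h1]
    have hn : ((β.re * β.re + β.im * β.im : ℝ) : ℂ) =
        (B 0 0 : ℂ) * (B 1 1 : ℂ) - (B 0 1 : ℂ) * (B 1 0 : ℂ) := by
      rw [← hdet']
      push_cast
      ring
    have ht : ((2 * β.re : ℝ) : ℂ) = (B 0 0 : ℂ) + (B 1 1 : ℂ) := by
      rw [← htr']
      push_cast
      ring
    have e0' : (a : ℂ) = (B 0 0 : ℂ) * c + (B 0 1 : ℂ) * d := by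
      rw [e0]
      push_cast
      ring
    have e1' : (b : ℂ) = (B 1 0 : ℂ) * c + (B 1 1 : ℂ) * d := by
      rw [e1]
      push_cast
      ring
    rw [hn, ht] at hquad
    have c0 : (B 0 0 : ℂ) * (-(d : ℂ) + b * α) + (B 1 0 : ℂ) * ((c : ℂ) - a * α) =
        β * (-(d : ℂ) + b * α) := by
      have h2 : β * (-(d : ℂ) + b * α) = -(d : ℂ) * β + b := by
        linear_combination (b : ℂ) * hβα
      rw [h2, e0', e1']
      linear_combination (d : ℂ) * hquad
    have c1 : (B 0 1 : ℂ) * (-(d : ℂ) + b * α) + (B 1 1 : ℂ) * ((c : ℂ) - a * α) =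
        β * ((c : ℂ) - a * α) := by
      have h2 : β * ((c : ℂ) - a * α) = (c : ℂ) * β - a := by
        linear_combination (-(a : ℂ)) * hβα
      rw [h2, e0', e1']
      linear_combination (-(c : ℂ)) * hquad
    push_cast
    linear_combination (((D : ℂ) / (δ : ℂ)) * (x 0 : ℂ)) * c0 + (((D : ℂ) / (δ : ℂ)) * (x 1 : ℂ)) * c1
  · rintro u ⟨m, n, rfl⟩
    refine ⟨fun i => - m * p i - n * q i, ?_⟩
    rw [phi_apply_LAT, zpow_zero, one_mul]
    simp only [zv]
    push_cast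
    rw [← Complex.ofReal_intCast (p 0), ← Complex.ofReal_intCast (p 1),
      ← Complex.ofReal_intCast (q 0), ← Complex.ofReal_intCast (q 1), ← ha, ← hb, ← hc, ← hd]
    have hδc : (δ : ℂ) ≠ 0 := by exact_mod_cast hδ0
    have hδ' : (δ : ℂ) = a * d - b * c := by
      rw [hδ]
      push_cast
      ring
    field_simp
    rw [hδ']
    ring

end Pool.Agent.Helper54.TRI
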