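import Pool.Agent.Helper54.TRI.St5

/-!
# Project TRI, module NRP: no rational power
-/

set_option autoImplicit false

open Set Filter Topology

noncomputable section

namespace Pool.Agent.Helper54.TRI

private theorem lin_NRP (τ : ℝ) (h : τ ^ 3 = τ ^ 2 + τ + 1) (p : ℕ) :
    ∃ u v w : ℕ, τ ^ (p + 1) = u + v * τ + w * τ ^ 2 ∧ 0 < v + w := by
  induction p with
  | zero => exact ⟨0, 1, 0, by simp, by norm_num⟩
  | succ p ih =>
    obtain ⟨u, v, w, h1, h2⟩ := ih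
    refine ⟨w, u + w, v + w, ?_, by omega⟩
    rw [pow_succ, h1]
    push_cast
    linear_combination (w : ℝ) * h

private theorem cub_NRP (a : ℚ) (h : a ^ 3 - 2 * a ^ 2 + 2 = 0) : False := by
  have hd : (a.den : ℚ) ≠ 0 := by exact_mod_cast a.den_nz
  have e : a = a.num / a.den := (Rat.num_div_den a).symm
  have h1 : (a.num : ℚ) ^ 3 - 2 * (a.num : ℚ) ^ 2 * a.den + 2 * (a.den : ℚ) ^ 3 = 0 := by
    have h' := h
    rw [e] at h'
    have h2 : (a.num : ℚ) ^ 3 - 2 * (a.num : ℚ) ^ 2 * a.den + 2 * (a.den : ℚ) ^ 3 =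
        (((a.num : ℚ) / a.den) ^ 3 - 2 * ((a.num : ℚ) / a.den) ^ 2 + 2) * (a.den : ℚ) ^ 3 := by
      field_simp
    rw [h2, h', zero_mul]
  have h2 : a.num ^ 3 - 2 * a.num ^ 2 * (a.den : ℤ) + 2 * (a.den : ℤ) ^ 3 = 0 := by
    exact_mod_cast h1
  have h3 : (2 : ℤ) ∣ a.num ^ 3 :=
    ⟨a.num ^ 2 * (a.den : ℤ) - (a.den : ℤ) ^ 3, by linear_combination h2⟩
  have h4 : (2 : ℤ) ∣ a.num := Int.prime_two.dvd_of_dvd_pow h3
  obtain ⟨k, hk⟩ := h4
  have h5 : (a.den : ℤ) ^ 3 = 2 * (2 * k ^ 2 * (a.den : ℤ) - 2 * k ^ 3) := by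
    rw [hk] at h2
    linarith
  have h6 : (2 : ℤ) ∣ (a.den : ℤ) := Int.prime_two.dvd_of_dvd_pow ⟨_, h5⟩
  have h7 : (2 : ℕ) ∣ a.den := by exact_mod_cast h6
  have h8 : (2 : ℕ) ∣ a.num.natAbs := Int.natCast_dvd.1 (by exact_mod_cast (⟨k, hk⟩ : (2 : ℤ) ∣ a.num))
  have h9 := Nat.dvd_gcd h8 h7
  rw [a.reduced] at h9
  norm_num at h9

private theorem irr_NRP (τ : ℝ) (h : τ ^ 3 = τ ^ 2 + τ + 1) (hi : Irrational τ) (p : ℕ) (r : ℚ) :
    τ ^ (p + 1) ≠ (r : ℝ) := by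
  intro hr
  obtain ⟨u, v, w, h1, h2⟩ := lin_NRP τ h p
  rw [hr] at h1
  rcases Nat.eq_zero_or_pos w with hw | hw
  · subst hw
    have hv : 0 < v := by omega
    have hvR : (v : ℝ) ≠ 0 := by exact_mod_cast hv.ne'
    refine hi ⟨(r - u) / v, ?_⟩
    push_cast
    rw [div_eq_iff hvR, h1]
    push_cast
    ring
  · have hwR : (w : ℝ) ≠ 0 := by exact_mod_cast hw.ne'
    set a : ℚ := -(v : ℚ) / w with ha
    set b : ℚ := (r - u) / w with hb
    have haR : (a : ℝ) * w = -v := by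
      rw [ha]
      push_cast
      field_simp
    have hbR : (b : ℝ) * w = r - u := by
      rw [hb]
      push_cast
      field_simp
    have h3 : τ ^ 2 = a * τ + b := by
      apply mul_right_cancel₀ hwR
      linear_combination (-1 : ℝ) * h1 - τ * haR - hbR
    have h4 : ((a : ℝ) ^ 2 - a + b - 1) * τ + (a * b - b - 1) = 0 := by
      linear_combination h - τ * h3 - ((a : ℝ) - 1) * h3
    have h5 : a ^ 2 - a + b - 1 = 0 := by
      by_contra hne
      have hneR : ((a : ℝ) ^ 2 - a + b - 1) ≠ 0 := by exact_mod_cast hne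
      refine hi ⟨-(a * b - b - 1) / (a ^ 2 - a + b - 1), ?_⟩
      push_cast
      rw [div_eq_iff hneR]
      linarith
    have h5R : ((a : ℝ) ^ 2 - a + b - 1) = 0 := by exact_mod_cast h5
    have h6 : a * b - b - 1 = 0 := by
      rw [h5R, zero_mul, zero_add] at h4
      exact_mod_cast h4
    apply cub_NRP a
    linear_combination (a - 1) * h5 - h6

theorem m_NRP (hr : StRT) : StNRP := by
  intro α hα A _ hdet hpow
  obtain ⟨p, M, hp, hM⟩ := hpow
  obtain ⟨h1, _, _, h4, _, h6⟩ := hr.2 α hα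
  have hdetA : A.det = 1 - 2 * α.re := by
    rw [hdet, map_inv₀]
    exact inv_eq_of_mul_eq_one_right h4
  obtain ⟨q, rfl⟩ : ∃ q, p = q + 1 := ⟨p - 1, by omega⟩
  apply irr_NRP _ h1 h6 q M.det
  have h7 := congrArg Matrix.det hM
  rw [Matrix.det_pow, hdetA] at h7
  rw [h7]
  have h8 := RingHom.map_det (algebraMap ℚ ℝ) M
  rw [RingHom.mapMatrix_apply] at h8
  rw [← h8]
  rfl

end Pool.Agent.Helper54.TRI
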