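import Pool.Agent.Helper54.TRI.St5

/-!
# Project TRI, module TRF: transfer of a planar kernel pattern to real coordinates
-/

set_option autoImplicit false

open Set Filter Topology Matrix
open Pool.Agent.Helper54.Wav

noncomputable section

namespace Pool.Agent.Helper54.TRI

private theorem zpow_TRF (β : ℂ) (B : Matrix (Fin 2) (Fin 2) ℝ) (φ : (Fin 2 → ℝ) →ₗ[ℝ] ℂ)
    (hβ : β ≠ 0) (hφ : Function.Injective φ) (hB : ∀ x, φ (B *ᵥ x) = β * φ x) (j : ℤ) :
    ∀ x, φ ((B ^ j) *ᵥ x) = β ^ j * φ x := by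
  have hdet : IsUnit B.det := by
    rw [isUnit_iff_ne_zero]
    intro h0
    obtain ⟨v, hv, hv0⟩ := Matrix.exists_mulVec_eq_zero_iff.mpr h0
    have h1 := hB v
    rw [hv0, map_zero] at h1
    have h2 : φ v = 0 := by
      rcases mul_eq_zero.mp h1.symm with h | h
      · exact absurd h hβ
      · exact h
    exact hv (hφ (by rw [h2, map_zero]))
  have hinv : ∀ x, φ (B⁻¹ *ᵥ x) = β⁻¹ * φ x := by
    intro x
    have h1 := hB (B⁻¹ *ᵥ x)
    rw [Matrix.mulVec_mulVec, Matrix.mul_nonsing_inv B hdet, Matrix.one_mulVec] at h1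
    rw [h1, ← mul_assoc, inv_mul_cancel₀ hβ, one_mul]
  induction j using Int.induction_on with
  | zero => intro x; simp
  | succ i ih =>
    intro x
    rw [Matrix.zpow_add_one hdet, ← Matrix.mulVec_mulVec, ih, hB, zpow_add_one₀ hβ, mul_assoc]
  | pred i ih =>
    intro x
    rw [Matrix.zpow_sub_one hdet, ← Matrix.mulVec_mulVec, ih, hinv, zpow_sub_one₀ hβ, mul_assoc]

theorem m_TRF : StTRF := by
  intro β Γ₀ K Λ ε R B φ hβ1 hφ hB hlat hP
  have hβ : β ≠ 0 := by
    intro h0
    rw [h0, norm_zero] at hβ1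
    linarith
  have hinj : Function.Injective (fun m : Fin 2 → ℤ => φ (zv m)) := by
    intro m m' h
    have h1 : zv m = zv m' := hφ h
    funext i
    have h2 := congrFun h1 i
    simp only [zv] at h2
    exact_mod_cast h2
  refine ⟨Λ.preimage (fun m : Fin 2 → ℤ => φ (zv m)) hinj.injOn, (normSeminorm ℝ ℂ).comp φ, ‖β‖, ?_⟩
  have hν : ∀ x, ((normSeminorm ℝ ℂ).comp φ) x = ‖φ x‖ := fun x => rfl
  refine { nu_pos := ?_, kap := hβ1, expand := ?_, eps := hP.eps, smooth := ?_, supp := ?_, near := ?_,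
           far := ?_, symm := ?_, idem := ?_, tele := ?_ }
  · intro x hx
    rw [hν] at hx
    have h1 : φ x = 0 := norm_eq_zero.mp hx
    exact hφ (by rw [h1, map_zero])
  · intro x
    rw [hν, hν, hB, norm_mul]
  · intro m
    exact (hP.smooth (φ (zv m))).comp (LinearMap.toContinuousLinearMap φ).contDiff
  · intro x v hne
    have h1 := hP.supp _ _ hne
    obtain ⟨m, hm⟩ := hlat _ (hP.lat _ h1)
    refine ⟨m, ?_, hφ hm⟩
    rw [Finset.mem_preimage]
    rw [← hm]
    exact h1
  · intro x v hx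
    rw [hν] at hx
    exact hP.near _ _ hx
  · intro x v hx
    rw [hν] at hx
    exact hP.far _ _ hx
  · intro x v
    simp only [map_add, map_neg]
    exact hP.symm _ _
  · intro x v
    simp only [map_add, map_sub]
    rw [← hP.idem (φ x) (φ v)]
    exact Finset.sum_preimage (fun m : Fin 2 → ℤ => φ (zv m)) Λ hinj.injOn
      (fun u => K (φ x) u * K (φ x + u) (φ v - u)) (by
        intro u hu hnr
        obtain ⟨m, hm⟩ := hlat _ (hP.lat _ hu)
        exact absurd ⟨m, hm.symm⟩ hnr)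
  · intro x v hx
    have hx' : φ x ≠ 0 := fun h => hx (hφ (by rw [h, map_zero]))
    have h1 := hP.tele (φ x) (φ v) hx'
    have h2 : ∀ (y : Fin 2 → ℝ) (j : ℤ), φ ((B ^ (-j)) *ᵥ y) = β ^ (-j) * φ y := fun y j =>
      zpow_TRF β B φ hβ hφ hB (-j) y
    simp only [h2]
    rw [h1]
    by_cases hv : v = 0
    · simp [hv]
    · have hv' : φ v ≠ 0 := fun h => hv (hφ (by rw [h, map_zero]))
      rw [if_neg hv, if_neg hv']

end Pool.Agent.Helper54.TRI
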