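import Pool.Agent.Helper54.TRI.Fin
import Pool.Agent.Helper54.TRI.M_TRF
import Pool.Agent.Helper54.TRI.M_LAT
import Pool.Agent.Helper54.TRI.M_NRP
import Pool.Agent.Helper56.TW.Red2

/-!
# Project TRI: the final theorem
-/

set_option autoImplicit false

open Matrix

noncomputable section

namespace Pool.Agent.Helper54.TRI.All

theorem tri_thm :
    (∀ A : Matrix (Fin 2) (Fin 2) ℝ, _root_.Wav.Expansive A → A ^ 3 + A ^ 2 + A = 1 →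
      ¬ Pool.Agent.Helper54.WavS.HasRationalPower A ∧
      ((∃ N : ℝ, 2 < N ∧ WavN.HasWavelet N A) ↔ ∃ j : ℤ, j ≠ 0 ∧ j ∈ WavN.Exps A) ∧
      ((∃ j : ℤ, j ≠ 0 ∧ j ∈ WavN.Exps A) →
        (1 : ℤ) ∈ WavN.Exps A ∧ Pool.Agent.Helper54.WavS.HasSchwartzWavelet A)) ∧
    ∃ τ : ℝ, τ ^ 3 = τ ^ 2 + τ + 1 ∧
      _root_.Wav.Expansive (!![τ * (1 - τ), -τ; 1, 0] : Matrix (Fin 2) (Fin 2) ℝ) ∧
      (!![τ * (1 - τ), -τ; 1, 0] : Matrix (Fin 2) (Fin 2) ℝ) ^ 3 + !![τ * (1 - τ), -τ; 1, 0] ^ 2 +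
        !![τ * (1 - τ), -τ; 1, 0] = 1 ∧
      ¬ Pool.Agent.Helper54.WavS.HasRationalPower
        (!![τ * (1 - τ), -τ; 1, 0] : Matrix (Fin 2) (Fin 2) ℝ) ∧
      Pool.Agent.Helper54.WavS.HasSchwartzWavelet
        (!![τ * (1 - τ), -τ; 1, 0] : Matrix (Fin 2) (Fin 2) ℝ) :=
  fin_tri m_TRF m_LAT (m_NRP m_RT) Pool.Agent.Helper56.TW.g_Red

end Pool.Agent.Helper54.TRI.All
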