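import Pool.Agent.Helper54.TRI.Data

/-!
# Project TRI: the certificate is correct (kernel computation)
-/

set_option autoImplicit false
set_option maxRecDepth 100000

namespace Pool.Agent.Helper54.TRI

theorem tri_V : tri.chkV = true := by decide +kernel

theorem tri_S : tri.chkS = true := by decide +kernel

theorem tri_G : tri.chkG = true := by decide +kernel

theorem tri_N : tri.chkN = true := by decide +kernel

theorem tri_C : tri.chkC = true := by decide +kernel

theorem tri_check : tri.check = true := by
  unfold Cert.check
  rw [tri_V, tri_S, tri_G, tri_N, tri_C]
  rfl

end Pool.Agent.Helper54.TRI
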