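import Pool.Agent.Helper54.TRI.St1

set_option autoImplicit false

open Set Filter Topology

noncomputable section

namespace Pool.Agent.Helper54.TRI

private def D_ARG (u v : ℂ) : ℝ := u.re * v.im - u.im * v.re

private theorem div_im_ARG (u v : ℂ) : (v / u).im = D_ARG u v / Complex.normSq u := by
  rw [Complex.div_im]
  unfold D_ARG
  ring

private theorem ht_ARG (p q x : ℂ) : ht p q x = D_ARG (p - x) (q - x) / Complex.normSq (q - p) := by
  unfold ht
  rw [div_im_ARG]
  congr 1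
  unfold D_ARG
  simp only [Complex.sub_re, Complex.sub_im]
  ring

private theorem ne_ARG {p q x : ℂ} (h : ht p q x ≠ 0) : p - x ≠ 0 ∧ q - x ≠ 0 ∧ q - p ≠ 0 := by
  rw [ht_ARG] at h
  have h1 : D_ARG (p - x) (q - x) ≠ 0 := fun h0 => h (by rw [h0, zero_div])
  have h2 : Complex.normSq (q - p) ≠ 0 := fun h0 => h (by rw [h0, div_zero])
  refine ⟨fun h0 => h1 ?_, fun h0 => h1 ?_, fun h0 => h2 ?_⟩
  · rw [h0]; simp [D_ARG]
  · rw [h0]; simp [D_ARG]
  · rw [h0]; simp

private theorem pos_iff_ARG {p q x : ℂ} (h : ht p q x ≠ 0) :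
    0 < ht p q x ↔ 0 < D_ARG (p - x) (q - x) := by
  obtain ⟨_, _, h3⟩ := ne_ARG h
  rw [ht_ARG]
  have := Complex.normSq_pos.2 h3
  constructor
  · intro h0
    by_contra hc
    push Not at hc
    exact absurd (div_nonpos_of_nonpos_of_nonneg hc this.le) (not_le.2 h0)
  · intro h0
    exact div_pos h0 this

private theorem arg_ARG {p q x : ℂ} (h : ht p q x ≠ 0) :
    (0 < ht p q x → 0 < Complex.arg ((q - x) / (p - x)) ∧
      Complex.arg ((q - x) / (p - x)) < Real.pi) ∧
    (¬ 0 < ht p q x → -Real.pi < Complex.arg ((q - x) / (p - x)) ∧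
      Complex.arg ((q - x) / (p - x)) < 0) := by
  obtain ⟨h1, h2, h3⟩ := ne_ARG h
  have hn := Complex.normSq_pos.2 h1
  have hD : D_ARG (p - x) (q - x) ≠ 0 := by
    intro h0
    apply h
    rw [ht_ARG, h0, zero_div]
  have him := div_im_ARG (p - x) (q - x)
  constructor
  · intro h0
    rw [pos_iff_ARG h] at h0
    have hi : 0 < ((q - x) / (p - x)).im := by rw [him]; exact div_pos h0 hn
    refine ⟨?_, ?_⟩
    · have h4 : 0 ≤ Complex.arg ((q - x) / (p - x)) := Complex.arg_nonneg_iff.2 hi.le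
      rcases h4.lt_or_eq with h5 | h5
      · exact h5
      · exfalso
        have := (Complex.arg_eq_zero_iff.1 h5.symm).2
        exact hi.ne' this
    · exact Complex.arg_lt_pi_iff.2 (Or.inr hi.ne')
  · intro h0
    rw [pos_iff_ARG h] at h0
    have h0' : D_ARG (p - x) (q - x) < 0 := lt_of_le_of_ne (not_lt.1 h0) hD
    have hi : ((q - x) / (p - x)).im < 0 := by rw [him]; exact div_neg_of_neg_of_pos h0' hn
    exact ⟨Complex.neg_pi_lt_arg _, Complex.arg_neg_iff.2 hi⟩

private theorem key_ARG (p q r x : ℂ) (h : 0 < ht p q r) (h0 : ht p q x ≠ 0) (h1 : ht q r x ≠ 0)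
    (h2 : ht r p x ≠ 0) :
    ((0 < ht p q x ∧ 0 < ht q r x ∧ 0 < ht r p x) →
      Complex.arg ((q - x) / (p - x)) + Complex.arg ((r - x) / (q - x)) +
        Complex.arg ((p - x) / (r - x)) = 2 * Real.pi) ∧
    (¬ (0 < ht p q x ∧ 0 < ht q r x ∧ 0 < ht r p x) →
      Complex.arg ((q - x) / (p - x)) + Complex.arg ((r - x) / (q - x)) +
        Complex.arg ((p - x) / (r - x)) = 0) := by
  obtain ⟨hp, hq, _⟩ := ne_ARG h0
  obtain ⟨_, hr, _⟩ := ne_ARG h1
  have a0 := arg_ARG h0
  have a1 := arg_ARG h1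
  have a2 := arg_ARG h2
  set α := Complex.arg ((q - x) / (p - x)) with hα
  set β := Complex.arg ((r - x) / (q - x)) with hβ
  set γ := Complex.arg ((p - x) / (r - x)) with hγ
  have hang : ((α + β + γ : ℝ) : Real.Angle) = 0 := by
    have e1 : ((q - x) / (p - x)) * ((r - x) / (q - x)) * ((p - x) / (r - x)) = 1 := by
      field_simp
    have n1 : (q - x) / (p - x) ≠ 0 := div_ne_zero hq hp
    have n2 : (r - x) / (q - x) ≠ 0 := div_ne_zero hr hq
    have n3 : (p - x) / (r - x) ≠ 0 := div_ne_zero hp hr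
    have e2 := Complex.arg_mul_coe_angle (mul_ne_zero n1 n2) n3
    rw [e1, Complex.arg_mul_coe_angle n1 n2, Complex.arg_one, Real.Angle.coe_zero] at e2
    rw [Real.Angle.coe_add, Real.Angle.coe_add, hα, hβ, hγ]
    exact e2.symm
  rw [Real.Angle.coe_eq_zero_iff] at hang
  obtain ⟨n, hn⟩ := hang
  rw [zsmul_eq_mul] at hn
  have hpi := Real.pi_pos
  -- one of the heights is positive
  have hsum : 0 < D_ARG (p - x) (q - x) + D_ARG (q - x) (r - x) + D_ARG (r - x) (p - x) := by
    have h3 := (pos_iff_ARG h.ne').1 h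
    have h4 : D_ARG (p - x) (q - x) + D_ARG (q - x) (r - x) + D_ARG (r - x) (p - x) =
        D_ARG (p - r) (q - r) := by
      unfold D_ARG
      simp only [Complex.sub_re, Complex.sub_im]
      ring
    rw [h4]
    exact h3
  have hone : 0 < ht p q x ∨ 0 < ht q r x ∨ 0 < ht r p x := by
    rw [pos_iff_ARG h0, pos_iff_ARG h1, pos_iff_ARG h2]
    by_contra hc
    push Not at hc
    linarith [hc.1, hc.2.1, hc.2.2]
  have hcast : ∀ t : ℝ, (n : ℝ) * (2 * Real.pi) = t → (t < 4 * Real.pi → n ≤ 1) ∧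
      (-(4 * Real.pi) < t → -1 ≤ n) ∧ (0 < t → 1 ≤ n) ∧ (t < 2 * Real.pi → n ≤ 0) ∧
      (-(2 * Real.pi) < t → 0 ≤ n) := by
    intro t ht
    refine ⟨fun h3 => ?_, fun h3 => ?_, fun h3 => ?_, fun h3 => ?_, fun h3 => ?_⟩
    · by_contra hc
      have : (2 : ℝ) ≤ n := by exact_mod_cast (by omega : (2 : ℤ) ≤ n)
      nlinarith
    · by_contra hc
      have : (n : ℝ) ≤ -2 := by exact_mod_cast (by omega : n ≤ (-2 : ℤ))
      nlinarith
    · by_contra hc
      have : (n : ℝ) ≤ 0 := by exact_mod_cast (by omega : n ≤ (0 : ℤ))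
      nlinarith
    · by_contra hc
      have : (1 : ℝ) ≤ n := by exact_mod_cast (by omega : (1 : ℤ) ≤ n)
      nlinarith
    · by_contra hc
      have : (n : ℝ) ≤ -1 := by exact_mod_cast (by omega : n ≤ (-1 : ℤ))
      nlinarith
  obtain ⟨c1, c2, c3, c4, c5⟩ := hcast _ hn
  constructor
  · rintro ⟨p0, p1, p2⟩
    have b0 := a0.1 p0
    have b1 := a1.1 p1
    have b2 := a2.1 p2
    have m1 : n ≤ 1 := c1 (by linarith)
    have m2 : 1 ≤ n := c3 (by linarith)
    have m3 : n = 1 := le_antisymm m1 m2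
    rw [← hn, m3]
    push_cast
    ring
  · intro hneg
    have m1 : n ≤ 0 ∧ 0 ≤ n := by
      by_cases p0 : 0 < ht p q x <;> by_cases p1 : 0 < ht q r x <;> by_cases p2 : 0 < ht r p x
      · exact absurd ⟨p0, p1, p2⟩ hneg
      all_goals first
        | (have b0 := a0.1 p0; have b1 := a1.1 p1; have b2 := a2.2 p2
           exact ⟨c4 (by linarith), c5 (by linarith)⟩)
        | (have b0 := a0.1 p0; have b1 := a1.2 p1; have b2 := a2.1 p2
           exact ⟨c4 (by linarith), c5 (by linarith)⟩)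
        | (have b0 := a0.1 p0; have b1 := a1.2 p1; have b2 := a2.2 p2
           exact ⟨c4 (by linarith), c5 (by linarith)⟩)
        | (have b0 := a0.2 p0; have b1 := a1.1 p1; have b2 := a2.1 p2
           exact ⟨c4 (by linarith), c5 (by linarith)⟩)
        | (have b0 := a0.2 p0; have b1 := a1.1 p1; have b2 := a2.2 p2
           exact ⟨c4 (by linarith), c5 (by linarith)⟩)
        | (have b0 := a0.2 p0; have b1 := a1.2 p1; have b2 := a2.1 p2
           exact ⟨c4 (by linarith), c5 (by linarith)⟩)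
        | (exfalso; rcases hone with h3 | h3 | h3
           exacts [p0 h3, p1 h3, p2 h3])
    have m3 : n = 0 := le_antisymm m1.1 m1.2
    rw [← hn, m3]
    push_cast
    ring

theorem m_ARG : StARG := by
  intro P hP x hx
  have e : ∀ s : Fin 3, s = 0 ∨ s = 1 ∨ s = 2 := by decide
  have h21 : (2 : Fin 3) + 1 = 0 := rfl
  have h11 : (1 : Fin 3) + 1 = 2 := rfl
  have h01 : (0 : Fin 3) + 1 = 1 := rfl
  have h0 := hx 0
  have h1 := hx 1
  have h2 := hx 2
  rw [h01] at h0
  rw [h11] at h1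
  rw [h21] at h2
  have hk := key_ARG (P 0) (P 1) (P 2) x hP h0 h1 h2
  have hsum : ∑ s : Fin 3, Complex.arg ((P (s + 1) - x) / (P s - x)) =
      Complex.arg ((P 1 - x) / (P 0 - x)) + Complex.arg ((P 2 - x) / (P 1 - x)) +
        Complex.arg ((P 0 - x) / (P 2 - x)) := by
    rw [Fin.sum_univ_three, h01, h11, h21]
  have hop : x ∈ Opn P ↔ (0 < ht (P 0) (P 1) x ∧ 0 < ht (P 1) (P 2) x ∧ 0 < ht (P 2) (P 0) x) := by
    constructor
    · intro h
      refine ⟨?_, ?_, ?_⟩
      · have := h 0; rwa [h01] at this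
      · have := h 1; rwa [h11] at this
      · have := h 2; rwa [h21] at this
    · rintro ⟨b0, b1, b2⟩ s
      rcases e s with rfl | rfl | rfl
      · rw [h01]; exact b0
      · rw [h11]; exact b1
      · rw [h21]; exact b2
  rw [hsum, hop]
  exact hk

end Pool.Agent.Helper54.TRI
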