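import Pool.Agent.Helper54.TRI.St4

/-!
# Project TRI, module AT: the atlas of a certificate
-/

set_option autoImplicit false

open Set Filter Topology

noncomputable section

namespace Pool.Agent.Helper54.TRI

private lemma cl_mem_AT (X : Cert) (c : Fin X.CS.length) : X.cl c.val ∈ X.CS := by
  unfold Cert.cl
  rw [List.getD_eq_getElem _ _ c.isLt]
  exact List.getElem_mem _

private lemma pos_add_AT (P : Fin 3 → ℂ) (w : ℂ) (h : Pos P) : Pos (fun s => P s + w) := by
  unfold Pos ht at *
  simp only [add_sub_add_right_eq_sub]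
  exact h

private lemma ne_AT (hp : StPZ) {α : ℂ} (hα : Root α) {p q : Z3} (h : Cert.sgD p q ≠ 0) :
    emb α p ≠ emb α q := by
  intro e
  unfold Cert.sgD at h
  have key : ∀ z w : ℂ, z = w → ht (emb α (0, 0, 0)) z w = 0 := by
    rintro z w rfl
    unfold ht
    rcases eq_or_ne (z - emb α (0, 0, 0)) 0 with h0 | h0
    · rw [h0]
      simp
    · rw [div_self h0]
      simp
  split_ifs at h with h1 h2
  · have := hp α hα _ _ _ h1
    rw [key _ _ e] at this
    exact lt_irrefl _ this
  · have := hp α hα _ _ _ h2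
    rw [key _ _ e.symm] at this
    exact lt_irrefl _ this
  · exact h rfl

theorem m_AT (hr : StRT) (he : StEM) (hp : StPZ) (hi : StIG) (hg : StGG) (g1 : StGP)
    (g2 : StGW) (g3 : StGT) (g4 : StGE) (hn : StNB) (hc : StCH) (hw : StWI) (hv : StVL)
    (ht : StTL) : StAT := by
  intro α hα X hX
  unfold Cert.check at hX
  simp only [Bool.and_eq_true, decide_eq_true_eq] at hX
  obtain ⟨hD, hG, hN, hC, hS, hV⟩ := hX
  -- the clusters
  have hGL : ∀ c ∈ X.CS, X.okG c = true ∧ X.okL c = true := by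
    unfold Cert.chkG at hG
    rw [List.all_eq_true] at hG
    intro c hc
    have := hG c hc
    rwa [Bool.and_eq_true] at this
  have G1 : ∀ c : Fin X.CS.length, X.Good1 α (X.cl c.val) := fun c =>
    hg α hα X _ (hGL _ (cl_mem_AT X c)).1
  have hG2 : ∀ c : CD, X.okL c = true → X.Good2 α c := by
    intro c h
    cases c with
    | P t => exact g1 α hα X t h
    | W e t0 t1 => exact g2 α hα X e t0 t1 h
    | T t0 t1 t2 t3 => exact g3 α hα X t0 t1 t2 t3 h
    | E t0 t1 t2 => exact g4 α hα X t0 t1 t2 h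
  have G2 : ∀ c : Fin X.CS.length, X.Good2 α (X.cl c.val) := fun c =>
    hG2 _ (hGL _ (cl_mem_AT X c)).2
  -- the neighbours
  have hnb := hn α hα X hN G1
  choose nj nt nm h1 h2 h3 using hnb
  refine ⟨fun i s => (nj i s, nt i s, nm i s), ?_⟩
  have hchk := hS
  unfold Cert.chkS at hchk
  simp only [Bool.and_eq_true, decide_eq_true_eq, List.all_eq_true] at hchk
  have htil : Tiling (Ix (X.C α)) (TT (X.C α)) α⁻¹ (fun i s => (nj i s, nt i s, nm i s)) := by
    refine ht (Ix (X.C α)) (TT (X.C α)) α⁻¹ (fun i s => (nj i s, nt i s, nm i s))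
      ((Cert.cyc X.seam).map (fun e => (X.pt α e.1, X.pt α e.2))) (hr.2 α hα).2.2.2.2.1
      ?_ ?_ h1 h2 (hc α hα X hC G1) (hw α hα X hS).1 ?_ (hw α hα X hS).2
    · intro i
      exact pos_add_AT _ _ (G1 i.1).2.1
    · intro i
      exact (G1 i.1).2.2.2 i.2
    · intro e he'
      rw [List.mem_map] at he'
      obtain ⟨e', he1, rfl⟩ := he'
      exact ne_AT hp hα (hchk.2.1 e' he1).2
  exact
    { tiling := htil
      lat := fun l k u hu => (hi α hα X.D).2.2.2 l k u hu
      ok := fun c => (G2 c).1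
      fok := fun i s => (G2 i.1).2.2.2 i.2 s
      form := fun i s t ht0 ht1 => (G2 i.1).2.1 i.2 s t ht0 ht1
      edge := fun i s => h3 i s
      vert := fun i s => (G2 i.1).2.2.1 i.2 s
      vlab := fun i s i' s' k h => hv α hα X hV G1 i s i' s' k h }

end Pool.Agent.Helper54.TRI
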