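import Pool.Agent.Helper54.TRI.St2

/-!
# Project TRI, module ATL: the kernel of an atlas
-/

set_option autoImplicit false
set_option linter.unusedSectionVars false

open Set Filter Topology Matrix
open scoped ContDiff

noncomputable section

namespace Pool.Agent.Helper54.TRI

private theorem crow_val_ATL {Γ : ℤ → ℂ → Prop} {C : Clus} (h : ClusOK Γ C) (a b : Fin C.n)
    (z : Fin 3 → ℝ) (l : ℤ) (u : ℂ) (hu : u = C.w b - C.w a) :
    crow C a z l u = C.M l z a b := by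
  unfold crow
  rw [Finset.sum_eq_single b]
  · rw [if_pos hu]
  · intro d _ hd
    rw [if_neg]
    intro h2
    rw [hu] at h2
    exact hd (h.inj (sub_left_injective h2)).symm
  · intro h2
    exact absurd (Finset.mem_univ b) h2

private theorem crow_ne_ATL {C : Clus} (a : Fin C.n) (z : Fin 3 → ℝ) (l : ℤ) (u : ℂ)
    (hu : crow C a z l u ≠ 0) : ∃ b, u = C.w b - C.w a ∧ C.M l z a b ≠ 0 := by
  unfold crow at hu
  obtain ⟨b, _, hb⟩ := Finset.exists_ne_zero_of_sum_ne_zero hu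
  refine ⟨b, ?_, ?_⟩
  · by_contra h
    exact hb (if_neg h)
  · intro h
    apply hb
    split_ifs
    · exact h
    · rfl

section

variable {κ : Type} [Fintype κ] {C : κ → Clus} {β : ℂ} {Γ : ℤ → ℂ → Prop}
  {nb : Ix C → Fin 3 → Ix C × Fin 3 × ℤ} {F : Ix C → Fin 3 → EF} {lab : Ix C → Fin 3 → ℤ}
  {η : κ → ℂ → Fin 3 → ℝ}

private theorem kern_eq_ATL (hg : StGLU) (hA : Atlas C β Γ nb F lab)
    (hη : ∀ c, IsEta (C c).P (η c)) (x : ℂ) (hx : x ≠ 0) (i : Ix C) (k : ℤ)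
    (hi : β ^ (-k) * x ∈ Cls (TT C i)) (u : ℂ) : Kern C β η x u = Rw C β η i k x 0 u := by
  have hex : ∃ a : Ix C × ℤ, x ≠ 0 ∧ β ^ (-a.2) * x ∈ Cls (TT C a.1) := ⟨(i, k), hx, hi⟩
  unfold Kern
  rw [dif_pos hex]
  have h2 := hex.choose_spec.2
  have h3 := hg κ C β Γ nb F lab η hA hη x hx _ _ _ _ h2 hi
  exact congrFun (congrFun h3.self_of_nhds 0) u

private theorem kern_lab_ATL (hg : StGLU) (hA : Atlas C β Γ nb F lab)
    (hη : ∀ c, IsEta (C c).P (η c)) (hβ : β ≠ 0) (x : ℂ) (hx : x ≠ 0) (i : Ix C) (k : ℤ)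
    (hi : β ^ (-k) * x ∈ Cls (TT C i)) (l : ℤ) (u : ℂ) :
    Kern C β η (β ^ (-l) * x) (β ^ (-l) * u) = Rw C β η i k x l u := by
  have e1 : ∀ y : ℂ, β ^ (-(k - l)) * (β ^ (-l) * y) = β ^ (-k) * y := by
    intro y
    rw [← mul_assoc, ← zpow_add₀ hβ]
    congr 2
    ring
  have hi2 : β ^ (-(k - l)) * (β ^ (-l) * x) ∈ Cls (TT C i) := by
    rw [e1]; exact hi
  rw [kern_eq_ATL hg hA hη _ (mul_ne_zero (zpow_ne_zero _ hβ) hx) i (k - l) hi2]
  unfold Rw
  rw [e1, e1]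
  congr 1
  ring

private theorem kern_zero_ATL (u : ℂ) : Kern C β η 0 u = 0 := by
  unfold Kern
  rw [dif_neg]
  rintro ⟨a, ha, _⟩
  exact ha rfl

/-- nonzero values of the kernel -/
private theorem kern_ne_ATL (h1 : StCF1) (hg : StGLU) (hA : Atlas C β Γ nb F lab)
    (hη : ∀ c, IsEta (C c).P (η c)) (x u : ℂ) (hne : Kern C β η x u ≠ 0) :
    x ≠ 0 ∧ ∃ (i : Ix C) (k : ℤ) (b : Fin (C i.1).n), β ^ (-k) * x ∈ Cls (TT C i) ∧
      -k ∈ (C i.1).S ∧ β ^ (-k) * u = (C i.1).w b - (C i.1).w i.2 ∧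
      (C i.1).M (-k) (η i.1 (β ^ (-k) * x - (C i.1).w i.2)) i.2 b ≠ 0 := by
  have hx : x ≠ 0 := by
    rintro rfl
    exact hne (kern_zero_ATL u)
  refine ⟨hx, ?_⟩
  obtain ⟨i, k, hi⟩ := (h1 (Ix C) (TT C) β nb hA.tiling).2.1 x hx
  rw [kern_eq_ATL hg hA hη x hx i k hi] at hne
  unfold Rw at hne
  obtain ⟨b, hb1, hb2⟩ := crow_ne_ATL _ _ _ _ hne
  rw [zero_sub] at hb2
  refine ⟨i, k, b, hi, ?_, hb1, hb2⟩
  by_contra hS
  apply hb2
  rw [(hA.ok i.1).zero _ hS]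
  rfl

private theorem tr_ATL (hg : StGLU) (hA : Atlas C β Γ nb F lab)
    (hη : ∀ c, IsEta (C c).P (η c)) (x : ℂ) (c : κ) (a b : Fin (C c).n)
    (k : ℤ) (hi : β ^ (-k) * x ∈ Cls (TT C ⟨c, a⟩)) (u : ℂ)
    (hu : β ^ (-k) * u = (C c).w b - (C c).w a) :
    x + u ≠ 0 ∧ ∀ v, Kern C β η (x + u) v =
      crow (C c) b (η c (β ^ (-k) * x - (C c).w a)) (-k) (β ^ (-k) * v) := by
  have e1 : β ^ (-k) * (x + u) = β ^ (-k) * x + ((C c).w b - (C c).w a) := by
    rw [mul_add, hu]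
  have hmem : β ^ (-k) * (x + u) ∈ Cls (TT C ⟨c, b⟩) := by
    rw [e1]
    intro s
    have h2 := hi s
    have h3 : ht (TT C ⟨c, b⟩ s) (TT C ⟨c, b⟩ (s + 1)) (β ^ (-k) * x + ((C c).w b - (C c).w a)) =
        ht (TT C ⟨c, a⟩ s) (TT C ⟨c, a⟩ (s + 1)) (β ^ (-k) * x) := by
      unfold ht TT
      congr 1
      congr 1
      · ring
      · ring
    rw [h3]
    exact h2
  have hne : x + u ≠ 0 := by
    intro h0
    rw [h0, mul_zero] at hmem
    exact hA.tiling.zero _ hmem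
  refine ⟨hne, fun v => ?_⟩
  rw [kern_eq_ATL hg hA hη _ hne ⟨c, b⟩ k hmem]
  unfold Rw
  rw [e1, zero_sub]
  congr 2
  ring

private theorem compact_ATL (hT : StTG) (hA : Atlas C β Γ nb F lab) (hβ : β ≠ 0) :
    ∃ ε R : ℝ, 0 < ε ∧ ∀ (i : Ix C) (k : ℤ), -k ∈ (C i.1).S → ∀ x : ℂ,
      β ^ (-k) * x ∈ Cls (TT C i) → ε < ‖x‖ ∧ ‖x‖ < R := by
  classical
  set Q : Set ℂ := ⋃ i : Ix C, ⋃ l ∈ (C i.1).S, (fun y => β ^ (-l) * y) '' Cls (TT C i) with hQ
  have hQc : IsCompact Q := by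
    refine isCompact_iUnion fun i => (C i.1).S.isCompact_biUnion fun l _ => ?_
    exact (hT (TT C i) (hA.tiling.pos i)).2.2.1.image (continuous_const.mul continuous_id)
  have h0 : (0 : ℂ) ∉ Q := by
    intro h
    rw [hQ, mem_iUnion] at h
    obtain ⟨i, h⟩ := h
    rw [mem_iUnion₂] at h
    obtain ⟨l, _, y, hy, hy0⟩ := h
    have : y = 0 := by
      rcases mul_eq_zero.1 hy0 with h2 | h2
      · exact absurd h2 (zpow_ne_zero _ hβ)
      · exact h2
    rw [this] at hy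
    exact hA.tiling.zero i hy
  obtain ⟨δ, hδ, hball⟩ := Metric.isOpen_iff.1 hQc.isClosed.isOpen_compl 0 h0
  obtain ⟨R, hR⟩ := hQc.isBounded.subset_closedBall (0 : ℂ)
  refine ⟨δ / 2, R + 1, by positivity, fun i k hk x hx => ?_⟩
  have hxQ : x ∈ Q := by
    rw [hQ, mem_iUnion]
    refine ⟨i, ?_⟩
    rw [mem_iUnion₂]
    refine ⟨-k, hk, β ^ (-k) * x, hx, ?_⟩
    show β ^ (- -k) * (β ^ (-k) * x) = x
    rw [← mul_assoc, ← zpow_add₀ hβ]
    simp
  constructor
  · by_contra hcon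
    have : x ∈ Metric.ball (0 : ℂ) δ := by
      rw [mem_ball_zero_iff]
      linarith [not_lt.1 hcon]
    exact hball this hxQ
  · have := hR hxQ
    rw [mem_closedBall_zero_iff] at this
    linarith

private theorem finite_ATL (h1 : StCF1) (hg : StGLU) (hA : Atlas C β Γ nb F lab)
    (hη : ∀ c, IsEta (C c).P (η c)) (hβ : β ≠ 0) :
    {u : ℂ | ∃ x, Kern C β η x u ≠ 0}.Finite := by
  classical
  refine Set.Finite.subset (s := ⋃ i : Ix C, ⋃ b : Fin (C i.1).n, ⋃ l ∈ (C i.1).S,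
    {β ^ (-l) * ((C i.1).w b - (C i.1).w i.2)}) ?_ ?_
  · refine Set.finite_iUnion fun i => Set.finite_iUnion fun b => ?_
    exact (C i.1).S.finite_toSet.biUnion fun l _ => Set.finite_singleton _
  · rintro u ⟨x, hx⟩
    obtain ⟨_, i, k, b, _, hS, hu, _⟩ := kern_ne_ATL h1 hg hA hη x u hx
    rw [mem_iUnion]
    refine ⟨i, ?_⟩
    rw [mem_iUnion]
    refine ⟨b, ?_⟩
    rw [mem_iUnion₂]
    refine ⟨-k, hS, ?_⟩
    rw [mem_singleton_iff, ← hu, ← mul_assoc, ← zpow_add₀ hβ]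
    simp

private theorem symm_ATL (h1 : StCF1) (hg : StGLU) (hA : Atlas C β Γ nb F lab)
    (hη : ∀ c, IsEta (C c).P (η c)) (x v : ℂ) :
    Kern C β η (x + v) (-v) = Kern C β η x v := by
  have key : ∀ x v, Kern C β η x v ≠ 0 → Kern C β η (x + v) (-v) = Kern C β η x v := by
    intro x v hne
    obtain ⟨hx, ⟨c, a⟩, k, b, hi, _, hu, _⟩ := kern_ne_ATL h1 hg hA hη x v hne
    obtain ⟨_, h2⟩ := tr_ATL hg hA hη x c a b k hi v hu
    rw [h2, kern_eq_ATL hg hA hη x hx ⟨c, a⟩ k hi]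
    unfold Rw
    rw [zero_sub, crow_val_ATL (hA.ok c) a b _ _ _ hu, crow_val_ATL (hA.ok c) b a _ _ _ (by
      rw [mul_neg, hu]; ring)]
    have h3 := (hA.ok c).symm (-k) (η c (β ^ (-k) * x - (C c).w a))
    exact congrFun (congrFun h3 a) b
  by_cases h : Kern C β η x v = 0
  · by_cases h' : Kern C β η (x + v) (-v) = 0
    · rw [h, h']
    · have := key (x + v) (-v) h'
      rw [add_neg_cancel_right, neg_neg] at this
      exact this.symm
  · exact key x v h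

private theorem idem_ATL (h1 : StCF1) (hg : StGLU) (hA : Atlas C β Γ nb F lab)
    (hη : ∀ c, IsEta (C c).P (η c)) (hβ : β ≠ 0) (Λ : Finset ℂ)
    (hΛ : ∀ x u, Kern C β η x u ≠ 0 → u ∈ Λ) (x v : ℂ) :
    ∑ u ∈ Λ, Kern C β η x u * Kern C β η (x + u) (v - u) = Kern C β η x v := by
  classical
  by_cases hx : x = 0
  · subst hx
    rw [kern_zero_ATL]
    refine Finset.sum_eq_zero fun u _ => ?_
    rw [kern_zero_ATL, zero_mul]
  obtain ⟨⟨c, a⟩, k, hi⟩ := (h1 (Ix C) (TT C) β nb hA.tiling).2.1 x hx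
  set z : Fin 3 → ℝ := η c (β ^ (-k) * x - (C c).w a) with hz
  have hzS : z ∈ Sx := (hη c).simplex _
  have hK : ∀ u, Kern C β η x u = crow (C c) a z (-k) (β ^ (-k) * u) := by
    intro u
    rw [kern_eq_ATL hg hA hη x hx ⟨c, a⟩ k hi]
    unfold Rw
    rw [zero_sub]
  let ub : Fin (C c).n → ℂ := fun b => β ^ k * ((C c).w b - (C c).w a)
  have hub : ∀ b, β ^ (-k) * ub b = (C c).w b - (C c).w a := by
    intro b
    show β ^ (-k) * (β ^ k * _) = _
    rw [← mul_assoc, ← zpow_add₀ hβ]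
    simp
  have hubi : Function.Injective ub := by
    intro b b' h
    apply (hA.ok c).inj
    have h2 : β ^ (-k) * ub b = β ^ (-k) * ub b' := by rw [h]
    rw [hub, hub] at h2
    exact sub_left_injective h2
  have hKb : ∀ b, Kern C β η x (ub b) = (C c).M (-k) z a b := by
    intro b
    rw [hK]
    exact crow_val_ATL (hA.ok c) a b _ _ _ (hub b)
  have hsum : ∑ u ∈ Λ, Kern C β η x u * Kern C β η (x + u) (v - u) =
      ∑ b, Kern C β η x (ub b) * Kern C β η (x + ub b) (v - ub b) := by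
    rw [← Finset.sum_image (f := fun u => Kern C β η x u * Kern C β η (x + u) (v - u))
      (fun b _ b' _ h => hubi h)]
    rw [← finsum_eq_sum_of_support_subset, ← finsum_eq_sum_of_support_subset]
    · intro u hu
      rw [Function.mem_support] at hu
      have h2 : Kern C β η x u ≠ 0 := left_ne_zero_of_mul hu
      rw [hK] at h2
      obtain ⟨b, hb, _⟩ := crow_ne_ATL _ _ _ _ h2
      rw [Finset.coe_image]
      refine ⟨b, by simp, ?_⟩
      rw [← hub b] at hb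
      exact (mul_left_cancel₀ (zpow_ne_zero _ hβ) hb).symm
    · intro u hu
      rw [Function.mem_support] at hu
      exact hΛ x u (left_ne_zero_of_mul hu)
  rw [hsum, hK]
  have hterm : ∀ b, Kern C β η x (ub b) * Kern C β η (x + ub b) (v - ub b) =
      ∑ d, if β ^ (-k) * v = (C c).w d - (C c).w a then
        (C c).M (-k) z a b * (C c).M (-k) z b d else 0 := by
    intro b
    obtain ⟨_, h2⟩ := tr_ATL hg hA hη x c a b k hi (ub b) (hub b)
    rw [h2, hKb, ← hz]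
    unfold crow
    rw [Finset.mul_sum]
    refine Finset.sum_congr rfl fun d _ => ?_
    have h3 : β ^ (-k) * (v - ub b) = (C c).w d - (C c).w b ↔
        β ^ (-k) * v = (C c).w d - (C c).w a := by
      rw [mul_sub, hub]
      constructor
      · intro h; linear_combination h
      · intro h; linear_combination h
    by_cases h4 : β ^ (-k) * v = (C c).w d - (C c).w a
    · rw [if_pos h4, if_pos (h3.2 h4)]
    · rw [if_neg h4, if_neg (fun h => h4 (h3.1 h)), mul_zero]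
  rw [Finset.sum_congr rfl fun b _ => hterm b, Finset.sum_comm]
  unfold crow
  refine Finset.sum_congr rfl fun d _ => ?_
  by_cases h4 : β ^ (-k) * v = (C c).w d - (C c).w a
  · simp only [if_pos h4]
    have h5 := (hA.ok c).idem (-k) z hzS
    have h6 := congrFun (congrFun h5 a) d
    rw [Matrix.mul_apply] at h6
    exact h6
  · simp only [if_neg h4]
    exact Finset.sum_const_zero

private theorem tele_ATL (h1 : StCF1) (hg : StGLU) (hA : Atlas C β Γ nb F lab)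
    (hη : ∀ c, IsEta (C c).P (η c)) (hβ : β ≠ 0) (x v : ℂ) (hx : x ≠ 0) :
    ∑ᶠ j : ℤ, Kern C β η (β ^ (-j) * x) (β ^ (-j) * v) = if v = 0 then 1 else 0 := by
  classical
  obtain ⟨⟨c, a⟩, k, hi⟩ := (h1 (Ix C) (TT C) β nb hA.tiling).2.1 x hx
  set z : Fin 3 → ℝ := η c (β ^ (-k) * x - (C c).w a) with hz
  have hzS : z ∈ Sx := (hη c).simplex _
  have e1 : ∀ j : ℤ, Kern C β η (β ^ (-j) * x) (β ^ (-j) * v) =
      crow (C c) a z (j - k) (β ^ (-k) * v) := by
    intro j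
    rw [kern_lab_ATL hg hA hη hβ x hx ⟨c, a⟩ k hi]
    rfl
  have e2 : ∑ᶠ j : ℤ, Kern C β η (β ^ (-j) * x) (β ^ (-j) * v) =
      ∑ᶠ l : ℤ, crow (C c) a z l (β ^ (-k) * v) := by
    rw [← finsum_comp_equiv (Equiv.addRight k)]
    refine finsum_congr fun l => ?_
    rw [e1]
    simp
  rw [e2, finsum_eq_sum_of_support_subset (s := (C c).S)]
  · unfold crow
    rw [Finset.sum_comm]
    have e3 : ∀ b, ∑ l ∈ (C c).S, (if β ^ (-k) * v = (C c).w b - (C c).w a then
        (C c).M l z a b else 0) = if β ^ (-k) * v = (C c).w b - (C c).w a then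
          (if a = b then (1 : ℝ) else 0) else 0 := by
      intro b
      by_cases h4 : β ^ (-k) * v = (C c).w b - (C c).w a
      · simp only [if_pos h4]
        have h5 := congrFun (congrFun ((hA.ok c).sum z hzS) a) b
        rw [Matrix.sum_apply, Matrix.one_apply] at h5
        exact h5
      · simp only [if_neg h4]
        exact Finset.sum_const_zero
    rw [Finset.sum_congr rfl fun b _ => e3 b, Finset.sum_eq_single a]
    · rw [if_pos rfl, sub_self]
      by_cases hv : v = 0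
      · rw [if_pos hv, if_pos (by rw [hv, mul_zero])]
      · rw [if_neg hv, if_neg (mul_ne_zero (zpow_ne_zero _ hβ) hv)]
    · intro b _ hb
      rw [if_neg hb.symm]
      split_ifs <;> rfl
    · intro h
      exact absurd (Finset.mem_univ a) h
  · intro l hl
    rw [Function.mem_support] at hl
    obtain ⟨b, _, hb⟩ := crow_ne_ATL _ _ _ _ hl
    by_contra hS
    apply hb
    rw [(hA.ok c).zero l hS]
    rfl

private theorem rw_smooth_ATL (hA : Atlas C β Γ nb F lab) (hη : ∀ c, IsEta (C c).P (η c))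
    (i : Ix C) (k : ℤ) (v x₀ : ℂ) : ContDiffAt ℝ ∞ (fun x => Rw C β η i k x 0 v) x₀ := by
  unfold Rw crow
  refine ContDiffAt.sum fun b _ => ?_
  by_cases h : β ^ (-k) * v = (C i.1).w b - (C i.1).w i.2
  · simp only [if_pos h]
    have h1 : ContDiffAt ℝ ∞ (fun x : ℂ => η i.1 (β ^ (-k) * x - (C i.1).w i.2)) x₀ := by
      have h2 : ContDiff ℝ ∞ (fun x : ℂ => β ^ (-k) * x - (C i.1).w i.2) :=
        (contDiff_const.mul contDiff_id).sub contDiff_const
      exact ((hη i.1).smooth.comp h2).contDiffAt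
    have h3 := (hA.ok i.1).smooth (0 - k) i.2 b (η i.1 (β ^ (-k) * x₀ - (C i.1).w i.2))
      ((hη i.1).simplex _)
    exact h3.comp x₀ h1
  · simp only [if_neg h]
    exact contDiffAt_const

private theorem smooth_ATL (h1 : StCF1) (h3 : StCF3) (hg : StGLU) (hA : Atlas C β Γ nb F lab)
    (hη : ∀ c, IsEta (C c).P (η c)) (v x₀ : ℂ) (hx₀ : x₀ ≠ 0) :
    ContDiffAt ℝ ∞ (fun x => Kern C β η x v) x₀ := by
  obtain ⟨c1, c2, _⟩ := h1 (Ix C) (TT C) β nb hA.tiling
  obtain ⟨i, k, hi⟩ := c2 x₀ hx₀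
  refine (rw_smooth_ATL hA hη i k v x₀).congr_of_eventuallyEq ?_
  have f1 := c1 x₀ hx₀
  have f2 : ∀ᶠ x in 𝓝 x₀, x ≠ 0 := isOpen_ne.mem_nhds hx₀
  have f3 : ∀ᶠ x in 𝓝 x₀, ∀ a ∈ {a : Ix C × ℤ | β ^ (-a.2) * x₀ ∈ Cls (TT C a.1)},
      Rw C β η a.1 a.2 x = Rw C β η i k x := by
    rw [Filter.eventually_all_finite (h3 (Ix C) (TT C) β nb hA.tiling x₀ hx₀)]
    intro a ha
    exact hg κ C β Γ nb F lab η hA hη x₀ hx₀ _ _ _ _ ha hi
  filter_upwards [f1, f2, f3] with x g1 g2 g3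
  obtain ⟨i', k', hi'⟩ := c2 x g2
  show Kern C β η x v = Rw C β η i k x 0 v
  rw [kern_eq_ATL hg hA hη x g2 i' k' hi', g3 (i', k') (g1 i' k' hi')]

end

theorem m_ATL (hT : StTG) (h1 : StCF1) (h3 : StCF3) (hg : StGLU) : StATL := by
  intro κ _ C β Γ nb F lab η hA hη
  have hβ : β ≠ 0 := by
    rintro rfl
    have := hA.tiling.one_lt
    rw [norm_zero] at this
    linarith
  refine ⟨?_, fun x hx i k hi u => kern_eq_ATL hg hA hη x hx i k hi u⟩
  obtain ⟨ε, R, hε, hcomp⟩ := compact_ATL hT hA hβ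
  have hfin := finite_ATL h1 hg hA hη hβ
  have hbd : ∀ x v, Kern C β η x v ≠ 0 → ε < ‖x‖ ∧ ‖x‖ < R := by
    intro x v hne
    obtain ⟨_, i, k, b, hi, hS, _, _⟩ := kern_ne_ATL h1 hg hA hη x v hne
    exact hcomp i k hS x hi
  have hnear : ∀ x v, ‖x‖ ≤ ε → Kern C β η x v = 0 := by
    intro x v hx
    by_contra hne
    exact absurd (hbd x v hne).1 (not_lt.2 hx)
  refine ⟨hfin.toFinset, ε, R, ?_, ?_, ?_, hε, hnear, ?_, ?_, ?_, ?_⟩
  · intro v
    rw [contDiff_iff_contDiffAt]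
    intro x₀
    by_cases hx₀ : x₀ = 0
    · subst hx₀
      have : (fun x => Kern C β η x v) =ᶠ[𝓝 0] fun _ => (0 : ℝ) := by
        filter_upwards [Metric.ball_mem_nhds (0 : ℂ) hε] with x hx
        rw [mem_ball_zero_iff] at hx
        exact hnear x v hx.le
      exact contDiffAt_const.congr_of_eventuallyEq this
    · exact smooth_ATL h1 h3 hg hA hη v x₀ hx₀
  · intro x v hne
    rw [Set.Finite.mem_toFinset]
    exact ⟨x, hne⟩
  · intro v hv
    rw [Set.Finite.mem_toFinset] at hv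
    obtain ⟨x, hne⟩ := hv
    obtain ⟨_, i, k, b, _, _, hu, hM⟩ := kern_ne_ATL h1 hg hA hη x v hne
    have h4 := (hA.ok i.1).loc (-k) _ ((hη i.1).simplex _) i.2 b hM
    rw [← hu] at h4
    have h5 := hA.lat (-k) k _ h4
    rw [neg_add_cancel, ← mul_assoc, ← zpow_add₀ hβ, add_neg_cancel, zpow_zero, one_mul] at h5
    exact h5
  · intro x v hx
    by_contra hne
    exact absurd (hbd x v hne).2 (not_lt.2 hx)
  · exact symm_ATL h1 hg hA hη
  · intro x v
    exact idem_ATL h1 hg hA hη hβ _ (fun x u hne => by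
      rw [Set.Finite.mem_toFinset]
      exact ⟨x, hne⟩) x v
  · exact tele_ATL h1 hg hA hη hβ

end Pool.Agent.Helper54.TRI
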