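import Pool.Agent.Helper54.TRI.St1

/-!
# MP_d629b1, project TRI, module CF1: local finiteness, cover, disjointness
-/

set_option autoImplicit false

open Set Filter Topology

noncomputable section

namespace Pool.Agent.Helper54.TRI

private theorem opn_sub_CF1 (P : Fin 3 → ℂ) : Opn P ⊆ Cls P := fun _ hx s => (hx s).le

private theorem loc_CF1 (K : Set ℂ) (hK : IsCompact K) (h0 : (0 : ℂ) ∉ K) (β : ℂ) (hβ : 1 < ‖β‖)
    (x₀ : ℂ) (hx₀ : x₀ ≠ 0) :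
    ∀ᶠ x in 𝓝 x₀, ∀ k : ℤ, β ^ (-k) * x ∈ K → β ^ (-k) * x₀ ∈ K := by
  have hβ0 : (0 : ℝ) < ‖β‖ := lt_trans one_pos hβ
  obtain ⟨M, hM⟩ := hK.isBounded.exists_norm_le
  obtain ⟨m, hm0, hm⟩ : ∃ m > 0, ∀ y ∈ K, m ≤ ‖y‖ := by
    have h1 : IsOpen Kᶜ := hK.isClosed.isOpen_compl
    obtain ⟨m, hm0, hm⟩ := Metric.isOpen_iff.1 h1 0 h0
    refine ⟨m, hm0, ?_⟩
    intro y hy
    by_contra hlt
    rw [not_le] at hlt
    have h2 : y ∈ Metric.ball (0 : ℂ) m := by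
      rw [Metric.mem_ball, dist_zero_right]
      exact hlt
    exact hm h2 hy
  have hr0 : 0 < ‖x₀‖ / 2 := by
    have := norm_pos_iff.2 hx₀
    linarith
  set r := ‖x₀‖ / 2 with hr
  obtain ⟨N, hN⟩ := pow_unbounded_of_one_lt (max (M / r) (3 * r / m)) hβ
  have hN1 : M / r < ‖β‖ ^ N := lt_of_le_of_lt (le_max_left _ _) hN
  have hN2 : 3 * r / m < ‖β‖ ^ N := lt_of_le_of_lt (le_max_right _ _) hN
  have hball : ∀ᶠ x in 𝓝 x₀, x ∈ Metric.ball x₀ r := Metric.ball_mem_nhds x₀ hr0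
  have hfin : ∀ᶠ x in 𝓝 x₀, ∀ k ∈ Finset.Icc (-(N : ℤ)) N, β ^ (-k) * x ∈ K →
      β ^ (-k) * x₀ ∈ K := by
    rw [Filter.eventually_all_finset]
    intro k _
    by_cases h1 : β ^ (-k) * x₀ ∈ K
    · exact Filter.Eventually.of_forall fun _ _ => h1
    · have h2 : Tendsto (fun x : ℂ => β ^ (-k) * x) (𝓝 x₀) (𝓝 (β ^ (-k) * x₀)) :=
        (continuous_const.mul continuous_id).tendsto x₀
      have h3 : ∀ᶠ y in 𝓝 (β ^ (-k) * x₀), y ∈ Kᶜ := hK.isClosed.isOpen_compl.mem_nhds h1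
      filter_upwards [h2.eventually h3] with x hx hx'
      exact absurd hx' hx
  filter_upwards [hball, hfin] with x hx hf k hk
  apply hf k _ hk
  rw [Metric.mem_ball, dist_eq_norm] at hx
  have h1 : ‖x‖ < 3 * r := by
    calc ‖x‖ = ‖(x - x₀) + x₀‖ := by rw [sub_add_cancel]
      _ ≤ ‖x - x₀‖ + ‖x₀‖ := norm_add_le _ _
      _ < r + ‖x₀‖ := by linarith
      _ = 3 * r := by rw [hr]; ring
  have h2 : r < ‖x‖ := by
    have h3 : ‖x₀‖ ≤ ‖x - x₀‖ + ‖x‖ := by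
      calc ‖x₀‖ = ‖x - (x - x₀)‖ := by rw [sub_sub_cancel]
        _ ≤ ‖x‖ + ‖x - x₀‖ := norm_sub_le _ _
        _ = ‖x - x₀‖ + ‖x‖ := add_comm _ _
    have h4 : ‖x₀‖ = 2 * r := by rw [hr]; ring
    linarith
  have hnorm : ‖β ^ (-k) * x‖ = ‖β‖ ^ (-k) * ‖x‖ := by rw [norm_mul, norm_zpow]
  have hle := hM _ hk
  have hge := hm _ hk
  rw [hnorm] at hle hge
  rw [Finset.mem_Icc]
  constructor
  · by_contra hlt
    rw [not_le] at hlt
    have h5 : (N : ℤ) ≤ -k := by omega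
    have h6 : ‖β‖ ^ N ≤ ‖β‖ ^ (-k) := by
      rw [← zpow_natCast]
      exact zpow_le_zpow_right₀ hβ.le h5
    have h7 : M < ‖β‖ ^ N * r := by
      rw [div_lt_iff₀ hr0] at hN1
      exact hN1
    have h8 : ‖β‖ ^ N * r ≤ ‖β‖ ^ (-k) * ‖x‖ :=
      mul_le_mul h6 h2.le hr0.le (zpow_nonneg hβ0.le _)
    linarith
  · by_contra hlt
    rw [not_le] at hlt
    have h5 : (N : ℤ) ≤ k := by omega
    have h6 : ‖β‖ ^ N ≤ ‖β‖ ^ k := by
      rw [← zpow_natCast]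
      exact zpow_le_zpow_right₀ hβ.le h5
    have hk0 : 0 < ‖β‖ ^ k := zpow_pos hβ0 k
    have h7 : 3 * r < ‖β‖ ^ k * m := by
      rw [div_lt_iff₀ hm0] at hN2
      have := mul_le_mul_of_nonneg_right h6 hm0.le
      linarith
    rw [zpow_neg] at hge
    have h8 : ‖β‖ ^ k * m ≤ ‖x‖ := by
      have h9 := mul_le_mul_of_nonneg_left hge hk0.le
      rw [← mul_assoc, mul_inv_cancel₀ hk0.ne', one_mul] at h9
      exact h9
    linarith

theorem m_CF1 (hT : StTG) : StCF1 := by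
  intro ι _ T β nb hTil
  have hβ0 : β ≠ 0 := by
    intro h
    have := hTil.one_lt
    rw [h, norm_zero] at this
    linarith
  have h1 : ∀ x₀ : ℂ, x₀ ≠ 0 → ∀ᶠ x in 𝓝 x₀, ∀ i (k : ℤ), β ^ (-k) * x ∈ Cls (T i) →
      β ^ (-k) * x₀ ∈ Cls (T i) := by
    intro x₀ hx₀
    rw [Filter.eventually_all]
    intro i
    exact loc_CF1 (Cls (T i)) (hT (T i) (hTil.pos i)).2.2.1 (hTil.zero i) β hTil.one_lt x₀ hx₀
  refine ⟨h1, ?_, ?_⟩
  · intro x hx
    obtain ⟨y, hy1, hy2⟩ := hTil.gen.inter_nhds_nonempty (h1 x hx)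
    obtain ⟨a, ha, -⟩ := hy1
    exact ⟨a.1, a.2, hy2 a.1 a.2 (opn_sub_CF1 _ ha)⟩
  · intro x i i' k k' hx hx'
    obtain ⟨-, -, -, hop, -, -, -⟩ := hT (T i) (hTil.pos i)
    obtain ⟨-, -, -, hop', -, hcl', -⟩ := hT (T i') (hTil.pos i')
    have hc : ∀ j : ℤ, Continuous (fun y : ℂ => β ^ j * y) := fun j =>
      continuous_const.mul continuous_id
    have hO1 : IsOpen {y : ℂ | β ^ (-k) * y ∈ Opn (T i)} := hop.preimage (hc (-k))
    have hO2 : IsOpen {y : ℂ | β ^ (-k') * y ∈ Opn (T i')} := hop'.preimage (hc (-k'))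
    have hinv : ∀ y : ℂ, β ^ (-k') * (β ^ k' * y) = y := by
      intro y
      rw [← mul_assoc, ← zpow_add₀ hβ0, neg_add_cancel, zpow_zero, one_mul]
    have hinv' : β ^ k' * (β ^ (-k') * x) = x := by
      rw [← mul_assoc, ← zpow_add₀ hβ0, add_neg_cancel, zpow_zero, one_mul]
    have hxc : x ∈ closure {y : ℂ | β ^ (-k') * y ∈ Opn (T i')} := by
      rw [hcl'] at hx'
      have h2 := map_mem_closure (hc k') hx' (t := {y : ℂ | β ^ (-k') * y ∈ Opn (T i')}) (by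
        intro y hy
        show β ^ (-k') * (β ^ k' * y) ∈ Opn (T i')
        rw [hinv]
        exact hy)
      rw [hinv'] at h2
      exact h2
    have hne := mem_closure_iff.1 hxc _ hO1 hx
    obtain ⟨y, hy, hyg⟩ := hTil.gen.inter_open_nonempty _ (hO1.inter hO2) hne
    obtain ⟨a, -, hu⟩ := hyg
    have e1 := hu (i, k) hy.1
    have e2 := hu (i', k') hy.2
    have e3 : (i, k) = (i', k') := e1.trans e2.symm
    exact ⟨congrArg Prod.fst e3, congrArg Prod.snd e3⟩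

end Pool.Agent.Helper54.TRI
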