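import Pool.Agent.Helper54.TRI.St1

/-! # Project TRI: module CF2 (points of sides and vertices) -/

set_option autoImplicit false

open Set Filter Topology

noncomputable section

namespace Pool.Agent.Helper54.TRI

private theorem ht_swap_CF2 (p q x : ℂ) : ht q p x = - ht p q x := by
  unfold ht
  by_cases h : q = p
  · subst h; simp
  · have h1 : q - p ≠ 0 := sub_ne_zero.2 h
    have h2 : p - q ≠ 0 := sub_ne_zero.2 (Ne.symm h)
    have : (x - q) / (p - q) = 1 - (x - p) / (q - p) := by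
      field_simp
      ring
    rw [this]
    simp

private theorem ht_mul_CF2 (b p q x : ℂ) (hb : b ≠ 0) : ht (b * p) (b * q) (b * x) = ht p q x := by
  unfold ht
  rw [← mul_sub, ← mul_sub, mul_div_mul_left _ _ hb]

private theorem seg_mul_CF2 (b p q x : ℂ) (h : x ∈ openSegment ℝ p q) :
    b * x ∈ openSegment ℝ (b * p) (b * q) := by
  obtain ⟨u, v, hu, hv, huv, rfl⟩ := h
  refine ⟨u, v, hu, hv, huv, ?_⟩
  simp only [Complex.real_smul]
  ring

private theorem nbr_CF2 {ι : Type} [Fintype ι] {T : ι → Fin 3 → ℂ} {β : ℂ}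
    {nb : ι → Fin 3 → ι × Fin 3 × ℤ} (h : Tiling ι T β nb) (x₀ : ℂ) (i : ι) (s : Fin 3) (k : ℤ)
    (hx : β ^ (-k) * x₀ ∈ openSegment ℝ (T i s) (T i (s + 1))) :
    β ^ (-(k + (nb i s).2.2)) * x₀ ∈
      openSegment ℝ (T (nb i s).1 (nb i s).2.1) (T (nb i s).1 ((nb i s).2.1 + 1)) := by
  have hβ : β ≠ 0 := by
    intro h0
    have := h.one_lt
    rw [h0] at this
    simp at this
    linarith
  have h1 := seg_mul_CF2 (β ^ (-(nb i s).2.2)) _ _ _ hx
  have e1 : β ^ (-(nb i s).2.2) * T i s = T (nb i s).1 ((nb i s).2.1 + 1) := by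
    conv_lhs => rw [h.nb1 i s]
    rw [← mul_assoc, ← zpow_add₀ hβ]
    simp
  have e2 : β ^ (-(nb i s).2.2) * T i (s + 1) = T (nb i s).1 (nb i s).2.1 := by
    conv_lhs => rw [h.nb2 i s]
    rw [← mul_assoc, ← zpow_add₀ hβ]
    simp
  have e3 : β ^ (-(nb i s).2.2) * (β ^ (-k) * x₀) = β ^ (-(k + (nb i s).2.2)) * x₀ := by
    rw [← mul_assoc, ← zpow_add₀ hβ]
    congr 2
    ring
  rw [e1, e2, e3, openSegment_symm] at h1
  exact h1

theorem m_CF2 (hT : StTG) (h1 : StCF1) : StCF2 := by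
  intro ι _ T β nb h
  have hβ : β ≠ 0 := by
    intro h0
    have := h.one_lt
    rw [h0] at this
    simp at this
    linarith
  have part1 : ∀ (x₀ : ℂ) i s (k : ℤ), β ^ (-k) * x₀ ∈ openSegment ℝ (T i s) (T i (s + 1)) →
    ∀ i' (k' : ℤ), β ^ (-k') * x₀ ∈ Cls (T i') →
      (i' = i ∧ k' = k) ∨ (i' = (nb i s).1 ∧ k' = k + (nb i s).2.2) := by
    intro x₀ i s k hx i' k' hx'
    have hn := nbr_CF2 h x₀ i s k hx
    obtain ⟨-, -, -, -, -, -, -, -, -, hA⟩ := hT (T i) (h.pos i)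
    obtain ⟨-, -, -, hA4⟩ := hA s _ hx
    obtain ⟨-, -, -, -, -, -, -, -, -, hB⟩ := hT (T (nb i s).1) (h.pos _)
    obtain ⟨-, -, -, hB4⟩ := hB _ _ hn
    have c1 : Tendsto (fun x : ℂ => β ^ (-k) * x) (𝓝 x₀) (𝓝 (β ^ (-k) * x₀)) :=
      (continuous_const.mul continuous_id).tendsto x₀
    have c2 : Tendsto (fun x : ℂ => β ^ (-(k + (nb i s).2.2)) * x) (𝓝 x₀)
        (𝓝 (β ^ (-(k + (nb i s).2.2)) * x₀)) :=
      (continuous_const.mul continuous_id).tendsto x₀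
    have hW : ∀ᶠ x in 𝓝 x₀, β ^ (-k) * x ∈ Cls (T i) ∨
        β ^ (-(k + (nb i s).2.2)) * x ∈ Cls (T (nb i s).1) := by
      filter_upwards [c1.eventually hA4, c2.eventually hB4] with x hxa hxb
      by_cases hs : 0 ≤ ht (T i s) (T i (s + 1)) (β ^ (-k) * x)
      · exact Or.inl (hxa hs)
      · right
        apply hxb
        have e : ht (T (nb i s).1 (nb i s).2.1) (T (nb i s).1 ((nb i s).2.1 + 1))
            (β ^ (-(k + (nb i s).2.2)) * x) = - ht (T i s) (T i (s + 1)) (β ^ (-k) * x) := by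
          rw [← ht_mul_CF2 (β ^ (nb i s).2.2) _ _ _ (zpow_ne_zero _ hβ), ← h.nb1 i s, ← h.nb2 i s,
            ht_swap_CF2]
          congr 2
          rw [← mul_assoc, ← zpow_add₀ hβ]
          congr 2
          ring
        rw [e]
        linarith [not_le.1 hs]
    obtain ⟨-, -, -, -, -, hcl, -⟩ := hT (T i') (h.pos i')
    rw [hcl] at hx'
    have c3 : Tendsto (fun z : ℂ => β ^ k' * z) (𝓝 (β ^ (-k') * x₀)) (𝓝 x₀) := by
      have hc : Continuous (fun z : ℂ => β ^ k' * z) := continuous_const.mul continuous_id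
      have h2 : Tendsto (fun z : ℂ => β ^ k' * z) (𝓝 (β ^ (-k') * x₀))
        (𝓝 (β ^ k' * (β ^ (-k') * x₀))) := hc.tendsto (β ^ (-k') * x₀)
      have e : β ^ k' * (β ^ (-k') * x₀) = x₀ := by
        rw [← mul_assoc, ← zpow_add₀ hβ]
        simp
      rw [e] at h2
      exact h2
    obtain ⟨z, hz1, hz2⟩ := (mem_closure_iff_frequently.1 hx').and_eventually
      (c3.eventually hW) |>.exists
    have e : β ^ (-k') * (β ^ k' * z) = z := by
      rw [← mul_assoc, ← zpow_add₀ hβ]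
      simp
    have hz1' : β ^ (-k') * (β ^ k' * z) ∈ Opn (T i') := by rw [e]; exact hz1
    obtain ⟨-, -, h13⟩ := h1 ι T β nb h
    rcases hz2 with hz2 | hz2
    · exact Or.inl (h13 _ _ _ _ _ hz1' hz2)
    · exact Or.inr (h13 _ _ _ _ _ hz1' hz2)
  refine ⟨part1, ?_⟩
  intro x₀ i s k hx i' k' hx'
  obtain ⟨-, -, -, -, -, -, -, -, htri, -⟩ := hT (T i') (h.pos i')
  rcases htri _ hx' with ho | ⟨s', hs'⟩ | hv
  · exfalso
    obtain ⟨-, -, -, -, -, -, hvc, -⟩ := hT (T i) (h.pos i)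
    obtain ⟨-, -, h13⟩ := h1 ι T β nb h
    have hc : β ^ (-k) * x₀ ∈ Cls (T i) := by rw [hx]; exact hvc s
    obtain ⟨rfl, rfl⟩ := h13 _ _ _ _ _ ho hc
    rw [hx] at ho
    have := ho s
    unfold ht at this
    simp at this
  · exfalso
    obtain ⟨-, -, -, -, -, -, hvc, -⟩ := hT (T i) (h.pos i)
    have hc : β ^ (-k) * x₀ ∈ Cls (T i) := by rw [hx]; exact hvc s
    rcases part1 x₀ i' s' k' hs' i k hc with ⟨rfl, rfl⟩ | ⟨rfl, rfl⟩
    · obtain ⟨-, -, -, -, -, -, -, -, -, hA⟩ := hT (T i) (h.pos i)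
      exact (hA s' _ hs').2.2.1 s hx
    · have hn := nbr_CF2 h x₀ i' s' k' hs'
      obtain ⟨-, -, -, -, -, -, -, -, -, hA⟩ := hT (T (nb i' s').1) (h.pos _)
      exact (hA _ _ hn).2.2.1 s hx
  · exact hv

end Pool.Agent.Helper54.TRI
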