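import Pool.Agent.Helper54.TRI.St4

set_option autoImplicit false

open Set Filter Topology

noncomputable section

namespace Pool.Agent.Helper54.TRI

private theorem cancel_sum_CH (G : Rf → Rf → ℝ) : ∀ (n : ℕ) (L : List (Rf × Rf)),
    (∀ e ∈ L, G e.2 e.1 = - G e.1 e.2) → Cert.cancel n L = true →
    (L.map (fun e => G e.1 e.2)).sum = 0 := by
  intro n
  induction n with
  | zero =>
    intro L _ h
    have h' : L = [] := by
      rw [Cert.cancel] at h
      exact List.isEmpty_iff.1 h
    rw [h', List.map_nil, List.sum_nil]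
  | succ n ih =>
    intro L hL h
    cases L with
    | nil => rw [List.map_nil, List.sum_nil]
    | cons e t =>
      rw [Cert.cancel] at h
      have h2 : t.contains (e.2, e.1) = true ∧ Cert.cancel n (t.erase (e.2, e.1)) = true := by
        rwa [Bool.and_eq_true] at h
      have h1 : (e.2, e.1) ∈ t := by
        have := h2.1
        rwa [List.contains_iff_mem] at this
      have hperm := List.perm_cons_erase h1
      have hs := (hperm.map (fun e : Rf × Rf => G e.1 e.2)).sum_eq
      have hi := ih (t.erase (e.2, e.1))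
        (fun e' he' => hL e' (List.mem_cons_of_mem _ (List.mem_of_mem_erase he'))) h2.2
      rw [List.map_cons, List.sum_cons, hs, List.map_cons, List.sum_cons, hi]
      show G e.1 e.2 + (G e.2 e.1 + 0) = 0
      rw [hL e List.mem_cons_self]
      ring

private theorem sum_flatMap_CH {A B : Type} (L : List A) (F : A → List B) (f : B → ℝ) :
    ((L.flatMap F).map f).sum = (L.map (fun x => ((F x).map f).sum)).sum := by
  induction L with
  | nil => simp
  | cons a L ih => rw [List.flatMap_cons, List.map_append, List.sum_append, ih, List.map_cons, List.sum_cons]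

private theorem sum_range_CH (n : ℕ) (k : ℕ → ℝ) : ((List.range n).map k).sum = ∑ a : Fin n, k a.val := by
  induction n with
  | zero => simp
  | succ n ih =>
    rw [List.range_succ, List.map_append, List.sum_append, ih, Fin.sum_univ_castSucc]
    simp

private theorem sum_list_CH {A : Type} (L : List A) (d : A) (h : A → ℝ) :
    (L.map h).sum = ∑ c : Fin L.length, h (L.getD c.val d) := by
  have : ∀ c : Fin L.length, h (L.getD c.val d) = h L[c.val] := fun c => by
    rw [List.getD_eq_getElem _ _ c.isLt]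
  rw [Finset.sum_congr rfl fun c _ => this c]
  exact (Fin.sum_univ_fun_getElem L h).symm

private theorem sides_CH (X : Cert) (α : ℂ) (t : Tr) (g : ℂ → ℂ → ℝ) :
    ((Cert.sides t).map (fun e => g (X.pt α e.1) (X.pt α e.2))).sum =
      ∑ s : Fin 3, g (X.ptr α t s) (X.ptr α t (s + 1)) := by
  rw [Fin.sum_univ_three]
  simp [Cert.sides, Cert.ptr, trv]
  ring

theorem m_CH (he : StEM) : StCH := by
  intro α hα X hC hG g h1 h2 h3
  have hα0 : α ≠ 0 := by
    rintro rfl
    have := hα.im
    simp at this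
  have hB := ((he.1 α hα).1)
  have hshr : ∀ (m : ℤ) (r : Rf), X.pt α (shr m r) = α⁻¹ ^ m * X.pt α r := by
    intro m r
    show emb α (Bp (r.2 + m) _) = α⁻¹ ^ m * emb α (Bp r.2 _)
    rw [hB, hB, zpow_add₀ (inv_ne_zero hα0)]
    show _ * emb α (X.V.getD r.1 ((0, 0, 0), 0)).1 = _
    ring
  have hshr1 : ∀ r : Rf, X.pt α (shr 1 r) = α⁻¹ * X.pt α r := fun r => by rw [hshr, zpow_one]
  -- triangles
  have hT : ∀ (c : Fin X.CS.length) (a : Fin (X.C α c).n) (s : Fin 3),
      TT (X.C α) ⟨c, a⟩ s = X.ptr α ((X.cl c.val).tr a.val) s := fun c a s => (hG c).2.2.1 a s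
  have hn : ∀ c : Fin X.CS.length, (X.C α c).n = (X.cl c.val).n := fun c => (hG c).1
  -- antisymmetry for the sides
  have hanti : ∀ (c : Fin X.CS.length) (a : ℕ), a < (X.cl c.val).n → ∀ s : Fin 3,
      g (X.ptr α ((X.cl c.val).tr a) (s + 1)) (X.ptr α ((X.cl c.val).tr a) s) =
        - g (X.ptr α ((X.cl c.val).tr a) s) (X.ptr α ((X.cl c.val).tr a) (s + 1)) := by
    intro c a ha s
    have := h1 ⟨c, ⟨a, by rw [hn c]; exact ha⟩⟩ s
    rw [hT, hT] at this
    exact this
  have hdarts : ∀ e ∈ X.darts, g (X.pt α e.2) (X.pt α e.1) = - g (X.pt α e.1) (X.pt α e.2) := by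
    intro e hmem
    rw [Cert.darts, List.mem_flatMap] at hmem
    obtain ⟨c, hc, hmem⟩ := hmem
    rw [List.mem_flatMap] at hmem
    obtain ⟨a, ha, hmem⟩ := hmem
    obtain ⟨i, hi, rfl⟩ := List.getElem_of_mem hc
    have hcl : X.cl i = X.CS[i] := List.getD_eq_getElem _ _ hi
    have ha' : a < (X.cl i).n := by rw [hcl]; exact List.mem_range.1 ha
    have h0 := hanti ⟨i, hi⟩ a ha' 0
    have h1' := hanti ⟨i, hi⟩ a ha' 1
    have h2' := hanti ⟨i, hi⟩ a ha' 2
    simp only at h0 h1' h2'
    rw [hcl] at h0 h1' h2'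
    simp only [Cert.sides, List.mem_cons, List.not_mem_nil, or_false] at hmem
    rcases hmem with rfl | rfl | rfl
    · exact h0
    · exact h1'
    · exact h2'
  -- the sum over the darts
  have hsum : (X.darts.map (fun e => g (X.pt α e.1) (X.pt α e.2))).sum =
      ∑ i : Ix (X.C α), ∑ s : Fin 3, g (TT (X.C α) i s) (TT (X.C α) i (s + 1)) := by
    rw [Cert.darts, sum_flatMap_CH, sum_list_CH X.CS (.P ((0, 0), (0, 0), (0, 0))), Fintype.sum_sigma]
    refine Finset.sum_congr rfl fun c _ => ?_
    rw [sum_flatMap_CH]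
    show ((List.range (X.cl c.val).n).map _).sum = _
    rw [← hn c, sum_range_CH]
    refine Finset.sum_congr rfl fun a _ => ?_
    show ((Cert.sides ((X.cl c.val).tr a.val)).map (fun e => g (X.pt α e.1) (X.pt α e.2))).sum = _
    rw [sides_CH]
    refine Finset.sum_congr rfl fun s _ => ?_
    rw [hT, hT]
  rw [← hsum]
  -- the cancellation
  have hcan := cancel_sum_CH (fun r r' => g (X.pt α r) (X.pt α r')) 1000
    (X.darts ++ Cert.cyc X.seam ++ (Cert.cyc X.seam).map fun e => (shr 1 e.2, shr 1 e.1)) ?_ hC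
  · rw [List.map_append, List.sum_append, List.map_append, List.sum_append] at hcan
    have e1 : ((((Cert.cyc X.seam).map (fun e => (X.pt α e.1, X.pt α e.2))).map
        (fun e => g (α⁻¹ * e.1) (α⁻¹ * e.2) - g e.1 e.2)).sum : ℝ) =
        - ((((Cert.cyc X.seam).map fun e => (shr 1 e.2, shr 1 e.1)).map
          (fun e => g (X.pt α e.1) (X.pt α e.2))).sum) -
        ((Cert.cyc X.seam).map (fun e => g (X.pt α e.1) (X.pt α e.2))).sum := by
      rw [List.map_map, List.map_map]
      have hanti3 : ∀ e ∈ Cert.cyc X.seam, g (α⁻¹ * X.pt α e.2) (α⁻¹ * X.pt α e.1) =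
          - g (α⁻¹ * X.pt α e.1) (α⁻¹ * X.pt α e.2) := fun e hmem =>
        h3 (X.pt α e.1, X.pt α e.2) (List.mem_map.2 ⟨e, hmem, rfl⟩)
      generalize Cert.cyc X.seam = L at hanti3
      induction L with
      | nil => simp
      | cons e L ih =>
        have ih' := ih (fun e' he' => hanti3 e' (List.mem_cons_of_mem _ he'))
        have hh := hanti3 e List.mem_cons_self
        simp only [List.map_cons, List.sum_cons, Function.comp_apply] at ih' ⊢
        rw [ih', hshr1, hshr1, hh]
        ring
    rw [e1]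
    linarith
  · intro e hmem
    rw [List.mem_append, List.mem_append] at hmem
    rcases hmem with (hmem | hmem) | hmem
    · exact hdarts e hmem
    · exact h2 (X.pt α e.1, X.pt α e.2) (List.mem_map.2 ⟨e, hmem, rfl⟩)
    · obtain ⟨e', he', rfl⟩ := List.mem_map.1 hmem
      have := h3 (X.pt α e'.1, X.pt α e'.2) (List.mem_map.2 ⟨e', he', rfl⟩)
      show g (X.pt α (shr 1 e'.1)) (X.pt α (shr 1 e'.2)) = - g (X.pt α (shr 1 e'.2)) (X.pt α (shr 1 e'.1))
      rw [hshr1, hshr1]
      simp only at this
      linarith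

end Pool.Agent.Helper54.TRI
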