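import Pool.Agent.Helper54.TRI.St1

/-!
# Project TRI: module DEG (degree one)
-/

set_option autoImplicit false

open Set Filter Topology

noncomputable section

namespace Pool.Agent.Helper54.TRI

/-- the angle under which the segment `p q` is seen from `y` -/
def gg_DEG (y p q : ℂ) : ℝ := Complex.arg ((q - y) / (p - y))

theorem im_DEG {p q y : ℂ} (h : ht p q y ≠ 0) : ((q - y) / (p - y)).im ≠ 0 := by
  unfold ht at h
  have hqp : q - p ≠ 0 := by
    intro h0
    rw [h0, div_zero] at h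
    exact h rfl
  have hyp : y - p ≠ 0 := by
    intro h0
    rw [h0, zero_div] at h
    exact h rfl
  obtain ⟨r, hr⟩ : ∃ r, r = (y - p) / (q - p) := ⟨_, rfl⟩
  rw [← hr] at h
  have hr0 : r ≠ 0 := by
    rw [hr]
    exact div_ne_zero hyp hqp
  have e1 : (q - y) / (p - y) = 1 - r⁻¹ := by
    have hpy : p - y ≠ 0 := by
      intro h0
      apply hyp
      linear_combination -h0
    rw [hr, inv_div]
    field_simp
    ring
  rw [e1, Complex.sub_im, Complex.one_im, Complex.inv_im]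
  have h2 : Complex.normSq r ≠ 0 := by
    rwa [Ne, Complex.normSq_eq_zero]
  intro h3
  apply h
  have h4 : r.im / Complex.normSq r = 0 := by
    rw [neg_div] at h3
    linarith
  rcases div_eq_zero_iff.1 h4 with h5 | h5
  · exact h5
  · exact absurd h5 h2

theorem anti_DEG {p q y : ℂ} (h : ht p q y ≠ 0) : gg_DEG y q p = - gg_DEG y p q := by
  unfold gg_DEG
  have e1 : (p - y) / (q - y) = ((q - y) / (p - y))⁻¹ := by rw [inv_div]
  rw [e1, Complex.arg_inv, if_neg]
  intro h1
  exact im_DEG h (Complex.arg_eq_pi_iff.1 h1).2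

theorem scale_DEG {β : ℂ} (hβ : β ≠ 0) (y p q : ℂ) :
    gg_DEG y (β * p) (β * q) = gg_DEG (β⁻¹ * y) p q := by
  unfold gg_DEG
  congr 1
  have e1 : β * q - y = β * (q - β⁻¹ * y) := by
    field_simp
  have e2 : β * p - y = β * (p - β⁻¹ * y) := by
    field_simp
  rw [e1, e2, mul_div_mul_left _ _ hβ]

theorem lim0_DEG {p q : ℂ} (hp : p ≠ 0) (hs : q / p ∈ Complex.slitPlane) {f : ℕ → ℂ}
    (hf : Tendsto f atTop (𝓝 0)) :
    Tendsto (fun n => gg_DEG (f n) p q) atTop (𝓝 (Complex.arg (q / p))) := by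
  have h1 : Tendsto (fun n => (q - f n) / (p - f n)) atTop (𝓝 ((q - 0) / (p - 0))) :=
    (tendsto_const_nhds.sub hf).div (tendsto_const_nhds.sub hf) (by rwa [sub_zero])
  rw [sub_zero, sub_zero] at h1
  exact (Complex.continuousAt_arg hs).tendsto.comp h1

theorem liminf_DEG (p q : ℂ) {f : ℕ → ℂ} (hf0 : ∀ n, f n ≠ 0) (hf : Tendsto f atTop (𝓝 0)) :
    Tendsto (fun n => gg_DEG (f n)⁻¹ p q) atTop (𝓝 0) := by
  have h1 : Tendsto (fun n => (q * f n - 1) / (p * f n - 1)) atTop
      (𝓝 ((q * 0 - 1) / (p * 0 - 1))) :=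
    ((hf.const_mul q).sub tendsto_const_nhds).div ((hf.const_mul p).sub tendsto_const_nhds)
      (by norm_num)
  have e0 : (q * 0 - 1) / (p * 0 - 1) = (1 : ℂ) := by norm_num
  rw [e0] at h1
  have h2 := (Complex.continuousAt_arg Complex.one_mem_slitPlane).tendsto.comp h1
  rw [Complex.arg_one] at h2
  refine h2.congr fun n => ?_
  unfold gg_DEG
  show Complex.arg ((q * f n - 1) / (p * f n - 1)) = _
  congr 1
  have e1 : q - (f n)⁻¹ = (f n)⁻¹ * (q * f n - 1) := by
    have := hf0 n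
    field_simp
  have e2 : p - (f n)⁻¹ = (f n)⁻¹ * (p * f n - 1) := by
    have := hf0 n
    field_simp
  rw [e1, e2, mul_div_mul_left _ _ (inv_ne_zero (hf0 n))]

theorem m_DEG (hA : StARG) : StDEG := by
  intro ι _ T β c hβ hpos hch hc0 hcs x hx hgT hgc
  classical
  have hβ0 : β ≠ 0 := by
    rintro rfl
    rw [norm_zero] at hβ
    linarith
  -- the function `u`
  obtain ⟨u, hu⟩ : ∃ u : ℤ → ℝ, u = fun k =>
    (c.map fun e => gg_DEG (β ^ (-k) * x) e.1 e.2).sum := ⟨_, rfl⟩
  have hstep : ∀ k : ℤ, ∑ i, (if β ^ (-k) * x ∈ Opn (T i) then 2 * Real.pi else 0) =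
      u (k + 1) - u k := by
    intro k
    have h1 := hch (gg_DEG (β ^ (-k) * x)) (fun i s => anti_DEG (hgT (-k) i s))
      (fun e he => anti_DEG (hgc (-k) e he)) (fun e he => by
        rw [scale_DEG hβ0, scale_DEG hβ0]
        apply anti_DEG
        have e1 : β⁻¹ * (β ^ (-k) * x) = β ^ (-k - 1) * x := by
          rw [← mul_assoc, zpow_sub_one₀ hβ0]
          ring
        rw [e1]
        exact hgc _ e he)
    have h2 : ∀ i, ∑ s : Fin 3, gg_DEG (β ^ (-k) * x) (T i s) (T i (s + 1)) =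
        if β ^ (-k) * x ∈ Opn (T i) then 2 * Real.pi else 0 := by
      intro i
      have h3 := hA (T i) (hpos i) (β ^ (-k) * x) (fun s => hgT (-k) i s)
      split_ifs with h4
      · exact h3.1 h4
      · exact h3.2 h4
    simp_rw [h2] at h1
    rw [h1, hu]
    simp only
    have e2 : β⁻¹ * (β ^ (-k) * x) = β ^ (-(k + 1)) * x := by
      rw [← mul_assoc, neg_add, ← sub_eq_add_neg, zpow_sub_one₀ hβ0]
      ring
    have e3 : ∀ l : List (ℂ × ℂ), (l.map fun e => gg_DEG (β ^ (-k) * x) (β * e.1) (β * e.2) -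
        gg_DEG (β ^ (-k) * x) e.1 e.2).sum =
        (l.map fun e => gg_DEG (β ^ (-(k + 1)) * x) e.1 e.2).sum -
          (l.map fun e => gg_DEG (β ^ (-k) * x) e.1 e.2).sum := by
      intro l
      induction l with
      | nil => simp
      | cons a l ih =>
        rw [List.map_cons, List.sum_cons, ih, List.map_cons, List.sum_cons, List.map_cons,
          List.sum_cons, scale_DEG hβ0, e2]
        ring
    exact e3 c
  -- counting
  obtain ⟨S, hS⟩ : ∃ S : ℕ → Finset (ι × ℕ), S = fun K =>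
    (Finset.univ ×ˢ Finset.range (2 * K)).filter
      (fun a => β ^ (-((a.2 : ℤ) - K)) * x ∈ Opn (T a.1)) := ⟨_, rfl⟩
  have hcard : ∀ K : ℕ, ((S K).card : ℝ) * (2 * Real.pi) = u K - u (-K) := by
    intro K
    have h1 : ((S K).card : ℝ) * (2 * Real.pi) = ∑ a ∈ Finset.univ ×ˢ Finset.range (2 * K),
        (if β ^ (-((a.2 : ℤ) - K)) * x ∈ Opn (T a.1) then 2 * Real.pi else 0) := by
      rw [← Finset.sum_filter, Finset.sum_const, nsmul_eq_mul, hS]
    rw [h1, Finset.sum_product_right]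
    simp only
    simp_rw [hstep]
    have h2 := Finset.sum_range_sub (fun j : ℕ => u ((j : ℤ) - K)) (2 * K)
    have h3 : ∀ j : ℕ, u ((j : ℤ) - K + 1) - u ((j : ℤ) - K) =
        u (((j + 1 : ℕ) : ℤ) - K) - u ((j : ℤ) - K) := by
      intro j
      congr 2
      push_cast
      ring
    simp_rw [h3]
    rw [h2]
    congr 2
    · push_cast
      ring
    · push_cast
      ring
  -- the limit
  have hin : ‖β⁻¹‖ < 1 := by
    rw [norm_inv]
    exact inv_lt_one_of_one_lt₀ hβ
  have hlim0 : Tendsto (fun K : ℕ => u K) atTop (𝓝 (2 * Real.pi)) := by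
    rw [← hcs, hu]
    apply tendsto_list_sum
    intro e he
    refine lim0_DEG (hc0 e he).1 (hc0 e he).2 ?_
    have h1 := (tendsto_pow_atTop_nhds_zero_of_norm_lt_one hin).mul_const x
    rw [zero_mul] at h1
    refine h1.congr fun n => ?_
    rw [zpow_neg, zpow_natCast, inv_pow]
  have hlim1 : Tendsto (fun K : ℕ => u (-K)) atTop (𝓝 0) := by
    have h0 : (0 : ℝ) = (c.map fun _ : ℂ × ℂ => (0 : ℝ)).sum := by simp
    rw [h0, hu]
    apply tendsto_list_sum
    intro e _
    have h1 := (tendsto_pow_atTop_nhds_zero_of_norm_lt_one hin).mul_const x⁻¹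
    rw [zero_mul] at h1
    have h2 := liminf_DEG e.1 e.2 (f := fun n => β⁻¹ ^ n * x⁻¹)
      (fun n => mul_ne_zero (pow_ne_zero _ (inv_ne_zero hβ0)) (inv_ne_zero hx)) h1
    refine h2.congr fun n => ?_
    congr 1
    rw [mul_inv, inv_inv, neg_neg, zpow_natCast, inv_pow, inv_inv]
  have hpi : (0 : ℝ) < 2 * Real.pi := by positivity
  have hlim : Tendsto (fun K : ℕ => ((S K).card : ℝ)) atTop (𝓝 1) := by
    have h1 := (hlim0.sub hlim1).div_const (2 * Real.pi)
    rw [sub_zero, div_self hpi.ne'] at h1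
    refine h1.congr fun K => ?_
    rw [← hcard K, mul_div_assoc, div_self hpi.ne', mul_one]
  have hev : ∀ᶠ K in atTop, (S K).card = 1 := by
    have h1 := hlim.eventually (Ioo_mem_nhds (show (0 : ℝ) < 1 by norm_num)
      (show (1 : ℝ) < 2 by norm_num))
    filter_upwards [h1] with K hK
    have h2 : 0 < (S K).card := by exact_mod_cast hK.1
    have h3 : (S K).card < 2 := by exact_mod_cast hK.2
    omega
  obtain ⟨K0, hK0⟩ := eventually_atTop.1 hev
  have hmem : ∀ (K : ℕ) (i : ι) (k : ℤ), k.natAbs < K → β ^ (-k) * x ∈ Opn (T i) →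
      (i, (k + K).toNat) ∈ S K := by
    intro K i k hk h
    rw [hS]
    simp only [Finset.mem_filter, Finset.mem_product, Finset.mem_univ, true_and,
      Finset.mem_range]
    refine ⟨by omega, ?_⟩
    have e1 : (((k + K).toNat : ℤ) - K) = k := by omega
    rw [e1]
    exact h
  -- existence
  obtain ⟨a, ha⟩ := Finset.card_eq_one.1 (hK0 K0 le_rfl)
  have ha1 : a ∈ S K0 := by rw [ha]; exact Finset.mem_singleton_self a
  rw [hS] at ha1
  simp only [Finset.mem_filter] at ha1
  refine ⟨(a.1, (a.2 : ℤ) - K0), ha1.2, ?_⟩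
  rintro ⟨i, k⟩ hik
  simp only at hik
  obtain ⟨K, hK⟩ : ∃ K : ℕ, K = K0 + k.natAbs + ((a.2 : ℤ) - K0).natAbs + 1 := ⟨_, rfl⟩
  obtain ⟨b, hb⟩ := Finset.card_eq_one.1 (hK0 K (by omega))
  have m1 := hmem K i k (by omega) hik
  have m2 := hmem K a.1 ((a.2 : ℤ) - K0) (by omega) ha1.2
  rw [hb, Finset.mem_singleton] at m1 m2
  have m3 := m1.trans m2.symm
  rw [Prod.mk.injEq] at m3
  rw [Prod.mk.injEq]
  refine ⟨m3.1, ?_⟩
  have := m3.2
  omega

end Pool.Agent.Helper54.TRI
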