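import Pool.Agent.Helper54.TRI.St4

/-!
# Project TRI, module EM: arithmetic of `emb`
-/

set_option autoImplicit false

open Set Filter Topology

noncomputable section

namespace Pool.Agent.Helper54.TRI

theorem root_ne_zero_EM {α : ℂ} (h : Root α) : α ≠ 0 := by
  intro h0
  have := h.eq
  rw [h0] at this
  norm_num at this

theorem emb_Az_EM {α : ℂ} (h : Root α) (v : Z3) : emb α (Az v) = α * emb α v := by
  have h3 := h.eq
  simp only [emb, Az]
  push_cast
  linear_combination (-(v.2.2 : ℂ)) * h3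

theorem emb_Bz_EM {α : ℂ} (h : Root α) (v : Z3) : emb α (Bz v) = α⁻¹ * emb α v := by
  have h3 := h.eq
  have h0 := root_ne_zero_EM h
  rw [eq_inv_mul_iff_mul_eq₀ h0]
  simp only [emb, Bz]
  push_cast
  linear_combination (v.1 : ℂ) * h3

theorem emb_Azn_EM {α : ℂ} (h : Root α) (n : ℕ) : ∀ v : Z3, emb α (Azn n v) = α ^ n * emb α v := by
  induction n with
  | zero => intro v; simp [Azn]
  | succ n ih =>
    intro v
    rw [Azn, ih, emb_Az_EM h]
    ring

theorem emb_Bzn_EM {α : ℂ} (h : Root α) (n : ℕ) :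
    ∀ v : Z3, emb α (Bzn n v) = α⁻¹ ^ n * emb α v := by
  induction n with
  | zero => intro v; simp [Bzn]
  | succ n ih =>
    intro v
    rw [Bzn, ih, emb_Bz_EM h]
    ring

theorem emb_Bp_EM {α : ℂ} (h : Root α) (k : ℤ) (v : Z3) :
    emb α (Bp k v) = α⁻¹ ^ k * emb α v := by
  cases k with
  | ofNat n =>
    show emb α (Bzn n v) = _
    rw [emb_Bzn_EM h]
    simp
  | negSucc n =>
    show emb α (Azn (n + 1) v) = _
    rw [emb_Azn_EM h, zpow_negSucc, inv_pow, inv_inv]

theorem emb_subz_EM (α : ℂ) (u v : Z3) : emb α (subz u v) = emb α u - emb α v := by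
  simp only [emb, subz]
  push_cast
  ring

theorem emb_negz_EM (α : ℂ) (u : Z3) : emb α (negz u) = - emb α u := by
  simp only [emb, negz]
  push_cast
  ring

theorem emb_eq_zero_EM {α : ℂ} (h : Root α) (hirr : Irrational (1 - 2 * α.re)) (v : Z3)
    (hv : emb α v = 0) : v = (0, 0, 0) := by
  obtain ⟨a, b, c⟩ := v
  simp only [emb] at hv
  have him := congrArg Complex.im hv
  have hre := congrArg Complex.re hv
  simp only [pow_two, Complex.add_im, Complex.mul_im, Complex.intCast_re, Complex.intCast_im,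
    Complex.zero_im, zero_mul, add_zero, zero_add, Complex.add_re, Complex.mul_re,
    Complex.zero_re, sub_zero] at him hre
  have h1 : α.im * ((b : ℝ) + (c : ℝ) * (2 * α.re)) = 0 := by linear_combination him
  have h2 : (b : ℝ) + (c : ℝ) * (2 * α.re) = 0 :=
    (mul_eq_zero.mp h1).resolve_left h.im.ne'
  have hc : c = 0 := by
    by_contra hc
    have hc' : (c : ℝ) ≠ 0 := Int.cast_ne_zero.mpr hc
    apply hirr
    refine ⟨1 + (b : ℚ) / (c : ℚ), ?_⟩
    push_cast
    field_simp
    linear_combination h2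
  subst hc
  have hb : b = 0 := by
    have : (b : ℝ) = 0 := by simpa using h2
    exact_mod_cast this
  subst hb
  have ha : a = 0 := by
    have : (a : ℝ) = 0 := by simpa using hre
    exact_mod_cast this
  subst ha
  rfl

theorem nrm_Az_EM (v : Z3) : nrm (Az v) = nrm v := by
  simp only [nrm, Az]
  ring

theorem nrm_Bz_EM (v : Z3) : nrm (Bz v) = nrm v := by
  simp only [nrm, Az, Bz]
  ring

theorem nrm_Azn_EM (n : ℕ) : ∀ v : Z3, nrm (Azn n v) = nrm v := by
  induction n with
  | zero => intro v; rfl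
  | succ n ih => intro v; rw [Azn, ih, nrm_Az_EM]

theorem nrm_Bzn_EM (n : ℕ) : ∀ v : Z3, nrm (Bzn n v) = nrm v := by
  induction n with
  | zero => intro v; rfl
  | succ n ih => intro v; rw [Bzn, ih, nrm_Bz_EM]

theorem m_EM (hr : StRT) : StEM := by
  refine ⟨?_, ?_⟩
  · intro α h
    obtain ⟨-, -, -, -, -, hirr⟩ := hr.2 α h
    refine ⟨fun k v => emb_Bp_EM h k v, emb_subz_EM α, emb_negz_EM α, ?_, ?_⟩
    · simp [emb]
    · intro u v huv
      have h1 : emb α (subz u v) = 0 := by
        rw [emb_subz_EM, huv, sub_self]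
      have h2 := emb_eq_zero_EM h hirr _ h1
      obtain ⟨a, b, c⟩ := u
      obtain ⟨a', b', c'⟩ := v
      simp only [subz, Prod.mk.injEq] at h2
      obtain ⟨h3, h4, h5⟩ := h2
      rw [sub_eq_zero] at h3 h4 h5
      rw [h3, h4, h5]
  · intro k v
    cases k with
    | ofNat n => exact nrm_Bzn_EM n v
    | negSucc n => exact nrm_Azn_EM (n + 1) v

end Pool.Agent.Helper54.TRI
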