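import Pool.Agent.Helper54.TRI.St2

/-!
# Project TRI, module ETA: smooth barycentric functions
-/

set_option autoImplicit false

open Set Filter Topology
open scoped ContDiff

noncomputable section

namespace Pool.Agent.Helper54.TRI

theorem s11_ETA (s : Fin 3) : s + 1 + 1 = s + 2 := by fin_cases s <;> rfl

theorem s21_ETA (s : Fin 3) : s + 2 + 1 = s := by fin_cases s <;> rfl

theorem cases_ETA : ∀ s t : Fin 3, s ≠ t → s = t + 1 ∨ s = t + 2 := by decide

theorem cd_tt_ETA (p q : ℂ) : ContDiff ℝ ∞ (fun x => tt p q x) := by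
  unfold tt
  exact Complex.reCLM.contDiff.comp ((contDiff_id.sub contDiff_const).div_const _)

theorem cd_ht_ETA (p q : ℂ) : ContDiff ℝ ∞ (fun x => ht p q x) := by
  unfold ht
  exact Complex.imCLM.contDiff.comp ((contDiff_id.sub contDiff_const).div_const _)

theorem ez_zero_ETA (s : Fin 3) : ez s 0 = Pi.single s 1 := by
  funext j
  fin_cases s <;> fin_cases j <;> simp [ez, Pi.single_apply]

theorem ez_one_ETA (s : Fin 3) : ez s 1 = Pi.single (s + 1) 1 := by
  funext j
  fin_cases s <;> fin_cases j <;> simp [ez, Pi.single_apply]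

theorem ez_mem_ETA (s : Fin 3) (t : ℝ) (h0 : 0 ≤ t) (h1 : t ≤ 1) : ez s t ∈ Sx := by
  refine ⟨fun i => ?_, ?_⟩
  · unfold ez
    split_ifs <;> linarith
  · fin_cases s <;> simp [ez, Fin.sum_univ_three]

theorem cd_ez_ETA (s : Fin 3) : ContDiff ℝ ∞ (fun t : ℝ => ez s t) := by
  rw [contDiff_pi]
  intro i
  unfold ez
  by_cases h1 : i = s
  · simp only [h1, if_true]
    exact contDiff_const.sub contDiff_id
  · by_cases h2 : i = s + 1
    · simp only [h1, h2, if_true, if_false]
      have : ¬ (s + 1 = s) := fun h => h1 (h2.trans h)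
      simp only [this, if_false]
      exact contDiff_id
    · simp only [h1, h2, if_false]
      exact contDiff_const

theorem ht_line_ETA (p q a b : ℂ) (u : ℝ) :
    ht p q (a + u * (b - a)) = (1 - u) * ht p q a + u * ht p q b := by
  unfold ht
  have : (a + u * (b - a) - p) / (q - p) =
      ((1 - u : ℝ) : ℂ) * ((a - p) / (q - p)) + (u : ℂ) * ((b - p) / (q - p)) := by
    push_cast
    ring
  rw [this, Complex.add_im, Complex.im_ofReal_mul, Complex.im_ofReal_mul]

theorem ht_left_ETA (p q : ℂ) : ht p q p = 0 := by simp [ht]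

theorem ht_right_ETA {p q : ℂ} (h : p ≠ q) : ht p q q = 0 := by
  have : q - p ≠ 0 := sub_ne_zero.2 h.symm
  simp [ht, div_self this]

theorem tt_line_ETA {p q : ℂ} (h : p ≠ q) (u : ℝ) : tt p q (p + u * (q - p)) = u := by
  have : q - p ≠ 0 := sub_ne_zero.2 h.symm
  unfold tt
  rw [add_sub_cancel_left, mul_div_cancel_right₀ _ this, Complex.ofReal_re]

theorem re_small_ETA (z : ℂ) (u : ℝ) (hu : 0 ≤ u) (hz : u * (1 + ‖z‖) < 1 / 3) :
    |((u : ℂ) * z).re| < 1 / 3 := by
  refine lt_of_le_of_lt (Complex.abs_re_le_norm _) ?_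
  rw [norm_mul, Complex.norm_real, Real.norm_of_nonneg hu]
  nlinarith

/-- near a point with `tt < 1/3` the weight is `0` -/
theorem ev_zero_ETA (hp : StPH) (p q x₀ : ℂ) (h : tt p q x₀ < 1 / 3) :
    ∀ᶠ x in 𝓝 x₀, ph (tt p q x) = 0 := by
  have := (cd_tt_ETA p q).continuous.continuousAt (x := x₀)
  filter_upwards [this.eventually_lt_const h] with x hx
  exact hp.2.2.1 _ hx.le

theorem ev_one_ETA (hp : StPH) (p q x₀ : ℂ) (h : 2 / 3 < tt p q x₀) :
    ∀ᶠ x in 𝓝 x₀, ph (tt p q x) = 1 := by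
  have := (cd_tt_ETA p q).continuous.continuousAt (x := x₀)
  filter_upwards [this.eventually_const_lt h] with x hx
  exact hp.2.2.2.1 _ hx.le

theorem m_ETA (hT : StTG) (hp : StPH) : StETA := by
  intro P hP
  obtain ⟨hh, hinj, -⟩ := hT P hP
  have hne : ∀ i, P i ≠ P (i + 1) := by
    intro i h
    exact absurd (hinj h) (by fin_cases i <;> decide)
  obtain ⟨ε, hε, hεi⟩ : ∃ ε : ℝ, 0 < ε ∧ ∀ i : Fin 3,
      2 * ε / ht (P i) (P (i + 1)) (P (i + 2)) *
        (1 + ‖(P (i + 2) - P (i + 1)) / (P (i + 1) - P i)‖ +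
          ‖(P (i + 2) - P i) / (P (i + 1) - P i)‖) < 1 / 3 := by
    obtain ⟨c, hc⟩ : ∃ c : Fin 3 → ℝ, ∀ i, c i =
        (1 + ‖(P (i + 2) - P (i + 1)) / (P (i + 1) - P i)‖ +
          ‖(P (i + 2) - P i) / (P (i + 1) - P i)‖) / ht (P i) (P (i + 1)) (P (i + 2)) :=
      ⟨_, fun _ => rfl⟩
    have hc0 : ∀ i, 0 < c i := by
      intro i
      rw [hc]
      have := hh i
      positivity
    have hK : 0 < ∑ i, c i := Finset.sum_pos (fun i _ => hc0 i) Finset.univ_nonempty
    refine ⟨1 / (7 * ∑ i, c i), by positivity, fun i => ?_⟩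
    have h1 : c i ≤ ∑ i, c i := Finset.single_le_sum (fun j _ => (hc0 j).le) (Finset.mem_univ i)
    have h2 : 2 * (1 / (7 * ∑ i, c i)) / ht (P i) (P (i + 1)) (P (i + 2)) *
        (1 + ‖(P (i + 2) - P (i + 1)) / (P (i + 1) - P i)‖ +
          ‖(P (i + 2) - P i) / (P (i + 1) - P i)‖) = 2 / 7 * (c i / ∑ i, c i) := by
      rw [hc i]
      have := hh i
      field_simp
    rw [h2]
    have h3 : c i / ∑ i, c i ≤ 1 := (div_le_one hK).2 h1
    linarith
  obtain ⟨E, hE⟩ : ∃ E : Fin 3 → ℂ → Fin 3 → ℝ, ∀ i x, E i x = ez i (ph (tt (P i) (P (i + 1)) x)) :=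
    ⟨_, fun _ _ => rfl⟩
  obtain ⟨S, hS⟩ : ∃ S : Fin 3 → ℂ → ℝ, ∀ i x, S i x =
      Real.smoothTransition (ht (P i) (P (i + 1)) x / ε - 1) := ⟨_, fun _ _ => rfl⟩
  have hEs : ∀ i x, E i x ∈ Sx := by
    intro i x
    rw [hE]
    exact ez_mem_ETA _ _ (hp.2.1 _).1 (hp.2.1 _).2
  have hS0 : ∀ i x, 0 ≤ S i x := fun i x => by rw [hS]; exact Real.smoothTransition.nonneg _
  have hS1 : ∀ i x, S i x ≤ 1 := fun i x => by rw [hS]; exact Real.smoothTransition.le_one _
  have hEc : ∀ i, ContDiff ℝ ∞ (E i) := by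
    intro i
    have h1 : E i = fun x => ez i (ph (tt (P i) (P (i + 1)) x)) := funext (hE i)
    rw [h1]
    exact (cd_ez_ETA i).comp (hp.1.comp (cd_tt_ETA _ _))
  have hSc : ∀ i, ContDiff ℝ ∞ (S i) := by
    intro i
    have h1 : S i = fun x => Real.smoothTransition (ht (P i) (P (i + 1)) x / ε - 1) :=
      funext (hS i)
    rw [h1]
    exact Real.smoothTransition.contDiff.comp (((cd_ht_ETA _ _).div_const _).sub contDiff_const)
  -- the side itself
  have hside0 : ∀ (s : Fin 3) (x₀ : ℂ), ht (P s) (P (s + 1)) x₀ = 0 → ∀ᶠ x in 𝓝 x₀, S s x = 0 := by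
    intro s x₀ h0
    have hc := (cd_ht_ETA (P s) (P (s + 1))).continuous.continuousAt (x := x₀)
    filter_upwards [hc.eventually_lt_const (show ht (P s) (P (s + 1)) x₀ < ε by rw [h0]; exact hε)]
      with x hx
    rw [hS]
    apply Real.smoothTransition.zero_of_nonpos
    have : ht (P s) (P (s + 1)) x / ε < 1 := (div_lt_one hε).2 hx
    linarith
  -- the other sides
  have hside1 : ∀ (i : Fin 3) (x₀ : ℂ), 2 * ε < ht (P i) (P (i + 1)) x₀ → ∀ᶠ x in 𝓝 x₀, S i x = 1 := by
    intro i x₀ h0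
    have hc := (cd_ht_ETA (P i) (P (i + 1))).continuous.continuousAt (x := x₀)
    filter_upwards [hc.eventually_const_lt h0] with x hx
    rw [hS]
    apply Real.smoothTransition.one_of_one_le
    have : 2 < ht (P i) (P (i + 1)) x / ε := (lt_div_iff₀ hε).2 hx
    linarith
  have key : ∀ (s : Fin 3) (u : ℝ), 0 ≤ u → u ≤ 1 → ∀ i, s ≠ i →
      ∀ᶠ x in 𝓝 (P s + u * (P (s + 1) - P s)), S i x = 1 ∨ E i x = E s x := by
    intro s u hu0 hu1 i hsi
    by_cases hbig : 2 * ε < ht (P i) (P (i + 1)) (P s + u * (P (s + 1) - P s))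
    · filter_upwards [hside1 i _ hbig] with x hx using Or.inl hx
    · have hle := not_lt.1 hbig
      have hi := hh i
      rcases cases_ETA s i hsi with rfl | rfl
      · -- `s = i + 1`
        rw [s11_ETA] at hle ⊢
        rw [ht_line_ETA, ht_right_ETA (hne i), mul_zero, zero_add] at hle
        have hu : u ≤ 2 * ε / ht (P i) (P (i + 1)) (P (i + 2)) := (le_div_iff₀ hi).2 hle
        have hu2 : u * (1 + ‖(P (i + 2) - P (i + 1)) / (P (i + 1) - P i)‖) < 1 / 3 := by
          refine lt_of_le_of_lt ?_ (hεi i)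
          have hn : 0 ≤ ‖(P (i + 2) - P i) / (P (i + 1) - P i)‖ := norm_nonneg _
          have hn2 : 0 ≤ ‖(P (i + 2) - P (i + 1)) / (P (i + 1) - P i)‖ := norm_nonneg _
          refine mul_le_mul hu (by linarith) (by linarith) (by positivity)
        have hu3 : u < 1 / 3 := by
          have hn2 : 0 ≤ ‖(P (i + 2) - P (i + 1)) / (P (i + 1) - P i)‖ := norm_nonneg _
          nlinarith
        have h1 : tt (P (i + 1)) (P (i + 1 + 1)) (P (i + 1) + u * (P (i + 2) - P (i + 1))) < 1 / 3 := by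
          have h := tt_line_ETA (hne (i + 1)) u
          rw [s11_ETA] at h ⊢
          rw [h]
          exact hu3
        have h2 : 2 / 3 < tt (P i) (P (i + 1)) (P (i + 1) + u * (P (i + 2) - P (i + 1))) := by
          have h := re_small_ETA _ u hu0 hu2
          have h3 : (P (i + 1) + u * (P (i + 2) - P (i + 1)) - P i) / (P (i + 1) - P i) =
              1 + (u : ℂ) * ((P (i + 2) - P (i + 1)) / (P (i + 1) - P i)) := by
            have : P (i + 1) - P i ≠ 0 := sub_ne_zero.2 (hne i).symm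
            field_simp
            ring
          unfold tt
          rw [h3, Complex.add_re, Complex.one_re]
          have := (abs_lt.1 h).1
          linarith
        filter_upwards [ev_zero_ETA hp _ _ _ h1, ev_one_ETA hp _ _ _ h2] with x hx1 hx2
        right
        rw [hE, hE, hx1, hx2, ez_zero_ETA, ez_one_ETA]
      · -- `s = i + 2`
        rw [s21_ETA] at hle ⊢
        rw [ht_line_ETA, ht_left_ETA, mul_zero, add_zero] at hle
        have hu : 1 - u ≤ 2 * ε / ht (P i) (P (i + 1)) (P (i + 2)) := (le_div_iff₀ hi).2 hle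
        have hu2 : (1 - u) * (1 + ‖(P (i + 2) - P i) / (P (i + 1) - P i)‖) < 1 / 3 := by
          refine lt_of_le_of_lt ?_ (hεi i)
          have hn : 0 ≤ ‖(P (i + 2) - P i) / (P (i + 1) - P i)‖ := norm_nonneg _
          have hn2 : 0 ≤ ‖(P (i + 2) - P (i + 1)) / (P (i + 1) - P i)‖ := norm_nonneg _
          refine mul_le_mul hu (by linarith) (by linarith) (by positivity)
        have hu3 : 1 - u < 1 / 3 := by
          have hn2 : 0 ≤ ‖(P (i + 2) - P i) / (P (i + 1) - P i)‖ := norm_nonneg _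
          nlinarith
        have hn2 : P (i + 2) ≠ P i := by
          have := hne (i + 2)
          rwa [s21_ETA] at this
        have h1 : 2 / 3 < tt (P (i + 2)) (P (i + 2 + 1)) (P (i + 2) + u * (P i - P (i + 2))) := by
          rw [s21_ETA, tt_line_ETA hn2]
          linarith
        have h2 : tt (P i) (P (i + 1)) (P (i + 2) + u * (P i - P (i + 2))) < 1 / 3 := by
          have h := re_small_ETA _ (1 - u) (by linarith) hu2
          have h3 : (P (i + 2) + u * (P i - P (i + 2)) - P i) / (P (i + 1) - P i) =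
              ((1 - u : ℝ) : ℂ) * ((P (i + 2) - P i) / (P (i + 1) - P i)) := by
            push_cast
            ring
          unfold tt
          rw [h3]
          exact (abs_lt.1 h).2
        filter_upwards [ev_one_ETA hp _ _ _ h1, ev_zero_ETA hp _ _ _ h2] with x hx1 hx2
        right
        rw [hE, hE, hx1, hx2, ez_zero_ETA, ez_one_ETA, s21_ETA]
  refine ⟨fun x j => (1 - S 0 x) * E 0 x j + S 0 x * (1 - S 1 x) * E 1 x j +
    S 0 x * S 1 x * (1 - S 2 x) * E 2 x j + S 0 x * S 1 x * S 2 x * (1 / 3), ?_, ?_, ?_⟩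
  · rw [contDiff_pi]
    intro j
    have hEj : ∀ i, ContDiff ℝ ∞ (fun x => E i x j) := fun i => contDiff_pi.1 (hEc i) j
    exact ((((contDiff_const.sub (hSc 0)).mul (hEj 0)).add
      (((hSc 0).mul (contDiff_const.sub (hSc 1))).mul (hEj 1))).add
      ((((hSc 0).mul (hSc 1)).mul (contDiff_const.sub (hSc 2))).mul (hEj 2))).add
      ((((hSc 0).mul (hSc 1)).mul (hSc 2)).mul contDiff_const)
  · intro x
    have a0 := hS0 0 x
    have a1 := hS0 1 x
    have a2 := hS0 2 x
    have b0 : 0 ≤ 1 - S 0 x := by linarith [hS1 0 x]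
    have b1 : 0 ≤ 1 - S 1 x := by linarith [hS1 1 x]
    have b2 : 0 ≤ 1 - S 2 x := by linarith [hS1 2 x]
    refine ⟨fun j => ?_, ?_⟩
    · have e0 := (hEs 0 x).1 j
      have e1 := (hEs 1 x).1 j
      have e2 := (hEs 2 x).1 j
      have := mul_nonneg b0 e0
      have := mul_nonneg (mul_nonneg a0 b1) e1
      have := mul_nonneg (mul_nonneg (mul_nonneg a0 a1) b2) e2
      have := mul_nonneg (mul_nonneg a0 a1) a2
      show 0 ≤ (1 - S 0 x) * E 0 x j + S 0 x * (1 - S 1 x) * E 1 x j +
        S 0 x * S 1 x * (1 - S 2 x) * E 2 x j + S 0 x * S 1 x * S 2 x * (1 / 3)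
      linarith
    · have e0 := (hEs 0 x).2
      have e1 := (hEs 1 x).2
      have e2 := (hEs 2 x).2
      simp only [Finset.sum_add_distrib, ← Finset.mul_sum, e0, e1, e2, Finset.sum_const,
        Finset.card_univ, Fintype.card_fin, nsmul_eq_mul]
      push_cast
      ring
  · intro s x₀ hx₀
    rw [segment_eq_image'] at hx₀
    obtain ⟨u, ⟨hu0, hu1⟩, rfl⟩ := hx₀
    have hx : P s + u • (P (s + 1) - P s) = P s + (u : ℂ) * (P (s + 1) - P s) := by
      rw [Complex.real_smul]
    rw [show (fun θ : ℝ => P s + θ • (P (s + 1) - P s)) u = P s + (u : ℂ) * (P (s + 1) - P s) from hx]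
    have h0 : ht (P s) (P (s + 1)) (P s + u * (P (s + 1) - P s)) = 0 := by
      rw [ht_line_ETA, ht_left_ETA, ht_right_ETA (hne s)]
      ring
    have hall : ∀ᶠ x in 𝓝 (P s + (u : ℂ) * (P (s + 1) - P s)), ∀ i, s ≠ i →
        (S i x = 1 ∨ E i x = E s x) := by
      rw [Filter.eventually_all]
      intro i
      by_cases hsi : s ≠ i
      · filter_upwards [key s u hu0 hu1 i hsi] with x hx _ using hx
      · exact Filter.Eventually.of_forall fun x h => absurd h hsi
    filter_upwards [hside0 s _ h0, hall] with x hx0 hx1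
    rw [← hE]
    funext j
    have h01 := hx1 0
    have h11 := hx1 1
    have h21 := hx1 2
    fin_cases s
    · have hx0' : S 0 x = 0 := hx0
      show (1 - S 0 x) * E 0 x j + S 0 x * (1 - S 1 x) * E 1 x j +
        S 0 x * S 1 x * (1 - S 2 x) * E 2 x j + S 0 x * S 1 x * S 2 x * (1 / 3) = E 0 x j
      rw [hx0']
      ring
    · have hx0' : S 1 x = 0 := hx0
      show (1 - S 0 x) * E 0 x j + S 0 x * (1 - S 1 x) * E 1 x j +
        S 0 x * S 1 x * (1 - S 2 x) * E 2 x j + S 0 x * S 1 x * S 2 x * (1 / 3) = E 1 x j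
      rw [hx0']
      rcases h01 (by decide) with h | h
      · rw [h]; ring
      · have h' : E 0 x = E 1 x := h
        rw [h']; ring
    · have hx0' : S 2 x = 0 := hx0
      show (1 - S 0 x) * E 0 x j + S 0 x * (1 - S 1 x) * E 1 x j +
        S 0 x * S 1 x * (1 - S 2 x) * E 2 x j + S 0 x * S 1 x * S 2 x * (1 / 3) = E 2 x j
      rw [hx0']
      rcases h01 (by decide) with h | h <;> rcases h11 (by decide) with h' | h'
      · rw [h, h']; ring
      · have h2 : E 1 x = E 2 x := h'
        rw [h, h2]; ring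
      · have h2 : E 0 x = E 2 x := h
        rw [h', h2]; ring
      · have h2 : E 0 x = E 2 x := h
        have h3 : E 1 x = E 2 x := h'
        rw [h2, h3]; ring

end Pool.Agent.Helper54.TRI
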