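import Pool.Agent.Helper54.TRI.St3

set_option autoImplicit false

open Set Filter Topology
open scoped ContDiff

noncomputable section

namespace Pool.Agent.Helper54.TRI

private theorem pos_FF {z : Fin 3 → ℝ} (hz : z ∈ Sx) :
    0 < ∑ i, Real.sin (Real.pi / 2 * z i) ^ 2 := by
  obtain ⟨h0, h1⟩ := hz
  have hex : ∃ i, 0 < z i := by
    by_contra hcon
    push Not at hcon
    have : ∑ i, z i ≤ 0 := Finset.sum_nonpos fun i _ => hcon i
    linarith
  obtain ⟨i, hi⟩ := hex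
  have hle : z i ≤ 1 := by
    rw [← h1]
    exact Finset.single_le_sum (fun j _ => h0 j) (Finset.mem_univ i)
  have hpi := Real.pi_pos
  have hs : 0 < Real.sin (Real.pi / 2 * z i) :=
    Real.sin_pos_of_pos_of_lt_pi (by positivity) (by nlinarith)
  exact Finset.sum_pos' (fun j _ => sq_nonneg _) ⟨i, Finset.mem_univ i, by positivity⟩

private theorem side_FF (s : Fin 3) (t : ℝ) :
    ez s t s = 1 - t ∧ ez s t (s + 1) = t ∧ ez s t (s + 2) = 0 := by
  fin_cases s <;> simp [ez]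

private theorem sum_FF (s : Fin 3) (t : ℝ) :
    ∑ i, Real.sin (Real.pi / 2 * ez s t i) ^ 2 = 1 := by
  have h1 : Real.sin (Real.pi / 2 * (1 - t)) = Real.cos (Real.pi / 2 * t) := by
    rw [mul_sub, mul_one, Real.sin_pi_div_two_sub]
  have hsum : ∑ i, Real.sin (Real.pi / 2 * ez s t i) ^ 2 =
      Real.sin (Real.pi / 2 * ez s t s) ^ 2 + Real.sin (Real.pi / 2 * ez s t (s + 1)) ^ 2 +
        Real.sin (Real.pi / 2 * ez s t (s + 2)) ^ 2 := by
    rw [Fin.sum_univ_three]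
    fin_cases s
    · rfl
    · show Real.sin (Real.pi / 2 * ez 1 t 0) ^ 2 + Real.sin (Real.pi / 2 * ez 1 t 1) ^ 2 +
        Real.sin (Real.pi / 2 * ez 1 t 2) ^ 2 = Real.sin (Real.pi / 2 * ez 1 t 1) ^ 2 + Real.sin (Real.pi / 2 * ez 1 t 2) ^ 2 +
        Real.sin (Real.pi / 2 * ez 1 t 0) ^ 2
      ring
    · show Real.sin (Real.pi / 2 * ez 2 t 0) ^ 2 + Real.sin (Real.pi / 2 * ez 2 t 1) ^ 2 +
        Real.sin (Real.pi / 2 * ez 2 t 2) ^ 2 = Real.sin (Real.pi / 2 * ez 2 t 2) ^ 2 + Real.sin (Real.pi / 2 * ez 2 t 0) ^ 2 +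
        Real.sin (Real.pi / 2 * ez 2 t 1) ^ 2
      ring
  obtain ⟨e1, e2, e3⟩ := side_FF s t
  rw [hsum, e1, e2, e3, h1, mul_zero, Real.sin_zero]
  have := Real.cos_sq_add_sin_sq (Real.pi / 2 * t)
  linarith

theorem m_FF : StFF := by
  refine ⟨fun z hz => ?_, fun z hz => ?_, fun s t _ _ => ?_, fun s i => ?_⟩
  · have hpos := pos_FF hz
    rw [contDiffAt_pi]
    intro s
    have hsin : ∀ i : Fin 3, ContDiffAt ℝ ∞ (fun z : Fin 3 → ℝ => Real.sin (Real.pi / 2 * z i)) z :=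
      fun i => (Real.contDiff_sin.comp (contDiff_const.mul (contDiff_apply ℝ ℝ i))).contDiffAt
    have hS : ContDiffAt ℝ ∞ (fun z : Fin 3 → ℝ => ∑ i, Real.sin (Real.pi / 2 * z i) ^ 2) z :=
      ContDiffAt.sum fun i _ => (hsin i).pow 2
    exact (hsin s).div (hS.sqrt hpos.ne') (Real.sqrt_pos.2 hpos).ne'
  · have hpos := pos_FF hz
    unfold FF
    simp_rw [div_pow]
    rw [← Finset.sum_div, Real.sq_sqrt hpos.le, div_self hpos.ne']
  · obtain ⟨e1, e2, e3⟩ := side_FF s t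
    unfold FF
    rw [sum_FF s t, Real.sqrt_one, e1, e2, e3]
    refine ⟨?_, ?_, ?_⟩
    · rw [div_one, mul_sub, mul_one, Real.sin_pi_div_two_sub]
    · rw [div_one]
    · rw [mul_zero, Real.sin_zero, zero_div]
  · have h : ∀ i : Fin 3, Real.sin (Real.pi / 2 * (Pi.single s 1 : Fin 3 → ℝ) i) =
        if i = s then 1 else 0 := by
      intro i
      by_cases hi : i = s
      · subst hi; simp
      · simp [hi]
    unfold FF
    simp_rw [h]
    have h2 : ∑ i : Fin 3, (if i = s then (1 : ℝ) else 0) ^ 2 = 1 := by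
      simp [ite_pow]
    rw [h2, Real.sqrt_one, div_one]

end Pool.Agent.Helper54.TRI
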