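import Pool.Agent.Helper54.TRI.St4

/-! # Project TRI: module GE (three-clusters of a certificate) -/

set_option autoImplicit false

open Set Filter Topology

noncomputable section

namespace Pool.Agent.Helper54.TRI

private theorem ofNat_GE (a : Fin 3) : (Fin.ofNat 3 a.val : Fin 3) = a := by
  apply Fin.ext
  simp

theorem m_GE (he : StEM) (hi : StIG) (hk : StKE) : StGE := by
  intro α hα X t0 t1 t2 hok
  obtain ⟨he1, -⟩ := he
  obtain ⟨-, hsub, -, -, hinj⟩ := he1 α hα
  obtain ⟨hG, -, -, -⟩ := hi α hα X.D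
  simp only [Cert.okL, Bool.and_eq_true, decide_eq_true_eq] at hok
  obtain ⟨hij, hl, hd, hg⟩ := hok
  have winj : Function.Injective (fun a : Fin 3 => emb α (X.wz (.E t0 t1 t2) a.val)) := by
    intro a b hab
    by_contra hne
    exact (hd a b hne) (hinj hab)
  have hΓi : ∀ a b : Fin 3, Gam α X.D (X.lz t0.1)
      (emb α (X.wz (.E t0 t1 t2) b.val) - emb α (X.wz (.E t0 t1 t2) a.val)) := by
    intro a b
    rw [← hsub]
    exact hG _ _ (hg a b).1
  have hΓj : ∀ a b : Fin 3, Gam α X.D (X.lz t0.2.1)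
      (emb α (X.wz (.E t0 t1 t2) b.val) - emb α (X.wz (.E t0 t1 t2) a.val)) := by
    intro a b
    rw [← hsub]
    exact hG _ _ (hg a b).2
  obtain ⟨k1, k2, k3, k4⟩ := hk (Gam α X.D) (X.ptr α t0)
    (fun a : Fin 3 => emb α (X.wz (.E t0 t1 t2) a.val)) (X.lz t0.1) (X.lz t0.2.1)
    winj hij hΓi hΓj
  have hE : ∀ (a : Fin 3) (s : Fin 3), (X.zf (.E t0 t1 t2) a.val s).toEF α =
      fE (fun a : Fin 3 => emb α (X.wz (.E t0 t1 t2) a.val)) (X.lz t0.1) (X.lz t0.2.1) a s := by
    intro a s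
    simp only [Cert.zf, fE, ofNat_GE]
    split_ifs <;> simp only [ZF.toEF, hsub, Int.cast_one, Int.cast_neg]
  refine ⟨k1, ?_, ?_, ?_⟩
  · intro a s t h0 h1
    have := hE a s
    rw [this]
    exact k2 a s t h0 h1
  · intro a s
    have h1 : X.lz (trv ((CD.E t0 t1 t2).tr a.val) s) =
      if a = s then X.lz t0.1 else X.lz t0.2.1 := hl a s
    rw [h1]
    exact k3 a s
  · intro a s
    have := hE a s
    rw [this]
    exact k4 a s

end Pool.Agent.Helper54.TRI
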