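import Pool.Agent.Helper54.TRI.St1

set_option autoImplicit false

open Set Filter Topology

noncomputable section

namespace Pool.Agent.Helper54.TRI

private theorem dense_line_GEN (p q a : ℂ) (hpq : p ≠ q) (ha : a ≠ 0) :
    IsOpen {x : ℂ | ht p q (a * x) ≠ 0} ∧ Dense {x : ℂ | ht p q (a * x) ≠ 0} := by
  have hqp : q - p ≠ 0 := sub_ne_zero.2 hpq.symm
  have hc : a / (q - p) ≠ 0 := div_ne_zero ha hqp
  let e : ℂ ≃ₜ ℂ := (Homeomorph.mulLeft₀ (a / (q - p)) hc).trans (Homeomorph.addRight (-p / (q - p)))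
  have he : ∀ x : ℂ, e x = (a * x - p) / (q - p) := by
    intro x
    have : e x = a / (q - p) * x + -p / (q - p) := rfl
    rw [this]; ring
  have h0 : {x : ℂ | ht p q (a * x) ≠ 0} = e ⁻¹' (Complex.im ⁻¹' ({0}ᶜ : Set ℝ)) := by
    ext x
    simp only [mem_setOf_eq, mem_preimage, mem_compl_iff, mem_singleton_iff, he, ht, ne_eq]
  rw [h0]
  constructor
  · exact (isOpen_compl_singleton.preimage Complex.continuous_im).preimage e.continuous
  · exact ((dense_compl_singleton (0 : ℝ)).preimage Complex.isOpenMap_im).preimage e.isOpenMap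

theorem m_GEN : StGEN := by
  intro ι _ T β c hβ hT hc
  have h1 : Dense (⋂ j : (ι × ℤ × Fin 3),
      {x : ℂ | ht (T j.1 j.2.2) (T j.1 (j.2.2 + 1)) (β ^ j.2.1 * x) ≠ 0}) ∧
      Dense (⋂ j : Option ((ι × ℤ × Fin 3) ⊕ (ℤ × {e : ℂ × ℂ // e ∈ c})),
        (match j with
          | none => ({0}ᶜ : Set ℂ)
          | some (Sum.inl j) => {x : ℂ | ht (T j.1 j.2.2) (T j.1 (j.2.2 + 1)) (β ^ j.2.1 * x) ≠ 0}
          | some (Sum.inr j) => {x : ℂ | ht j.2.1.1 j.2.1.2 (β ^ j.1 * x) ≠ 0})) := by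
    haveI : Countable {e : ℂ × ℂ // e ∈ c} := by
      have : Set.Finite {e : ℂ × ℂ | e ∈ c} := List.finite_toSet c
      exact this.countable.to_subtype
    refine ⟨dense_iInter_of_isOpen (fun j => (dense_line_GEN _ _ _ (hT _ _) (zpow_ne_zero _ hβ)).1)
      (fun j => (dense_line_GEN _ _ _ (hT _ _) (zpow_ne_zero _ hβ)).2), ?_⟩
    refine dense_iInter_of_isOpen ?_ ?_
    · rintro (_ | j | j)
      · exact isOpen_compl_singleton
      · exact (dense_line_GEN _ _ _ (hT _ _) (zpow_ne_zero _ hβ)).1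
      · exact (dense_line_GEN _ _ _ (hc _ j.2.2) (zpow_ne_zero _ hβ)).1
    · rintro (_ | j | j)
      · exact dense_compl_singleton 0
      · exact (dense_line_GEN _ _ _ (hT _ _) (zpow_ne_zero _ hβ)).2
      · exact (dense_line_GEN _ _ _ (hc _ j.2.2) (zpow_ne_zero _ hβ)).2
  refine h1.2.mono ?_
  intro x hx
  rw [mem_iInter] at hx
  refine ⟨hx none, fun k i s => hx (some (Sum.inl (i, k, s))), fun k e he => ?_⟩
  exact hx (some (Sum.inr (k, ⟨e, he⟩)))

end Pool.Agent.Helper54.TRI
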