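import Pool.Agent.Helper54.TRI.St2

/-!
# Project TRI (MP_d629b1), module GLU (helper51): germs of rows agree
-/

set_option autoImplicit false

open Set Filter Topology Matrix
open scoped ContDiff

noncomputable section

namespace Pool.Agent.Helper54.TRI

theorem bne_GLU {β : ℂ} (h : 1 < ‖β‖) : β ≠ 0 := by
  intro h0
  rw [h0, norm_zero] at h
  linarith

theorem tt_add_GLU (p q w y : ℂ) : tt p q (y - w) = tt (p + w) (q + w) y := by
  unfold tt
  congr 2
  · ring
  · ring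

theorem tt_mul_GLU (b p q y : ℂ) (hb : b ≠ 0) : tt (b * p) (b * q) (b * y) = tt p q y := by
  unfold tt
  rw [← mul_sub, ← mul_sub, mul_div_mul_left _ _ hb]

theorem tt_swap_GLU (p q y : ℂ) (h : p ≠ q) : tt q p y = 1 - tt p q y := by
  unfold tt
  have h1 : q - p ≠ 0 := sub_ne_zero.2 (Ne.symm h)
  have h2 : p - q ≠ 0 := sub_ne_zero.2 h
  have : (y - q) / (p - q) = 1 - (y - p) / (q - p) := by
    field_simp
    ring
  rw [this]
  simp

theorem cont_tt_GLU (p q : ℂ) : Continuous (fun x => tt p q x) := by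
  unfold tt
  fun_prop

theorem seg_mul_GLU (b p q x : ℂ) (h : x ∈ segment ℝ p q) :
    b * x ∈ segment ℝ (b * p) (b * q) := by
  obtain ⟨u, v, hu, hv, huv, rfl⟩ := h
  refine ⟨u, v, hu, hv, huv, ?_⟩
  simp only [Complex.real_smul]
  ring

theorem seg_sub_GLU (p q w x : ℂ) (h : x ∈ segment ℝ (p + w) (q + w)) :
    x - w ∈ segment ℝ p q := by
  obtain ⟨u, v, hu, hv, huv, rfl⟩ := h
  refine ⟨u, v, hu, hv, huv, ?_⟩
  simp only [Complex.real_smul]
  have h1 : (u : ℂ) + v = 1 := by exact_mod_cast huv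
  linear_combination (-w) * h1

theorem ez_zero_GLU (s : Fin 3) : ez s 0 = Pi.single s 1 := by
  funext i
  unfold ez
  by_cases h : i = s
  · subst h; simp
  · simp [h]

theorem row_GLU (β : ℂ) (hβ : β ≠ 0) (m : ℤ) (E : EF) (hE : E.ok) (t : ℝ) (l : ℤ) (u : ℂ) :
    ((E.rev).act β m).row t l u = E.row (1 - t) (l - m) (β ^ (-m) * u) := by
  have hz : ∀ u : ℂ, β ^ (-m) * u = 0 ↔ u = 0 := by
    intro u
    rw [mul_eq_zero]
    constructor
    · rintro (h | h)
      · exact absurd h (zpow_ne_zero _ hβ)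
      · exact h
    · exact Or.inr
  have hv : ∀ u v : ℂ, β ^ (-m) * u = v ↔ u = β ^ m * v := by
    intro u v
    constructor
    · rintro rfl
      rw [← mul_assoc, ← zpow_add₀ hβ]
      simp
    · rintro rfl
      rw [← mul_assoc, ← zpow_add₀ hβ]
      simp
  cases E with
  | pure l₀ =>
    show prow (l₀ + m) l u = prow l₀ (l - m) (β ^ (-m) * u)
    unfold prow
    have e1 : (l - m = l₀) ↔ (l = l₀ + m) := by omega
    simp only [hz, e1]
  | wall i j v e =>
    have hij : i ≠ j := hE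
    have hc : Real.cos (Real.pi / 2 * (1 - t)) = Real.sin (Real.pi / 2 * t) := by
      rw [mul_sub, mul_one, Real.cos_pi_div_two_sub]
    have hs : Real.sin (Real.pi / 2 * (1 - t)) = Real.cos (Real.pi / 2 * t) := by
      rw [mul_sub, mul_one, Real.sin_pi_div_two_sub]
    simp only [EF.rev, EF.act, EF.row, hz, hv, hc, hs]
    have e1 : (l - m = i) ↔ (l = i + m) := by omega
    have e2 : (l - m = j) ↔ (l = j + m) := by omega
    simp only [e1, e2]
    by_cases h1 : l = j + m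
    · have h2 : ¬ (l = i + m) := by omega
      rw [if_pos h1, if_neg h2, if_pos h1]
      by_cases h3 : u = 0
      · rw [if_pos h3, if_pos h3]
      · rw [if_neg h3, if_neg h3]
        by_cases h4 : u = β ^ m * v
        · rw [if_pos h4, if_pos h4]; ring
        · rw [if_neg h4, if_neg h4]
    · rw [if_neg h1]
      by_cases h2 : l = i + m
      · rw [if_pos h2, if_pos h2]
        by_cases h3 : u = 0
        · rw [if_pos h3, if_pos h3]
        · rw [if_neg h3, if_neg h3]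
          by_cases h4 : u = β ^ m * v
          · rw [if_pos h4, if_pos h4]; ring
          · rw [if_neg h4, if_neg h4]
      · rw [if_neg h2, if_neg h2, if_neg h1]

section

variable {κ : Type} {C : κ → Clus} {β : ℂ} {Γ : ℤ → ℂ → Prop}
  {nb : Ix C → Fin 3 → Ix C × Fin 3 × ℤ} {F : Ix C → Fin 3 → EF} {lab : Ix C → Fin 3 → ℤ}
  {η : κ → ℂ → Fin 3 → ℝ}

theorem side_GLU (hp : StPH) (hA : Atlas C β Γ nb F lab) (hη : ∀ c, IsEta (C c).P (η c))
    (x₀ : ℂ) (i : Ix C) (s : Fin 3) (k : ℤ)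
    (h : β ^ (-k) * x₀ ∈ segment ℝ (TT C i s) (TT C i (s + 1))) :
    ∀ᶠ x in 𝓝 x₀, Rw C β η i k x = fun l u =>
      (F i s).row (ph (tt (TT C i s) (TT C i (s + 1)) (β ^ (-k) * x))) (l - k) (β ^ (-k) * u) := by
  obtain ⟨-, hp2, -, -, -⟩ := hp
  have h1 := (hη i.1).side s _ (seg_sub_GLU _ _ _ _ h)
  have c1 : Tendsto (fun x : ℂ => β ^ (-k) * x - (C i.1).w i.2) (𝓝 x₀)
      (𝓝 (β ^ (-k) * x₀ - (C i.1).w i.2)) := by
    have : Continuous (fun x : ℂ => β ^ (-k) * x - (C i.1).w i.2) := by fun_prop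
    exact this.tendsto x₀
  filter_upwards [c1.eventually h1] with x hx
  funext l u
  unfold Rw
  rw [hx, tt_add_GLU]
  have hf := hA.form i s (ph (tt ((C i.1).P s + (C i.1).w i.2) ((C i.1).P (s + 1) + (C i.1).w i.2)
    (β ^ (-k) * x))) (hp2 _).1 (hp2 _).2
  rw [hf]
  rfl

theorem vert_GLU (hp : StPH) (hA : Atlas C β Γ nb F lab) (hη : ∀ c, IsEta (C c).P (η c))
    (x₀ : ℂ) (i : Ix C) (s : Fin 3) (k : ℤ) (h : β ^ (-k) * x₀ = TT C i s) :
    ∀ᶠ x in 𝓝 x₀, Rw C β η i k x = fun l u => prow (lab i s) (l - k) (β ^ (-k) * u) := by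
  obtain ⟨-, -, hp3, -, -⟩ := hp
  have hx0 : β ^ (-k) * x₀ - (C i.1).w i.2 = (C i.1).P s := by
    rw [h]
    unfold TT
    ring
  have h1 := (hη i.1).side s ((C i.1).P s) (left_mem_segment ℝ _ _)
  have c1 : Tendsto (fun x : ℂ => β ^ (-k) * x - (C i.1).w i.2) (𝓝 x₀) (𝓝 ((C i.1).P s)) := by
    have : Continuous (fun x : ℂ => β ^ (-k) * x - (C i.1).w i.2) := by fun_prop
    have h2 := this.tendsto x₀
    rwa [hx0] at h2
  have h3 : ∀ᶠ y in 𝓝 ((C i.1).P s), tt ((C i.1).P s) ((C i.1).P (s + 1)) y < 1 / 3 := by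
    have h4 : tt ((C i.1).P s) ((C i.1).P (s + 1)) ((C i.1).P s) < 1 / 3 := by
      unfold tt
      simp
    exact (cont_tt_GLU _ _).continuousAt.eventually (gt_mem_nhds h4)
  filter_upwards [c1.eventually h1, c1.eventually h3] with x hx hx3
  funext l u
  unfold Rw
  rw [hx, hp3 _ hx3.le, ez_zero_GLU, hA.vert i s]

theorem nbr_GLU (hA : Atlas C β Γ nb F lab) (x₀ : ℂ) (i : Ix C) (s : Fin 3) (k : ℤ)
    (hx : β ^ (-k) * x₀ ∈ segment ℝ (TT C i s) (TT C i (s + 1))) :
    β ^ (-(k + (nb i s).2.2)) * x₀ ∈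
      segment ℝ (TT C (nb i s).1 (nb i s).2.1) (TT C (nb i s).1 ((nb i s).2.1 + 1)) := by
  have hβ : β ≠ 0 := bne_GLU hA.tiling.one_lt
  have h1 := seg_mul_GLU (β ^ (-(nb i s).2.2)) _ _ _ hx
  have e1 : β ^ (-(nb i s).2.2) * TT C i s = TT C (nb i s).1 ((nb i s).2.1 + 1) := by
    conv_lhs => rw [hA.tiling.nb1 i s]
    rw [← mul_assoc, ← zpow_add₀ hβ]
    simp
  have e2 : β ^ (-(nb i s).2.2) * TT C i (s + 1) = TT C (nb i s).1 (nb i s).2.1 := by
    conv_lhs => rw [hA.tiling.nb2 i s]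
    rw [← mul_assoc, ← zpow_add₀ hβ]
    simp
  have e3 : β ^ (-(nb i s).2.2) * (β ^ (-k) * x₀) = β ^ (-(k + (nb i s).2.2)) * x₀ := by
    rw [← mul_assoc, ← zpow_add₀ hβ]
    congr 2
    ring
  rw [e1, e2, e3, segment_symm] at h1
  exact h1

end

theorem m_GLU (hT : StTG) (hp : StPH) (h1 : StCF1) (h2 : StCF2) : StGLU := by
  intro κ _ C β Γ nb F lab η hA hη x₀ hx₀ i i' k k' hi hi'
  have hβ : β ≠ 0 := bne_GLU hA.tiling.one_lt
  obtain ⟨-, -, h13⟩ := h1 (Ix C) (TT C) β nb hA.tiling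
  obtain ⟨h21, h22⟩ := h2 (Ix C) (TT C) β nb hA.tiling
  obtain ⟨-, hinj, -, -, -, -, -, -, htri, -⟩ := hT (TT C i) (hA.tiling.pos i)
  rcases htri _ hi with ha | ⟨s, hb⟩ | ⟨s, hc⟩
  · obtain ⟨e1, e2⟩ := h13 x₀ i i' k k' ha hi'
    subst e1 e2
    exact Eventually.of_forall fun _ => rfl
  · rcases h21 x₀ i s k hb i' k' hi' with ⟨e1, e2⟩ | ⟨e1, e2⟩
    · subst e1 e2
      exact Eventually.of_forall fun _ => rfl
    · subst e1 e2
      have hb' := openSegment_subset_segment ℝ _ _ hb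
      have g1 := side_GLU hp hA hη x₀ i s k hb'
      have g2 := side_GLU hp hA hη x₀ _ _ _ (nbr_GLU hA x₀ i s k hb')
      filter_upwards [g1, g2] with x q1 q2
      rw [q1, q2]
      funext l u
      have hne : TT C i s ≠ TT C i (s + 1) := by
        intro h
        have := hinj h
        revert this
        fin_cases s <;> decide
      have hτ : tt (TT C (nb i s).1 (nb i s).2.1) (TT C (nb i s).1 ((nb i s).2.1 + 1))
          (β ^ (-(k + (nb i s).2.2)) * x) =
          1 - tt (TT C i s) (TT C i (s + 1)) (β ^ (-k) * x) := by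
        rw [← tt_swap_GLU _ _ _ hne, ← tt_mul_GLU (β ^ (nb i s).2.2) _ _ _ (zpow_ne_zero _ hβ),
          ← hA.tiling.nb1 i s, ← hA.tiling.nb2 i s]
        congr 1
        rw [← mul_assoc, ← zpow_add₀ hβ]
        congr 2
        ring
      have hph : ph (1 - tt (TT C i s) (TT C i (s + 1)) (β ^ (-k) * x)) =
          1 - ph (tt (TT C i s) (TT C i (s + 1)) (β ^ (-k) * x)) := by
        have := hp.2.2.2.2 (tt (TT C i s) (TT C i (s + 1)) (β ^ (-k) * x))
        linarith
      rw [hτ, hph]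
      conv_lhs => rw [hA.edge i s]
      rw [row_GLU β hβ _ _ (hA.fok _ _)]
      congr 1
      · ring
      · rw [← mul_assoc, ← zpow_add₀ hβ]
        congr 2
        ring
  · obtain ⟨s', hc'⟩ := h22 x₀ i s k hc i' k' hi'
    have g1 := vert_GLU hp hA hη x₀ i s k hc
    have g2 := vert_GLU hp hA hη x₀ i' s' k' hc'
    have hl : lab i s = lab i' s' + (k' - k) := by
      apply hA.vlab
      rw [← hc, ← hc', ← mul_assoc, ← zpow_add₀ hβ]
      congr 2
      ring
    filter_upwards [g1, g2] with x q1 q2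
    rw [q1, q2]
    funext l u
    unfold prow
    have hz : ∀ (n : ℤ), β ^ n * u = 0 ↔ u = 0 := by
      intro n
      rw [mul_eq_zero]
      constructor
      · rintro (h | h)
        · exact absurd h (zpow_ne_zero _ hβ)
        · exact h
      · exact Or.inr
    have e1 : (l - k = lab i s) ↔ (l - k' = lab i' s') := by omega
    simp only [hz, e1]

end Pool.Agent.Helper54.TRI
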