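import Pool.Agent.Helper54.TRI.St4

/-! Project TRI, module GP. -/

set_option autoImplicit false

open Set Filter Topology

noncomputable section

namespace Pool.Agent.Helper54.TRI

theorem m_GP (hi : StIG) (hk : StKP) : StGP := by
  intro α hα X t h
  simp only [Cert.okL, Bool.and_eq_true, decide_eq_true_eq] at h
  obtain ⟨h1, h2⟩ := h
  obtain ⟨hok, hrow⟩ := hk (Gam α X.D) (X.ptr α t) (X.lz t.1) ((hi α hα X.D).2.1 _)
  refine ⟨hok, ?_, ?_, ?_⟩
  · intro a s r _ _
    exact hrow a _
  · intro a s
    have e : X.lz (trv ((CD.P t).tr a.val) s) = X.lz t.1 := by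
      change X.lz (trv t s) = X.lz t.1
      unfold trv
      split_ifs
      · rfl
      · exact h1
      · exact h2
    rw [e]
    exact hrow a _
  · intro a s
    trivial

end Pool.Agent.Helper54.TRI
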