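import Pool.Agent.Helper54.TRI.St4

/-! # Project TRI: module GT (tetrahedral clusters of a certificate) -/

set_option autoImplicit false

open Set Filter Topology

noncomputable section

namespace Pool.Agent.Helper54.TRI

private theorem ofNat_GT (a : Fin 4) : (Fin.ofNat 4 a.val : Fin 4) = a := by
  apply Fin.ext
  simp

private theorem sT_GT (a : Fin 4) : Cert.sT a * Cert.sT a = 1 := by
  unfold Cert.sT
  split_ifs <;> norm_num

theorem m_GT (he : StEM) (hi : StIG) (hk : StKT) : StGT := by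
  intro α hα X t0 t1 t2 t3 hok
  obtain ⟨he1, -⟩ := he
  obtain ⟨-, hsub, -, -, hinj⟩ := he1 α hα
  obtain ⟨hG, -, -, -⟩ := hi α hα X.D
  simp only [Cert.okL, Bool.and_eq_true, decide_eq_true_eq] at hok
  obtain ⟨hl, hd, hg⟩ := hok
  have winj : Function.Injective (fun a : Fin 4 => emb α (X.wz (.T t0 t1 t2 t3) a.val)) := by
    intro a b hab
    by_contra hne
    exact (hd a b hne).2 (hinj hab)
  have Linj : Function.Injective (X.LT (.T t0 t1 t2 t3)) := by
    intro a b hab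
    by_contra hne
    exact (hd a b hne).1 hab
  have hΓ : ∀ a b m : Fin 4, a ≠ m → b ≠ m → Gam α X.D (X.LT (.T t0 t1 t2 t3) m)
      (emb α (X.wz (.T t0 t1 t2 t3) b.val) - emb α (X.wz (.T t0 t1 t2 t3) a.val)) := by
    intro a b m ha hb
    rw [← hsub]
    exact hG _ _ (hg a b m ha hb)
  obtain ⟨k1, k2, k3, k4⟩ := hk (Gam α X.D) (X.ptr α t0)
    (fun a : Fin 4 => emb α (X.wz (.T t0 t1 t2 t3) a.val)) (X.LT (.T t0 t1 t2 t3)) Cert.sT
    winj Linj sT_GT hΓ
  have hE : ∀ (a : Fin 4) (s : Fin 3), (X.zf (.T t0 t1 t2 t3) a.val s).toEF α =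
      fT (fun a : Fin 4 => emb α (X.wz (.T t0 t1 t2 t3) a.val)) (X.LT (.T t0 t1 t2 t3)) Cert.sT a s := by
    intro a s
    simp only [Cert.zf, ZF.toEF, fT, ofNat_GT, hsub]
  refine ⟨k1, ?_, ?_, ?_⟩
  · intro a s t h0 h1
    have := hE a s
    rw [this]
    exact k2 a s t h0 h1
  · intro a s
    have h1 : X.lz (trv ((CD.T t0 t1 t2 t3).tr a.val) s) =
      X.LT (.T t0 t1 t2 t3) (inv4 s a) := hl a s
    rw [h1]
    exact k3 a s
  · intro a s
    have := hE a s
    rw [this]
    exact k4 a s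

end Pool.Agent.Helper54.TRI
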