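import Pool.Agent.Helper54.TRI.St4

/-! Project TRI, module GW. -/

set_option autoImplicit false

open Set Filter Topology

noncomputable section

namespace Pool.Agent.Helper54.TRI

private theorem forms_GW (α : ℂ) (X : Cert) (e : ℤ) (t0 t1 : Tr)
    (hneg : ∀ u, emb α (negz u) = - emb α u) (a : Fin 2) (s : Fin 3) :
    (X.zf (.W e t0 t1) a.val s).toEF α =
      fW (emb α (subz (X.vz t1.1) (X.vz t0.1))) (X.lz t0.1) (X.lz t1.1)
        (fun s => decide (X.lz (trv t0 s) = X.lz t0.1)) (e : ℝ) a s := by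
  have hc : ((-e : ℤ) : ℝ) = -(e : ℝ) := by push_cast; rfl
  fin_cases a
  · simp only [Cert.zf, fW, Fin.zero_eta, Fin.val_zero, if_true]
    by_cases h0 : X.lz (trv t0 s) = X.lz t0.1 <;>
      by_cases h1 : X.lz (trv t0 (s + 1)) = X.lz t0.1 <;>
      simp [h0, h1, ZF.toEF, hc]
  · simp only [Cert.zf, fW, Fin.mk_one, Fin.val_one, one_ne_zero, if_false]
    by_cases h0 : X.lz (trv t0 s) = X.lz t0.1 <;>
      by_cases h1 : X.lz (trv t0 (s + 1)) = X.lz t0.1 <;>
      simp [h0, h1, ZF.toEF, hc, hneg]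

theorem m_GW (he : StEM) (hi : StIG) (hk : StKW) : StGW := by
  intro α hα X e t0 t1 hok
  simp only [Cert.okL, Bool.and_eq_true, decide_eq_true_eq] at hok
  obtain ⟨hij, hee, hv, hGi, hGj, h1, h2⟩ := hok
  obtain ⟨-, hsub, hneg, h0, hinj⟩ := he.1 α hα
  obtain ⟨hG, hG0, hGneg, -⟩ := hi α hα X.D
  have hvne : emb α (subz (X.vz t1.1) (X.vz t0.1)) ≠ 0 := fun h => hv (hinj (by rw [h, h0]))
  have hee' : (e : ℝ) * e = 1 := by exact_mod_cast hee
  obtain ⟨k1, k2, k3, k4⟩ := hk (Gam α X.D) (X.ptr α t0) (emb α (subz (X.vz t1.1) (X.vz t0.1)))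
    (X.lz t0.1) (X.lz t1.1) (fun s => decide (X.lz (trv t0 s) = X.lz t0.1)) (e : ℝ) hvne hij hee'
    (hG0 _) (hG0 _) (hG _ _ hGi) (hG _ _ hGj) (hGneg _ _ (hG _ _ hGi)) (hGneg _ _ (hG _ _ hGj))
  refine ⟨k1, ?_, ?_, ?_⟩
  · intro a s t ht0 ht1
    rw [forms_GW α X e t0 t1 hneg a s]
    exact k2 a s t ht0 ht1
  · intro a s
    refine (k3 a s).trans ?_
    congr 1
    have hlab : ∀ (a : Fin 2) (s : Fin 3), (if (a = 0) =
        ((decide (X.lz (trv t0 s) = X.lz t0.1)) = true) then X.lz t0.1 else X.lz t1.1) =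
        X.lz (trv ((CD.W e t0 t1).tr a.val) s) := by
      intro a s
      have hs1 : s = 0 → X.lz (trv t0 s) = X.lz t0.1 ∧ X.lz (trv t1 s) = X.lz t1.1 := by
        rintro rfl; exact ⟨rfl, rfl⟩
      have hs2 : s = 1 → (X.lz (trv t0 s) = X.lz t0.1 ∧ X.lz (trv t1 s) = X.lz t1.1) ∨
          (X.lz (trv t0 s) = X.lz t1.1 ∧ X.lz (trv t1 s) = X.lz t0.1) := by
        rintro rfl; exact h1
      have hs3 : s = 2 → (X.lz (trv t0 s) = X.lz t0.1 ∧ X.lz (trv t1 s) = X.lz t1.1) ∨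
          (X.lz (trv t0 s) = X.lz t1.1 ∧ X.lz (trv t1 s) = X.lz t0.1) := by
        rintro rfl; exact h2
      have hs : (X.lz (trv t0 s) = X.lz t0.1 ∧ X.lz (trv t1 s) = X.lz t1.1) ∨
          (X.lz (trv t0 s) = X.lz t1.1 ∧ X.lz (trv t1 s) = X.lz t0.1) := by
        fin_cases s
        · exact Or.inl (hs1 rfl)
        · exact hs2 rfl
        · exact hs3 rfl
      fin_cases a
      · simp only [CD.tr, Fin.zero_eta, Fin.val_zero, if_true, decide_eq_true_eq]
        rcases hs with ⟨p, q⟩ | ⟨p, q⟩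
        · rw [p]; simp
        · have : ¬ X.lz t1.1 = X.lz t0.1 := fun h => hij h.symm
          rw [p]; simp [this]
      · simp only [CD.tr, Fin.mk_one, Fin.val_one, one_ne_zero, if_false, decide_eq_true_eq]
        rcases hs with ⟨p, q⟩ | ⟨p, q⟩
        · rw [p, q]; simp
        · have : ¬ X.lz t1.1 = X.lz t0.1 := fun h => hij h.symm
          rw [p, q]; simp [this]
    exact hlab a s
  · intro a s
    rw [forms_GW α X e t0 t1 hneg a s]
    exact k4 a s

end Pool.Agent.Helper54.TRI
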