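import Pool.Agent.Helper54.TRI.St4

/-!
# Project TRI, module IG: lattice test
-/

set_option autoImplicit false

open Set Filter Topology

noncomputable section

namespace Pool.Agent.Helper54.TRI

theorem m_IG (he : StEM) : StIG := by
  intro α hα D
  obtain ⟨h1, -, -, -, -⟩ := he.1 α hα
  have hα0 : α ≠ 0 := by
    intro h
    have := hα.im
    rw [h] at this
    simp at this
  have hi0 : α⁻¹ ≠ 0 := inv_ne_zero hα0
  refine ⟨?_, ?_, ?_, ?_⟩
  · intro l v hv
    simp only [inG, Bool.and_eq_true, decide_eq_true_eq] at hv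
    obtain ⟨g2, g0, g1⟩ := hv
    obtain ⟨m, hm⟩ := Int.dvd_of_emod_eq_zero g0
    obtain ⟨n, hn⟩ := Int.dvd_of_emod_eq_zero g1
    refine ⟨m, n, ?_⟩
    have h := h1 (-l) v
    have h2 : emb α (Bp (-l) v) = (D : ℂ) * ((m : ℂ) + (n : ℂ) * α) := by
      rw [emb, g2, hm, hn]
      push_cast
      ring
    rw [← h2, h, ← mul_assoc, ← zpow_add₀ hi0]
    simp
  · intro l
    exact ⟨0, 0, by simp⟩
  · rintro l u ⟨m, n, rfl⟩
    refine ⟨-m, -n, ?_⟩
    push_cast
    ring
  · rintro l k u ⟨m, n, rfl⟩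
    refine ⟨m, n, ?_⟩
    rw [zpow_add₀ hi0]
    ring

end Pool.Agent.Helper54.TRI
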