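import Pool.Agent.Helper54.TRI.St3

set_option autoImplicit false

open Set Filter Topology

noncomputable section

namespace Pool.Agent.Helper54.TRI

theorem m_KP : StKP := by
  intro Γ P l hΓ
  refine ⟨⟨?_, ?_, ?_, ?_, ?_, ?_, ?_⟩, ?_⟩
  · intro a b _
    exact Subsingleton.elim (α := Fin 1) a b
  · intro l' z
    show Matrix.transpose (if l' = l then (1 : Matrix (Fin 1) (Fin 1) ℝ) else 0) =
      if l' = l then 1 else 0
    split_ifs <;> simp
  · intro l' z _
    show (if l' = l then (1 : Matrix (Fin 1) (Fin 1) ℝ) else 0) *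
      (if l' = l then (1 : Matrix (Fin 1) (Fin 1) ℝ) else 0) = if l' = l then 1 else 0
    split_ifs <;> simp
  · intro l' hl' z
    have h : l' ≠ l := fun h => hl' (Finset.mem_singleton.mpr h)
    show (if l' = l then (1 : Matrix (Fin 1) (Fin 1) ℝ) else 0) = 0
    rw [if_neg h]
  · intro z _
    show ∑ l' ∈ ({l} : Finset ℤ), (if l' = l then (1 : Matrix (Fin 1) (Fin 1) ℝ) else 0) = 1
    simp
  · intro l' z _ a b h
    have hl : l' = l := by
      by_contra hne
      apply h
      show (if l' = l then (1 : Matrix (Fin 1) (Fin 1) ℝ) else 0) a b = 0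
      rw [if_neg hne]
      rfl
    show Γ l' ((0 : ℂ) - 0)
    rw [hl, sub_zero]
    exact hΓ
  · intro l' a b z _
    exact contDiffAt_const
  · intro a z
    funext l' u
    unfold crow prow
    show (∑ b : Fin 1, if u = (0 : ℂ) - 0 then
      (if l' = l then (1 : Matrix (Fin 1) (Fin 1) ℝ) else 0) a b else 0) =
      if l' = l ∧ u = 0 then 1 else 0
    have ha : a = (0 : Fin 1) := Subsingleton.elim (α := Fin 1) a 0
    subst ha
    rw [Fin.sum_univ_one, sub_zero]
    by_cases h1 : l' = l <;> by_cases h2 : u = 0 <;> simp [h1, h2]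

end Pool.Agent.Helper54.TRI
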