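import Pool.Agent.Helper54.TRI.St3

set_option autoImplicit false

open Set Filter Topology Matrix
open scoped ContDiff

noncomputable section

namespace Pool.Agent.Helper54.TRI

/-- explicit entries -/
private theorem UU_val_KT (u : Fin 3 → ℝ) (m a : Fin 4) :
    UU u m a = (!![0, -(u 0), -(u 2), -(u 1); u 0, 0, -(u 1), u 2; u 2, u 1, 0, -(u 0); u 1, -(u 2), u 0, 0] :
      Matrix (Fin 4) (Fin 4) ℝ) a m := by
  fin_cases m <;> fin_cases a <;> simp [UU, inv4, sU, Fin.sum_univ_three]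

private theorem UU_row_KT (u : Fin 3 → ℝ) (hu : ∑ s, u s ^ 2 = 1) (m m' : Fin 4) :
    ∑ a, UU u m a * UU u m' a = if m = m' then 1 else 0 := by
  rw [Fin.sum_univ_three] at hu
  simp only [UU_val_KT]
  fin_cases m <;> fin_cases m' <;> simp [Fin.sum_univ_four] <;> linarith

private theorem UU_col_KT (u : Fin 3 → ℝ) (hu : ∑ s, u s ^ 2 = 1) (a b : Fin 4) :
    ∑ m, UU u m a * UU u m b = if a = b then 1 else 0 := by
  rw [Fin.sum_univ_three] at hu
  simp only [UU_val_KT]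
  fin_cases a <;> fin_cases b <;> simp [Fin.sum_univ_four] <;> linarith

private theorem sum4_KT (f : Fin 4 → ℝ) (a : Fin 4) (s : Fin 3) :
    ∑ b, f b = f a + f (inv4 s a) + f (inv4 (s + 1) a) + f (inv4 (s + 2) a) := by
  fin_cases a <;> fin_cases s <;> simp [Fin.sum_univ_four, inv4] <;> ring

private theorem UU_side_KT (u : Fin 3 → ℝ) (s : Fin 3) (hu : u (s + 2) = 0) (m a : Fin 4) :
    UU u m a = (if inv4 s a = m then (sU m a : ℝ) * u s else 0) +
      (if inv4 (s + 1) a = m then (sU m a : ℝ) * u (s + 1) else 0) := by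
  have h : UU u m a = (if inv4 s a = m then (sU m a : ℝ) * u s else 0) +
      (if inv4 (s + 1) a = m then (sU m a : ℝ) * u (s + 1) else 0) +
      (if inv4 (s + 2) a = m then (sU m a : ℝ) * u (s + 2) else 0) := by
    rw [UU, Fin.sum_univ_three]
    fin_cases s <;> simp <;> ring
  rw [h, hu, mul_zero, ite_self, add_zero]

private theorem UU_diag_KT (u : Fin 3 → ℝ) (a : Fin 4) : UU u a a = 0 := by
  rw [UU_val_KT]
  fin_cases a <;> simp

/-- entries on the side `s` -/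
private theorem UU_tab_KT (u : Fin 3 → ℝ) (s : Fin 3) (hu : u (s + 2) = 0) (a : Fin 4) :
    UU u (inv4 s a) a = (sU (inv4 s a) a : ℝ) * u s ∧
    UU u (inv4 s a) (inv4 (s + 1) a) = 0 ∧
    UU u (inv4 s a) (inv4 (s + 2) a) = (sU (inv4 s a) (inv4 (s + 2) a) : ℝ) * u (s + 1) ∧
    UU u (inv4 (s + 1) a) a = (sU (inv4 (s + 1) a) a : ℝ) * u (s + 1) ∧
    UU u (inv4 (s + 1) a) (inv4 s a) = 0 ∧
    UU u (inv4 (s + 1) a) (inv4 (s + 2) a) = (sU (inv4 (s + 1) a) (inv4 (s + 2) a) : ℝ) * u s ∧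
    UU u (inv4 (s + 2) a) a = 0 := by
  have d1 : ∀ (s : Fin 3) (a : Fin 4), inv4 (s + 1) a ≠ inv4 s a := by decide
  have d2 : ∀ (s : Fin 3) (a : Fin 4), inv4 s (inv4 (s + 1) a) ≠ inv4 s a ∧
    inv4 (s + 1) (inv4 (s + 1) a) ≠ inv4 s a := by decide
  have d3 : ∀ (s : Fin 3) (a : Fin 4), inv4 s (inv4 (s + 2) a) ≠ inv4 s a ∧
    inv4 (s + 1) (inv4 (s + 2) a) = inv4 s a := by decide
  have d5 : ∀ (s : Fin 3) (a : Fin 4), inv4 s (inv4 s a) ≠ inv4 (s + 1) a ∧
    inv4 (s + 1) (inv4 s a) ≠ inv4 (s + 1) a := by decide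
  have d6 : ∀ (s : Fin 3) (a : Fin 4), inv4 s (inv4 (s + 2) a) = inv4 (s + 1) a ∧
    inv4 (s + 1) (inv4 (s + 2) a) ≠ inv4 (s + 1) a := by decide
  have d7 : ∀ (s : Fin 3) (a : Fin 4), inv4 s a ≠ inv4 (s + 2) a ∧
    inv4 (s + 1) a ≠ inv4 (s + 2) a := by decide
  refine ⟨?_, ?_, ?_, ?_, ?_, ?_, ?_⟩
  · rw [UU_side_KT u s hu, if_pos rfl, if_neg (d1 s a), add_zero]
  · rw [UU_side_KT u s hu, if_neg (d2 s a).1, if_neg (d2 s a).2, add_zero]
  · rw [UU_side_KT u s hu, if_neg (d3 s a).1, if_pos (d3 s a).2, zero_add]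
  · rw [UU_side_KT u s hu, if_neg (d1 s a).symm, if_pos rfl, zero_add]
  · rw [UU_side_KT u s hu, if_neg (d5 s a).1, if_neg (d5 s a).2, add_zero]
  · rw [UU_side_KT u s hu, if_pos (d6 s a).1, if_neg (d6 s a).2, add_zero]
  · rw [UU_side_KT u s hu, if_neg (d7 s a).1, if_neg (d7 s a).2, add_zero]

/-- the matrix of the label `L m` -/
private theorem M_eq_KT (P : Fin 3 → ℂ) (w : Fin 4 → ℂ) (L σ : Fin 4 → ℤ) (hL : Function.Injective L)
    (m : Fin 4) (z : Fin 3 → ℝ) (a b : Fin 4) :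
    (clT P w L σ).M (L m) z a b = (σ a : ℝ) * (σ b : ℝ) * (UU (FF z) m a * UU (FF z) m b) := by
  show (∑ m', if L m' = L m then (σ a : ℝ) * (σ b : ℝ) * (UU (FF z) m' a * UU (FF z) m' b) else 0) = _
  rw [Finset.sum_eq_single m]
  · rw [if_pos rfl]
  · intro m' _ hm'
    rw [if_neg (fun h => hm' (hL h))]
  · intro h; exact absurd (Finset.mem_univ _) h

private theorem M_ne_KT (P : Fin 3 → ℂ) (w : Fin 4 → ℂ) (L σ : Fin 4 → ℤ)
    (l : ℤ) (hl : ∀ m, L m ≠ l) (z : Fin 3 → ℝ) : (clT P w L σ).M l z = 0 := by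
  ext a b
  show (∑ m', if L m' = l then (σ a : ℝ) * (σ b : ℝ) * (UU (FF z) m' a * UU (FF z) m' b) else 0) = 0
  refine Finset.sum_eq_zero fun m _ => ?_
  rw [if_neg (hl m)]

private theorem clusOK_KT (hf : StFF) (Γ : ℤ → ℂ → Prop) (P : Fin 3 → ℂ) (w : Fin 4 → ℂ)
    (L σ : Fin 4 → ℤ) (hw : Function.Injective w) (hL : Function.Injective L)
    (hσ : ∀ a, σ a * σ a = 1) (hΓ : ∀ a b m, a ≠ m → b ≠ m → Γ (L m) (w b - w a)) :
    ClusOK Γ (clT P w L σ) := by
  obtain ⟨hf1, hf2, hf3, hf4⟩ := hf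
  have hσr : ∀ a, (σ a : ℝ) * (σ a : ℝ) = 1 := fun a => by
    rw [← Int.cast_mul, hσ a, Int.cast_one]
  refine ⟨hw, ?_, ?_, ?_, ?_, ?_, ?_⟩
  · intro l z
    by_cases hl : ∃ m, L m = l
    · obtain ⟨m, rfl⟩ := hl
      ext a b
      rw [Matrix.transpose_apply]
      rw [M_eq_KT P w L σ hL m z b a, M_eq_KT P w L σ hL m z a b]
      ring
    · rw [M_ne_KT P w L σ l (fun m h => hl ⟨m, h⟩), Matrix.transpose_zero]
  · intro l z hz
    by_cases hl : ∃ m, L m = l
    · obtain ⟨m, rfl⟩ := hl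
      have h1 := UU_row_KT (FF z) (hf2 z hz) m m
      rw [if_pos rfl] at h1
      ext a c
      rw [Matrix.mul_apply]
      rw [M_eq_KT P w L σ hL m z a c]
      have : ∀ b : Fin 4, (clT P w L σ).M (L m) z a b * (clT P w L σ).M (L m) z b c =
          ((σ a : ℝ) * (σ c : ℝ) * (UU (FF z) m a * UU (FF z) m c)) *
            (UU (FF z) m b * UU (FF z) m b) := by
        intro b
        rw [M_eq_KT P w L σ hL m z a b, M_eq_KT P w L σ hL m z b c]
        linear_combination ((σ a : ℝ) * (σ c : ℝ) * (UU (FF z) m a * UU (FF z) m c) *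
            (UU (FF z) m b * UU (FF z) m b)) * hσr b
      show (∑ b : Fin 4, _) = _
      rw [Finset.sum_congr rfl fun b _ => this b, ← Finset.mul_sum, h1, mul_one]
    · rw [M_ne_KT P w L σ l (fun m h => hl ⟨m, h⟩), Matrix.mul_zero]
  · intro l hl z
    refine M_ne_KT P w L σ l (fun m h => hl ?_) z
    exact Finset.mem_image.2 ⟨m, Finset.mem_univ _, h⟩
  · intro z hz
    show ∑ l ∈ Finset.univ.image L, (clT P w L σ).M l z = 1
    rw [Finset.sum_image (fun x _ y _ h => hL h)]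
    refine Matrix.ext fun (a : Fin 4) (b : Fin 4) => ?_
    refine (Matrix.sum_apply (α := ℝ) (m := Fin 4) (n := Fin 4) a b Finset.univ
      (fun x => (clT P w L σ).M (L x) z)).trans ?_
    show _ = (1 : Matrix (Fin 4) (Fin 4) ℝ) a b
    rw [Finset.sum_congr rfl fun m _ => M_eq_KT P w L σ hL m z a b, ← Finset.mul_sum,
      UU_col_KT (FF z) (hf2 z hz) a b]
    by_cases hab : a = b
    · subst hab
      rw [if_pos rfl, mul_one, hσr a, Matrix.one_apply_eq]
    · rw [if_neg hab, mul_zero, Matrix.one_apply_ne hab]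
  · intro l z hz (a : Fin 4) (b : Fin 4) hne
    by_cases hl : ∃ m, L m = l
    · obtain ⟨m, rfl⟩ := hl
      rw [M_eq_KT P w L σ hL m z a b] at hne
      refine hΓ a b m ?_ ?_
      · rintro rfl
        apply hne
        rw [UU_diag_KT, zero_mul, mul_zero]
      · rintro rfl
        apply hne
        rw [UU_diag_KT, mul_zero, mul_zero]
    · exact absurd (by rw [M_ne_KT P w L σ l (fun m h => hl ⟨m, h⟩)]; rfl) hne
  · intro l a b z hz
    have hF : ∀ s, ContDiffAt ℝ ∞ (fun z => FF z s) z := fun s => contDiffAt_pi.1 (hf1 z hz) s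
    have hU : ∀ m a, ContDiffAt ℝ ∞ (fun z => UU (FF z) m a) z := by
      intro m a
      refine ContDiffAt.sum fun s _ => ?_
      by_cases h : inv4 s a = m
      · simp only [if_pos h]
        exact contDiffAt_const.mul (hF s)
      · simp only [if_neg h]
        exact contDiffAt_const
    show ContDiffAt ℝ ∞ (fun z => ∑ m', if L m' = l then (σ a : ℝ) * (σ b : ℝ) *
      (UU (FF z) m' a * UU (FF z) m' b) else 0) z
    refine ContDiffAt.sum fun m _ => ?_
    by_cases h : L m = l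
    · simp only [if_pos h]
      exact contDiffAt_const.mul ((hU m a).mul (hU m b))
    · simp only [if_neg h]
      exact contDiffAt_const

private theorem row_KT (hf : StFF) (P : Fin 3 → ℂ) (w : Fin 4 → ℂ)
    (L σ : Fin 4 → ℤ) (hw : Function.Injective w) (hL : Function.Injective L)
    (hσ : ∀ a, σ a * σ a = 1) (a : Fin 4) (s : Fin 3) (t : ℝ) (h0 : 0 ≤ t) (h1 : t ≤ 1) :
    crow (clT P w L σ) a (ez s t) = (fT w L σ a s).row t := by
  obtain ⟨hf1, hf2, hf3, hf4⟩ := hf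
  obtain ⟨hc, hs, hz⟩ := hf3 s t h0 h1
  have hσr : ∀ a, (σ a : ℝ) * (σ a : ℝ) = 1 := fun a => by
    rw [← Int.cast_mul, hσ a, Int.cast_one]
  obtain ⟨t1, t2, t3, t4, t5, t6, t7⟩ := UU_tab_KT (FF (ez s t)) s hz a
  rw [hc] at t1 t6
  rw [hs] at t3 t4
  have e1 : ∀ (s : Fin 3) (a : Fin 4), sU (inv4 s a) a * sU (inv4 s a) a = 1 ∧
    sU (inv4 (s + 1) a) a * sU (inv4 (s + 1) a) a = 1 ∧
    sU (inv4 (s + 1) a) a * sU (inv4 (s + 1) a) (inv4 (s + 2) a) =
      - (sU (inv4 s a) a * sU (inv4 s a) (inv4 (s + 2) a)) := by decide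
  obtain ⟨e1, e2, e3⟩ := e1 s a
  have e1r : (sU (inv4 s a) a : ℝ) * (sU (inv4 s a) a : ℝ) = 1 := by exact_mod_cast e1
  have e2r : (sU (inv4 (s + 1) a) a : ℝ) * (sU (inv4 (s + 1) a) a : ℝ) = 1 := by exact_mod_cast e2
  have e3r : (sU (inv4 (s + 1) a) a : ℝ) * (sU (inv4 (s + 1) a) (inv4 (s + 2) a) : ℝ) =
      - ((sU (inv4 s a) a : ℝ) * (sU (inv4 s a) (inv4 (s + 2) a) : ℝ)) := by exact_mod_cast e3
  have hka : ∀ (s : Fin 3) (a : Fin 4), inv4 (s + 2) a ≠ a := by decide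
  have hv : w (inv4 (s + 2) a) - w a ≠ 0 := fun h => hka s a (hw (sub_eq_zero.1 h))
  have hall : ∀ (s : Fin 3) (a m : Fin 4), m = inv4 s a ∨ m = inv4 (s + 1) a ∨ m = inv4 (s + 2) a ∨ m = a := by
    decide
  have hij : ∀ (s : Fin 3) (a : Fin 4), inv4 s a ≠ inv4 (s + 1) a ∧ inv4 (s + 2) a ≠ inv4 s a ∧
    inv4 (s + 2) a ≠ inv4 (s + 1) a ∧ a ≠ inv4 s a ∧ a ≠ inv4 (s + 1) a := by decide
  obtain ⟨q1, q2, q3, q4, q5⟩ := hij s a
  ext l u
  have hcr : crow (clT P w L σ) a (ez s t) l u =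
      (if u = 0 then (clT P w L σ).M l (ez s t) a a else 0) +
      (if u = w (inv4 s a) - w a then (clT P w L σ).M l (ez s t) a (inv4 s a) else 0) +
      (if u = w (inv4 (s + 1) a) - w a then (clT P w L σ).M l (ez s t) a (inv4 (s + 1) a) else 0) +
      (if u = w (inv4 (s + 2) a) - w a then (clT P w L σ).M l (ez s t) a (inv4 (s + 2) a) else 0) := by
    have := sum4_KT (fun b => if u = w b - w a then (clT P w L σ).M l (ez s t) a b else 0) a s
    simp only [sub_self] at this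
    exact this
  rw [hcr]
  by_cases hl : ∃ m, L m = l
  · obtain ⟨m, rfl⟩ := hl
    simp only [M_eq_KT P w L σ hL m]
    rcases hall s a m with rfl | rfl | rfl | rfl
    · rw [t1, t2, UU_diag_KT, t3]
      show _ = (if L (inv4 s a) = L (inv4 s a) then _ else _)
      rw [if_pos rfl]
      by_cases hu : u = 0
      · subst hu
        rw [if_pos rfl, if_pos rfl, if_neg hv.symm]
        simp only [mul_zero, ite_self, add_zero]
        linear_combination (Real.cos (Real.pi / 2 * t) ^ 2 * ((sU (inv4 s a) a : ℝ) * (sU (inv4 s a) a : ℝ))) * hσr a +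
          Real.cos (Real.pi / 2 * t) ^ 2 * e1r
      · rw [if_neg hu, if_neg hu]
        simp only [mul_zero, ite_self, zero_add, add_zero]
        by_cases hu2 : u = w (inv4 (s + 2) a) - w a
        · rw [if_pos hu2, if_pos hu2]
          push_cast
          ring
        · rw [if_neg hu2, if_neg hu2]
    · rw [t4, t5, UU_diag_KT, t6]
      show _ = (if L (inv4 (s + 1) a) = L (inv4 s a) then _ else if L (inv4 (s + 1) a) = L (inv4 (s + 1) a) then _ else _)
      rw [if_neg (fun h => q1 (hL h).symm), if_pos rfl]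
      by_cases hu : u = 0
      · subst hu
        rw [if_pos rfl, if_pos rfl, if_neg hv.symm]
        simp only [mul_zero, ite_self, add_zero]
        linear_combination (Real.sin (Real.pi / 2 * t) ^ 2 * ((sU (inv4 (s + 1) a) a : ℝ) * (sU (inv4 (s + 1) a) a : ℝ))) * hσr a +
          Real.sin (Real.pi / 2 * t) ^ 2 * e2r
      · rw [if_neg hu, if_neg hu]
        simp only [mul_zero, ite_self, zero_add, add_zero]
        by_cases hu2 : u = w (inv4 (s + 2) a) - w a
        · rw [if_pos hu2, if_pos hu2]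
          push_cast
          linear_combination ((σ a : ℝ) * (σ (inv4 (s + 2) a) : ℝ) * Real.cos (Real.pi / 2 * t) *
            Real.sin (Real.pi / 2 * t)) * e3r
        · rw [if_neg hu2, if_neg hu2]
    · rw [t7]
      show _ = (if L (inv4 (s + 2) a) = L (inv4 s a) then _ else if L (inv4 (s + 2) a) = L (inv4 (s + 1) a) then _ else _)
      rw [if_neg (fun h => q2 (hL h)), if_neg (fun h => q3 (hL h))]
      simp
    · rw [UU_diag_KT]
      show _ = (if L m = L (inv4 s m) then _ else if L m = L (inv4 (s + 1) m) then _ else _)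
      rw [if_neg (fun h => q4 (hL h)), if_neg (fun h => q5 (hL h))]
      simp
  · have hM : ∀ b : Fin 4, (clT P w L σ).M l (ez s t) a b = 0 := fun b => by
      rw [M_ne_KT P w L σ l (fun m h => hl ⟨m, h⟩) (ez s t)]; rfl
    simp only [hM, ite_self, add_zero]
    show _ = (if l = L (inv4 s a) then _ else if l = L (inv4 (s + 1) a) then _ else _)
    rw [if_neg (fun h => hl ⟨_, h.symm⟩), if_neg (fun h => hl ⟨_, h.symm⟩)]

theorem m_KT (hf : StFF) : StKT := by
  intro Γ P w L σ hw hL hσ hΓ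
  have hij : ∀ (s : Fin 3) (a : Fin 4), inv4 s a ≠ inv4 (s + 1) a := by decide
  refine ⟨clusOK_KT hf Γ P w L σ hw hL hσ hΓ, fun a s t h0 h1 => row_KT hf P w L σ hw hL hσ a s t h0 h1, ?_, ?_⟩
  · intro a s
    have hez : (Pi.single s 1 : Fin 3 → ℝ) = ez s 0 := by
      ext i
      by_cases h : i = s
      · subst h
        simp [ez]
      · simp [ez, h]
    rw [hez, row_KT hf P w L σ hw hL hσ a s 0 le_rfl zero_le_one]
    ext l u
    show (if l = L (inv4 s a) then _ else if l = L (inv4 (s + 1) a) then _ else _) = if _ then _ else _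
    simp only [mul_zero, Real.cos_zero, Real.sin_zero, one_pow, neg_zero, ite_self]
    by_cases h1 : l = L (inv4 s a)
    · rw [if_pos h1]
      by_cases h2 : u = 0
      · rw [if_pos h2, if_pos ⟨h1, h2⟩]
      · rw [if_neg h2, if_neg (fun h => h2 h.2)]
    · rw [if_neg h1]
      simp [h1]
  · intro a s
    exact fun h => hij s a (hL h)

end Pool.Agent.Helper54.TRI
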