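import Pool.Agent.Helper54.TRI.St3

/-!
# Project TRI, module KW: wall clusters
-/

set_option autoImplicit false

open Set Filter Topology Matrix
open scoped ContDiff

noncomputable section

namespace Pool.Agent.Helper54.TRI

private theorem wang_ez (b : Fin 3 → Bool) (s : Fin 3) (t : ℝ) :
    wang b (ez s t) = Real.pi / 2 * ((if b s = true then 1 - t else 0) +
      (if b (s + 1) = true then t else 0)) := by
  unfold wang
  congr 1
  fin_cases s
  · simp [Fin.sum_univ_three, ez]
  · simp [Fin.sum_univ_three, ez]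
  · simp [Fin.sum_univ_three, ez]
    exact add_comm _ _

private theorem wang_smooth (b : Fin 3 → Bool) (z : Fin 3 → ℝ) :
    ContDiffAt ℝ ∞ (wang b) z := by
  unfold wang
  refine contDiffAt_const.mul (ContDiffAt.sum fun s _ => ?_)
  by_cases h : b s = true
  · simp only [if_pos h]
    exact contDiffAt_apply ℝ ℝ s z
  · simp only [if_neg h]
    exact contDiffAt_const

private theorem ez_zero (s : Fin 3) : (Pi.single s 1 : Fin 3 → ℝ) = ez s 0 := by
  funext i
  unfold ez
  by_cases h : i = s
  · subst h; simp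
  · simp [h]

private def mW (i j : ℤ) (b : Fin 3 → Bool) (e : ℝ) (l : ℤ) (z : Fin 3 → ℝ) :
    Matrix (Fin 2) (Fin 2) ℝ :=
  if l = i then !![Real.sin (wang b z) ^ 2, e * (Real.sin (wang b z) * Real.cos (wang b z));
      e * (Real.sin (wang b z) * Real.cos (wang b z)), Real.cos (wang b z) ^ 2]
    else if l = j then !![Real.cos (wang b z) ^ 2, - (e * (Real.sin (wang b z) * Real.cos (wang b z)));
      - (e * (Real.sin (wang b z) * Real.cos (wang b z))), Real.sin (wang b z) ^ 2]
    else 0

private theorem mW_symm (i j : ℤ) (b : Fin 3 → Bool) (e : ℝ) (l : ℤ) (z : Fin 3 → ℝ) :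
    (mW i j b e l z)ᵀ = mW i j b e l z := by
  unfold mW
  split_ifs
  · ext a c; fin_cases a <;> fin_cases c <;> rfl
  · ext a c; fin_cases a <;> fin_cases c <;> rfl
  · exact Matrix.transpose_zero

private theorem mW_idem (i j : ℤ) (b : Fin 3 → Bool) (e : ℝ) (he : e * e = 1) (l : ℤ)
    (z : Fin 3 → ℝ) : mW i j b e l z * mW i j b e l z = mW i j b e l z := by
  have this : Real.sin (wang b z) ^ 2 + Real.cos (wang b z) ^ 2 = 1 := Real.sin_sq_add_cos_sq _
  unfold mW
  split_ifs
  · rw [Matrix.mul_fin_two]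
    congr 1
    ext a c
    fin_cases a <;> fin_cases c <;> simp
    · linear_combination (Real.sin (wang b z) ^ 2 * Real.cos (wang b z) ^ 2) * he +
        Real.sin (wang b z) ^ 2 * this
    · linear_combination (e * (Real.sin (wang b z) * Real.cos (wang b z))) * this
    · linear_combination (e * (Real.sin (wang b z) * Real.cos (wang b z))) * this
    · linear_combination (Real.sin (wang b z) ^ 2 * Real.cos (wang b z) ^ 2) * he +
        Real.cos (wang b z) ^ 2 * this
  · rw [Matrix.mul_fin_two]
    congr 1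
    ext a c
    fin_cases a <;> fin_cases c <;> simp
    · linear_combination (Real.sin (wang b z) ^ 2 * Real.cos (wang b z) ^ 2) * he +
        Real.cos (wang b z) ^ 2 * this
    · linear_combination (-(e * (Real.sin (wang b z) * Real.cos (wang b z)))) * this
    · linear_combination (-(e * (Real.sin (wang b z) * Real.cos (wang b z)))) * this
    · linear_combination (Real.sin (wang b z) ^ 2 * Real.cos (wang b z) ^ 2) * he +
        Real.sin (wang b z) ^ 2 * this
  · exact Matrix.zero_mul _

private theorem mW_zero (i j : ℤ) (b : Fin 3 → Bool) (e : ℝ) (l : ℤ) (hl : l ∉ ({i, j} : Finset ℤ))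
    (z : Fin 3 → ℝ) : mW i j b e l z = 0 := by
  rw [Finset.mem_insert, Finset.mem_singleton, not_or] at hl
  unfold mW
  rw [if_neg hl.1, if_neg hl.2]

private theorem mW_sum (i j : ℤ) (hij : i ≠ j) (b : Fin 3 → Bool) (e : ℝ) (z : Fin 3 → ℝ) :
    ∑ l ∈ ({i, j} : Finset ℤ), mW i j b e l z = 1 := by
  have this : Real.sin (wang b z) ^ 2 + Real.cos (wang b z) ^ 2 = 1 := Real.sin_sq_add_cos_sq _
  rw [Finset.sum_pair hij]
  unfold mW
  rw [if_pos rfl, if_neg hij.symm, if_pos rfl]
  ext a c
  fin_cases a <;> fin_cases c <;> simp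

private theorem mW_loc (Γ : ℤ → ℂ → Prop) (v : ℂ) (i j : ℤ) (b : Fin 3 → Bool)
    (e : ℝ) (h1 : Γ i 0) (h2 : Γ j 0) (h3 : Γ i v)
    (h4 : Γ j v) (h5 : Γ i (-v)) (h6 : Γ j (-v)) (l : ℤ) (z : Fin 3 → ℝ) (a c : Fin 2)
    (hne : mW i j b e l z a c ≠ 0) : Γ l ((![0, v] : Fin 2 → ℂ) c - (![0, v] : Fin 2 → ℂ) a) := by
  have hl : l = i ∨ l = j := by
    by_contra hcon
    rw [not_or] at hcon
    apply hne
    rw [mW_zero i j b e l (by
      rw [Finset.mem_insert, Finset.mem_singleton, not_or]; exact hcon)]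
    rfl
  rcases hl with rfl | rfl
  · fin_cases a <;> fin_cases c <;> simp <;> assumption
  · fin_cases a <;> fin_cases c <;> simp <;> assumption

private theorem mW_smooth (i j : ℤ) (b : Fin 3 → Bool) (e : ℝ) (l : ℤ) (a c : Fin 2)
    (z : Fin 3 → ℝ) : ContDiffAt ℝ ∞ (fun z => mW i j b e l z a c) z := by
  have hs : ContDiffAt ℝ ∞ (fun z => Real.sin (wang b z)) z :=
    Real.contDiff_sin.contDiffAt.comp z (wang_smooth b z)
  have hc : ContDiffAt ℝ ∞ (fun z => Real.cos (wang b z)) z :=
    Real.contDiff_cos.contDiffAt.comp z (wang_smooth b z)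
  unfold mW
  by_cases hli : l = i
  · simp only [if_pos hli]
    fin_cases a <;> fin_cases c
    · exact hs.pow 2
    · exact contDiffAt_const.mul (hs.mul hc)
    · exact contDiffAt_const.mul (hs.mul hc)
    · exact hc.pow 2
  · by_cases hlj : l = j
    · simp only [if_neg hli, if_pos hlj]
      fin_cases a <;> fin_cases c
      · exact hc.pow 2
      · exact (contDiffAt_const.mul (hs.mul hc)).neg
      · exact (contDiffAt_const.mul (hs.mul hc)).neg
      · exact hs.pow 2
    · simp only [if_neg hli, if_neg hlj]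
      exact contDiffAt_const

private theorem okW (Γ : ℤ → ℂ → Prop) (P : Fin 3 → ℂ) (v : ℂ) (i j : ℤ) (b : Fin 3 → Bool)
    (e : ℝ) (hv : v ≠ 0) (hij : i ≠ j) (he : e * e = 1) (h1 : Γ i 0) (h2 : Γ j 0) (h3 : Γ i v)
    (h4 : Γ j v) (h5 : Γ i (-v)) (h6 : Γ j (-v)) : ClusOK Γ (clW P v i j b e) where
  inj := by
    show Function.Injective (![0, v] : Fin 2 → ℂ)
    intro a c hac
    fin_cases a <;> fin_cases c
    · rfl
    · exact absurd (by simpa using hac : (0 : ℂ) = v) hv.symm
    · exact absurd (by simpa using hac : v = 0) hv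
    · rfl
  symm := fun l z => mW_symm i j b e l z
  idem := fun l z _ => mW_idem i j b e he l z
  zero := fun l hl z => mW_zero i j b e l hl z
  sum := fun z _ => mW_sum i j hij b e z
  loc := fun l z _ a c hne => mW_loc Γ v i j b e h1 h2 h3 h4 h5 h6 l z a c hne
  smooth := fun l a c z _ => mW_smooth i j b e l a c z

private theorem crow0 (P : Fin 3 → ℂ) (v : ℂ) (i j : ℤ) (b : Fin 3 → Bool) (e : ℝ)
    (z : Fin 3 → ℝ) (l : ℤ) (u : ℂ) :
    crow (clW P v i j b e) (0 : Fin 2) z l u =
      (if u = 0 then mW i j b e l z 0 0 else 0) +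
      (if u = v then mW i j b e l z 0 1 else 0) := by
  have : crow (clW P v i j b e) (0 : Fin 2) z l u =
    ∑ c : Fin 2, if u = (![0, v] : Fin 2 → ℂ) c - (![0, v] : Fin 2 → ℂ) 0 then
        mW i j b e l z 0 c else 0 := by
    unfold crow
    refine Finset.sum_congr rfl fun c _ => ?_
    congr
  rw [this, Fin.sum_univ_two]
  simp

private theorem crow1 (P : Fin 3 → ℂ) (v : ℂ) (i j : ℤ) (b : Fin 3 → Bool) (e : ℝ)
    (z : Fin 3 → ℝ) (l : ℤ) (u : ℂ) :
    crow (clW P v i j b e) (1 : Fin 2) z l u =
      (if u = -v then mW i j b e l z 1 0 else 0) +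
      (if u = 0 then mW i j b e l z 1 1 else 0) := by
  have : crow (clW P v i j b e) (1 : Fin 2) z l u =
    ∑ c : Fin 2, if u = (![0, v] : Fin 2 → ℂ) c - (![0, v] : Fin 2 → ℂ) 1 then
        mW i j b e l z 1 c else 0 := by
    unfold crow
    refine Finset.sum_congr rfl fun c _ => ?_
    congr
  rw [this, Fin.sum_univ_two]
  simp

private theorem two_ite (u v : ℂ) (hv : v ≠ 0) (A B : ℝ) :
    (if u = 0 then A else 0) + (if u = v then B else 0) =
      if u = 0 then A else if u = v then B else 0 := by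
  by_cases h0 : u = 0
  · subst h0
    simp [hv.symm]
  · simp [h0]

private theorem two_ite' (u v : ℂ) (hv : v ≠ 0) (A B : ℝ) :
    (if u = -v then B else 0) + (if u = 0 then A else 0) =
      if u = 0 then A else if u = -v then B else 0 := by
  rw [add_comm]
  exact two_ite u (-v) (neg_ne_zero.2 hv) A B

private theorem pr_eq (l l' : ℤ) (u v : ℂ) :
    prow l l' u = if u = 0 then (if l' = l then 1 else 0) else if u = v then 0 else 0 := by
  unfold prow
  by_cases h0 : u = 0 <;> by_cases h1 : l' = l <;> simp [h0, h1]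

private theorem wl_eq (i j : ℤ) (v : ℂ) (e t : ℝ) (l' : ℤ) (u : ℂ) :
    (EF.wall i j v e).row t l' u = if u = 0 then
      (if l' = i then Real.cos (Real.pi / 2 * t) ^ 2 else
        if l' = j then Real.sin (Real.pi / 2 * t) ^ 2 else 0)
      else if u = v then (if l' = i then e * (Real.cos (Real.pi / 2 * t) * Real.sin (Real.pi / 2 * t))
        else if l' = j then - (e * (Real.cos (Real.pi / 2 * t) * Real.sin (Real.pi / 2 * t))) else 0)
      else 0 := by
  show (if l' = i then (if u = 0 then Real.cos (Real.pi / 2 * t) ^ 2 else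
        if u = v then e * (Real.cos (Real.pi / 2 * t) * Real.sin (Real.pi / 2 * t)) else 0)
      else if l' = j then (if u = 0 then Real.sin (Real.pi / 2 * t) ^ 2 else
        if u = v then - (e * (Real.cos (Real.pi / 2 * t) * Real.sin (Real.pi / 2 * t))) else 0)
      else 0) = _
  by_cases h2 : l' = i
  · simp only [if_pos h2]
  · by_cases h3 : l' = j
    · simp only [if_neg h2, if_pos h3]
    · simp only [if_neg h2, if_neg h3]
      split_ifs <;> rfl

private theorem E00 (i j : ℤ) (b : Fin 3 → Bool) (e : ℝ) (l : ℤ) (z : Fin 3 → ℝ) :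
    mW i j b e l z 0 0 = if l = i then Real.sin (wang b z) ^ 2 else
      if l = j then Real.cos (wang b z) ^ 2 else 0 := by
  unfold mW
  split_ifs <;> rfl

private theorem E01 (i j : ℤ) (b : Fin 3 → Bool) (e : ℝ) (l : ℤ) (z : Fin 3 → ℝ) :
    mW i j b e l z 0 1 = if l = i then e * (Real.sin (wang b z) * Real.cos (wang b z)) else
      if l = j then -(e * (Real.sin (wang b z) * Real.cos (wang b z))) else 0 := by
  unfold mW
  split_ifs <;> rfl

private theorem E10 (i j : ℤ) (b : Fin 3 → Bool) (e : ℝ) (l : ℤ) (z : Fin 3 → ℝ) :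
    mW i j b e l z 1 0 = if l = i then e * (Real.sin (wang b z) * Real.cos (wang b z)) else
      if l = j then -(e * (Real.sin (wang b z) * Real.cos (wang b z))) else 0 := by
  unfold mW
  split_ifs <;> rfl

private theorem E11 (i j : ℤ) (b : Fin 3 → Bool) (e : ℝ) (l : ℤ) (z : Fin 3 → ℝ) :
    mW i j b e l z 1 1 = if l = i then Real.cos (wang b z) ^ 2 else
      if l = j then Real.sin (wang b z) ^ 2 else 0 := by
  unfold mW
  split_ifs <;> rfl

private theorem form0 (P : Fin 3 → ℂ) (v : ℂ) (i j : ℤ) (b : Fin 3 → Bool) (e : ℝ) (hv : v ≠ 0)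
    (hij : i ≠ j) (s : Fin 3) (t : ℝ) (l : ℤ) (u : ℂ) :
    crow (clW P v i j b e) (0 : Fin 2) (ez s t) l u = (fW v i j b e 0 s).row t l u := by
  rw [crow0, two_ite u v hv, E00, E01]
  have hw := wang_ez b s t
  have hp : Real.pi / 2 * (1 - t) = Real.pi / 2 - Real.pi / 2 * t := by ring
  cases h1 : b s <;> cases h2 : b (s + 1)
  · simp only [h1, h2, Bool.false_eq_true, if_false, add_zero, mul_zero] at hw
    have hf : fW v i j b e 0 s = .pure j := by unfold fW; simp [h1, h2]
    rw [hf]
    show _ = prow j l u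
    rw [pr_eq j l u v, hw, Real.sin_zero, Real.cos_zero]
    by_cases k1 : l = i
    · subst k1
      simp [hij]
    · simp [k1]
  · simp only [h1, h2, Bool.false_eq_true, if_false, if_true, zero_add] at hw
    have hf : fW v i j b e 0 s = .wall j i v (-e) := by unfold fW; simp [h1, h2]
    rw [hf, wl_eq, hw]
    by_cases k1 : l = i
    · subst k1
      simp [hij, mul_comm]
    · simp [k1, mul_comm]
  · simp only [h1, h2, Bool.false_eq_true, if_false, if_true, add_zero, hp] at hw
    have hf : fW v i j b e 0 s = .wall i j v e := by unfold fW; simp [h1, h2]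
    rw [hf, wl_eq, hw, Real.sin_pi_div_two_sub, Real.cos_pi_div_two_sub]
  · simp only [h1, h2, if_true, sub_add_cancel, mul_one] at hw
    have hf : fW v i j b e 0 s = .pure i := by unfold fW; simp [h1, h2]
    rw [hf]
    show _ = prow i l u
    rw [pr_eq i l u v, hw, Real.sin_pi_div_two, Real.cos_pi_div_two]
    by_cases k1 : l = i
    · simp [k1]
    · simp [k1]

private theorem form1 (P : Fin 3 → ℂ) (v : ℂ) (i j : ℤ) (b : Fin 3 → Bool) (e : ℝ) (hv : v ≠ 0)
    (hij : i ≠ j) (s : Fin 3) (t : ℝ) (l : ℤ) (u : ℂ) :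
    crow (clW P v i j b e) (1 : Fin 2) (ez s t) l u = (fW v i j b e 1 s).row t l u := by
  rw [crow1, two_ite' u v hv, E10, E11]
  have hw := wang_ez b s t
  have hp : Real.pi / 2 * (1 - t) = Real.pi / 2 - Real.pi / 2 * t := by ring
  cases h1 : b s <;> cases h2 : b (s + 1)
  · simp only [h1, h2, Bool.false_eq_true, if_false, add_zero, mul_zero] at hw
    have hf : fW v i j b e 1 s = .pure i := by unfold fW; simp [h1, h2]
    rw [hf]
    show _ = prow i l u
    rw [pr_eq i l u (-v), hw, Real.sin_zero, Real.cos_zero]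
    by_cases k1 : l = i
    · simp [k1]
    · simp [k1]
  · simp only [h1, h2, Bool.false_eq_true, if_false, if_true, zero_add] at hw
    have hf : fW v i j b e 1 s = .wall i j (-v) e := by unfold fW; simp [h1, h2]
    rw [hf, wl_eq, hw]
    simp [mul_comm]
  · simp only [h1, h2, Bool.false_eq_true, if_false, if_true, add_zero, hp] at hw
    have hf : fW v i j b e 1 s = .wall j i (-v) (-e) := by unfold fW; simp [h1, h2]
    rw [hf, wl_eq, hw, Real.sin_pi_div_two_sub, Real.cos_pi_div_two_sub]
    by_cases k1 : l = i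
    · subst k1
      simp [hij]
    · simp [k1]
  · simp only [h1, h2, if_true, sub_add_cancel, mul_one] at hw
    have hf : fW v i j b e 1 s = .pure j := by unfold fW; simp [h1, h2]
    rw [hf]
    show _ = prow j l u
    rw [pr_eq j l u (-v), hw, Real.sin_pi_div_two, Real.cos_pi_div_two]
    by_cases k1 : l = i
    · subst k1
      simp [hij]
    · simp [k1]

private theorem row_zero_wall (i j : ℤ) (v : ℂ) (e : ℝ) : (EF.wall i j v e).row 0 = prow i := by
  funext l u
  rw [wl_eq, pr_eq i l u v]
  by_cases k1 : l = i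
  · simp [k1]
  · simp [k1]

theorem m_KW : StKW := by
  intro Γ P v i j b e hv hij he h1 h2 h3 h4 h5 h6
  have hform : ∀ (a : Fin 2) s t, 0 ≤ t → t ≤ 1 →
      crow (clW P v i j b e) a (ez s t) = (fW v i j b e a s).row t := by
    intro a s t _ _
    funext l u
    fin_cases a
    · exact form0 P v i j b e hv hij s t l u
    · exact form1 P v i j b e hv hij s t l u
  refine ⟨okW Γ P v i j b e hv hij he h1 h2 h3 h4 h5 h6, hform, ?_, ?_⟩
  · intro a s
    rw [ez_zero, hform a s 0 le_rfl zero_le_one]
    fin_cases a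
    · show (fW v i j b e 0 s).row 0 = _
      unfold fW
      cases k1 : b s <;> cases k2 : b (s + 1)
      · simp; rfl
      · simpa using row_zero_wall j i v (-e)
      · simpa using row_zero_wall i j v e
      · simp; rfl
    · show (fW v i j b e 1 s).row 0 = _
      unfold fW
      cases k1 : b s <;> cases k2 : b (s + 1)
      · simp; rfl
      · simpa using row_zero_wall i j (-v) e
      · simpa using row_zero_wall j i (-v) (-e)
      · simp; rfl
  · intro a s
    unfold fW
    split_ifs
    · trivial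
    · exact hij
    · exact hij.symm
    · trivial
    · trivial
    · exact hij.symm
    · exact hij
    · trivial

end Pool.Agent.Helper54.TRI
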