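import Pool.Agent.Helper54.TRI.St4

/-!
# Project TRI, module NB (helper52): neighbours of a checked certificate
-/

set_option autoImplicit false

open Set Filter Topology

noncomputable section

namespace Pool.Agent.Helper54.TRI

private theorem ne_zero_NB {α : ℂ} (h : Root α) : α ≠ 0 := by
  intro h0
  have := h.im
  rw [h0] at this
  simp at this

private theorem vz_shr_NB (X : Cert) (m : ℤ) (r : Rf) :
    X.vz (shr m r) = Bp (r.2 + m) (X.V.getD r.1 ((0, 0, 0), 0)).1 := rfl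

private theorem pt_shr_NB (he : StEM) {α : ℂ} (h : Root α) (X : Cert) (m : ℤ) (r : Rf) :
    X.pt α (shr m r) = α⁻¹ ^ m * X.pt α r := by
  have h0 : α⁻¹ ≠ 0 := inv_ne_zero (ne_zero_NB h)
  have h1 := (he.1 α h).1
  unfold Cert.pt
  rw [vz_shr_NB, h1, Cert.vz, h1, zpow_add₀ h0]
  ring

private theorem toEF_NB (he : StEM) {α : ℂ} (h : Root α) (f : ZF) (m : ℤ) :
    ((f.rev).act m).toEF α = ((f.toEF α).rev).act α⁻¹ m := by
  have h1 := (he.1 α h).1
  cases f with
  | pure l => rfl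
  | wall i j v e =>
    simp only [ZF.rev, ZF.act, ZF.toEF, EF.rev, EF.act, h1]
    push_cast
    rfl

theorem m_NB (he : StEM) : StNB := by
  intro α hα X hN hG i s
  obtain ⟨c, a⟩ := i
  have hn : (X.C α c).n = (X.cl c.val).n := (hG c).1
  have ha : a.val < (X.cl c.val).n := by
    rw [← hn]; exact a.isLt
  -- the check
  have hok : X.okN c.val a.val s = true := by
    have h1 := List.all_eq_true.mp hN c.val (List.mem_range.mpr c.isLt)
    have h2 := List.all_eq_true.mp h1 a.val (List.mem_range.mpr ha)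
    simp only [Bool.and_eq_true] at h2
    fin_cases s
    · exact h2.1
    · exact h2.2.1
    · exact h2.2.2
  unfold Cert.okN at hok
  simp only [Bool.and_eq_true, decide_eq_true_eq] at hok
  obtain ⟨hc', ha', e1, e2, e3⟩ := hok
  generalize X.nb c.val a.val s.val = r at hc' ha' e1 e2 e3
  obtain ⟨c1, a1, s1, m⟩ := r
  dsimp only at hc' ha' e1 e2 e3
  have hn' : (X.C α ⟨c1, hc'⟩).n = (X.cl c1).n := (hG ⟨c1, hc'⟩).1
  have hT : ∀ (c : Fin X.CS.length) (a : Fin (X.C α c).n) (s : Fin 3),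
      TT (X.C α) ⟨c, a⟩ s = X.pt α (trv ((X.cl c.val).tr a.val) s) := by
    intro c a s
    exact (hG c).2.2.1 a s
  refine ⟨⟨⟨c1, hc'⟩, ⟨a1, by rw [hn']; exact ha'⟩⟩, Fin.ofNat 3 s1, m, ?_, ?_, ?_⟩
  · rw [hT, hT, e1]
    exact pt_shr_NB he hα X m _
  · rw [hT, hT, e2]
    exact pt_shr_NB he hα X m _
  · show (X.zf (X.cl c.val) a.val s).toEF α = _
    rw [e3]
    exact toEF_NB he hα _ m

end Pool.Agent.Helper54.TRI
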