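import Pool.Agent.Helper54.TRI.St2

set_option autoImplicit false

open Set Filter Topology

noncomputable section

namespace Pool.Agent.Helper54.TRI

private theorem sym_PH (x : ℝ) :
    Real.smoothTransition x + Real.smoothTransition (1 - x) = 1 := by
  unfold Real.smoothTransition
  have h : 0 < expNegInvGlue x + expNegInvGlue (1 - x) := Real.smoothTransition.pos_denom x
  have h2 : 1 - (1 - x) = x := by ring
  rw [h2, add_comm (expNegInvGlue (1 - x)) (expNegInvGlue x), ← add_div, div_self h.ne']

theorem m_PH : StPH := by
  refine ⟨?_, ?_, ?_, ?_, ?_⟩
  · unfold ph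
    exact Real.smoothTransition.contDiff.comp
      ((contDiff_const.mul contDiff_id).sub contDiff_const)
  · intro t
    exact ⟨Real.smoothTransition.nonneg _, Real.smoothTransition.le_one _⟩
  · intro t ht
    exact Real.smoothTransition.zero_of_nonpos (by linarith)
  · intro t ht
    exact Real.smoothTransition.one_of_one_le (by linarith)
  · intro t
    rcases le_total t (1 / 3) with h | h
    · have h1 : ph t = 0 := Real.smoothTransition.zero_of_nonpos (by linarith)
      have h2 : ph (1 - t) = 1 := Real.smoothTransition.one_of_one_le (by linarith)
      rw [h1, h2]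
      norm_num
    · have h3 : 3 * (1 - t) - 1 = 1 - (3 * t - 1) := by ring
      unfold ph
      rw [h3]
      exact sym_PH _

end Pool.Agent.Helper54.TRI
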