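import Pool.Agent.Helper54.TRI.St4

/-!
# Project TRI, module PZ: orientation test
-/

set_option autoImplicit false

open Set Filter Topology

noncomputable section

namespace Pool.Agent.Helper54.TRI

private lemma emb_sub_PZ (α : ℂ) (u v : Z3) : emb α (subz u v) = emb α u - emb α v := by
  simp only [emb, subz]
  push_cast
  ring

private lemma im_PZ (α : ℂ) (u v : Z3) :
    (starRingEnd ℂ (emb α u) * emb α v).im =
      α.im * (((u.1 * v.2.1 - u.2.1 * v.1 : ℤ) : ℝ) +
        ((u.1 * v.2.2 - u.2.2 * v.1 : ℤ) : ℝ) * (2 * α.re) +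
        ((u.2.1 * v.2.2 - u.2.2 * v.2.1 : ℤ) : ℝ) * Complex.normSq α) := by
  obtain ⟨u0, u1, u2⟩ := u
  obtain ⟨v0, v1, v2⟩ := v
  simp only [emb, Complex.normSq_apply, pow_two, Complex.mul_im, Complex.mul_re, Complex.add_im,
    Complex.add_re, Complex.intCast_re, Complex.intCast_im, Complex.conj_re, Complex.conj_im]
  push_cast
  ring

theorem m_PZ (hr : StRT) : StPZ := by
  intro α hα p q r hpos
  obtain ⟨-, h1, h2, h3, -, -⟩ := hr.2 α hα
  set τ : ℝ := 1 - 2 * α.re with hτ
  set u := subz q p with hu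
  set v := subz r p with hv
  set a : ℤ := u.1 * v.2.1 - u.2.1 * v.1 with ha
  set b : ℤ := u.1 * v.2.2 - u.2.2 * v.1 with hb
  set c : ℤ := u.2.1 * v.2.2 - u.2.2 * v.2.1 with hc
  have htest : (|a| : ℤ) + 3 * |b| < a * 1839286755214 + b * (-1543689012692) + c * 1000000000000 := by
    have h := of_decide_eq_true hpos
    simp only [Int.natCast_natAbs] at h
    exact h
  have htR : |(a : ℝ)| + 3 * |(b : ℝ)| <
      (a : ℝ) * 1839286755214 + (b : ℝ) * (-1543689012692) + (c : ℝ) * 1000000000000 := by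
    exact_mod_cast htest
  have hτpos : 0 < τ := by
    have : (0 : ℝ) < 1839286755214 / 10 ^ 12 := by norm_num
    linarith
  -- bounds
  have e1 : |10 ^ 12 * τ - 1839286755214| ≤ 1 := by
    rw [abs_le]
    constructor
    · have := (div_lt_iff₀ (by norm_num : (0 : ℝ) < 10 ^ 12)).1 h1
      linarith
    · have := (lt_div_iff₀ (by norm_num : (0 : ℝ) < 10 ^ 12)).1 h2
      linarith
  have e2 : |10 ^ 12 * (τ - τ ^ 2) + 1543689012692| ≤ 3 := by
    rw [abs_le]
    constructor
    · nlinarith [mul_pos (sub_pos.2 h2) (sub_pos.2 h1), mul_pos hτpos (sub_pos.2 h2)]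
    · nlinarith [mul_pos (sub_pos.2 h2) (sub_pos.2 h1), mul_pos hτpos (sub_pos.2 h1)]
  have f1 : -|(a : ℝ)| ≤ (a : ℝ) * (10 ^ 12 * τ - 1839286755214) := by
    have := neg_abs_le ((a : ℝ) * (10 ^ 12 * τ - 1839286755214))
    rw [abs_mul] at this
    nlinarith [abs_nonneg (a : ℝ)]
  have f2 : -(3 * |(b : ℝ)|) ≤ (b : ℝ) * (10 ^ 12 * (τ - τ ^ 2) + 1543689012692) := by
    have := neg_abs_le ((b : ℝ) * (10 ^ 12 * (τ - τ ^ 2) + 1543689012692))
    rw [abs_mul] at this
    nlinarith [abs_nonneg (b : ℝ)]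
  have hbr : 0 < τ * (a : ℝ) + (τ - τ ^ 2) * (b : ℝ) + (c : ℝ) := by
    nlinarith
  have him : 0 < (starRingEnd ℂ (emb α u) * emb α v).im := by
    rw [im_PZ]
    apply mul_pos hα.im
    have hn : Complex.normSq α = 1 / τ := by
      rw [eq_div_iff hτpos.ne']
      exact h3
    have hre : 2 * α.re = 1 - τ := by rw [hτ]; ring
    rw [hn, hre]
    have : (a : ℝ) + (b : ℝ) * (1 - τ) + (c : ℝ) * (1 / τ) =
        (τ * (a : ℝ) + (τ - τ ^ 2) * (b : ℝ) + (c : ℝ)) / τ := by
      field_simp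
    rw [← ha, ← hb, ← hc, this]
    positivity
  have hu0 : emb α u ≠ 0 := by
    intro h0
    rw [h0] at him
    simp at him
  unfold ht
  rw [← emb_sub_PZ, ← emb_sub_PZ]
  have hns : 0 < Complex.normSq (emb α u) := Complex.normSq_pos.2 hu0
  have key : (emb α v / emb α u).im =
      (starRingEnd ℂ (emb α u) * emb α v).im / Complex.normSq (emb α u) := by
    rw [Complex.div_im]
    simp only [Complex.mul_im, Complex.conj_re, Complex.conj_im]
    field_simp
    ring
  rw [← hu, ← hv, key]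
  positivity

end Pool.Agent.Helper54.TRI
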