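import Pool.Agent.Helper54.TRI.St1

/-!
# Project TRI (MP_d629b1), module TG (helper51): plane geometry of one triangle
-/

set_option autoImplicit false

open Set Filter Topology

noncomputable section

namespace Pool.Agent.Helper54.TRI

/-- the determinant of `q - p`, `x - p` -/
def dt_TG (p q x : ℂ) : ℝ := (q.re - p.re) * (x.im - p.im) - (q.im - p.im) * (x.re - p.re)

theorem ht_eq_TG (p q x : ℂ) : ht p q x = dt_TG p q x / Complex.normSq (q - p) := by
  unfold ht dt_TG
  rw [Complex.div_im]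
  simp only [Complex.sub_re, Complex.sub_im]
  ring

theorem nsq_pos_TG {p q : ℂ} (h : p ≠ q) : 0 < Complex.normSq (q - p) :=
  Complex.normSq_pos.mpr (sub_ne_zero.mpr h.symm)

theorem ht_pos_TG {p q x : ℂ} (h : p ≠ q) : 0 < ht p q x ↔ 0 < dt_TG p q x := by
  rw [ht_eq_TG, div_pos_iff_of_pos_right (nsq_pos_TG h)]

theorem ht_nonneg_TG {p q x : ℂ} (h : p ≠ q) : 0 ≤ ht p q x ↔ 0 ≤ dt_TG p q x := by
  rw [ht_eq_TG, le_div_iff₀ (nsq_pos_TG h), zero_mul]

theorem ht_zero_TG {p q x : ℂ} (h : p ≠ q) : ht p q x = 0 ↔ dt_TG p q x = 0 := by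
  rw [ht_eq_TG, div_eq_zero_iff]
  constructor
  · rintro (h1 | h1)
    · exact h1
    · exact absurd h1 (nsq_pos_TG h).ne'
  · exact Or.inl

theorem dt_self_left_TG (p x : ℂ) : dt_TG p x p = 0 := by unfold dt_TG; ring

theorem dt_self_right_TG (p x : ℂ) : dt_TG p x x = 0 := by unfold dt_TG; ring

theorem dt_eq_TG (p x : ℂ) : dt_TG p p x = 0 := by unfold dt_TG; ring

theorem dt_cyc_TG (p q r : ℂ) : dt_TG q r p = dt_TG p q r := by unfold dt_TG; ring

theorem dt_sum_TG (p q r x : ℂ) : dt_TG q r x + dt_TG r p x + dt_TG p q x = dt_TG p q r := by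
  unfold dt_TG; ring

theorem dt_bary_TG (p q r x : ℂ) :
    (dt_TG p q r : ℂ) * x = dt_TG q r x * p + dt_TG r p x * q + dt_TG p q x * r := by
  unfold dt_TG
  apply Complex.ext
  · simp
    ring
  · simp
    ring

theorem dt_comb_TG (p q x y : ℂ) (a b : ℝ) (hab : a + b = 1) :
    dt_TG p q (a • x + b • y) = a * dt_TG p q x + b * dt_TG p q y := by
  unfold dt_TG
  simp only [Complex.add_re, Complex.add_im, Complex.real_smul, Complex.mul_re, Complex.mul_im,
    Complex.ofReal_re, Complex.ofReal_im]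
  have hb : b = 1 - a := by linarith
  subst hb
  ring

theorem cont_ht_TG (p q : ℂ) : Continuous (fun x => ht p q x) := by
  unfold ht
  fun_prop

theorem forall3_TG (Q : Fin 3 → Prop) (s : Fin 3) : (∀ s', Q s') ↔ Q s ∧ Q (s + 1) ∧ Q (s + 2) := by
  constructor
  · intro h
    exact ⟨h _, h _, h _⟩
  · rintro ⟨h1, h2, h3⟩ s'
    fin_cases s <;> fin_cases s' <;> assumption

theorem s11_TG (s : Fin 3) : s + 1 + 1 = s + 2 := by fin_cases s <;> rfl

theorem s21_TG (s : Fin 3) : s + 2 + 1 = s := by fin_cases s <;> rfl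

theorem s12_TG (s : Fin 3) : s + 1 + 2 = s := by fin_cases s <;> rfl

theorem s22_TG (s : Fin 3) : s + 2 + 2 = s + 1 := by fin_cases s <;> rfl

theorem cases_TG : ∀ s t : Fin 3, t ≠ s → t = s + 1 ∨ t = s + 2 := by decide

theorem m_TG : StTG := by
  intro P hP
  -- positivity of the determinants
  have h01 : P 0 ≠ P 1 := by
    intro h
    unfold Pos ht at hP
    rw [h] at hP
    simp at hP
  have hA0 : 0 < dt_TG (P 0) (P 1) (P 2) := (ht_pos_TG h01).mp hP
  set A := dt_TG (P 0) (P 1) (P 2) with hA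
  have hdt : ∀ s, dt_TG (P s) (P (s + 1)) (P (s + 2)) = A := by
    intro s
    fin_cases s
    · rfl
    · show dt_TG (P 1) (P 2) (P 0) = A
      exact dt_cyc_TG _ _ _
    · show dt_TG (P 2) (P 0) (P 1) = A
      rw [dt_cyc_TG, dt_cyc_TG]
  have hne : ∀ s, P s ≠ P (s + 1) := by
    intro s h
    have h1 := hdt s
    rw [← h, dt_eq_TG] at h1
    exact hA0.ne h1
  have hne2 : ∀ s, P (s + 2) ≠ P s := by
    intro s
    have := hne (s + 2)
    rwa [s21_TG] at this
  have hne1 : ∀ s, P (s + 1) ≠ P (s + 2) := by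
    intro s
    have := hne (s + 1)
    rwa [s11_TG] at this
  have hinj : Function.Injective P := by
    intro s t h
    by_contra hst
    have : t = s + 1 ∨ t = s + 2 := cases_TG s t (fun e => hst e.symm)
    rcases this with rfl | rfl
    · exact hne s h
    · exact hne2 s h.symm
  -- membership
  have hCls : ∀ (s : Fin 3) (x : ℂ), x ∈ Cls P ↔ 0 ≤ dt_TG (P s) (P (s + 1)) x ∧
      0 ≤ dt_TG (P (s + 1)) (P (s + 2)) x ∧ 0 ≤ dt_TG (P (s + 2)) (P s) x := by
    intro s x
    unfold Cls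
    rw [mem_setOf_eq, forall3_TG _ s, s11_TG, s21_TG, ht_nonneg_TG (hne s), ht_nonneg_TG (hne1 s),
      ht_nonneg_TG (hne2 s)]
  have hOpn : ∀ (s : Fin 3) (x : ℂ), x ∈ Opn P ↔ 0 < dt_TG (P s) (P (s + 1)) x ∧
      0 < dt_TG (P (s + 1)) (P (s + 2)) x ∧ 0 < dt_TG (P (s + 2)) (P s) x := by
    intro s x
    unfold Opn
    rw [mem_setOf_eq, forall3_TG _ s, s11_TG, s21_TG, ht_pos_TG (hne s), ht_pos_TG (hne1 s),
      ht_pos_TG (hne2 s)]
  have hclosed : IsClosed (Cls P) := by
    unfold Cls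
    simp only [setOf_forall]
    exact isClosed_iInter fun s => isClosed_le continuous_const (cont_ht_TG _ _)
  have hopen : IsOpen (Opn P) := by
    unfold Opn
    simp only [setOf_forall]
    exact isOpen_iInter_of_finite fun s => isOpen_lt continuous_const (cont_ht_TG _ _)
  have hconv : Convex ℝ (Cls P) := by
    intro x hx y hy a b ha hb hab
    rw [hCls 0] at hx hy ⊢
    obtain ⟨x1, x2, x3⟩ := hx
    obtain ⟨y1, y2, y3⟩ := hy
    rw [dt_comb_TG _ _ _ _ _ _ hab, dt_comb_TG _ _ _ _ _ _ hab, dt_comb_TG _ _ _ _ _ _ hab]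
    exact ⟨by positivity, by positivity, by positivity⟩
  have hvert : ∀ s, P s ∈ Cls P := by
    intro s
    rw [hCls s, dt_self_left_TG, dt_self_right_TG]
    refine ⟨le_rfl, ?_, le_rfl⟩
    rw [dt_cyc_TG, hdt]
    exact hA0.le
  -- barycentric coordinates
  have hbary : ∀ (s : Fin 3) (x : ℂ), x = (dt_TG (P (s + 1)) (P (s + 2)) x / A) • P s +
      (dt_TG (P (s + 2)) (P s) x / A) • P (s + 1) + (dt_TG (P s) (P (s + 1)) x / A) • P (s + 2) := by
    intro s x
    have h1 := dt_bary_TG (P s) (P (s + 1)) (P (s + 2)) x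
    rw [hdt] at h1
    have hAc : (A : ℂ) ≠ 0 := by exact_mod_cast hA0.ne'
    simp only [Complex.real_smul]
    push_cast
    field_simp
    linear_combination h1
  have hbsum : ∀ (s : Fin 3) (x : ℂ), dt_TG (P (s + 1)) (P (s + 2)) x / A +
      dt_TG (P (s + 2)) (P s) x / A + dt_TG (P s) (P (s + 1)) x / A = 1 := by
    intro s x
    have h1 := dt_sum_TG (P s) (P (s + 1)) (P (s + 2)) x
    rw [hdt] at h1
    field_simp
    exact h1
  have hcompact : IsCompact (Cls P) := by
    apply Metric.isCompact_of_isClosed_isBounded hclosed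
    rw [isBounded_iff_forall_norm_le]
    refine ⟨‖P 0‖ + ‖P 1‖ + ‖P 2‖, ?_⟩
    intro x hx
    rw [hCls 0] at hx
    obtain ⟨x1, x2, x3⟩ := hx
    have hb := hbary 0 x
    have hs := hbsum 0 x
    have q1 : 0 ≤ dt_TG (P (0 + 1)) (P (0 + 2)) x / A := div_nonneg x2 hA0.le
    have q2 : 0 ≤ dt_TG (P (0 + 2)) (P 0) x / A := div_nonneg x3 hA0.le
    have q3 : 0 ≤ dt_TG (P 0) (P (0 + 1)) x / A := div_nonneg x1 hA0.le
    rw [hb]
    set b1 := dt_TG (P (0 + 1)) (P (0 + 2)) x / A
    set b2 := dt_TG (P (0 + 2)) (P 0) x / A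
    set b3 := dt_TG (P 0) (P (0 + 1)) x / A
    calc ‖b1 • P 0 + b2 • P (0 + 1) + b3 • P (0 + 2)‖
        ≤ ‖b1 • P 0‖ + ‖b2 • P (0 + 1)‖ + ‖b3 • P (0 + 2)‖ := norm_add₃_le
      _ = b1 * ‖P 0‖ + b2 * ‖P 1‖ + b3 * ‖P 2‖ := by
          rw [norm_smul, norm_smul, norm_smul, Real.norm_of_nonneg q1, Real.norm_of_nonneg q2,
            Real.norm_of_nonneg q3]
          rfl
      _ ≤ 1 * ‖P 0‖ + 1 * ‖P 1‖ + 1 * ‖P 2‖ := by
          gcongr <;> linarith
      _ = ‖P 0‖ + ‖P 1‖ + ‖P 2‖ := by ring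
  -- the barycentre
  set c : ℂ := (1 / 3 : ℝ) • P 0 + (2 / 3 : ℝ) • ((1 / 2 : ℝ) • P 1 + (1 / 2 : ℝ) • P 2) with hc
  have hcdt : dt_TG (P 0) (P (0 + 1)) c = A / 3 ∧ dt_TG (P (0 + 1)) (P (0 + 2)) c = A / 3 ∧
      dt_TG (P (0 + 2)) (P 0) c = A / 3 := by
    show dt_TG (P 0) (P 1) c = A / 3 ∧ dt_TG (P 1) (P 2) c = A / 3 ∧ dt_TG (P 2) (P 0) c = A / 3
    have e1 := hdt 1
    have e2 := hdt 2
    change dt_TG (P 1) (P 2) (P 0) = A at e1
    change dt_TG (P 2) (P 0) (P 1) = A at e2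
    rw [hc]
    refine ⟨?_, ?_, ?_⟩
    · rw [dt_comb_TG _ _ _ _ _ _ (by norm_num), dt_comb_TG _ _ _ _ _ _ (by norm_num),
        dt_self_left_TG, dt_self_right_TG, ← hA]
      ring
    · rw [dt_comb_TG _ _ _ _ _ _ (by norm_num), dt_comb_TG _ _ _ _ _ _ (by norm_num),
        dt_self_left_TG, dt_self_right_TG, e1]
      ring
    · rw [dt_comb_TG _ _ _ _ _ _ (by norm_num), dt_comb_TG _ _ _ _ _ _ (by norm_num),
        dt_self_left_TG, dt_self_right_TG, e2]
      ring
  have hcO : c ∈ Opn P := by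
    rw [hOpn 0, hcdt.1, hcdt.2.1, hcdt.2.2]
    exact ⟨by positivity, by positivity, by positivity⟩
  clear_value c
  have hclosure : Cls P = closure (Opn P) := by
    apply Subset.antisymm
    · intro x hx
      have hx' := (hCls 0 x).mp hx
      obtain ⟨x1, x2, x3⟩ := hx'
      have ht : Tendsto (fun t : ℝ => (1 - t) • x + t • c) (𝓝[>] 0) (𝓝 x) := by
        have h1 : Continuous (fun t : ℝ => (1 - t) • x + t • c) := by fun_prop
        have h2 := (h1.tendsto 0).mono_left (nhdsWithin_le_nhds (s := Ioi (0 : ℝ)))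
        simpa using h2
      apply mem_closure_of_tendsto ht
      have h3 : ∀ᶠ t : ℝ in 𝓝[>] 0, t ∈ Ioo (0 : ℝ) 1 := Ioo_mem_nhdsGT one_pos
      filter_upwards [h3] with t ht
      rw [hOpn 0, dt_comb_TG _ _ _ _ _ _ (by ring), dt_comb_TG _ _ _ _ _ _ (by ring),
        dt_comb_TG _ _ _ _ _ _ (by ring), hcdt.1, hcdt.2.1, hcdt.2.2]
      have ht1 : 0 < 1 - t := by linarith [ht.2]
      have ht0 := ht.1
      refine ⟨?_, ?_, ?_⟩ <;> positivity
    · apply hclosed.closure_subset_iff.mpr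
      intro x hx
      rw [hOpn 0] at hx
      rw [hCls 0]
      exact ⟨hx.1.le, hx.2.1.le, hx.2.2.le⟩
  refine ⟨?_, hinj, hcompact, hopen, ⟨c, hcO⟩, hclosure, hvert, ?_, ?_, ?_⟩
  · intro s
    rw [ht_pos_TG (hne s), hdt]
    exact hA0
  · intro s
    exact hconv.segment_subset (hvert s) (hvert (s + 1))
  · intro x hx
    by_cases hall : x ∈ Opn P
    · exact Or.inl hall
    · right
      -- some height vanishes
      obtain ⟨s, hs⟩ : ∃ s, dt_TG (P s) (P (s + 1)) x = 0 := by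
        by_contra hcon
        push Not at hcon
        apply hall
        have hx' := (hCls 0 x).mp hx
        rw [hOpn 0]
        exact ⟨lt_of_le_of_ne hx'.1 (hcon 0).symm, lt_of_le_of_ne hx'.2.1 (hcon 1).symm,
          lt_of_le_of_ne hx'.2.2 (hcon 2).symm⟩
      have hx' := (hCls s x).mp hx
      obtain ⟨_, x2, x3⟩ := hx'
      have hb := hbary s x
      have hsum := hbsum s x
      rw [hs, zero_div, zero_smul, add_zero] at hb
      rw [hs, zero_div, add_zero] at hsum
      have q1 : 0 ≤ dt_TG (P (s + 1)) (P (s + 2)) x / A := div_nonneg x2 hA0.le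
      have q2 : 0 ≤ dt_TG (P (s + 2)) (P s) x / A := div_nonneg x3 hA0.le
      set b1 := dt_TG (P (s + 1)) (P (s + 2)) x / A
      set b2 := dt_TG (P (s + 2)) (P s) x / A
      rcases q1.eq_or_lt with h1 | h1
      · right
        refine ⟨s + 1, ?_⟩
        have h2 : b2 = 1 := by linarith
        rw [hb, ← h1, h2, zero_smul, zero_add, one_smul]
      · rcases q2.eq_or_lt with h2 | h2
        · right
          refine ⟨s, ?_⟩
          have h3 : b1 = 1 := by linarith
          rw [hb, ← h2, h3, zero_smul, add_zero, one_smul]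
        · left
          exact ⟨s, b1, b2, h1, h2, hsum, hb.symm⟩
  · intro s x hx
    obtain ⟨a, b, ha, hb, hab, rfl⟩ := hx
    have e0 : dt_TG (P s) (P (s + 1)) (a • P s + b • P (s + 1)) = 0 := by
      rw [dt_comb_TG _ _ _ _ _ _ hab, dt_self_left_TG, dt_self_right_TG]; ring
    have e1 : dt_TG (P (s + 1)) (P (s + 2)) (a • P s + b • P (s + 1)) = a * A := by
      rw [dt_comb_TG _ _ _ _ _ _ hab, dt_self_left_TG, dt_cyc_TG, hdt]; ring
    have e2 : dt_TG (P (s + 2)) (P s) (a • P s + b • P (s + 1)) = b * A := by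
      rw [dt_comb_TG _ _ _ _ _ _ hab, dt_self_right_TG, dt_cyc_TG, dt_cyc_TG, hdt]; ring
    have p1 : 0 < ht (P (s + 1)) (P (s + 2)) (a • P s + b • P (s + 1)) := by
      rw [ht_pos_TG (hne1 s), e1]; positivity
    have p2 : 0 < ht (P (s + 2)) (P s) (a • P s + b • P (s + 1)) := by
      rw [ht_pos_TG (hne2 s), e2]; positivity
    refine ⟨(ht_zero_TG (hne s)).mpr e0, ?_, ?_, ?_⟩
    · intro s' hs'
      have : s' = s + 1 ∨ s' = s + 2 := cases_TG s s' hs'
      rcases this with rfl | rfl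
      · rw [s11_TG]; exact p1
      · rw [s21_TG]; exact p2
    · rw [forall3_TG _ s]
      refine ⟨?_, ?_, ?_⟩
      · intro h
        rw [h, dt_self_right_TG] at e2
        have : 0 < b * A := by positivity
        linarith
      · intro h
        rw [h, dt_self_left_TG] at e1
        have : 0 < a * A := by positivity
        linarith
      · intro h
        rw [h, dt_self_right_TG] at e1
        have : 0 < a * A := by positivity
        linarith
    · have c1 := (cont_ht_TG (P (s + 1)) (P (s + 2))).continuousAt.eventually (lt_mem_nhds p1)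
      have c2 := (cont_ht_TG (P (s + 2)) (P s)).continuousAt.eventually (lt_mem_nhds p2)
      filter_upwards [c1, c2] with y y1 y2 y0
      unfold Cls
      rw [mem_setOf_eq, forall3_TG _ s, s11_TG, s21_TG]
      exact ⟨y0, y1.le, y2.le⟩

end Pool.Agent.Helper54.TRI
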