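import Pool.Agent.Helper54.TRI.St4

/-!
# Project TRI, module VL: the labels of equivalent vertices

The vertices of the triangles are table entries times powers of `β`; two vertices which differ by a
power of `β` come from the same table entry (equal norm forms), so their labels differ by the exponent.
-/

set_option autoImplicit false

open Set Filter Topology

noncomputable section

namespace Pool.Agent.Helper54.TRI

private theorem ht_eq_VL (p q x : ℂ) : ht p q x =
    ((x.im - p.im) * (q.re - p.re) - (x.re - p.re) * (q.im - p.im)) / Complex.normSq (q - p) := by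
  rw [ht, Complex.div_im]
  simp only [Complex.sub_re, Complex.sub_im]
  ring

private theorem vert_VL (P : Fin 3 → ℂ) (h : Pos P) (s : Fin 3) : P s ∈ Cls P := by
  intro t
  rw [Pos, ht_eq_VL] at h
  have hD : 0 < ((P 2).im - (P 0).im) * ((P 1).re - (P 0).re) -
      ((P 2).re - (P 0).re) * ((P 1).im - (P 0).im) := by
    by_contra hc
    exact absurd h (not_lt.2 (div_nonpos_of_nonpos_of_nonneg (not_lt.1 hc) (Complex.normSq_nonneg _)))
  rw [ht_eq_VL]
  refine div_nonneg ?_ (Complex.normSq_nonneg _)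
  have h11 : (1 : Fin 3) + 1 = 2 := rfl
  have h21 : (2 : Fin 3) + 1 = 0 := rfl
  have h01 : (0 : Fin 3) + 1 = 1 := rfl
  fin_cases s <;> fin_cases t <;> simp only [Fin.zero_eta, Fin.mk_one, Fin.reduceFinMk, h11, h21, h01] <;>
    nlinarith

private theorem pos_add_VL (P : Fin 3 → ℂ) (w : ℂ) (h : Pos P) : Pos (fun s => P s + w) := by
  show 0 < ht (P 0 + w) (P 1 + w) (P 2 + w)
  rw [ht, add_sub_add_right_eq_sub, add_sub_add_right_eq_sub]
  exact h

theorem m_VL (hr : StRT) (he : StEM) : StVL := by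
  intro α hα X hV hG i s i' s' k hk
  have hα0 : α ≠ 0 := by
    rintro rfl
    have := hα.im
    simp at this
  have hβ0 : α⁻¹ ≠ 0 := inv_ne_zero hα0
  have hβ1 : 1 < ‖α⁻¹‖ := (hr.2 α hα).2.2.2.2.1
  obtain ⟨hB, -, -, hz, hinj⟩ := he.1 α hα
  -- the vertices are points of references
  have hT : ∀ (j : Ix (X.C α)) (t : Fin 3),
      TT (X.C α) j t = X.pt α (trv ((X.cl j.1.val).tr j.2.val) t) :=
    fun j t => (hG j.1).2.2.1 j.2 t
  -- they are different from zero
  have hne : ∀ (j : Ix (X.C α)) (t : Fin 3), TT (X.C α) j t ≠ 0 := by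
    intro j t h0
    have hP : Pos (fun s => (X.C α j.1).P s + (X.C α j.1).w j.2) := pos_add_VL _ _ (hG j.1).2.1
    have hmem := vert_VL _ hP t
    have h0' : (X.C α j.1).P t + (X.C α j.1).w j.2 = 0 := h0
    have hmem : (X.C α j.1).P t + (X.C α j.1).w j.2 ∈ Cls (fun s => (X.C α j.1).P s + (X.C α j.1).w j.2) := hmem
    rw [h0'] at hmem
    exact (hG j.1).2.2.2 j.2 hmem
  set r := trv ((X.cl i.1.val).tr i.2.val) s with hrd
  set r' := trv ((X.cl i'.1.val).tr i'.2.val) s' with hrd'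
  have h1 := hne i s
  have h2 := hne i' s'
  rw [hT] at h1 h2
  rw [← hrd] at h1
  rw [← hrd'] at h2
  rw [hT, hT, ← hrd, ← hrd'] at hk
  show X.lz r = X.lz r' + k
  -- a reference outside the table gives the point zero
  have hin : ∀ q : Rf, X.pt α q ≠ 0 → q.1 < X.V.length := by
    intro q hq
    by_contra hc
    apply hq
    show emb α (Bp q.2 (X.V.getD q.1 ((0, 0, 0), 0)).1) = 0
    rw [List.getD_eq_default _ _ (not_lt.1 hc), hB, hz, mul_zero]
  have hi1 := hin r h1
  have hi2 := hin r' h2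
  have hp : ∀ q : Rf, X.pt α q = α⁻¹ ^ q.2 * emb α (X.V.getD q.1 ((0, 0, 0), 0)).1 := fun q => hB _ _
  -- equal norms
  have hnrm : nrm (X.V.getD r.1 ((0, 0, 0), 0)).1 = nrm (X.V.getD r'.1 ((0, 0, 0), 0)).1 := by
    have hk2 : emb α (X.vz r) = emb α (Bp k (X.vz r')) := by
      rw [hB]
      exact hk
    have hk3 := hinj hk2
    have hk4 : nrm (X.vz r) = nrm (X.vz r') := by rw [hk3, he.2]
    have e1 : nrm (X.vz r) = nrm (X.V.getD r.1 ((0, 0, 0), 0)).1 := he.2 _ _
    have e2 : nrm (X.vz r') = nrm (X.V.getD r'.1 ((0, 0, 0), 0)).1 := he.2 _ _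
    rw [← e1, ← e2, hk4]
  have hid : r.1 = r'.1 := by
    have hnd : (X.V.map (fun p => nrm p.1)).Nodup := of_decide_eq_true hV
    rw [List.getD_eq_getElem _ _ hi1, List.getD_eq_getElem _ _ hi2] at hnrm
    have hl1 : r.1 < (X.V.map (fun p => nrm p.1)).length := by rw [List.length_map]; exact hi1
    have hl2 : r'.1 < (X.V.map (fun p => nrm p.1)).length := by rw [List.length_map]; exact hi2
    refine (List.Nodup.getElem_inj_iff hnd (hi := hl1) (hj := hl2)).1 ?_
    rw [List.getElem_map, List.getElem_map]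
    exact hnrm
  -- equal exponents
  have hexp : r.2 = k + r'.2 := by
    rw [hp, hp, hid, ← mul_assoc, ← zpow_add₀ hβ0] at hk
    have he0 : emb α (X.V.getD r'.1 ((0, 0, 0), 0)).1 ≠ 0 := by
      intro h0
      apply h2
      rw [hp, h0, mul_zero]
    have hk5 : α⁻¹ ^ r.2 = α⁻¹ ^ (k + r'.2) := mul_right_cancel₀ he0 hk
    have hk6 : ‖α⁻¹‖ ^ r.2 = ‖α⁻¹‖ ^ (k + r'.2) := by rw [← norm_zpow, ← norm_zpow, hk5]
    exact zpow_right_injective₀ (by linarith) (ne_of_gt hβ1) hk6
  show (X.V.getD r.1 ((0, 0, 0), 0)).2 + r.2 = (X.V.getD r'.1 ((0, 0, 0), 0)).2 + r'.2 + k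
  rw [hid, hexp]
  ring

end Pool.Agent.Helper54.TRI
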