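import Pool.Agent.Helper54.TRI.St4

/-!
# Project TRI, module WI: the winding number of the seam
-/

set_option autoImplicit false

open Set Filter Topology

noncomputable section

namespace Pool.Agent.Helper54.TRI

/-- The four size statements for arguments. -/
private theorem argpos_WI {z : ℂ} (h : 0 < z.im) : 0 < Complex.arg z ∧ Complex.arg z < Real.pi := by
  have h1 : 0 ≤ Complex.arg z := Complex.arg_nonneg_iff.2 h.le
  have h2 : Complex.arg z ≠ 0 := by
    intro h0
    have := (Complex.arg_eq_zero_iff.1 h0).2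
    exact h.ne' this
  have h3 : Complex.arg z ≠ Real.pi := by
    intro h0
    have := (Complex.arg_eq_pi_iff.1 h0).2
    exact h.ne' this
  exact ⟨lt_of_le_of_ne h1 h2.symm, lt_of_le_of_ne (Complex.arg_le_pi z) h3⟩

private theorem argneg_WI {z : ℂ} (h : z.im < 0) : -Real.pi < Complex.arg z ∧ Complex.arg z < 0 :=
  ⟨Complex.neg_pi_lt_arg z, Complex.arg_neg_iff.2 h⟩

/-- Sizes determine an integer multiple of `2π`. -/
private theorem int_WI {k : ℤ} {x : ℝ} (n : ℤ) (hk : x = 2 * Real.pi * k)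
    (h1 : 2 * Real.pi * (n - 1 : ℤ) < x) (h2 : x < 2 * Real.pi * (n + 1 : ℤ)) : k = n := by
  have hpi : (0 : ℝ) < 2 * Real.pi := by positivity
  rw [hk] at h1 h2
  have h3 : ((n - 1 : ℤ) : ℝ) < (k : ℝ) := lt_of_mul_lt_mul_left h1 hpi.le
  have h4 : (k : ℝ) < ((n + 1 : ℤ) : ℝ) := lt_of_mul_lt_mul_left h2 hpi.le
  have h5 : n - 1 < k := by exact_mod_cast h3
  have h6 : k < n + 1 := by exact_mod_cast h4
  omega

/-- The crossing number of real sign data. -/
private def cr_WI (p q : ℂ) : ℤ :=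
  if 0 < p.im ∧ q.im < 0 ∧ 0 < (q / p).im then 1 else
    if p.im < 0 ∧ 0 < q.im ∧ (q / p).im < 0 then -1 else 0

private theorem arg_WI (p q : ℂ) (hp : p.im ≠ 0) (hq : q.im ≠ 0) (hd : (q / p).im ≠ 0) :
    Complex.arg (q / p) = Complex.arg q - Complex.arg p + 2 * Real.pi * (cr_WI p q : ℝ) := by
  have hp0 : p ≠ 0 := by rintro rfl; exact hp rfl
  have hq0 : q ≠ 0 := by rintro rfl; exact hq rfl
  have hang : ((Complex.arg (q / p) : ℝ) : Real.Angle) =
      ((Complex.arg q - Complex.arg p : ℝ) : Real.Angle) := by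
    rw [Complex.arg_div_coe_angle hq0 hp0, Real.Angle.coe_sub]
  obtain ⟨k, hk⟩ := Real.Angle.angle_eq_iff_two_pi_dvd_sub.1 hang
  have hpi := Real.pi_pos
  have hkc : k = cr_WI p q := by
    unfold cr_WI
    rcases lt_or_gt_of_ne hp with hp1 | hp1 <;> rcases lt_or_gt_of_ne hq with hq1 | hq1 <;>
      rcases lt_or_gt_of_ne hd with hd1 | hd1
    · -- p < 0, q < 0, d < 0
      rw [if_neg (by rintro ⟨h, -⟩; linarith), if_neg (by rintro ⟨-, h, -⟩; linarith)]
      have a := argneg_WI hp1
      have b := argneg_WI hq1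
      have c := argneg_WI hd1
      refine int_WI 0 hk ?_ ?_ <;> push_cast <;> linarith [a.1, a.2, b.1, b.2, c.1, c.2]
    · rw [if_neg (by rintro ⟨h, -⟩; linarith), if_neg (by rintro ⟨-, h, -⟩; linarith)]
      have a := argneg_WI hp1
      have b := argneg_WI hq1
      have c := argpos_WI hd1
      refine int_WI 0 hk ?_ ?_ <;> push_cast <;> linarith [a.1, a.2, b.1, b.2, c.1, c.2]
    · rw [if_neg (by rintro ⟨h, -⟩; linarith), if_pos ⟨hp1, hq1, hd1⟩]
      have a := argneg_WI hp1
      have b := argpos_WI hq1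
      have c := argneg_WI hd1
      refine int_WI (-1) hk ?_ ?_ <;> push_cast <;> linarith [a.1, a.2, b.1, b.2, c.1, c.2]
    · rw [if_neg (by rintro ⟨h, -⟩; linarith), if_neg (by rintro ⟨-, -, h⟩; linarith)]
      have a := argneg_WI hp1
      have b := argpos_WI hq1
      have c := argpos_WI hd1
      refine int_WI 0 hk ?_ ?_ <;> push_cast <;> linarith [a.1, a.2, b.1, b.2, c.1, c.2]
    · rw [if_neg (by rintro ⟨-, -, h⟩; linarith), if_neg (by rintro ⟨h, -⟩; linarith)]
      have a := argpos_WI hp1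
      have b := argneg_WI hq1
      have c := argneg_WI hd1
      refine int_WI 0 hk ?_ ?_ <;> push_cast <;> linarith [a.1, a.2, b.1, b.2, c.1, c.2]
    · rw [if_pos ⟨hp1, hq1, hd1⟩]
      have a := argpos_WI hp1
      have b := argneg_WI hq1
      have c := argpos_WI hd1
      refine int_WI 1 hk ?_ ?_ <;> push_cast <;> linarith [a.1, a.2, b.1, b.2, c.1, c.2]
    · rw [if_neg (by rintro ⟨-, h, -⟩; linarith), if_neg (by rintro ⟨h, -⟩; linarith)]
      have a := argpos_WI hp1
      have b := argpos_WI hq1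
      have c := argneg_WI hd1
      refine int_WI 0 hk ?_ ?_ <;> push_cast <;> linarith [a.1, a.2, b.1, b.2, c.1, c.2]
    · rw [if_neg (by rintro ⟨-, h, -⟩; linarith), if_neg (by rintro ⟨h, -⟩; linarith)]
      have a := argpos_WI hp1
      have b := argpos_WI hq1
      have c := argpos_WI hd1
      refine int_WI 0 hk ?_ ?_ <;> push_cast <;> linarith [a.1, a.2, b.1, b.2, c.1, c.2]
  rw [← hkc]
  linarith

/-- Inversion changes the sign of the imaginary part. -/
private theorem inv_WI (p q : ℂ) (h : 0 < (p / q).im) : (q / p).im < 0 := by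
  have h1 : q / p = (p / q)⁻¹ := by rw [inv_div]
  rw [h1, Complex.inv_im]
  have h2 : p / q ≠ 0 := by rintro h0; rw [h0] at h; simp at h
  have h3 : 0 < Complex.normSq (p / q) := Complex.normSq_pos.2 h2
  exact div_neg_of_neg_of_pos (by linarith) h3

private theorem emb1_WI (α : ℂ) : emb α (1, 0, 0) = 1 := by simp [emb]

private theorem emb0_WI (α : ℂ) : emb α (0, 0, 0) = 0 := by simp [emb]

private theorem sgI_WI (hp : StPZ) (α : ℂ) (hα : Root α) (v : Z3) (h : Cert.sgI v ≠ 0) :
    (Cert.sgI v = 1 ∧ 0 < (emb α v).im) ∨ (Cert.sgI v = -1 ∧ (emb α v).im < 0) := by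
  unfold Cert.sgI at h ⊢
  by_cases h1 : posz (0, 0, 0) (1, 0, 0) v = true
  · left
    rw [if_pos h1]
    refine ⟨rfl, ?_⟩
    have := hp α hα _ _ _ h1
    simpa [ht, emb0_WI, emb1_WI] using this
  · by_cases h2 : posz (0, 0, 0) v (1, 0, 0) = true
    · right
      rw [if_neg h1, if_pos h2]
      refine ⟨rfl, ?_⟩
      have h3 := hp α hα _ _ _ h2
      simp only [ht, emb0_WI, emb1_WI, sub_zero] at h3
      have := inv_WI _ _ h3
      simpa using this
    · rw [if_neg h1, if_neg h2] at h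
      exact absurd rfl h

private theorem sgD_WI (hp : StPZ) (α : ℂ) (hα : Root α) (u v : Z3) (h : Cert.sgD u v ≠ 0) :
    (Cert.sgD u v = 1 ∧ 0 < (emb α v / emb α u).im) ∨
      (Cert.sgD u v = -1 ∧ (emb α v / emb α u).im < 0) := by
  unfold Cert.sgD at h ⊢
  by_cases h1 : posz (0, 0, 0) u v = true
  · left
    rw [if_pos h1]
    refine ⟨rfl, ?_⟩
    have := hp α hα _ _ _ h1
    simpa [ht, emb0_WI] using this
  · by_cases h2 : posz (0, 0, 0) v u = true
    · right
      rw [if_neg h1, if_pos h2]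
      refine ⟨rfl, ?_⟩
      have h3 := hp α hα _ _ _ h2
      simp only [ht, emb0_WI, sub_zero] at h3
      exact inv_WI _ _ h3
    · rw [if_neg h1, if_neg h2] at h
      exact absurd rfl h

private theorem crossz_WI (hp : StPZ) (α : ℂ) (hα : Root α) (u v : Z3) (hu : Cert.sgI u ≠ 0)
    (hv : Cert.sgI v ≠ 0) (hd : Cert.sgD u v ≠ 0) :
    cr_WI (emb α u) (emb α v) = Cert.crossz u v := by
  unfold cr_WI Cert.crossz
  rcases sgI_WI hp α hα u hu with ⟨a1, a2⟩ | ⟨a1, a2⟩ <;>
    rcases sgI_WI hp α hα v hv with ⟨b1, b2⟩ | ⟨b1, b2⟩ <;>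
    rcases sgD_WI hp α hα u v hd with ⟨c1, c2⟩ | ⟨c1, c2⟩ <;>
    simp [a1, a2, b1, b2, c1, c2, a2.le, b2.le, c2.le, not_lt.2 a2.le, not_lt.2 b2.le,
      not_lt.2 c2.le]

/-- Sum over a zip of two lists of the same length. -/
private theorem zip_WI {β : Type} (f : β → ℝ) : ∀ (L M : List β), L.length = M.length →
    ((L.zip M).map (fun e => f e.2 - f e.1)).sum = (M.map f).sum - (L.map f).sum
  | [], [], _ => by simp
  | [], b :: M, h => by simp at h
  | a :: L, [], h => by simp at h
  | a :: L, b :: M, h => by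
    have ih := zip_WI f L M (by simpa using h)
    simp only [List.zip_cons_cons, List.map_cons, List.sum_cons, ih]
    ring

private theorem cyc_WI {β : Type} (f : β → ℝ) (L : List β) :
    ((Cert.cyc L).map (fun e => f e.2 - f e.1)).sum = 0 := by
  unfold Cert.cyc
  cases L with
  | nil => simp
  | cons a L =>
    rw [zip_WI]
    · simp only [List.tail_cons, List.take_succ_cons, List.take_zero, List.map_append,
        List.sum_append, List.map_cons, List.map_nil, List.sum_cons, List.sum_nil]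
      ring
    · simp

/-- The second components of the cyclic edge list are first components. -/
private theorem mem_WI {β : Type} (L : List β) (e : β × β) (he : e ∈ Cert.cyc L) :
    ∃ e' ∈ Cert.cyc L, e'.1 = e.2 := by
  have h2 : e.2 ∈ L := by
    unfold Cert.cyc at he
    have := (List.of_mem_zip (a := e.1) (b := e.2) he).2
    rcases List.mem_append.1 this with h | h
    · exact List.mem_of_mem_tail h
    · exact List.mem_of_mem_take h
  have hf : (Cert.cyc L).map Prod.fst = L := by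
    unfold Cert.cyc
    apply List.map_fst_zip
    cases L with
    | nil => simp
    | cons a L => simp
  rw [← hf] at h2
  obtain ⟨e', h', h''⟩ := List.mem_map.1 h2
  exact ⟨e', h', h''⟩

theorem m_WI (he : StEM) (hp : StPZ) : StWI := by
  have _ := he
  intro α hα X hX
  unfold Cert.chkS at hX
  simp only [Bool.and_eq_true, decide_eq_true_eq, List.all_eq_true] at hX
  obtain ⟨-, hall, hsum⟩ := hX
  have h1 : ∀ e ∈ Cert.cyc X.seam, Cert.sgI (X.vz e.1) ≠ 0 := fun e h => (hall e h).1
  have hd : ∀ e ∈ Cert.cyc X.seam, Cert.sgD (X.vz e.1) (X.vz e.2) ≠ 0 := fun e h => (hall e h).2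
  have h2 : ∀ e ∈ Cert.cyc X.seam, Cert.sgI (X.vz e.2) ≠ 0 := by
    intro e h
    obtain ⟨e', h', h''⟩ := mem_WI X.seam e h
    rw [← h'']
    exact h1 e' h'
  have im1 : ∀ e ∈ Cert.cyc X.seam, (X.pt α e.1).im ≠ 0 := by
    intro e h
    rcases sgI_WI hp α hα _ (h1 e h) with ⟨-, a⟩ | ⟨-, a⟩
    · exact a.ne'
    · exact a.ne
  have im2 : ∀ e ∈ Cert.cyc X.seam, (X.pt α e.2).im ≠ 0 := by
    intro e h
    rcases sgI_WI hp α hα _ (h2 e h) with ⟨-, a⟩ | ⟨-, a⟩
    · exact a.ne'
    · exact a.ne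
  have imd : ∀ e ∈ Cert.cyc X.seam, (X.pt α e.2 / X.pt α e.1).im ≠ 0 := by
    intro e h
    rcases sgD_WI hp α hα _ _ (hd e h) with ⟨-, a⟩ | ⟨-, a⟩
    · exact a.ne'
    · exact a.ne
  refine ⟨?_, ?_⟩
  · intro e hee
    obtain ⟨e', h', rfl⟩ := List.mem_map.1 hee
    refine ⟨?_, ?_⟩
    · intro h0
      apply im1 e' h'
      rw [show X.pt α e'.1 = 0 from h0]
      rfl
    · exact Complex.mem_slitPlane_iff.2 (Or.inr (imd e' h'))
  · rw [List.map_map]
    have hcongr : (Cert.cyc X.seam).map ((fun e : ℂ × ℂ => Complex.arg (e.2 / e.1)) ∘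
        (fun e : Rf × Rf => (X.pt α e.1, X.pt α e.2))) =
        (Cert.cyc X.seam).map (fun e => (Complex.arg (X.pt α e.2) - Complex.arg (X.pt α e.1)) +
          2 * Real.pi * ((Cert.crossz (X.vz e.1) (X.vz e.2) : ℤ) : ℝ)) := by
      apply List.map_congr_left
      intro e h
      simp only [Function.comp]
      rw [arg_WI _ _ (im1 e h) (im2 e h) (imd e h)]
      unfold Cert.pt
      rw [crossz_WI hp α hα _ _ (h1 e h) (h2 e h) (hd e h)]
    rw [hcongr, List.sum_map_add, cyc_WI (fun r => Complex.arg (X.pt α r)), zero_add,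
      List.sum_map_mul_left]
    have hcast : ((Cert.cyc X.seam).map (fun e => ((Cert.crossz (X.vz e.1) (X.vz e.2) : ℤ) : ℝ))).sum
        = ((((Cert.cyc X.seam).map (fun e => Cert.crossz (X.vz e.1) (X.vz e.2))).sum : ℤ) : ℝ) := by
      rw [Int.cast_list_sum, List.map_map]
      rfl
    rw [hcast, hsum]
    simp

end Pool.Agent.Helper54.TRI
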