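import Pool.Agent.Helper54.TRI.St4
import Pool.Agent.Helper56.TW.St2

/-!
# Project TRI, part 6: all matrices with the tribonacci eigenvalues
-/

set_option autoImplicit false

open Set Filter Topology Matrix
open Pool.Agent.Helper54.Wav

noncomputable section

namespace Pool.Agent.Helper54.TRI

/-- **TRF** (transfer to real coordinates).  PROOF.  `ν x = ‖φ x‖` (a seminorm: `(normSeminorm ℝ ℂ).comp φ`), `κ = ‖β‖`, `Λ'` = the `m` with `φ (zv m) ∈ Λ` (a finite set: `φ ∘ zv` is injective); every `u ∈ Λ` is `φ (zv m)` by `lat`.  `B` is invertible (`φ (B x) = β φ x`, `φ` injective, `β ≠ 0`), so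
`φ (B ^ j *ᵥ x) = β ^ j * φ x` for `j : ℤ` (as in `Pool/Agent/Helper56/TW/M_R7.lean` or directly).  Fields: `smooth` is `PatC.smooth` composed with the smooth map `φ` (finite dimension); `supp`: `K (φ x) (φ v) ≠ 0` gives `φ v ∈ Λ`, `φ v = φ (zv m)`, `v = zv m`; `idem`: reindex the sum over `Λ`
by `m ↦ φ (zv m)` (`Finset.sum_bij` or `Finset.sum_image`); `tele`: `φ v = 0 ↔ v = 0`. -/
def StTRF : Prop := ∀ (β : ℂ) (Γ₀ : ℂ → Prop) (K : ℂ → ℂ → ℝ) (Λ : Finset ℂ) (ε R : ℝ)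
  (B : Matrix (Fin 2) (Fin 2) ℝ) (φ : (Fin 2 → ℝ) →ₗ[ℝ] ℂ),
  1 < ‖β‖ → Function.Injective φ → (∀ x, φ (B *ᵥ x) = β * φ x) →
  (∀ u, Γ₀ u → ∃ m : Fin 2 → ℤ, u = φ (zv m)) → PatC β Γ₀ K Λ ε R →
  ∃ Λ' ν κ, Pool.Agent.Helper56.TW.PatR B (fun x v => K (φ x) (φ v)) Λ' ν κ ε R

/-- **LAT** (every lattice that meets its image).  `β = α⁻¹`.  PROOF.  Let `p = (a, b)`, `q = (c, d)`, `δ = a d - b c`.  `δ ≠ 0`: otherwise `B q = p = t q` with real `t` (`q ≠ 0`), and `t` is a root of the characteristic polynomial `X² - tr X + det = (X - β)(X - conj β)`, but `β` is not real.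
Put `φ₀ x = x 0 * (-d + b α) + x 1 * (c - a α)`: `φ₀ q = - δ α`, `φ₀ p = - δ`, so `φ₀ (B q) = β φ₀ q`, and by Cayley-Hamilton `φ₀ (B p) = φ₀ (B² q) = tr φ₀ (B q) - det φ₀ q = -δ (tr - det α) = - δ β = β φ₀ p` (`β² = tr β - det`).  `p, q` is a basis, so `φ₀ (B x) = β φ₀ x` for all `x`;
`φ₀` is injective because `φ₀ p`, `φ₀ q` are independent over `ℝ` (`α` not real).  `φ = (D/δ) φ₀`: `D (m + n α) = φ (zv (-m p - n q))`. -/
def StLAT : Prop := ∀ (α : ℂ) (D : ℤ) (B : Matrix (Fin 2) (Fin 2) ℝ) (p q : Fin 2 → ℤ),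
  α.im ≠ 0 → D ≠ 0 → B.trace = 2 * (α⁻¹).re → B.det = Complex.normSq α⁻¹ → q ≠ 0 →
  zv p = B *ᵥ zv q →
  ∃ φ : (Fin 2 → ℝ) →ₗ[ℝ] ℂ, Function.Injective φ ∧ (∀ x, φ (B *ᵥ x) = α⁻¹ * φ x) ∧
    ∀ u, Gam α D 0 u → ∃ m : Fin 2 → ℤ, u = φ (zv m)

/-- **CHP** (trace and determinant; hypothesis `hr : StRT`).  PROOF.  A complex eigenvalue `z` of `A` satisfies `z³ + z² + z = 1` (apply the identity to an eigenvector), so `α' = 1/z` is a root of `x³ = x² + x + 1`: `z ∈ {β, conj β, 1/τ}`, `β = α⁻¹`, `τ = 1 - 2 Re α > 1`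
(`x³ - x² - x - 1 = (x - τ)(x - α)(x - conj α)`, by `hr`).  `|z| > 1` excludes `1/τ`.  The two roots of the (real) characteristic polynomial are in `{β, conj β}` and their sum, the trace, is real, so they are `β` and `conj β` (`β` is not real).  The trace of `A` is their sum and the determinant their product. -/
def StCHP : Prop := ∀ α, Root α → ∀ A : Matrix (Fin 2) (Fin 2) ℝ, Wav.Expansive A →
  A ^ 3 + A ^ 2 + A = 1 → A.trace = 2 * (α⁻¹).re ∧ A.det = Complex.normSq α⁻¹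

/-- **J1** (from any exponent to the exponent one; hypotheses `hr : StRT`, `he : StEM`).  PROOF.  `β = α⁻¹`, `B = Aᵀ`.  Let `z = (z₀, z₁) ≠ 0` be complex with `z₀ (B x)₀ + z₁ (B x)₁ = β (z₀ x₀ + z₁ x₁)` (a left eigenvector), `φ x = z₀ x₀ + z₁ x₁`; `φ` is injective on real vectors (if `φ x = 0`, `x ≠ 0` real, then also
`φ (B x) = 0`, and `x, B x` is a real basis because `β` is not real, so `φ = 0`).  From `j ∈ Exps A`, `j ≠ 0`: integer vectors `p, q ≠ 0` with `zv p = B ^ j *ᵥ zv q`, so `φ p = β^j φ q`: `(p₀ - β^j q₀) z₀ = - (p₁ - β^j q₁) z₁`.  Here `β^j` is in the field `K = ℚ(α)` and not rational: if `β^j = r ∈ ℚ` then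
(apply the real embedding `α ↦ τ` of `K`, or: `α^(-j) = u + v α + w α²` with rational `u, v, w`, unique, and the same for `τ`) `τ^(-j) = r`, but `|β^j| ≠ τ^(-j)` because `|β| > 1 > 1/τ`.  So not both brackets vanish, and (as `z₀, z₁ ≠ 0` by injectivity of `φ`) `κ = z₁ / z₀ ∈ K`.
`K` is the `ℚ`-span of `1, α, α²` (dimension `3`); `V = ℚ + ℚ κ` has dimension `2` (`κ` is not real, by injectivity of `φ`), `β V` too, so `V ∩ β V ≠ 0`: rational `x, y` with `y₀ + y₁ κ = β (x₀ + x₁ κ) ≠ 0`; clear denominators; `φ (zv p') = β φ (zv q') = φ (B zv q')`, so `zv p' = B *ᵥ zv q'`. -/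
def StJ1 : Prop := ∀ α, Root α → ∀ A : Matrix (Fin 2) (Fin 2) ℝ,
  A.trace = 2 * (α⁻¹).re → A.det = Complex.normSq α⁻¹ →
  (∃ j : ℤ, j ≠ 0 ∧ j ∈ WavN.Exps A) → ∃ p q : Fin 2 → ℤ, q ≠ 0 ∧ zv p = Aᵀ *ᵥ zv q

/-- **NRP** (no rational power; hypothesis `hr : StRT`).  PROOF.  If `A ^ p = M` is rational, `p ≥ 1`, then `β^p` (`β = α⁻¹` an eigenvalue of `A`) is a root of the characteristic polynomial of `M`, a rational quadratic polynomial.  But `β^p ∈ ℚ(α)`, a cubic field (`x³ - x² - x - 1` is irreducible: no rational root), so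
its degree divides `3` and is at most `2`: `β^p = r` is rational; then `α^p = 1/r`, `|α|^p = |r|⁻¹`; the real embedding gives `τ^p = 1/r` as in `J1`, contradiction to `|α| < 1 < τ`. -/
def StNRP : Prop := ∀ α, Root α → ∀ A : Matrix (Fin 2) (Fin 2) ℝ,
  A.trace = 2 * (α⁻¹).re → A.det = Complex.normSq α⁻¹ →
  ¬ Pool.Agent.Helper54.WavS.HasRationalPower A

/-- **EXM** (an explicit matrix; hypothesis `hr : StRT`).  PROOF.  `β = α⁻¹` has `2 Re β = 2 Re α / |α|² = (1 - τ) τ` and `|β|² = τ`; the characteristic polynomial of `A` is `X² - τ(1-τ) X + τ`, with the roots `β, conj β` of modulus `> 1`.  `A³ + A² + A = 1` from `A² = τ(1-τ) A - τ` and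
`τ³ = τ² + τ + 1` (or by computing the entries).  `Aᵀ *ᵥ (0, 1) = (1, 0)`. -/
def StEXM : Prop := ∃ τ : ℝ, τ ^ 3 = τ ^ 2 + τ + 1 ∧
  Wav.Expansive (!![τ * (1 - τ), -τ; 1, 0] : Matrix (Fin 2) (Fin 2) ℝ) ∧
  (!![τ * (1 - τ), -τ; 1, 0] : Matrix (Fin 2) (Fin 2) ℝ) ^ 3 + !![τ * (1 - τ), -τ; 1, 0] ^ 2 +
    !![τ * (1 - τ), -τ; 1, 0] = 1 ∧
  ∃ p q : Fin 2 → ℤ, q ≠ 0 ∧ zv p = (!![τ * (1 - τ), -τ; 1, 0] : Matrix (Fin 2) (Fin 2) ℝ)ᵀ *ᵥ zv q

end Pool.Agent.Helper54.TRI
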