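import Pool.Agent.Helper54.TRI.M_RT
import Pool.Agent.Helper54.TRI.M_EM
import Pool.Agent.Helper54.TRI.M_PZ
import Pool.Agent.Helper54.TRI.M_IG
import Pool.Agent.Helper54.TRI.M_GG
import Pool.Agent.Helper54.TRI.M_GP
import Pool.Agent.Helper54.TRI.M_GW
import Pool.Agent.Helper54.TRI.M_GT
import Pool.Agent.Helper54.TRI.M_GE
import Pool.Agent.Helper54.TRI.M_NB
import Pool.Agent.Helper54.TRI.M_CH
import Pool.Agent.Helper54.TRI.M_WI
import Pool.Agent.Helper54.TRI.M_VL
import Pool.Agent.Helper54.TRI.M_TL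
import Pool.Agent.Helper54.TRI.M_AT
import Pool.Agent.Helper54.TRI.M_KP
import Pool.Agent.Helper54.TRI.M_KW
import Pool.Agent.Helper54.TRI.M_KT
import Pool.Agent.Helper54.TRI.M_KE
import Pool.Agent.Helper54.TRI.M_FF
import Pool.Agent.Helper54.TRI.M_TG
import Pool.Agent.Helper54.TRI.M_ARG
import Pool.Agent.Helper54.TRI.M_DEG
import Pool.Agent.Helper54.TRI.M_GEN
import Pool.Agent.Helper54.TRI.M_CF1
import Pool.Agent.Helper54.TRI.M_CF2
import Pool.Agent.Helper54.TRI.M_CF3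
import Pool.Agent.Helper54.TRI.M_PH
import Pool.Agent.Helper54.TRI.M_ETA
import Pool.Agent.Helper54.TRI.M_GLU
import Pool.Agent.Helper54.TRI.M_ATL
import Pool.Agent.Helper54.TRI.Check
import Pool.Agent.Helper54.TRI.St5

/-!
# Project TRI: the assembly
-/

set_option autoImplicit false

open Set Filter Topology Matrix
open Pool.Agent.Helper54.Wav

noncomputable section

namespace Pool.Agent.Helper54.TRI

theorem pEM : StEM := m_EM m_RT
theorem pPZ : StPZ := m_PZ m_RT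
theorem pIG : StIG := m_IG pEM
theorem pTG : StTG := m_TG
theorem pCF1 : StCF1 := m_CF1 pTG
theorem pCF2 : StCF2 := m_CF2 pTG pCF1
theorem pCF3 : StCF3 := m_CF3 pTG
theorem pTL : StTL := m_TL pTG m_GEN (m_DEG m_ARG)
theorem pGLU : StGLU := m_GLU pTG m_PH pCF1 pCF2
theorem pATL : StATL := m_ATL pTG pCF1 pCF3 pGLU
theorem pETA : StETA := m_ETA pTG m_PH

theorem pAT : StAT :=
  m_AT m_RT pEM pPZ pIG (m_GG pEM pPZ) (m_GP pIG m_KP) (m_GW pEM pIG m_KW)
    (m_GT pEM pIG (m_KT m_FF)) (m_GE pEM pIG (m_KE m_FF)) (m_NB pEM) (m_CH pEM) (m_WI pEM pPZ)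
    (m_VL m_RT pEM) pTL

/-- The kernel of a certificate. -/
theorem kernel_of_cert {α : ℂ} (hα : Root α) (X : Cert) (hX : X.check = true) :
    ∃ K Λ ε R, PatC α⁻¹ (Gam α X.D 0) K Λ ε R := by
  obtain ⟨nb, hA⟩ := pAT α hα X hX
  have hpos : ∀ c : Fin X.CS.length, Pos (X.C α c).P := by
    intro c
    have hX' := hX
    unfold Cert.check at hX'
    simp only [Bool.and_eq_true, decide_eq_true_eq] at hX'
    obtain ⟨-, hG, -, -, -, -⟩ := hX'
    unfold Cert.chkG at hG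
    rw [List.all_eq_true] at hG
    have hm : X.cl c.val ∈ X.CS := by
      unfold Cert.cl
      rw [List.getD_eq_getElem _ _ c.isLt]
      exact List.getElem_mem _
    have := hG _ hm
    rw [Bool.and_eq_true] at this
    exact (m_GG pEM pPZ α hα X _ this.1).2.1
  choose η hη using fun c => pETA _ (hpos c)
  obtain ⟨⟨Λ, ε, R, h⟩, -⟩ := pATL _ _ _ _ _ _ _ η hA hη
  exact ⟨_, Λ, ε, R, h⟩

end Pool.Agent.Helper54.TRI
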