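import Pool.Agent.Helper54.TRI.St3

/-!
# Project TRI, part 4: integer certificates

Points are `emb α v = (v.1 + v.2.1 α + v.2.2 α²)`, `v ∈ ℤ³`, `α³ = α² + α + 1`; `β = α⁻¹`.
-/

set_option autoImplicit false

noncomputable section

namespace Pool.Agent.Helper54.TRI

abbrev Z3 : Type := ℤ × ℤ × ℤ

/-- Multiplication by `α`. -/
def Az (v : Z3) : Z3 := (v.2.2, v.1 + v.2.2, v.2.1 + v.2.2)

/-- Multiplication by `β = α⁻¹ = α² - α - 1`. -/
def Bz (v : Z3) : Z3 := (v.2.1 - v.1, v.2.2 - v.1, v.1)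

/-- Iterates of `Az`. -/
def Azn : ℕ → Z3 → Z3
  | 0, v => v
  | n + 1, v => Azn n (Az v)

/-- Iterates of `Bz`. -/
def Bzn : ℕ → Z3 → Z3
  | 0, v => v
  | n + 1, v => Bzn n (Bz v)

/-- Multiplication by `β^k`. -/
def Bp (k : ℤ) (v : Z3) : Z3 :=
  match k with
  | Int.ofNat n => Bzn n v
  | Int.negSucc n => Azn (n + 1) v

def subz (u v : Z3) : Z3 := (u.1 - v.1, u.2.1 - v.2.1, u.2.2 - v.2.2)

def negz (u : Z3) : Z3 := (-u.1, -u.2.1, -u.2.2)

/-- `10^12 τ det (q - p, r - p) / Im α` is positive, with rational bounds for the tribonacci constant `τ`. -/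
def posz (p q r : Z3) : Bool :=
  let u := subz q p
  let v := subz r p
  let a := u.1 * v.2.1 - u.2.1 * v.1
  let b := u.1 * v.2.2 - u.2.2 * v.1
  let c := u.2.1 * v.2.2 - u.2.2 * v.2.1
  decide ((a.natAbs : ℤ) + 3 * (b.natAbs : ℤ) <
    a * 1839286755214 + b * (-1543689012692) + c * 1000000000000)

/-- Norm form. -/
def nrm (v : Z3) : ℤ :=
  let a := Az v
  let b := Az a
  v.1 * (a.2.1 * b.2.2 - a.2.2 * b.2.1) - v.2.1 * (a.1 * b.2.2 - a.2.2 * b.1) +
    v.2.2 * (a.1 * b.2.1 - a.2.1 * b.1)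

/-- `v ∈ D β^l (ℤ + ℤ α)`. -/
def inG (D l : ℤ) (v : Z3) : Bool :=
  let u := Bp (-l) v
  decide (u.2.2 = 0) && (decide (u.1 % D = 0) && decide (u.2.1 % D = 0))

/-- Vertex reference: number in the table and power of `β`. -/
abbrev Rf : Type := ℕ × ℤ

/-- Triangle. -/
abbrev Tr : Type := Rf × Rf × Rf

def trv (t : Tr) (s : Fin 3) : Rf := if s = 0 then t.1 else if s = 1 then t.2.1 else t.2.2

def shr (m : ℤ) (r : Rf) : Rf := (r.1, r.2 + m)

/-- Cluster data. -/
inductive CD where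
  | P (t : Tr) : CD
  | W (e : ℤ) (t0 t1 : Tr) : CD
  | T (t0 t1 t2 t3 : Tr) : CD
  | E (t0 t1 t2 : Tr) : CD

/-- Number of copies. -/
def CD.n : CD → ℕ
  | .P _ => 1
  | .W _ _ _ => 2
  | .T _ _ _ _ => 4
  | .E _ _ _ => 3

/-- Copy `a`. -/
def CD.tr : CD → ℕ → Tr
  | .P t, _ => t
  | .W _ t0 t1, a => if a = 0 then t0 else t1
  | .T t0 t1 t2 t3, a => if a = 0 then t0 else if a = 1 then t1 else if a = 2 then t2 else t3
  | .E t0 t1 t2, a => if a = 0 then t0 else if a = 1 then t1 else t2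

/-- Integer edge forms. -/
inductive ZF where
  | pure (l : ℤ) : ZF
  | wall (i j : ℤ) (v : Z3) (e : ℤ) : ZF
  deriving DecidableEq

def ZF.rev : ZF → ZF
  | .pure l => .pure l
  | .wall i j v e => .wall j i v (-e)

def ZF.act (m : ℤ) : ZF → ZF
  | .pure l => .pure (l + m)
  | .wall i j v e => .wall (i + m) (j + m) (Bp m v) e

/-- A certificate: scale `D`, vertex table (position, label), clusters, neighbours (for each cluster, copy, side: cluster, copy, side, power), seam. -/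
structure Cert where
  D : ℤ
  V : List (Z3 × ℤ)
  CS : List CD
  NB : List (List (List (ℕ × ℕ × ℕ × ℤ)))
  seam : List Rf

namespace Cert

variable (X : Cert)

def vz (r : Rf) : Z3 := Bp r.2 (X.V.getD r.1 ((0, 0, 0), 0)).1

def lz (r : Rf) : ℤ := (X.V.getD r.1 ((0, 0, 0), 0)).2 + r.2

/-- Shift of the copy `a`. -/
def wz (c : CD) (a : ℕ) : Z3 := subz (X.vz (c.tr a).1) (X.vz (c.tr 0).1)

/-- Labels of a tetrahedral cluster. -/
def LT (c : CD) (m : Fin 4) : ℤ :=
  if m = 0 then X.lz (c.tr 1).1 else if m = 1 then X.lz (c.tr 0).1 else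
    if m = 2 then X.lz (c.tr 3).1 else X.lz (c.tr 2).1

/-- Point signs of a tetrahedral cluster. -/
def sT (a : Fin 4) : ℤ := if a = 2 then -1 else 1

/-- Edge form of the copy `a`, side `s`. -/
def zf (c : CD) (a : ℕ) (s : Fin 3) : ZF :=
  match c with
  | .P t => .pure (X.lz t.1)
  | .W e t0 t1 =>
      let i := X.lz t0.1
      let j := X.lz t1.1
      let v := subz (X.vz t1.1) (X.vz t0.1)
      let b0 := decide (X.lz (trv t0 s) = i)
      let b1 := decide (X.lz (trv t0 (s + 1)) = i)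
      if a = 0 then
        (if b0 then (if b1 then .pure i else .wall i j v e)
          else (if b1 then .wall j i v (-e) else .pure j))
      else
        (if b0 then (if b1 then .pure j else .wall j i (negz v) (-e))
          else (if b1 then .wall i j (negz v) e else .pure i))
  | .T t0 t1 t2 t3 =>
      let c : CD := .T t0 t1 t2 t3
      let a' : Fin 4 := Fin.ofNat 4 a
      .wall (X.LT c (inv4 s a')) (X.LT c (inv4 (s + 1) a'))
        (subz (X.wz c (inv4 (s + 2) a').val) (X.wz c a'.val))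
        (sT a' * sT (inv4 (s + 2) a') * sU (inv4 s a') a' * sU (inv4 s a') (inv4 (s + 2) a'))
  | .E t0 t1 t2 =>
      let c : CD := .E t0 t1 t2
      let i := X.lz t0.1
      let j := X.lz t0.2.1
      let a' : Fin 3 := Fin.ofNat 3 a
      if a' = s then .wall i j (subz (X.wz c (s + 1).val) (X.wz c s.val)) 1
      else if a' = s + 1 then .wall j i (subz (X.wz c s.val) (X.wz c (s + 1).val)) (-1)
      else .pure j

/-- All copies are translates of the copy `0`, the copy `0` is positively oriented, no copy contains `0`. -/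
def okG (c : CD) : Bool :=
  posz (X.vz (c.tr 0).1) (X.vz (c.tr 0).2.1) (X.vz (c.tr 0).2.2) &&
  (List.range c.n).all fun a =>
    decide (subz (X.vz (c.tr a).2.1) (X.vz (c.tr 0).2.1) = X.wz c a) &&
    (decide (subz (X.vz (c.tr a).2.2) (X.vz (c.tr 0).2.2) = X.wz c a) &&
    (posz (0, 0, 0) (X.vz (c.tr a).2.1) (X.vz (c.tr a).1) ||
      (posz (0, 0, 0) (X.vz (c.tr a).2.2) (X.vz (c.tr a).2.1) ||
      posz (0, 0, 0) (X.vz (c.tr a).1) (X.vz (c.tr a).2.2))))

/-- The conditions on labels and shifts. -/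
def okL (c : CD) : Bool :=
  match c with
  | .P t => decide (X.lz t.2.1 = X.lz t.1) && decide (X.lz t.2.2 = X.lz t.1)
  | .W e t0 t1 =>
      let i := X.lz t0.1
      let j := X.lz t1.1
      let v := subz (X.vz t1.1) (X.vz t0.1)
      decide (i ≠ j) && (decide (e * e = 1) && (decide (v ≠ (0, 0, 0)) &&
      (inG X.D i v && (inG X.D j v &&
      (decide ((X.lz t0.2.1 = i ∧ X.lz t1.2.1 = j) ∨ (X.lz t0.2.1 = j ∧ X.lz t1.2.1 = i)) &&
      decide ((X.lz t0.2.2 = i ∧ X.lz t1.2.2 = j) ∨ (X.lz t0.2.2 = j ∧ X.lz t1.2.2 = i)))))))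
  | .T t0 t1 t2 t3 =>
      let c : CD := .T t0 t1 t2 t3
      decide (∀ a : Fin 4, ∀ s : Fin 3, X.lz (trv (c.tr a.val) s) = X.LT c (inv4 s a)) &&
      (decide (∀ a b : Fin 4, a ≠ b → X.LT c a ≠ X.LT c b ∧ X.wz c a.val ≠ X.wz c b.val) &&
      decide (∀ a b m : Fin 4, a ≠ m → b ≠ m →
        inG X.D (X.LT c m) (subz (X.wz c b.val) (X.wz c a.val)) = true))
  | .E t0 t1 t2 =>
      let c : CD := .E t0 t1 t2
      let i := X.lz t0.1
      let j := X.lz t0.2.1
      decide (i ≠ j) &&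
      (decide (∀ a s : Fin 3, X.lz (trv (c.tr a.val) s) = if a = s then i else j) &&
      (decide (∀ a b : Fin 3, a ≠ b → X.wz c a.val ≠ X.wz c b.val) &&
      decide (∀ a b : Fin 3, inG X.D i (subz (X.wz c b.val) (X.wz c a.val)) = true ∧
        inG X.D j (subz (X.wz c b.val) (X.wz c a.val)) = true)))

/-- Neighbour record. -/
def nb (c a s : ℕ) : ℕ × ℕ × ℕ × ℤ := ((X.NB.getD c []).getD a []).getD s (0, 0, 0, 0)

def cl (c : ℕ) : CD := X.CS.getD c (.P ((0, 0), (0, 0), (0, 0)))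

/-- Neighbour condition for one side. -/
def okN (c a : ℕ) (s : Fin 3) : Bool :=
  let r := X.nb c a s.val
  let c' := X.cl r.1
  let a' := r.2.1
  let s' : Fin 3 := Fin.ofNat 3 r.2.2.1
  let m := r.2.2.2
  decide (r.1 < X.CS.length) && (decide (a' < c'.n) &&
  (decide (trv ((X.cl c).tr a) s = shr m (trv (c'.tr a') (s' + 1))) &&
  (decide (trv ((X.cl c).tr a) (s + 1) = shr m (trv (c'.tr a') s')) &&
  decide (X.zf (X.cl c) a s = ((X.zf c' a' s').rev).act m))))

def chkG : Bool := X.CS.all fun c => X.okG c && X.okL c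

def chkN : Bool := (List.range X.CS.length).all fun c => (List.range (X.cl c).n).all fun a =>
  X.okN c a 0 && (X.okN c a 1 && X.okN c a 2)

/-- Directed sides of a triangle. -/
def sides (t : Tr) : List (Rf × Rf) := [(t.1, t.2.1), (t.2.1, t.2.2), (t.2.2, t.1)]

/-- All directed sides. -/
def darts : List (Rf × Rf) :=
  X.CS.flatMap fun c => (List.range c.n).flatMap fun a => sides (c.tr a)

/-- Directed edges of a cyclic list. -/
def cyc {β : Type} (L : List β) : List (β × β) := L.zip (L.tail ++ L.take 1)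

/-- Cancellation of edges against opposite edges. -/
def cancel : ℕ → List (Rf × Rf) → Bool
  | 0, L => L.isEmpty
  | n + 1, L => match L with
    | [] => true
    | e :: t => (t.contains (e.2, e.1)) && cancel n (t.erase (e.2, e.1))

def chkC : Bool :=
  cancel 1000 (X.darts ++ cyc X.seam ++ (cyc X.seam).map fun e => (shr 1 e.2, shr 1 e.1))

/-- Sign of the imaginary part (`1`, `-1`, or `0` if undecided). -/
def sgI (v : Z3) : ℤ :=
  if posz (0, 0, 0) (1, 0, 0) v then 1 else if posz (0, 0, 0) v (1, 0, 0) then -1 else 0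

/-- Sign of `det (p, q)`. -/
def sgD (p q : Z3) : ℤ :=
  if posz (0, 0, 0) p q then 1 else if posz (0, 0, 0) q p then -1 else 0

/-- Crossing number of the negative real axis. -/
def crossz (p q : Z3) : ℤ :=
  if sgI p = 1 ∧ sgI q = -1 ∧ sgD p q = 1 then 1 else
    if sgI p = -1 ∧ sgI q = 1 ∧ sgD p q = -1 then -1 else 0

def chkS : Bool :=
  decide (X.seam ≠ []) && ((cyc X.seam).all (fun e => decide (sgI (X.vz e.1) ≠ 0 ∧ sgD (X.vz e.1) (X.vz e.2) ≠ 0)) &&
    decide (((cyc X.seam).map (fun e => crossz (X.vz e.1) (X.vz e.2))).sum = 1))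

def chkV : Bool := decide ((X.V.map (fun p => nrm p.1)).Nodup)

/-- The complete check. -/
def check : Bool := decide (0 < X.D) && (X.chkG && (X.chkN && (X.chkC && (X.chkS && X.chkV))))

end Cert

end Pool.Agent.Helper54.TRI
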