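import Pool.Agent.Helper54.TRI.Cert

/-!
# Project TRI: the certificate for the tribonacci dilation (58 vertices, 116 triangles, 80 clusters)
-/

set_option autoImplicit false
set_option maxRecDepth 100000

noncomputable section

namespace Pool.Agent.Helper54.TRI

/-- Vertex table. -/
def triV : List (Z3 × ℤ) := [
  ((190, (-684), 0), 2),
  ((157, (-722), 0), 4),
  ((117, (-782), 0), 3),
  (((-610), (-284), 0), 1),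
  (((-643), (-322), 0), 3),
  (((-683), (-382), 0), 4),
  ((590, 516, (-800)), 4),
  ((557, 478, (-800)), 2),
  ((517, 418, (-800)), 1),
  ((190, 116, (-400)), 3),
  ((157, 78, (-400)), 1),
  ((117, 18, (-400)), 2),
  (((-190), 684, 0), 2),
  (((-157), 722, 0), 4),
  (((-117), 782, 0), 3),
  ((610, 284, 0), 1),
  ((643, 322, 0), 3),
  ((683, 382, 0), 4),
  (((-590), (-516), 800), 4),
  (((-557), (-478), 800), 2),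
  (((-517), (-418), 800), 1),
  (((-190), (-116), 400), 3),
  (((-157), (-78), 400), 1),
  (((-117), (-18), 400), 2),
  ((948, 1114, 0), 2),
  ((932, 1078, 0), 1),
  ((939, 1085, 0), 1),
  ((548, 714, 400), 1),
  ((532, 678, 400), 1),
  ((539, 685, 400), 2),
  (((-252), (-86), 1200), 1),
  (((-268), (-122), 1200), 2),
  (((-261), (-115), 1200), 1),
  (((-948), (-1114), 0), 2),
  (((-932), (-1078), 0), 1),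
  (((-939), (-1085), 0), 1),
  (((-548), (-714), (-400)), 1),
  (((-532), (-678), (-400)), 1),
  (((-539), (-685), (-400)), 2),
  ((252, 86, (-1200)), 1),
  ((268, 122, (-1200)), 2),
  ((261, 115, (-1200)), 1),
  ((100, (-747), 0), 4),
  (((-190), (-779), 0), 3),
  (((-700), (-347), 0), 3),
  (((-990), (-379), 0), 4),
  (((-100), 747, 0), 4),
  ((190, 779, 0), 3),
  ((700, 347, 0), 3),
  ((990, 379, 0), 4),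
  ((406, 351, 0), 1),
  ((376, 357, 0), 2),
  (((-394), (-449), 800), 2),
  (((-424), (-443), 800), 1),
  (((-406), (-351), 0), 1),
  (((-376), (-357), 0), 2),
  ((394, 449, (-800)), 2),
  ((424, 443, (-800)), 1)]

/-- Clusters. -/
def triCS : List CD := [
  .T ((0, 0), (1, 0), (2, 0)) ((3, 0), (4, 0), (5, 0)) ((6, 0), (7, 0), (8, 0)) ((9, 0), (10, 0), (11, 0)),
  .T ((12, 0), (13, 0), (14, 0)) ((15, 0), (16, 0), (17, 0)) ((18, 0), (19, 0), (20, 0)) ((21, 0), (22, 0), (23, 0)),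
  .E ((24, 0), (25, 0), (26, 0)) ((30, 0), (31, 0), (32, 0)) ((27, 0), (28, 0), (29, 0)),
  .E ((33, 0), (34, 0), (35, 0)) ((39, 0), (40, 0), (41, 0)) ((36, 0), (37, 0), (38, 0)),
  .W (-1) ((1, 0), (0, 0), (10, 1)) ((7, 0), (6, 0), (4, 1)),
  .W (-1) ((1, 0), (10, 1), (9, 1)) ((7, 0), (4, 1), (3, 1)),
  .W (-1) ((13, 0), (12, 0), (22, 1)) ((19, 0), (18, 0), (16, 1)),
  .W (-1) ((13, 0), (22, 1), (21, 1)) ((19, 0), (16, 1), (15, 1)),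
  .W 1 ((2, 0), (1, 0), (42, 0)) ((5, 0), (4, 0), (44, 0)),
  .W 1 ((2, (-1)), (42, (-1)), (43, (-1))) ((5, (-1)), (44, (-1)), (45, (-1))),
  .W 1 ((14, 0), (13, 0), (46, 0)) ((17, 0), (16, 0), (48, 0)),
  .W 1 ((14, 0), (46, 0), (47, 0)) ((17, 0), (48, 0), (49, 0)),
  .W 1 ((43, (-1)), (42, (-1)), (9, 0)) ((45, (-1)), (44, (-1)), (0, 0)),
  .W 1 ((43, (-1)), (9, 0), (11, 0)) ((45, (-1)), (0, 0), (2, 0)),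
  .W 1 ((47, 0), (46, 0), (21, 1)) ((49, 0), (48, 0), (12, 1)),
  .W 1 ((47, (-1)), (21, 0), (23, 0)) ((49, (-1)), (12, 0), (14, 0)),
  .W (-1) ((3, 0), (5, 0), (20, 0)) ((6, 0), (8, 0), (17, 0)),
  .W 1 ((5, 0), (18, 0), (20, 0)) ((8, 0), (15, 0), (17, 0)),
  .W (-1) ((8, 0), (7, 0), (24, 0)) ((11, 0), (10, 0), (27, 0)),
  .W (-1) ((8, 0), (24, 0), (26, 0)) ((11, 0), (27, 0), (29, 0)),
  .W (-1) ((20, 0), (19, 0), (33, 0)) ((23, 0), (22, 0), (36, 0)),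
  .W (-1) ((20, 0), (33, 0), (35, 0)) ((23, 0), (36, 0), (38, 0)),
  .W (-1) ((25, 0), (24, 0), (39, 0)) ((31, 0), (30, 0), (33, 0)),
  .W 1 ((24, 0), (40, 0), (39, 0)) ((30, 0), (34, 0), (33, 0)),
  .W 1 ((29, 0), (28, 0), (51, 0)) ((32, 0), (31, 0), (53, 0)),
  .W (-1) ((28, 0), (50, 0), (51, 0)) ((31, 0), (52, 0), (53, 0)),
  .W 1 ((38, 0), (37, 0), (55, 0)) ((41, 0), (40, 0), (57, 0)),
  .W (-1) ((37, 0), (54, 0), (55, 0)) ((40, 0), (56, 0), (57, 0)),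
  .W 1 ((51, 0), (50, 0), (56, 0)) ((53, 0), (52, 0), (54, 0)),
  .W (-1) ((50, 0), (57, 0), (56, 0)) ((52, 0), (55, 0), (54, 0)),
  .P ((26, 0), (25, 0), (8, 0)),
  .P ((25, 0), (15, 0), (8, 0)),
  .P ((25, 0), (39, 0), (15, 0)),
  .P ((39, 0), (57, 0), (15, 0)),
  .P ((39, 0), (41, 0), (57, 0)),
  .P ((57, 0), (50, 0), (15, 0)),
  .P ((50, 0), (28, 0), (15, 0)),
  .P ((28, 0), (49, (-3)), (15, 0)),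
  .P ((28, 0), (17, (-3)), (49, (-3))),
  .P ((28, 0), (6, (-3)), (17, (-3))),
  .P ((28, 0), (27, 0), (6, (-3))),
  .P ((27, 0), (10, 0), (6, (-3))),
  .P ((10, 1), (0, 0), (6, (-2))),
  .P ((0, 0), (44, (-1)), (6, (-2))),
  .P ((44, 0), (4, 0), (6, (-1))),
  .P ((49, (-2)), (14, (-1)), (15, 1)),
  .P ((14, (-1)), (47, (-1)), (15, 1)),
  .P ((47, (-1)), (52, 0), (15, 1)),
  .P ((47, (-1)), (55, 0), (52, 0)),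
  .P ((47, (-1)), (23, 0), (55, 0)),
  .P ((23, 0), (38, 0), (55, 0)),
  .P ((52, 0), (19, 0), (15, 1)),
  .P ((52, 0), (31, 0), (19, 0)),
  .P ((31, 0), (33, 0), (19, 0)),
  .P ((30, 0), (54, 0), (34, 0)),
  .P ((30, 0), (53, 0), (54, 0)),
  .P ((30, 0), (32, 0), (53, 0)),
  .P ((54, 0), (45, (-3)), (34, 0)),
  .P ((54, 0), (37, 0), (45, (-3))),
  .P ((37, 0), (5, (-3)), (45, (-3))),
  .P ((37, 0), (18, (-3)), (5, (-3))),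
  .P ((37, 0), (36, 0), (18, (-3))),
  .P ((36, 0), (22, 0), (18, (-3))),
  .P ((22, 1), (12, 0), (18, (-2))),
  .P ((12, 1), (48, 0), (18, (-1))),
  .P ((48, 0), (16, 0), (18, (-1))),
  .P ((45, (-3)), (2, (-2)), (34, 0)),
  .P ((2, (-2)), (3, 0), (34, 0)),
  .P ((2, (-1)), (43, (-1)), (3, 1)),
  .P ((43, (-1)), (56, 0), (3, 1)),
  .P ((43, (-1)), (51, 0), (56, 0)),
  .P ((43, (-1)), (11, 0), (51, 0)),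
  .P ((11, 0), (29, 0), (51, 0)),
  .P ((56, 0), (7, 0), (3, 1)),
  .P ((56, 0), (40, 0), (7, 0)),
  .P ((40, 0), (24, 0), (7, 0)),
  .P ((3, 0), (20, 0), (34, 0)),
  .P ((20, 0), (35, 0), (34, 0)),
  .P ((1, 0), (9, 1), (42, 0)),
  .P ((13, 0), (21, 1), (46, 0))]

/-- Neighbours. -/
def triNB : List (List (List (ℕ × ℕ × ℕ × ℤ))) := [
  [[(4, 0, 0, 0), (8, 0, 0, 0), (13, 1, 1, 0)], [(5, 1, 1, (-1)), (8, 1, 0, 0), (16, 0, 0, 0)], [(4, 1, 0, 0), (18, 0, 0, 0), (16, 1, 0, 0)], [(5, 0, 1, (-1)), (18, 1, 0, 0), (13, 0, 1, 0)]],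
  [[(6, 0, 0, 0), (10, 0, 0, 0), (15, 1, 1, 0)], [(7, 1, 1, (-1)), (10, 1, 0, 0), (17, 1, 1, 0)], [(6, 1, 0, 0), (20, 0, 0, 0), (17, 0, 1, 0)], [(7, 0, 1, (-1)), (20, 1, 0, 0), (15, 0, 1, 0)]],
  [[(22, 0, 0, 0), (30, 0, 0, 0), (19, 0, 1, 0)], [(22, 1, 0, 0), (24, 1, 0, 0), (56, 0, 0, 0)], [(40, 0, 0, 0), (24, 0, 0, 0), (19, 1, 1, 0)]],
  [[(23, 1, 1, 0), (77, 0, 1, 0), (21, 0, 1, 0)], [(23, 0, 1, 0), (26, 1, 0, 0), (34, 0, 0, 0)], [(61, 0, 0, 0), (26, 0, 0, 0), (21, 1, 1, 0)]],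
  [[(0, 0, 0, 0), (42, 0, 0, 0), (5, 0, 0, 0)], [(0, 2, 0, 0), (44, 0, 1, 1), (5, 1, 0, 0)]],
  [[(4, 0, 2, 0), (0, 3, 0, 1), (78, 0, 0, 0)], [(4, 1, 2, 0), (0, 1, 0, 1), (73, 0, 1, 0)]],
  [[(1, 0, 0, 0), (63, 0, 0, 0), (7, 0, 0, 0)], [(1, 2, 0, 0), (65, 0, 1, 1), (7, 1, 0, 0)]],
  [[(6, 0, 2, 0), (1, 3, 0, 1), (79, 0, 0, 0)], [(6, 1, 2, 0), (1, 1, 0, 1), (51, 0, 1, 0)]],
  [[(0, 0, 1, 0), (78, 0, 2, 0), (9, 0, 0, 1)], [(0, 1, 1, 0), (44, 0, 0, 0), (9, 1, 0, 1)]],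
  [[(8, 0, 2, (-1)), (12, 0, 0, 0), (68, 0, 0, 0)], [(8, 1, 2, (-1)), (12, 1, 0, 0), (59, 0, 1, 2)]],
  [[(1, 0, 1, 0), (79, 0, 2, 0), (11, 0, 0, 0)], [(1, 1, 1, 0), (65, 0, 0, 0), (11, 1, 0, 0)]],
  [[(10, 0, 2, 0), (14, 0, 0, 0), (46, 0, 0, 1)], [(10, 1, 2, 0), (14, 1, 0, 0), (38, 0, 1, 3)]],
  [[(9, 0, 1, 0), (78, 0, 1, (-1)), (13, 0, 0, 0)], [(9, 1, 1, 0), (43, 0, 0, 0), (13, 1, 0, 0)]],
  [[(12, 0, 2, 0), (0, 3, 2, 0), (71, 0, 0, 0)], [(12, 1, 2, 0), (0, 0, 2, 0), (66, 0, 0, 2)]],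
  [[(11, 0, 1, 0), (79, 0, 1, 0), (15, 0, 0, 1)], [(11, 1, 1, 0), (64, 0, 0, 0), (15, 1, 0, 1)]],
  [[(14, 0, 2, (-1)), (1, 3, 2, 0), (49, 0, 0, 0)], [(14, 1, 2, (-1)), (1, 0, 2, 0), (45, 0, 0, 1)]],
  [[(0, 1, 2, 0), (17, 0, 2, 0), (76, 0, 0, 0)], [(0, 2, 2, 0), (17, 1, 2, 0), (39, 0, 1, 3)]],
  [[(60, 0, 1, 3), (1, 2, 2, 0), (16, 0, 1, 0)], [(31, 0, 1, 0), (1, 1, 2, 0), (16, 1, 1, 0)]],
  [[(0, 2, 1, 0), (75, 0, 1, 0), (19, 0, 0, 0)], [(0, 3, 1, 0), (41, 0, 0, 0), (19, 1, 0, 0)]],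
  [[(18, 0, 2, 0), (2, 0, 2, 0), (30, 0, 2, 0)], [(18, 1, 2, 0), (2, 2, 2, 0), (72, 0, 0, 0)]],
  [[(1, 2, 1, 0), (53, 0, 1, 0), (21, 0, 0, 0)], [(1, 3, 1, 0), (62, 0, 0, 0), (21, 1, 0, 0)]],
  [[(20, 0, 2, 0), (3, 0, 2, 0), (77, 0, 0, 0)], [(20, 1, 2, 0), (3, 2, 2, 0), (50, 0, 0, 0)]],
  [[(2, 0, 0, 0), (23, 0, 2, 0), (32, 0, 0, 0)], [(2, 1, 0, 0), (23, 1, 2, 0), (53, 0, 0, 0)]],
  [[(75, 0, 0, 0), (3, 1, 0, 0), (22, 0, 1, 0)], [(54, 0, 2, 0), (3, 0, 0, 0), (22, 1, 1, 0)]],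
  [[(2, 2, 1, 0), (25, 0, 2, 0), (72, 0, 1, 0)], [(2, 1, 1, 0), (25, 1, 2, 0), (56, 0, 1, 0)]],
  [[(36, 0, 0, 0), (28, 0, 0, 0), (24, 0, 1, 0)], [(52, 0, 0, 0), (28, 1, 0, 0), (24, 1, 1, 0)]],
  [[(3, 2, 1, 0), (27, 0, 2, 0), (50, 0, 1, 0)], [(3, 1, 1, 0), (27, 1, 2, 0), (34, 0, 1, 0)]],
  [[(58, 0, 0, 0), (29, 1, 1, 0), (26, 0, 1, 0)], [(74, 0, 0, 0), (29, 0, 1, 0), (26, 1, 1, 0)]],
  [[(25, 0, 1, 0), (29, 0, 2, 0), (70, 0, 1, 0)], [(25, 1, 1, 0), (29, 1, 2, 0), (55, 0, 1, 0)]],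
  [[(35, 0, 0, 0), (27, 1, 1, 0), (28, 0, 1, 0)], [(48, 0, 1, 0), (27, 0, 1, 0), (28, 1, 1, 0)]],
  [[(2, 0, 1, 0), (31, 0, 2, 0), (19, 0, 2, 0)]],
  [[(32, 0, 2, 0), (17, 1, 0, 0), (30, 0, 1, 0)]],
  [[(22, 0, 2, 0), (33, 0, 2, 0), (31, 0, 0, 0)]],
  [[(34, 0, 2, 0), (35, 0, 2, 0), (32, 0, 1, 0)]],
  [[(3, 1, 2, 0), (26, 1, 2, 0), (33, 0, 0, 0)]],
  [[(29, 0, 0, 0), (36, 0, 2, 0), (33, 0, 1, 0)]],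
  [[(25, 0, 0, 0), (37, 0, 2, 0), (35, 0, 1, 0)]],
  [[(38, 0, 2, 0), (45, 0, 2, (-1)), (36, 0, 1, 0)]],
  [[(39, 0, 2, 0), (11, 1, 2, (-3)), (37, 0, 0, 0)]],
  [[(40, 0, 2, 0), (16, 1, 2, (-3)), (38, 0, 0, 0)]],
  [[(2, 2, 0, 0), (41, 0, 2, 0), (39, 0, 0, 0)]],
  [[(18, 1, 1, 0), (42, 0, 2, (-1)), (40, 0, 1, 0)]],
  [[(4, 0, 1, 0), (43, 0, 2, 0), (41, 0, 1, 1)]],
  [[(12, 1, 1, 0), (44, 0, 2, (-1)), (42, 0, 1, 0)]],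
  [[(8, 1, 1, 0), (4, 1, 1, (-1)), (43, 0, 1, 1)]],
  [[(15, 1, 2, (-1)), (46, 0, 2, 0), (37, 0, 1, 1)]],
  [[(11, 0, 2, (-1)), (47, 0, 2, 0), (45, 0, 1, 0)]],
  [[(48, 0, 2, 0), (51, 0, 2, 0), (46, 0, 1, 0)]],
  [[(49, 0, 2, 0), (29, 1, 0, 0), (47, 0, 0, 0)]],
  [[(15, 0, 2, 0), (50, 0, 2, 0), (48, 0, 0, 0)]],
  [[(21, 1, 2, 0), (26, 0, 2, 0), (49, 0, 1, 0)]],
  [[(52, 0, 2, 0), (7, 1, 2, 0), (47, 0, 1, 0)]],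
  [[(25, 1, 0, 0), (53, 0, 2, 0), (51, 0, 0, 0)]],
  [[(22, 1, 2, 0), (20, 0, 1, 0), (52, 0, 1, 0)]],
  [[(55, 0, 2, 0), (57, 0, 2, 0), (23, 1, 0, 0)]],
  [[(56, 0, 2, 0), (28, 1, 2, 0), (54, 0, 0, 0)]],
  [[(2, 1, 2, 0), (24, 1, 2, 0), (55, 0, 0, 0)]],
  [[(58, 0, 2, 0), (66, 0, 2, 0), (54, 0, 1, 0)]],
  [[(27, 0, 0, 0), (59, 0, 2, 0), (57, 0, 0, 0)]],
  [[(60, 0, 2, 0), (9, 1, 2, (-2)), (58, 0, 1, 0)]],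
  [[(61, 0, 2, 0), (17, 0, 0, (-3)), (59, 0, 0, 0)]],
  [[(3, 2, 0, 0), (62, 0, 2, 0), (60, 0, 0, 0)]],
  [[(20, 1, 1, 0), (63, 0, 2, (-1)), (61, 0, 1, 0)]],
  [[(6, 0, 1, 0), (64, 0, 2, (-1)), (62, 0, 1, 1)]],
  [[(14, 1, 1, 0), (65, 0, 2, 0), (63, 0, 1, 1)]],
  [[(10, 1, 1, 0), (6, 1, 1, (-1)), (64, 0, 1, 0)]],
  [[(13, 1, 2, (-2)), (67, 0, 2, 0), (57, 0, 1, 0)]],
  [[(68, 0, 2, (-1)), (76, 0, 2, 0), (66, 0, 1, 0)]],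
  [[(9, 0, 2, 0), (69, 0, 2, 0), (67, 0, 0, 1)]],
  [[(70, 0, 2, 0), (73, 0, 2, 0), (68, 0, 1, 0)]],
  [[(71, 0, 2, 0), (28, 0, 2, 0), (69, 0, 0, 0)]],
  [[(13, 0, 2, 0), (72, 0, 2, 0), (70, 0, 0, 0)]],
  [[(19, 1, 2, 0), (24, 0, 2, 0), (71, 0, 1, 0)]],
  [[(74, 0, 2, 0), (5, 1, 2, 0), (69, 0, 1, 0)]],
  [[(27, 1, 0, 0), (75, 0, 2, 0), (73, 0, 0, 0)]],
  [[(23, 0, 0, 0), (18, 0, 1, 0), (74, 0, 1, 0)]],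
  [[(16, 0, 2, 0), (77, 0, 2, 0), (67, 0, 1, 0)]],
  [[(21, 0, 2, 0), (3, 0, 1, 0), (76, 0, 1, 0)]],
  [[(5, 0, 2, 0), (12, 0, 1, 1), (8, 0, 1, 0)]],
  [[(7, 0, 2, 0), (14, 0, 1, 0), (10, 0, 1, 0)]]]

/-- Seam. -/
def triSeam : List Rf := [(4, 0), (3, 0), (2, (-2)), (45, (-3)), (5, (-3)), (18, (-3)), (22, 0), (21, 0), (47, (-1)), (14, (-1)), (49, (-2)), (17, (-2)), (6, (-2)), (44, (-1)), (5, (-1)), (18, (-1)), (16, 0), (15, 0), (49, (-3)), (17, (-3)), (6, (-3)), (10, 0), (9, 0), (42, (-1)), (2, (-1)), (45, (-2)), (5, (-2)), (18, (-2)), (12, 0), (49, (-1)), (17, (-1)), (6, (-1))]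

/-- The certificate. -/
def tri : Cert where
  D := 400
  V := triV
  CS := triCS
  NB := triNB
  seam := triSeam

end Pool.Agent.Helper54.TRI
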