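import Pool.Agent.Helper54.TRI.St5

/-!
# Project TRI, module CHP: trace and determinant of the matrices with the tribonacci eigenvalues
-/

set_option autoImplicit false

open Set Filter Topology

noncomputable section

namespace Pool.Agent.Helper54.TRI

open Pool.Agent.Helper54.Wav

/-- The cubic equation for the trace has one real root. -/
private theorem cub_CHP {T S : ℝ} (hT : T ^ 3 + 2 * T ^ 2 + 2 * T + 2 = 0)
    (hS : S ^ 3 + 2 * S ^ 2 + 2 * S + 2 = 0) : T = S := by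
  have h1 : (T - S) * ((T + S / 2 + 1) ^ 2 + (3 / 4 * S ^ 2 + S + 1)) = 0 := by linarith
  rcases mul_eq_zero.1 h1 with h | h
  · linarith
  · exfalso
    nlinarith [sq_nonneg (T + S / 2 + 1), sq_nonneg (S + 1), sq_nonneg S]

/-- A scalar matrix is not possible. -/
private theorem scal_CHP {a : ℝ} (h : a ^ 3 + a ^ 2 + a = 1) (h1 : 1 < |a|) : False := by
  rcases lt_abs.1 h1 with h2 | h2
  · nlinarith [sq_nonneg a, mul_pos (show 0 < a by linarith) (show 0 < a by linarith)]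
  · have h3 : a ^ 2 * (a + 1) ≤ 0 := mul_nonpos_of_nonneg_of_nonpos (sq_nonneg a) (by linarith)
    nlinarith

theorem m_CHP (hr : StRT) : StCHP := by
  intro α hα A hE hA
  obtain ⟨hτ, hlo, -, hns, -, -⟩ := hr.2 α hα
  obtain ⟨τ, hτd⟩ : ∃ τ : ℝ, τ = 1 - 2 * α.re := ⟨_, rfl⟩
  rw [← hτd] at hτ hlo hns
  have hτ0 : 0 < τ := lt_trans (by norm_num) hlo
  -- the target
  have hn0 : Complex.normSq α ≠ 0 := by
    intro h
    rw [h, zero_mul] at hns
    exact zero_ne_one hns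
  have hinv : (Complex.normSq α)⁻¹ = τ := inv_eq_of_mul_eq_one_right hns
  have hre : 2 * (α⁻¹).re = τ - τ ^ 2 := by
    rw [Complex.inv_re, div_eq_mul_inv, hinv]
    have : 2 * α.re = 1 - τ := by linarith
    calc 2 * (α.re * τ) = (2 * α.re) * τ := by ring
      _ = τ - τ ^ 2 := by rw [this]; ring
  have hsq : Complex.normSq α⁻¹ = τ := by
    rw [Complex.normSq_inv, hinv]
  rw [hre, hsq]
  -- the entries
  obtain ⟨a, ha⟩ : ∃ a : ℝ, a = A 0 0 := ⟨_, rfl⟩
  obtain ⟨b, hb⟩ : ∃ b : ℝ, b = A 0 1 := ⟨_, rfl⟩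
  obtain ⟨c, hc⟩ : ∃ c : ℝ, c = A 1 0 := ⟨_, rfl⟩
  obtain ⟨d, hd⟩ : ∃ d : ℝ, d = A 1 1 := ⟨_, rfl⟩
  have hT : A.trace = a + d := by rw [Matrix.trace_fin_two, ha, hd]
  have hD : A.det = a * d - b * c := by rw [Matrix.det_fin_two, ha, hb, hc, hd]
  have e00 := congrFun (congrFun hA 0) 0
  have e01 := congrFun (congrFun hA 0) 1
  have e10 := congrFun (congrFun hA 1) 0
  have e11 := congrFun (congrFun hA 1) 1
  simp only [pow_succ, pow_zero, one_mul, Matrix.add_apply, Matrix.mul_apply, Fin.sum_univ_two,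
    Matrix.one_apply_eq, ← ha, ← hb, ← hc, ← hd] at e00 e01 e10 e11
  rw [Matrix.one_apply_ne (by decide)] at e01 e10
  have f01 : b * ((a + d) ^ 2 - (a * d - b * c) + (a + d) + 1) = 0 := by linarith
  have f10 : c * ((a + d) ^ 2 - (a * d - b * c) + (a + d) + 1) = 0 := by linarith
  have f00 : a * ((a + d) ^ 2 - (a * d - b * c) + (a + d) + 1) =
      (a + d) * (a * d - b * c) + (a * d - b * c) + 1 := by linarith
  have f11 : d * ((a + d) ^ 2 - (a * d - b * c) + (a + d) + 1) =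
      (a + d) * (a * d - b * c) + (a * d - b * c) + 1 := by linarith
  by_cases hK : (a + d) ^ 2 - (a * d - b * c) + (a + d) + 1 = 0
  · rw [hK, mul_zero] at f00
    have hcub : (a + d) ^ 3 + 2 * (a + d) ^ 2 + 2 * (a + d) + 2 = 0 := by
      have h1 : a * d - b * c = (a + d) ^ 2 + (a + d) + 1 := by linarith
      rw [h1] at f00
      linarith
    have hcub2 : (τ - τ ^ 2) ^ 3 + 2 * (τ - τ ^ 2) ^ 2 + 2 * (τ - τ ^ 2) + 2 = 0 := by
      have h1 : (τ - τ ^ 2) ^ 3 + 2 * (τ - τ ^ 2) ^ 2 + 2 * (τ - τ ^ 2) + 2 =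
          (τ ^ 3 - τ ^ 2 - τ - 1) * (-(τ ^ 3) + 2 * τ ^ 2 - 2) := by ring
      rw [h1, hτ]
      ring
    have hTT := cub_CHP hcub hcub2
    refine ⟨by rw [hT, hTT], ?_⟩
    rw [hD]
    have h1 : a * d - b * c = (a + d) ^ 2 + (a + d) + 1 := by linarith
    rw [h1, hTT]
    have h2 : (τ - τ ^ 2) ^ 2 + (τ - τ ^ 2) + 1 - τ = (τ ^ 3 - τ ^ 2 - τ - 1) * (τ - 1) := by ring
    have h3 : (τ ^ 3 - τ ^ 2 - τ - 1) * (τ - 1) = 0 := by rw [hτ]; ring
    linarith
  · exfalso
    have hb0 : b = 0 := (mul_eq_zero.1 f01).resolve_right hK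
    have hc0 : c = 0 := (mul_eq_zero.1 f10).resolve_right hK
    have had : a = d := by
      have h1 : (a - d) * ((a + d) ^ 2 - (a * d - b * c) + (a + d) + 1) = 0 := by linarith
      have := (mul_eq_zero.1 h1).resolve_right hK
      linarith
    have hroot : (A.map (algebraMap ℝ ℂ)).charpoly.IsRoot ((a : ℝ) : ℂ) := by
      rw [Matrix.charpoly_fin_two]
      simp only [Polynomial.IsRoot.def, Polynomial.eval_add, Polynomial.eval_sub,
        Polynomial.eval_pow, Polynomial.eval_mul, Polynomial.eval_X, Polynomial.eval_C,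
        Matrix.trace_fin_two, Matrix.det_fin_two, Matrix.map_apply, ← ha, ← hb, ← hc, ← hd,
        hb0, hc0, ← had, map_zero]
      change (a : ℂ) ^ 2 - ((a : ℂ) + (a : ℂ)) * (a : ℂ) + ((a : ℂ) * (a : ℂ) - 0 * 0) = 0
      ring
    have h1 := hE _ hroot
    rw [Complex.norm_real, Real.norm_eq_abs] at h1
    refine scal_CHP (a := a) ?_ h1
    rw [hb0, hc0] at e00
    linarith

end Pool.Agent.Helper54.TRI
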