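import Pool.Agent.Helper54.TRI.St5

/-!
# Project TRI, module EXM: an explicit matrix
-/

set_option autoImplicit false

open Set Filter Topology Matrix

noncomputable section

namespace Pool.Agent.Helper54.TRI

private theorem exp_EXM (τ : ℝ) (h1 : 1 < τ) (h2 : τ < 2) :
    Wav.Expansive (!![τ * (1 - τ), -τ; 1, 0] : Matrix (Fin 2) (Fin 2) ℝ) := by
  intro z hz
  rw [Matrix.charpoly_fin_two] at hz
  simp only [Polynomial.IsRoot.def, Polynomial.eval_add, Polynomial.eval_sub, Polynomial.eval_pow,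
    Polynomial.eval_X, Polynomial.eval_mul, Polynomial.eval_C, Matrix.trace_fin_two,
    Matrix.det_fin_two, Matrix.map_apply, Complex.coe_algebraMap] at hz
  simp at hz
  -- `z² - τ (1 - τ) z + τ = 0`
  have hre := congrArg Complex.re hz
  have him := congrArg Complex.im hz
  simp [pow_two] at hre him
  have hy : z.im ≠ 0 := by
    intro hy
    rw [hy] at hre
    have h5 : (z.re - τ * (1 - τ) / 2) ^ 2 = (τ * (1 - τ) / 2) ^ 2 - τ := by nlinarith
    have h6 : 0 ≤ (z.re - τ * (1 - τ) / 2) ^ 2 := sq_nonneg _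
    have h7 : τ * (τ - 1) ^ 2 < 2 := by nlinarith [mul_pos (sub_pos.2 h1) (sub_pos.2 h2)]
    nlinarith [mul_pos (lt_trans one_pos h1) (sub_pos.2 h7)]
  have hx : 2 * z.re = τ * (1 - τ) := by
    have : z.im * (2 * z.re - τ * (1 - τ)) = 0 := by linarith
    rcases mul_eq_zero.1 this with h | h
    · exact absurd h hy
    · linarith
  have hn : z.re * z.re + z.im * z.im = τ := by
    rw [← hx] at hre
    linarith
  have h8 : 1 < ‖z‖ ^ 2 := by
    rw [← Complex.normSq_eq_norm_sq, Complex.normSq_apply, hn]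
    exact h1
  by_contra h9
  have h10 : ‖z‖ ≤ 1 := not_lt.1 h9
  nlinarith [norm_nonneg z]

theorem m_EXM (hr : StRT) : StEXM := by
  obtain ⟨⟨α, hα⟩, h⟩ := hr
  obtain ⟨h1, h2, h3, -⟩ := h α hα
  set τ : ℝ := 1 - 2 * α.re with hτ
  refine ⟨τ, h1, exp_EXM τ (by linarith [h2, (by norm_num : (1 : ℝ) < 1839286755214 / 10 ^ 12)])
    (by linarith [h3, (by norm_num : (1839286755215 : ℝ) / 10 ^ 12 < 2)]), ?_, ![1, 0], ![0, 1],
    ?_, ?_⟩
  · ext i j
    fin_cases i <;> fin_cases j <;>
      simp [pow_succ]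
    · linear_combination (τ * (1 - τ) * (τ - 1) + 1) * h1
    · linear_combination (-τ * (τ - 1)) * h1
    · linear_combination (τ - 1) * h1
    · linear_combination h1
  · intro h0
    have := congrFun h0 1
    simp at this
  · ext i
    fin_cases i <;> simp [Wav.zv, Matrix.mulVec, dotProduct, Fin.sum_univ_two]

end Pool.Agent.Helper54.TRI
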