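import Pool.Agent.Helper54.TRI.Asm
import Pool.Agent.Helper54.TRI.M_CHP
import Pool.Agent.Helper54.TRI.M_J1
import Pool.Agent.Helper54.TRI.M_EXM

/-!
# Project TRI: the theorem, from the last modules
-/

set_option autoImplicit false

open Set Filter Topology Matrix
open Pool.Agent.Helper54.Wav

noncomputable section

namespace Pool.Agent.Helper54.TRI

theorem pCHP : StCHP := m_CHP m_RT

/-- The two definitions of expansive matrices agree. -/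
theorem exp_iff {n : ℕ} (A : Matrix (Fin n) (Fin n) ℝ) :
    _root_.Wav.Expansive A ↔ Pool.Agent.Helper54.Wav.Expansive A := by
  unfold _root_.Wav.Expansive Pool.Agent.Helper54.Wav.Expansive
  constructor
  · intro h z hz
    exact h z (Matrix.mem_spectrum_iff_isRoot_charpoly.2 hz)
  · intro h z hz
    exact h z (Matrix.mem_spectrum_iff_isRoot_charpoly.1 hz)

theorem pJ1 : StJ1 := m_J1 m_RT pEM
theorem pEXM : StEXM := m_EXM m_RT

/-- If `B q` is an integer vector for a nonzero integer vector `q`, then `1` is an exponent. -/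
theorem one_mem_exps {A : Matrix (Fin 2) (Fin 2) ℝ} (hA : A.det ≠ 0) {p q : Fin 2 → ℤ}
    (hq : q ≠ 0) (h : zv p = Aᵀ *ᵥ zv q) : (1 : ℤ) ∈ WavN.Exps A := by
  have e0 : ∀ p : Fin 2 → ℤ, Wav.act (A.transpose ^ (0 : ℤ)) (Wav.ivec p) = Wav.ivec p := by
    intro p
    rw [zpow_zero]
    exact Wav.act_one _
  have h1 : Wav.act (A.transpose ^ (1 : ℤ)) (Wav.ivec q) = Wav.ivec p := by
    rw [zpow_one]
    unfold Wav.act Wav.ivec
    exact congrArg (WithLp.toLp 2) h.symm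
  refine ⟨Wav.ivec p, fun h0 => hq ?_, ⟨p, e0 p⟩, ⟨q, h1⟩⟩
  have hdetT : (A.transpose ^ (1 : ℤ)).det ≠ 0 := by
    rwa [zpow_one, Matrix.det_transpose]
  apply WavN.ivec_eq_zero
  apply Wav.act_inj hdetT
  rw [h1, h0]
  unfold Wav.act
  simp

/-- The wavelet, from the kernel. -/
theorem wavelet_of_meet (hTRF : StTRF) (hLAT : StLAT) (hG6 : Pool.Agent.Helper56.TW.StG6)
    {A : Matrix (Fin 2) (Fin 2) ℝ} (hE : _root_.Wav.Expansive A) (h3 : A ^ 3 + A ^ 2 + A = 1)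
    (hex : ∃ p q : Fin 2 → ℤ, q ≠ 0 ∧ zv p = Aᵀ *ᵥ zv q) :
    Pool.Agent.Helper54.WavS.HasSchwartzWavelet A := by
  obtain ⟨α, hα⟩ := m_RT.1
  obtain ⟨htr, hdet⟩ := pCHP α hα A ((exp_iff A).1 hE) h3
  obtain ⟨p, q, hq, hpq⟩ := hex
  obtain ⟨K, Λ, ε, R, hP⟩ := kernel_of_cert hα tri tri_check
  have hD : tri.D ≠ 0 := by
    have := tri_check
    unfold Cert.check at this
    simp only [Bool.and_eq_true, decide_eq_true_eq] at this
    intro h0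
    have h1 := this.1
    rw [h0] at h1
    revert h1
    decide
  obtain ⟨φ, hinj, hφ, hlat⟩ := hLAT α tri.D Aᵀ p q hα.im.ne' hD
    (by rw [Matrix.trace_transpose]; exact htr) (by rw [Matrix.det_transpose]; exact hdet) hq hpq
  obtain ⟨Λ', ν, κ, hR⟩ := hTRF α⁻¹ (Gam α tri.D 0) K Λ ε R Aᵀ φ (m_RT.2 α hα).2.2.2.2.1 hinj hφ
    hlat hP
  have := hG6 Aᵀ _ Λ' ν κ ε R hR
  rwa [Matrix.transpose_transpose] at this

/-- The theorem. -/
theorem fin_tri (hTRF : StTRF) (hLAT : StLAT) (hNRP : StNRP) (hG6 : Pool.Agent.Helper56.TW.StG6) :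
    (∀ A : Matrix (Fin 2) (Fin 2) ℝ, _root_.Wav.Expansive A → A ^ 3 + A ^ 2 + A = 1 →
      ¬ Pool.Agent.Helper54.WavS.HasRationalPower A ∧
      ((∃ N : ℝ, 2 < N ∧ WavN.HasWavelet N A) ↔ ∃ j : ℤ, j ≠ 0 ∧ j ∈ WavN.Exps A) ∧
      ((∃ j : ℤ, j ≠ 0 ∧ j ∈ WavN.Exps A) →
        (1 : ℤ) ∈ WavN.Exps A ∧ Pool.Agent.Helper54.WavS.HasSchwartzWavelet A)) ∧
    ∃ τ : ℝ, τ ^ 3 = τ ^ 2 + τ + 1 ∧
      _root_.Wav.Expansive (!![τ * (1 - τ), -τ; 1, 0] : Matrix (Fin 2) (Fin 2) ℝ) ∧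
      (!![τ * (1 - τ), -τ; 1, 0] : Matrix (Fin 2) (Fin 2) ℝ) ^ 3 + !![τ * (1 - τ), -τ; 1, 0] ^ 2 +
        !![τ * (1 - τ), -τ; 1, 0] = 1 ∧
      ¬ Pool.Agent.Helper54.WavS.HasRationalPower
        (!![τ * (1 - τ), -τ; 1, 0] : Matrix (Fin 2) (Fin 2) ℝ) ∧
      Pool.Agent.Helper54.WavS.HasSchwartzWavelet
        (!![τ * (1 - τ), -τ; 1, 0] : Matrix (Fin 2) (Fin 2) ℝ) := by
  obtain ⟨α, hα⟩ := m_RT.1
  have hJ : ∀ A : Matrix (Fin 2) (Fin 2) ℝ, _root_.Wav.Expansive A → A ^ 3 + A ^ 2 + A = 1 →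
      (∃ j : ℤ, j ≠ 0 ∧ j ∈ WavN.Exps A) →
        (1 : ℤ) ∈ WavN.Exps A ∧ Pool.Agent.Helper54.WavS.HasSchwartzWavelet A := by
    intro A hE h3 hj
    obtain ⟨htr, hdet⟩ := pCHP α hα A ((exp_iff A).1 hE) h3
    obtain ⟨p, q, hq, hpq⟩ := pJ1 α hα A htr hdet hj
    exact ⟨one_mem_exps (_root_.Wav.expansive_det hE) hq hpq,
      wavelet_of_meet hTRF hLAT hG6 hE h3 ⟨p, q, hq, hpq⟩⟩
  refine ⟨?_, ?_⟩
  · intro A hE h3
    obtain ⟨htr, hdet⟩ := pCHP α hα A ((exp_iff A).1 hE) h3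
    refine ⟨hNRP α hα A htr hdet, ⟨?_, ?_⟩, hJ A hE h3⟩
    · rintro ⟨N, hN, hW⟩
      by_contra hcon
      have hcl := WavN.exps_closure (le_refl 2) hE hN hW
      have h0 : AddSubgroup.closure (WavN.Exps A) ≤ ⊥ := by
        rw [AddSubgroup.closure_le]
        intro j hj
        by_contra hj0
        exact hcon ⟨j, fun h => hj0 (by simp [h]), hj⟩
      rw [hcl] at h0
      have h1 : (1 : ℤ) ∈ (⊥ : AddSubgroup ℤ) := h0 (AddSubgroup.mem_top 1)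
      rw [AddSubgroup.mem_bot] at h1
      exact one_ne_zero h1
    · intro hj
      exact ⟨3, by norm_num, (hJ A hE h3 hj).2.hasWavelet _⟩
  · obtain ⟨τ, hτ, hE, h3, p, q, hq, hpq⟩ := pEXM
    obtain ⟨htr, hdet⟩ := pCHP α hα _ hE h3
    exact ⟨τ, hτ, (exp_iff _).2 hE, h3, hNRP α hα _ htr hdet,
      wavelet_of_meet hTRF hLAT hG6 ((exp_iff _).2 hE) h3 ⟨p, q, hq, hpq⟩⟩

end Pool.Agent.Helper54.TRI
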