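import Pool.Agent.Helper54.TRI.St2

/-!
# Project TRI, module CF3: only finitely many triangles contain a given point
-/

set_option autoImplicit false

open Set Filter Topology

noncomputable section

namespace Pool.Agent.Helper54.TRI

private theorem zfin_CF3 (β x₀ : ℂ) (hβ : 1 < ‖β‖) (hx : x₀ ≠ 0) (K : Set ℂ) (hK : IsCompact K)
    (h0 : (0 : ℂ) ∉ K) : {k : ℤ | β ^ (-k) * x₀ ∈ K}.Finite := by
  have hxpos : 0 < ‖x₀‖ := norm_pos_iff.2 hx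
  -- upper bound of the norm
  obtain ⟨R, hR⟩ := hK.isBounded.exists_norm_le
  -- lower bound of the norm
  obtain ⟨r, hr, hrK⟩ : ∃ r > 0, ∀ y ∈ K, r ≤ ‖y‖ := by
    have h1 : Kᶜ ∈ 𝓝 (0 : ℂ) := hK.isClosed.isOpen_compl.mem_nhds h0
    obtain ⟨r, hr, h2⟩ := Metric.mem_nhds_iff.1 h1
    refine ⟨r, hr, fun y hy => ?_⟩
    by_contra h3
    exact h2 (by rw [Metric.mem_ball, dist_zero_right]; exact not_le.1 h3) hy
  -- powers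
  obtain ⟨N, hN⟩ := pow_unbounded_of_one_lt (‖x₀‖ / r) hβ
  obtain ⟨M, hM⟩ := pow_unbounded_of_one_lt (R / ‖x₀‖) hβ
  refine (Set.finite_Ioo (-(M : ℤ)) (N : ℤ)).subset ?_
  intro k hk
  have hk' : β ^ (-k) * x₀ ∈ K := hk
  have h1 := hR _ hk'
  have h2 := hrK _ hk'
  rw [norm_mul, norm_zpow] at h1 h2
  constructor
  · -- `-M < k`
    by_contra h3
    have h4 : (M : ℤ) ≤ -k := by omega
    have h5 : ‖β‖ ^ (M : ℤ) ≤ ‖β‖ ^ (-k) := zpow_le_zpow_right₀ hβ.le h4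
    rw [zpow_natCast] at h5
    have h6 : R < ‖β‖ ^ M * ‖x₀‖ := (div_lt_iff₀ hxpos).1 hM
    have h7 : ‖β‖ ^ M * ‖x₀‖ ≤ ‖β‖ ^ (-k) * ‖x₀‖ := mul_le_mul_of_nonneg_right h5 hxpos.le
    linarith
  · by_contra h3
    have h4 : -k ≤ -(N : ℤ) := by omega
    have h5 : ‖β‖ ^ (-k) ≤ ‖β‖ ^ (-(N : ℤ)) := zpow_le_zpow_right₀ hβ.le h4
    rw [zpow_neg ‖β‖ (N : ℤ), zpow_natCast] at h5
    have h6 : ‖x₀‖ < ‖β‖ ^ N * r := (div_lt_iff₀ hr).1 hN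
    have hpos : 0 < ‖β‖ ^ N := pow_pos (lt_trans zero_lt_one hβ) N
    have h7 : (‖β‖ ^ N)⁻¹ * ‖x₀‖ < r := by
      rw [inv_mul_lt_iff₀ hpos]
      exact h6
    have h8 : ‖β‖ ^ (-k) * ‖x₀‖ ≤ (‖β‖ ^ N)⁻¹ * ‖x₀‖ := mul_le_mul_of_nonneg_right h5 hxpos.le
    linarith

theorem m_CF3 (hT : StTG) : StCF3 := by
  intro ι _ T β nb ht x₀ hx₀
  have h1 : ∀ i, {k : ℤ | β ^ (-k) * x₀ ∈ Cls (T i)}.Finite := fun i =>
    zfin_CF3 β x₀ ht.one_lt hx₀ _ (hT _ (ht.pos i)).2.2.1 (ht.zero i)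
  refine ((Set.finite_iUnion fun i => (h1 i).image (fun k => (i, k))).subset ?_)
  rintro ⟨i, k⟩ hk
  exact Set.mem_iUnion.2 ⟨i, k, hk, rfl⟩

end Pool.Agent.Helper54.TRI
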