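import Pool.Agent.Helper54.TRI.St4

/-!
# Project TRI, module RT: the tribonacci constant
-/

set_option autoImplicit false

open Set Filter Topology

noncomputable section

namespace Pool.Agent.Helper54.TRI

private theorem exists_root_RT : ∃ τ : ℝ, τ ^ 3 = τ ^ 2 + τ + 1 ∧ 1 < τ ∧ τ < 2 := by
  have hc : ContinuousOn (fun x : ℝ => x ^ 3 - x ^ 2 - x - 1) (Icc 1 2) := by fun_prop
  have h := intermediate_value_Icc (by norm_num : (1 : ℝ) ≤ 2) hc
  have h0 : (0 : ℝ) ∈ Icc ((fun x : ℝ => x ^ 3 - x ^ 2 - x - 1) 1)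
      ((fun x : ℝ => x ^ 3 - x ^ 2 - x - 1) 2) := by
    constructor <;> norm_num
  obtain ⟨τ, hτ, hf⟩ := h h0
  have hf' : τ ^ 3 - τ ^ 2 - τ - 1 = 0 := hf
  refine ⟨τ, by linarith, ?_, ?_⟩
  · rcases lt_or_eq_of_le hτ.1 with h1 | h1
    · exact h1
    · rw [← h1] at hf'
      norm_num at hf'
  · rcases lt_or_eq_of_le hτ.2 with h1 | h1
    · exact h1
    · rw [h1] at hf'
      norm_num at hf'

private theorem ex_RT : ∃ α, Root α := by
  obtain ⟨τ, h1, h2, h3⟩ := exists_root_RT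
  have hn : ((1 - τ) / 2) ^ 2 < τ ^ 2 - τ - 1 := by
    by_contra h
    have h4 : τ ^ 2 - τ - 1 ≤ ((1 - τ) / 2) ^ 2 := not_lt.1 h
    -- `3 τ² - 2 τ - 5 ≤ 0`, `(3 τ - 5) (τ + 1) ≤ 0`, so `τ ≤ 5/3` and then `τ³ < τ² + τ + 1`
    have h5 : (3 * τ - 5) * (τ + 1) ≤ 0 := by nlinarith
    have h6 : τ ≤ 5 / 3 := by
      by_contra h7
      have h8 : 0 < 3 * τ - 5 := by linarith [not_le.1 h7]
      have h9 : 0 < (3 * τ - 5) * (τ + 1) := mul_pos h8 (by linarith)
      linarith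
    nlinarith [mul_nonneg (sub_nonneg.2 h2.le) (sub_nonneg.2 h6),
      mul_nonneg (mul_nonneg (sub_nonneg.2 h2.le) (sub_nonneg.2 h6)) (by linarith : (0 : ℝ) ≤ τ)]
  set a : ℝ := (1 - τ) / 2 with ha
  set b : ℝ := Real.sqrt (τ ^ 2 - τ - 1 - a ^ 2) with hb
  have hb2 : b ^ 2 = τ ^ 2 - τ - 1 - a ^ 2 := Real.sq_sqrt (by linarith)
  have hb0 : 0 < b := Real.sqrt_pos.2 (by linarith)
  have hτ : τ = 1 - 2 * a := by rw [ha]; ring
  refine ⟨⟨a, b⟩, ?_, hb0⟩
  have e1 : 4 * a ^ 3 - 4 * a ^ 2 + 1 = 0 := by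
    rw [hτ] at h1
    nlinarith
  have e2 : b ^ 2 = 3 * a ^ 2 - 2 * a - 1 := by
    rw [hb2, hτ]
    ring
  apply Complex.ext
  · simp only [pow_succ, pow_zero, one_mul, Complex.mul_re, Complex.mul_im, Complex.add_re,
      Complex.one_re]
    nlinarith
  · simp only [pow_succ, pow_zero, one_mul, Complex.mul_re, Complex.mul_im, Complex.add_im,
      Complex.one_im]
    have : b * (b ^ 2) = b * (3 * a ^ 2 - 2 * a - 1) := by rw [e2]
    nlinarith

private theorem irr_RT (τ : ℝ) (h1 : τ ^ 3 = τ ^ 2 + τ + 1) (h2 : 1 < τ) (h3 : τ < 2) :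
    Irrational τ := by
  rintro ⟨q, hq⟩
  have hq1 : (q : ℝ) ^ 3 = (q : ℝ) ^ 2 + q + 1 := by rw [hq]; exact h1
  have hq2 : q ^ 3 = q ^ 2 + q + 1 := by exact_mod_cast hq1
  have hd : (q.den : ℚ) ≠ 0 := by exact_mod_cast q.den_nz
  have hq3 : (q.num : ℚ) ^ 3 = (q.den : ℚ) * ((q.num : ℚ) ^ 2 + q.num * q.den + (q.den : ℚ) ^ 2) := by
    have e : q = q.num / q.den := (Rat.num_div_den q).symm
    have hq2' := hq2
    rw [e] at hq2'
    field_simp at hq2'
    linarith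
  have hq4 : q.num ^ 3 = (q.den : ℤ) * (q.num ^ 2 + q.num * q.den + (q.den : ℤ) ^ 2) := by
    exact_mod_cast hq3
  have hcop : IsCoprime (q.num ^ 3) (q.den : ℤ) := by
    apply IsCoprime.pow_left
    rw [Int.isCoprime_iff_nat_coprime]
    simpa using q.reduced
  have hdvd : (q.den : ℤ) ∣ q.num ^ 3 := ⟨_, hq4⟩
  have hunit : IsUnit (q.den : ℤ) := hcop.isUnit_of_dvd' hdvd dvd_rfl
  have hden : q.den = 1 := by
    have := Int.isUnit_iff.1 hunit
    omega
  have hint : ((q.num : ℤ) : ℝ) = τ := by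
    rw [← hq]
    have : (q : ℚ) = (q.num : ℚ) := (Rat.den_eq_one_iff q).1 hden |>.symm
    conv_rhs => rw [this]
    simp
  have k1 : (1 : ℤ) < q.num := by
    have : ((1 : ℤ) : ℝ) < ((q.num : ℤ) : ℝ) := by rw [hint]; simpa using h2
    exact_mod_cast this
  have k2 : q.num < (2 : ℤ) := by
    have : ((q.num : ℤ) : ℝ) < ((2 : ℤ) : ℝ) := by rw [hint]; simpa using h3
    exact_mod_cast this
  omega

theorem m_RT : StRT := by
  refine ⟨ex_RT, ?_⟩
  intro α hα
  have hre := congrArg Complex.re hα.eq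
  have him := congrArg Complex.im hα.eq
  have hpos := hα.im
  simp only [pow_succ, pow_zero, one_mul, Complex.mul_re, Complex.mul_im, Complex.add_re,
    Complex.one_re, Complex.add_im, Complex.one_im] at hre him
  generalize ha : α.re = a at *
  generalize hb : α.im = b at *
  have e2 : b ^ 2 = 3 * a ^ 2 - 2 * a - 1 := by
    have h1 : b * (3 * a ^ 2 - 2 * a - 1 - b ^ 2) = 0 := by nlinarith
    rcases mul_eq_zero.1 h1 with h | h
    · exact absurd h hpos.ne'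
    · linarith
  have e1 : 4 * a ^ 3 - 4 * a ^ 2 + 1 = 0 := by
    have h1 : a * b ^ 2 = a * (3 * a ^ 2 - 2 * a - 1) := by rw [e2]
    nlinarith
  have hcub : (1 - 2 * a) ^ 3 = (1 - 2 * a) ^ 2 + (1 - 2 * a) + 1 := by nlinarith
  have hns : Complex.normSq α = a ^ 2 + b ^ 2 := by
    rw [Complex.normSq_apply, ha, hb]; ring
  have hnt : Complex.normSq α * (1 - 2 * a) = 1 := by
    rw [hns, e2]
    nlinarith
  have hns0 : 0 < Complex.normSq α := by
    rw [hns]
    have : 0 < b ^ 2 := by positivity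
    nlinarith [sq_nonneg a]
  have hτ0 : 0 < 1 - 2 * a := by
    by_contra h
    have h1 : 1 - 2 * a ≤ 0 := not_lt.1 h
    have := mul_nonpos_of_nonneg_of_nonpos hns0.le h1
    linarith
  generalize hτ : 1 - 2 * a = τ at *
  have hA : 1839286755214 / 10 ^ 12 < τ := by
    by_contra h
    have h1 : τ ≤ 1839286755214 / 10 ^ 12 := not_lt.1 h
    have h2 : 0 ≤ (1839286755214 / 10 ^ 12 - τ) *
        (τ ^ 2 + τ * (1839286755214 / 10 ^ 12 - 1) +
          ((1839286755214 / 10 ^ 12) ^ 2 - 1839286755214 / 10 ^ 12 - 1)) := by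
      apply mul_nonneg (by linarith)
      have : (0 : ℝ) ≤ τ ^ 2 := sq_nonneg τ
      have h3 : (0 : ℝ) ≤ τ * (1839286755214 / 10 ^ 12 - 1) := mul_nonneg hτ0.le (by norm_num)
      have h4 : (0 : ℝ) ≤ (1839286755214 / 10 ^ 12) ^ 2 - 1839286755214 / 10 ^ 12 - 1 := by norm_num
      linarith
    nlinarith
  have hB : τ < 1839286755215 / 10 ^ 12 := by
    by_contra h
    have h1 : 1839286755215 / 10 ^ 12 ≤ τ := not_lt.1 h
    have h2 : 0 ≤ (τ - 1839286755215 / 10 ^ 12) *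
        (τ ^ 2 + τ * (1839286755215 / 10 ^ 12 - 1) +
          ((1839286755215 / 10 ^ 12) ^ 2 - 1839286755215 / 10 ^ 12 - 1)) := by
      apply mul_nonneg (by linarith)
      have : (0 : ℝ) ≤ τ ^ 2 := sq_nonneg τ
      have h3 : (0 : ℝ) ≤ τ * (1839286755215 / 10 ^ 12 - 1) := mul_nonneg hτ0.le (by norm_num)
      have h4 : (0 : ℝ) ≤ (1839286755215 / 10 ^ 12) ^ 2 - 1839286755215 / 10 ^ 12 - 1 := by norm_num
      linarith
    nlinarith
  refine ⟨hcub, hA, hB, hnt, ?_, irr_RT τ hcub ?_ ?_⟩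
  · have h1 : Complex.normSq α < 1 := by
      by_contra h
      have h2 : 1 ≤ Complex.normSq α := not_lt.1 h
      have h3 : (1 : ℝ) < τ := lt_trans (by norm_num) hA
      nlinarith
    have h2 : ‖α‖ < 1 := by
      rw [Complex.normSq_eq_norm_sq] at h1
      nlinarith [norm_nonneg α]
    have h3 : 0 < ‖α‖ := by
      rw [norm_pos_iff]
      rintro rfl
      simp at hns0
    rw [norm_inv]
    exact (one_lt_inv₀ h3).2 h2
  · exact lt_trans (by norm_num) hA
  · exact lt_trans hB (by norm_num)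

end Pool.Agent.Helper54.TRI
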