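import Mathlib

/-!
# Project TRI (MP_d629b1, n = 2), part 1: labelled triangulations of the punctured plane

`β` complex with `1 < ‖β‖`; finitely many positively oriented triangles `T i` (`i : ι`); the triangles
`β^k T i` (`i : ι`, `k : ℤ`) form a triangulation of `ℂ \ {0}`.  Statements with proofs in the
docstrings.  All modules are independent: the statements needed are listed as hypotheses.
-/

set_option autoImplicit false

open Set Filter Topology

noncomputable section

namespace Pool.Agent.Helper54.TRI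

/-- Normalised height of `x` over the line `p q` (positive on the left). -/
def ht (p q x : ℂ) : ℝ := ((x - p) / (q - p)).im

/-- Coordinate of the orthogonal projection of `x` to the line `p q` (`0` at `p`, `1` at `q`). -/
def tt (p q x : ℂ) : ℝ := ((x - p) / (q - p)).re

/-- Positively oriented triangle (nondegenerate). -/
def Pos (P : Fin 3 → ℂ) : Prop := 0 < ht (P 0) (P 1) (P 2)

/-- Open triangle. -/
def Opn (P : Fin 3 → ℂ) : Set ℂ := {x | ∀ s : Fin 3, 0 < ht (P s) (P (s + 1)) x}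

/-- Closed triangle. -/
def Cls (P : Fin 3 → ℂ) : Set ℂ := {x | ∀ s : Fin 3, 0 ≤ ht (P s) (P (s + 1)) x}

/-- **TG** (plane geometry of one triangle).  PROOF.  `(x-p)/(q-p)` has imaginary part
`det (q-p, x-p) / ‖q-p‖²`; `det (q-p, r-p) = det (r-q, p-q) = det (p-r, q-r)`, so positivity for the
side `0 1` gives it for the other sides (and the vertices are different).  Barycentric coordinates:
`b s x = ht (P (s+1)) (P (s+2)) x / ht (P (s+1)) (P (s+2)) (P s)`; `b 0 + b 1 + b 2 = 1` and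
`x = ∑ b s x • P s` (linear algebra: affine functions of `x` (two real coordinates) which agree at the
three vertices; or multiply out with real and imaginary parts), so `Cls P = convexHull ℝ (range P)`
(compact, convex) and for a point of `Cls P`: all `b s > 0` (open triangle), or exactly one `b s = 0`
(a point of an open side), or two are `0` (a vertex).  Moving a point of `Cls P` towards the
barycentre `c` (`b s = 1/3`) gives points of `Opn P`: `Cls P ⊆ closure (Opn P)`.  The last item: near a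
point of the open side `s` the other two heights stay positive. -/
def StTG : Prop := ∀ P : Fin 3 → ℂ, Pos P →
  (∀ s, 0 < ht (P s) (P (s + 1)) (P (s + 2))) ∧ Function.Injective P ∧
  IsCompact (Cls P) ∧ IsOpen (Opn P) ∧ (Opn P).Nonempty ∧ Cls P = closure (Opn P) ∧
  (∀ s, P s ∈ Cls P) ∧ (∀ s, segment ℝ (P s) (P (s + 1)) ⊆ Cls P) ∧
  (∀ x ∈ Cls P, x ∈ Opn P ∨ (∃ s, x ∈ openSegment ℝ (P s) (P (s + 1))) ∨ ∃ s, x = P s) ∧
  (∀ s, ∀ x ∈ openSegment ℝ (P s) (P (s + 1)), ht (P s) (P (s + 1)) x = 0 ∧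
    (∀ s', s' ≠ s → 0 < ht (P s') (P (s' + 1)) x) ∧ (∀ s', x ≠ P s') ∧
    ∀ᶠ y in 𝓝 x, 0 ≤ ht (P s) (P (s + 1)) y → y ∈ Cls P)

/-- **ARG** (winding number of a triangle).  PROOF.  Put `z s = (P (s+1) - x)/(P s - x)`; `P s ≠ x`
because the heights are not `0`.  `z 0 * z 1 * z 2 = 1`, and `Im (z s)` has the sign of
`ht (P s) (P (s+1)) x` (both are a positive multiple of `det (P s - x, P (s+1) - x)`), so it is not
`0` and `arg (z s)` is in `(0, π)` or `(-π, 0)` (`Complex.arg_lt_pi_iff`,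
`Complex.arg_nonneg_iff`, `Complex.arg_neg_iff`, ...).  The sum of the three arguments is `0` as an angle
(`Complex.arg_mul_coe_angle`), so it is `2π n` with `|2π n| < 3π`, `n ∈ {-1,0,1}`.  If all heights are positive
the sum is in `(0, 3π)`, so it is `2π`.  If not, at least one is negative; and at least one is positive, because
`∑ s, ht(P s)(P(s+1)) x * ‖P (s+1) - P s‖² = 2 area > 0` (`det` identity); so the sum is in `(-2π, 2π)`, hence `0`. -/
def StARG : Prop := ∀ P : Fin 3 → ℂ, Pos P → ∀ x : ℂ, (∀ s, ht (P s) (P (s + 1)) x ≠ 0) →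
  (x ∈ Opn P → ∑ s : Fin 3, Complex.arg ((P (s + 1) - x) / (P s - x)) = 2 * Real.pi) ∧
  (x ∉ Opn P → ∑ s : Fin 3, Complex.arg ((P (s + 1) - x) / (P s - x)) = 0)

/-- **GEN** (generic points are dense).  PROOF.  For `p ≠ q` the line `{x | ht p q x = 0}` is closed and has empty
interior (it is the preimage of `ℝ` under a complex affine bijection; its complement is open and dense), the same for its image
under multiplication by `β^k`; countable intersection of open dense sets: `dense_iInter_of_isOpen` (Baire), `ι × ℤ × Fin 3` and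
`ℤ × (elements of c)` are countable; also remove the point `0`. -/
def StGEN : Prop := ∀ (ι : Type) [Fintype ι] (T : ι → Fin 3 → ℂ) (β : ℂ) (c : List (ℂ × ℂ)),
  β ≠ 0 → (∀ i s, T i s ≠ T i (s + 1)) → (∀ e ∈ c, e.1 ≠ e.2) →
  Dense {x : ℂ | x ≠ 0 ∧ (∀ (k : ℤ) i s, ht (T i s) (T i (s + 1)) (β ^ k * x) ≠ 0) ∧
    ∀ (k : ℤ), ∀ e ∈ c, ht e.1 e.2 (β ^ k * x) ≠ 0}

/-- **DEG** (degree one; hypothesis `hA : StARG`).  The boundary chain of the triangles `T i` is `β c - c`, where `c` is a closed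
chain which winds once around `0`; then every generic point is in exactly one open triangle `β^k T i`.
PROOF.  For generic `x` put `g x p q = arg ((q - x)/(p - x))`.  If `ht p q x ≠ 0` then `(q-x)/(p-x)` is not real, so
`g x q p = - g x p q` (`Complex.arg_inv`), and `g x (β p) (β q) = g (β⁻¹ x) p q`.  Apply `hchain` at the points `β^(-k) x` to
`g (β^(-k) x)` (the antisymmetry for `β e` follows from the one for `e` at `β^(-k-1) x`):
`∑_i ∑_s g (β^(-k) x) (T i s) (T i (s+1)) = h (β^(-k-1) x) - h (β^(-k) x)`, `h y = ∑_{e ∈ c} g y e.1 e.2`.  By `hA` the left side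
is `2π` times the number of `i` with `β^(-k) x ∈ Opn (T i)`.  Sum over `-K ≤ k < K`:
`2π #{(i,k) : -K ≤ k < K, β^(-k) x ∈ Opn (T i)} = h (β^(-K) x) - h (β^K x)`.  As `K → ∞`: `β^(-K) x → 0` and `h → ∑ arg (e.2/e.1) = 2π`
(`arg` is continuous on the slit plane); `‖β^K x‖ → ∞`, `(q - y)/(p - y) = 1 + (q-p)/(p-y) → 1`, so `h → 0`.  So the number of pairs with
`|k| ≤ K`, an integer which is nondecreasing in `K`, tends to `1`: exactly one pair. -/
def StDEG : Prop := ∀ (ι : Type) [Fintype ι] (T : ι → Fin 3 → ℂ) (β : ℂ) (c : List (ℂ × ℂ)),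
  1 < ‖β‖ → (∀ i, Pos (T i)) →
  (∀ g : ℂ → ℂ → ℝ, (∀ i s, g (T i (s + 1)) (T i s) = - g (T i s) (T i (s + 1))) →
    (∀ e ∈ c, g e.2 e.1 = - g e.1 e.2) → (∀ e ∈ c, g (β * e.2) (β * e.1) = - g (β * e.1) (β * e.2)) →
    ∑ i, ∑ s : Fin 3, g (T i s) (T i (s + 1)) =
      (c.map (fun e => g (β * e.1) (β * e.2) - g e.1 e.2)).sum) →
  (∀ e ∈ c, e.1 ≠ 0 ∧ e.2 / e.1 ∈ Complex.slitPlane) →
  (c.map (fun e => Complex.arg (e.2 / e.1))).sum = 2 * Real.pi →
  ∀ x : ℂ, x ≠ 0 → (∀ (k : ℤ) i s, ht (T i s) (T i (s + 1)) (β ^ k * x) ≠ 0) →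
    (∀ (k : ℤ), ∀ e ∈ c, ht e.1 e.2 (β ^ k * x) ≠ 0) →
    ∃! a : ι × ℤ, β ^ (-a.2) * x ∈ Opn (T a.1)

/-- The triangles `β^k T i` cover almost every point exactly once, and every side of a triangle is a
side (with the opposite direction) of another one. -/
structure Tiling (ι : Type) (T : ι → Fin 3 → ℂ) (β : ℂ) (nb : ι → Fin 3 → ι × Fin 3 × ℤ) :
    Prop where
  one_lt : 1 < ‖β‖
  pos : ∀ i, Pos (T i)
  zero : ∀ i, (0 : ℂ) ∉ Cls (T i)
  gen : Dense {x : ℂ | ∃! a : ι × ℤ, β ^ (-a.2) * x ∈ Opn (T a.1)}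
  nb1 : ∀ i s, T i s = β ^ (nb i s).2.2 * T (nb i s).1 ((nb i s).2.1 + 1)
  nb2 : ∀ i s, T i (s + 1) = β ^ (nb i s).2.2 * T (nb i s).1 (nb i s).2.1

/-- **CF1** (hypothesis `hT : StTG`).  Local finiteness, cover, disjointness.  PROOF.  The `T i` are compact and do not contain `0`, so for
`x₀ ≠ 0` only finitely many `(i, k)` have a point `y` with `‖y - x₀‖ ≤ ‖x₀‖/2` and `β^(-k) y ∈ Cls (T i)` (`‖β^(-k) y‖` tends to `0` or `∞`
with `k → ± ∞`, uniformly), and for the finitely many with `β^(-k) x₀ ∉ Cls (T i)` a neighbourhood of `x₀` has the same property: item (1).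
(2) `x₀ ≠ 0` is a limit of generic points, each in some closed triangle; by (1) near `x₀` only triangles containing `x₀` occur.
(3) If `β^(-k) x ∈ Opn (T i)`, `β^(-k') x ∈ Cls (T i') = closure (Opn (T i'))`: the open set `{y | β^(-k) y ∈ Opn (T i)}` contains `x`, which is in
the closure of `{y | β^(-k') y ∈ Opn (T i')}` (multiplication by `β^k'` is a homeomorphism), so their intersection is open and nonempty, and contains
a generic point, for which the triangle is unique. -/
def StCF1 : Prop := ∀ (ι : Type) [Fintype ι] (T : ι → Fin 3 → ℂ) (β : ℂ)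
  (nb : ι → Fin 3 → ι × Fin 3 × ℤ), Tiling ι T β nb →
  (∀ x₀ : ℂ, x₀ ≠ 0 → ∀ᶠ x in 𝓝 x₀, ∀ i (k : ℤ), β ^ (-k) * x ∈ Cls (T i) → β ^ (-k) * x₀ ∈ Cls (T i)) ∧
  (∀ x : ℂ, x ≠ 0 → ∃ i, ∃ k : ℤ, β ^ (-k) * x ∈ Cls (T i)) ∧
  (∀ (x : ℂ) i i' (k k' : ℤ), β ^ (-k) * x ∈ Opn (T i) → β ^ (-k') * x ∈ Cls (T i') →
    i = i' ∧ k = k')

/-- **CF2** (hypotheses `hT : StTG`, `h1 : StCF1`).  Points of sides and vertices.  PROOF.  (1) Let `β^(-k) x₀` be in the open side `s` of `T i`,
`nb i s = (j, t, m)`.  Near `x₀`: if `ht ≥ 0` then the point is in `Cls` of `(i,k)`, and if `ht ≤ 0` it is in `Cls` of `(j, k+m)`: `β^(-m)` maps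
the side `s` of `T i` to the side `t` of `T j` with the opposite direction, and `ht q p y = - ht p q y`, `ht (β p) (β q) (β y) = ht p q y`; use the last item of
`StTG` for both.  So a neighbourhood `V` of `x₀` is covered by the two triangles, and points of `V` off the line are in `Opn` of one of the two (the other heights are positive near the
open side).  If `β^(-k') x₀ ∈ Cls (T i')`, then `V` contains points `y` with `β^(-k') y ∈ Opn (T i')`, an open set of such points, so one off the line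
(a line has empty interior); it is in `Opn` of one of the two; `h1` (3) gives `(i',k') = (i,k)` or `(j,k+m)`.
(2) Let `β^(-k) x₀ = T i s` and `β^(-k') x₀ ∈ Cls (T i')`.  By the trichotomy: if `β^(-k') x₀ ∈ Opn (T i')` then `(i,k) = (i',k')` by `h1` (3), but a
vertex is not in the open triangle (a height is `0`).  If `β^(-k') x₀` is in an open side `s'` of `T i'`, by (1) for `(i', k')` the pair `(i,k)` is
`(i',k')` or its neighbour across `s'`; but `x₀` is in the open side of both (the neighbour has the same side), which contains no vertex of them (`StTG`).  So it is a vertex. -/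
def StCF2 : Prop := ∀ (ι : Type) [Fintype ι] (T : ι → Fin 3 → ℂ) (β : ℂ)
  (nb : ι → Fin 3 → ι × Fin 3 × ℤ), Tiling ι T β nb →
  (∀ (x₀ : ℂ) i s (k : ℤ), β ^ (-k) * x₀ ∈ openSegment ℝ (T i s) (T i (s + 1)) →
    ∀ i' (k' : ℤ), β ^ (-k') * x₀ ∈ Cls (T i') →
      (i' = i ∧ k' = k) ∨ (i' = (nb i s).1 ∧ k' = k + (nb i s).2.2)) ∧
  (∀ (x₀ : ℂ) i s (k : ℤ), β ^ (-k) * x₀ = T i s →
    ∀ i' (k' : ℤ), β ^ (-k') * x₀ ∈ Cls (T i') → ∃ s', β ^ (-k') * x₀ = T i' s')

end Pool.Agent.Helper54.TRI
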