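import Pool.Agent.Helper54.TRI.St1

/-!
# Project TRI, part 2: smooth barycentric functions, clusters, gluing, the kernel
-/

set_option autoImplicit false

open Set Filter Topology Matrix
open scoped ContDiff

noncomputable section

namespace Pool.Agent.Helper54.TRI

/-- Smooth step: `0` for `t ≤ 1/3`, `1` for `2/3 ≤ t`, `ph t + ph (1 - t) = 1`. -/
def ph (t : ℝ) : ℝ := Real.smoothTransition (3 * t - 1)

/-- Point of the side `s` of the standard simplex (weights `1 - t` at `s`, `t` at `s + 1`). -/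
def ez (s : Fin 3) (t : ℝ) : Fin 3 → ℝ := fun i => if i = s then 1 - t else if i = s + 1 then t else 0

/-- The standard simplex. -/
def Sx : Set (Fin 3 → ℝ) := {z | (∀ i, 0 ≤ z i) ∧ ∑ i, z i = 1}

/-- Smooth barycentric functions of a triangle which near each side depend only on the side. -/
structure IsEta (P : Fin 3 → ℂ) (η : ℂ → Fin 3 → ℝ) : Prop where
  smooth : ContDiff ℝ ∞ η
  simplex : ∀ x, η x ∈ Sx
  side : ∀ s, ∀ x₀ ∈ segment ℝ (P s) (P (s + 1)),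
    ∀ᶠ x in 𝓝 x₀, η x = ez s (ph (tt (P s) (P (s + 1)) x))

/-- **PH** (elementary properties of the step).  `ph` is `Real.smoothTransition (3 t - 1)`; the symmetry is
`smoothTransition x + smoothTransition (1 - x) = 1` (definition: `a / (a + b)` with `a = expNegInvGlue x`, `b = expNegInvGlue (1-x)`). -/
def StPH : Prop := ContDiff ℝ ∞ ph ∧ (∀ t, 0 ≤ ph t ∧ ph t ≤ 1) ∧ (∀ t, t ≤ 1 / 3 → ph t = 0) ∧
  (∀ t, 2 / 3 ≤ t → ph t = 1) ∧ ∀ t, ph t + ph (1 - t) = 1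

/-- **ETA** (existence of smooth barycentric functions; hypotheses `hT : StTG`, `hp : StPH`).  PROOF.  Write `s_i x = ht (P i) (P (i+1)) x`,
`t_i x = tt (P i) (P (i+1)) x`, `E_i x = ez i (ph (t_i x))` (in the simplex), `S_i x = Real.smoothTransition (s_i x / ε - 1)` (`0` if `s_i x ≤ ε`, `1` if `2ε ≤ s_i x`), and
`η = (1-S_0) E_0 + S_0 (1-S_1) E_1 + S_0 S_1 (1-S_2) E_2 + S_0 S_1 S_2 (1/3,1/3,1/3)`,
a smooth function with values in the simplex (convex combination).  Let `h_i = s_i (P (i+2)) > 0` and let `ε > 0` be so small that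
`(2ε/h_i) max(1, ‖P(i+2)-P(i+1)‖/‖P(i+1)-P i‖, ‖P(i+2)-P i‖/‖P(i+1)-P i‖) < 1/3` for all `i`.
CLAIM (A): if `x₀` is in the closed side `i'`, `i' ≠ i`, and `s_i x₀ ≤ 2ε`, then `E_i = E_{i'} = δ_v` near `x₀`, `v` the common vertex of the sides `i`, `i'`: say `i' = i+1`, `v = i+1`,
`x₀ = P(i+1) + u (P(i+2) - P(i+1))`, `s_i x₀ = u h_i ≤ 2ε`, so `u < 1/3`, `t_{i+1} x₀ = u < 1/3` and `E_{i+1} = δ_v` near `x₀`; `t_i x₀ = 1 + u Re((P(i+2)-P(i+1))/(P(i+1)-P i)) > 2/3`, so `E_i = δ_v` near `x₀`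
(open conditions).  The case `i' = i+2` is similar (`v = i`, `x₀ = P i + u (P(i+2) - P i)`, `t_{i'} x₀ = 1 - u`, `t_i x₀ < 1/3`).
Now let `x₀` be in the closed side `i'`; `s_{i'} x₀ = 0`, so `S_{i'} = 0` near `x₀`.  `i' = 0`: `η = E_0`.  `i' = 1`: `η = (1-S_0) E_0 + S_0 E_1`; if `s_0 x₀ > 2ε` then `S_0 = 1` near `x₀`, otherwise `E_0 = E_1` near `x₀` by (A).
`i' = 2`: `η = (1-S_0) E_0 + S_0 (1-S_1) E_1 + S_0 S_1 E_2`, where for `i = 0, 1` either `S_i = 1` near `x₀` or `E_i = E_2` near `x₀`: in all cases `η = E_2`. -/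
def StETA : Prop := ∀ P : Fin 3 → ℂ, Pos P → ∃ η : ℂ → Fin 3 → ℝ, IsEta P η

/-- Restriction of a row to an edge: one label `l`, or label `i` at the start and `j` at the end, partner shift `v`, sign `e`. -/
inductive EF where
  | pure (l : ℤ) : EF
  | wall (i j : ℤ) (v : ℂ) (e : ℝ) : EF

/-- Row of a pure point. -/
def prow (l : ℤ) (l' : ℤ) (u : ℂ) : ℝ := if l' = l ∧ u = 0 then 1 else 0

open Classical in
/-- Row along an edge; `t` is the weight of the end point. -/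
def EF.row : EF → ℝ → ℤ → ℂ → ℝ
  | .pure l, _, l', u => prow l l' u
  | .wall i j v e, t, l', u =>
      if l' = i then (if u = 0 then Real.cos (Real.pi / 2 * t) ^ 2 else
        if u = v then e * (Real.cos (Real.pi / 2 * t) * Real.sin (Real.pi / 2 * t)) else 0)
      else if l' = j then (if u = 0 then Real.sin (Real.pi / 2 * t) ^ 2 else
        if u = v then - (e * (Real.cos (Real.pi / 2 * t) * Real.sin (Real.pi / 2 * t))) else 0)
      else 0

/-- The same edge with the opposite direction. -/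
def EF.rev : EF → EF
  | .pure l => .pure l
  | .wall i j v e => .wall j i v (-e)

/-- Action of `β^m`. -/
def EF.act (β : ℂ) (m : ℤ) : EF → EF
  | .pure l => .pure (l + m)
  | .wall i j v e => .wall (i + m) (j + m) (β ^ m * v) e

/-- Nondegenerate edge form. -/
def EF.ok : EF → Prop
  | .pure _ => True
  | .wall i j _ _ => i ≠ j

/-- A cluster: `n` translates `P + w a` of a triangle, finitely many labels, and for each label a matrix depending on the barycentric weights. -/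
structure Clus where
  n : ℕ
  P : Fin 3 → ℂ
  w : Fin n → ℂ
  S : Finset ℤ
  M : ℤ → (Fin 3 → ℝ) → Matrix (Fin n) (Fin n) ℝ

/-- The algebraic properties of a cluster; `Γ l u` means `u ∈ β^l Γ₀`. -/
structure ClusOK (Γ : ℤ → ℂ → Prop) (C : Clus) : Prop where
  inj : Function.Injective C.w
  symm : ∀ l z, (C.M l z)ᵀ = C.M l z
  idem : ∀ l, ∀ z ∈ Sx, C.M l z * C.M l z = C.M l z
  zero : ∀ l, l ∉ C.S → ∀ z, C.M l z = 0
  sum : ∀ z ∈ Sx, ∑ l ∈ C.S, C.M l z = 1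
  loc : ∀ l, ∀ z ∈ Sx, ∀ a b, C.M l z a b ≠ 0 → Γ l (C.w b - C.w a)
  smooth : ∀ l a b, ∀ z ∈ Sx, ContDiffAt ℝ ∞ (fun z => C.M l z a b) z

open Classical in
/-- Row of the copy `a` of the cluster at the weights `z`. -/
def crow (C : Clus) (a : Fin C.n) (z : Fin 3 → ℝ) (l : ℤ) (u : ℂ) : ℝ :=
  ∑ b, if u = C.w b - C.w a then C.M l z a b else 0

/-- All triangles of a family of clusters. -/
abbrev Ix {κ : Type} (C : κ → Clus) : Type := Σ c : κ, Fin (C c).n

/-- The triangle with index `i`. -/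
def TT {κ : Type} (C : κ → Clus) (i : Ix C) (s : Fin 3) : ℂ := (C i.1).P s + (C i.1).w i.2

/-- A labelled triangulation with clusters. -/
structure Atlas {κ : Type} (C : κ → Clus) (β : ℂ) (Γ : ℤ → ℂ → Prop)
    (nb : Ix C → Fin 3 → Ix C × Fin 3 × ℤ) (F : Ix C → Fin 3 → EF) (lab : Ix C → Fin 3 → ℤ) :
    Prop where
  tiling : Tiling (Ix C) (TT C) β nb
  lat : ∀ (l k : ℤ) (u : ℂ), Γ l u → Γ (l + k) (β ^ k * u)
  ok : ∀ c, ClusOK Γ (C c)
  fok : ∀ i s, (F i s).ok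
  form : ∀ i s t, 0 ≤ t → t ≤ 1 → crow (C i.1) i.2 (ez s t) = (F i s).row t
  edge : ∀ i s, F i s = ((F (nb i s).1 (nb i s).2.1).rev).act β (nb i s).2.2
  vert : ∀ i s, crow (C i.1) i.2 (Pi.single s 1) = prow (lab i s)
  vlab : ∀ i s i' s' (k : ℤ), TT C i s = β ^ k * TT C i' s' → lab i s = lab i' s' + k

/-- Row of the triangle `β^k T i` at `x`, for given barycentric functions. -/
def Rw {κ : Type} (C : κ → Clus) (β : ℂ) (η : κ → ℂ → Fin 3 → ℝ) (i : Ix C) (k : ℤ) (x : ℂ)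
    (l : ℤ) (u : ℂ) : ℝ :=
  crow (C i.1) i.2 (η i.1 (β ^ (-k) * x - (C i.1).w i.2)) (l - k) (β ^ (-k) * u)

/-- **CF3** (hypothesis `hT : StTG`).  Only finitely many triangles contain a given point `x₀ ≠ 0`: the `T i` are compact and do not contain `0`, so they are in an annulus
`r ≤ ‖y‖ ≤ R`, and `‖β^(-k) x₀‖ = ‖β‖^(-k) ‖x₀‖` is in it for finitely many `k` only. -/
def StCF3 : Prop := ∀ (ι : Type) [Fintype ι] (T : ι → Fin 3 → ℂ) (β : ℂ)
  (nb : ι → Fin 3 → ι × Fin 3 × ℤ), Tiling ι T β nb → ∀ x₀ : ℂ, x₀ ≠ 0 →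
  {a : ι × ℤ | β ^ (-a.2) * x₀ ∈ Cls (T a.1)}.Finite

/-- **GLU** (germs of rows agree; hypotheses `hT : StTG`, `hp : StPH`, `h1 : StCF1`, `h2 : StCF2`).  PROOF.  Let `y₀ = β^(-k) x₀ ∈ Cls (T i)`; use the trichotomy of `StTG` for `T i = TT C i` (positively oriented: `Tiling.pos`).
(a) `y₀` in the open triangle: `(i',k') = (i,k)` by `h1` (3).  (b) `y₀` in the open side `s`: `(i',k')` is `(i,k)` or the neighbour `(j, k+m)`, `nb i s = (j,t,m)`.  For `x` near `x₀`, `y = β^(-k) x`: `y - w` is near the side `s` of the base triangle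
(`T i s = P s + w`, `tt` is invariant under translations), so `η (y - w) = ez s (ph τ)`, `τ = tt (T i s) (T i (s+1)) y`, and the row is `(F i s).row (ph τ)` at the label `l - k` and shift `β^(-k) u` (`form`).  In the same way the row of the neighbour is
`(F j t).row (ph τ')` at `l - k - m`, `β^(-k-m) u`, where `τ' = tt (T j t) (T j (t+1)) (β^(-m) y) = tt (β^m T j t) (β^m T j (t+1)) y = tt (T i (s+1)) (T i s) y = 1 - τ`, so `ph τ' = 1 - ph τ`.
By `edge`: `F i s = ((F j t).rev).act β m`, and `((E.rev).act β m).row t' l' u' = E.row (1 - t') (l' - m) (β^(-m) u')` for `E.ok` (`cos (π/2 (1-t)) = sin (π/2 t)`; in the case `wall`: the labels are different).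
(c) `y₀ = T i s`: by `h2` (2) also `y₀' = β^(-k') x₀ = T i' s'`.  Near `x₀`: `tt (T i s) (T i (s+1)) y` is near `0`, so `ph = 0`, `η = ez s 0 = Pi.single s 1` and the row is `prow (lab i s)` at `l - k`, `β^(-k) u`, that is `1` if
`l = lab i s + k` and `u = 0`; the same for `i'`, and `lab i s + k = lab i' s' + k'` by `vlab` with exponent `k' - k`. -/
def StGLU : Prop := ∀ (κ : Type) [Fintype κ] (C : κ → Clus) (β : ℂ) (Γ : ℤ → ℂ → Prop)
  (nb : Ix C → Fin 3 → Ix C × Fin 3 × ℤ) (F : Ix C → Fin 3 → EF) (lab : Ix C → Fin 3 → ℤ)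
  (η : κ → ℂ → Fin 3 → ℝ), Atlas C β Γ nb F lab → (∀ c, IsEta (C c).P (η c)) →
  ∀ (x₀ : ℂ), x₀ ≠ 0 → ∀ (i i' : Ix C) (k k' : ℤ), β ^ (-k) * x₀ ∈ Cls (TT C i) →
    β ^ (-k') * x₀ ∈ Cls (TT C i') → ∀ᶠ x in 𝓝 x₀, Rw C β η i k x = Rw C β η i' k' x

open Classical in
/-- The kernel of an atlas (label `0`). -/
def Kern {κ : Type} (C : κ → Clus) (β : ℂ) (η : κ → ℂ → Fin 3 → ℝ) (x u : ℂ) : ℝ :=
  if h : ∃ a : Ix C × ℤ, x ≠ 0 ∧ β ^ (-a.2) * x ∈ Cls (TT C a.1) then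
    Rw C β η h.choose.1 h.choose.2 x 0 u else 0

/-- A planar kernel pattern over `ℂ` (all properties except the trace). -/
structure PatC (β : ℂ) (Γ₀ : ℂ → Prop) (K : ℂ → ℂ → ℝ) (Λ : Finset ℂ) (ε R : ℝ) : Prop where
  smooth : ∀ v, ContDiff ℝ ∞ (fun x => K x v)
  supp : ∀ x v, K x v ≠ 0 → v ∈ Λ
  lat : ∀ v ∈ Λ, Γ₀ v
  eps : 0 < ε
  near : ∀ x v, ‖x‖ ≤ ε → K x v = 0
  far : ∀ x v, R ≤ ‖x‖ → K x v = 0
  symm : ∀ x v, K (x + v) (-v) = K x v
  idem : ∀ x v, ∑ u ∈ Λ, K x u * K (x + u) (v - u) = K x v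
  tele : ∀ x v, x ≠ 0 → ∑ᶠ j : ℤ, K (β ^ (-j) * x) (β ^ (-j) * v) = if v = 0 then 1 else 0

/-- **ATL** (the kernel of an atlas; hypotheses `hT : StTG`, `h1 : StCF1`, `h3 : StCF3`, `hg : StGLU`).  PROOF.  (0) If `x ≠ 0` and `β^(-k) x ∈ Cls (T i)` then `Kern x u = Rw i k x 0 u` (`hg` at `x₀ = x`, `Filter.Eventually.self_of_nhds`): second claim.
More generally for every label `l`: `Kern (β^(-l) x) (β^(-l) u) = Rw i k x l u`, because `β^(-l) x` is in the triangle `(i, k-l)` and `Rw i (k-l) (β^(-l) x) 0 (β^(-l) u) = Rw i k x l u` (same arguments of `crow`).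
SMOOTH: `x₀ ≠ 0`: fix `(i,k)` containing `x₀` (`h1` (2)).  The finitely many triangles containing `x₀` (`h3`) have the same row as `(i,k)` on a neighbourhood (`hg`), and points near `x₀` are only in triangles which contain `x₀` (`h1` (1)), so
`Kern x u = Rw i k x 0 u` near `x₀`, a finite sum of terms constant condition times `M (η (..))`, smooth (`ClusOK.smooth`, `IsEta.smooth`, `IsEta.simplex`).  NEAR, FAR (and smoothness at `0`): if `Kern x u ≠ 0` then `M (-k) ≠ 0` for the cluster, so `-k ∈ S`; finitely many `(i,k)`, compact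
triangles `β^k T i` which do not contain `0`.  SUPP, LAT: `u = β^k (w b - w a)` with `-k ∈ S`, a finite set; take for `Λ` the values `u` with `Kern x u ≠ 0` for some `x`; `Γ (-k) (w b - w a)` (`loc`) gives `Γ 0 (β^k (w b - w a))` (`lat`).
TRANSLATION: if `x ∈ (i,k)`, `i = (c,a)`, and `u = β^k (w b - w a)`, then `x + u` is in the triangle `((c,b),k)` with the same argument of `η` (`TT` is a translate; `ht` is translation invariant), `x + u ≠ 0` because `0 ∉ Cls`; so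
`Kern (x+u) v = ∑_d [β^(-k) v = w d - w b] M (-k) b d`.  SYMM: if `Kern x v ≠ 0` then `v = β^k (w b - w a)` for a unique `b` (`inj`) and `Kern (x+v) (-v) = M b a = M a b = Kern x v`; if `Kern (x+v) (-v) ≠ 0` apply this at `x+v`.
IDEM: `∑_u Kern x u * Kern (x+u) (v-u) = ∑_b M a b * ∑_d [β^(-k) v = w d - w a] M b d = ∑_d [..] (M*M) a d`.  (`x = 0`: all zero; note `Kern y (-y) = 0`.)  TELE: `∑_l Rw i k x l v = ∑_b [β^(-k) v = w b - w a] (∑_l M (l-k)) a b = [v = 0]` (`sum`, `zero`, `inj`). -/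
def StATL : Prop := ∀ (κ : Type) [Fintype κ] (C : κ → Clus) (β : ℂ) (Γ : ℤ → ℂ → Prop)
  (nb : Ix C → Fin 3 → Ix C × Fin 3 × ℤ) (F : Ix C → Fin 3 → EF) (lab : Ix C → Fin 3 → ℤ)
  (η : κ → ℂ → Fin 3 → ℝ), Atlas C β Γ nb F lab → (∀ c, IsEta (C c).P (η c)) →
  (∃ Λ ε R, PatC β (Γ 0) (Kern C β η) Λ ε R) ∧
  ∀ (x : ℂ), x ≠ 0 → ∀ (i : Ix C) (k : ℤ), β ^ (-k) * x ∈ Cls (TT C i) →
    ∀ u, Kern C β η x u = Rw C β η i k x 0 u

end Pool.Agent.Helper54.TRI
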