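import Pool.Agent.Helper54.TRI.St2

/-!
# Project TRI, part 3: the four kinds of clusters
-/

set_option autoImplicit false

open Set Filter Topology Matrix
open scoped ContDiff

noncomputable section

namespace Pool.Agent.Helper54.TRI

/-- Cluster kind 0: one triangle with one label. -/
def clP (P : Fin 3 → ℂ) (l : ℤ) : Clus where
  n := 1
  P := P
  w := fun _ => 0
  S := {l}
  M := fun l' _ => if l' = l then 1 else 0

/-- **KP**.  PROOF: immediate (`Fin 1`). -/
def StKP : Prop := ∀ (Γ : ℤ → ℂ → Prop) (P : Fin 3 → ℂ) (l : ℤ), Γ l 0 →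
  ClusOK Γ (clP P l) ∧ ∀ a z, crow (clP P l) a z = prow l

/-- Angle of a wall: `π/2` times the total weight of the vertices with `b = true`. -/
def wang (b : Fin 3 → Bool) (z : Fin 3 → ℝ) : ℝ :=
  Real.pi / 2 * ∑ s, if b s = true then z s else 0

/-- Cluster kind 1 (wall): two triangles with labels `i`, `j` exchanged; `b s = true` means label `i` at the vertex `s` of copy `0`. -/
def clW (P : Fin 3 → ℂ) (v : ℂ) (i j : ℤ) (b : Fin 3 → Bool) (e : ℝ) : Clus where
  n := 2
  P := P
  w := ![0, v]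
  S := {i, j}
  M := fun l z =>
    if l = i then !![Real.sin (wang b z) ^ 2, e * (Real.sin (wang b z) * Real.cos (wang b z));
      e * (Real.sin (wang b z) * Real.cos (wang b z)), Real.cos (wang b z) ^ 2]
    else if l = j then !![Real.cos (wang b z) ^ 2, - (e * (Real.sin (wang b z) * Real.cos (wang b z)));
      - (e * (Real.sin (wang b z) * Real.cos (wang b z))), Real.sin (wang b z) ^ 2]
    else 0

/-- Edge forms of a wall cluster. -/
def fW (v : ℂ) (i j : ℤ) (b : Fin 3 → Bool) (e : ℝ) (a : Fin 2) (s : Fin 3) : EF :=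
  if a = 0 then
    (if b s then (if b (s + 1) then .pure i else .wall i j v e)
      else (if b (s + 1) then .wall j i v (-e) else .pure j))
  else
    (if b s then (if b (s + 1) then .pure j else .wall j i (-v) (-e))
      else (if b (s + 1) then .wall i j (-v) e else .pure i))

/-- **KW**.  PROOF.  `2 × 2` matrices; `sin² + cos² = 1`, `e * e = 1`.  On the side `s`: the total weight is `1`, `0`, `1 - t` or `t` in the four cases of `b s`, `b (s+1)` (the third weight is `0`);
`sin (π/2 (1-t)) = cos (π/2 t)`.  Case by case (`a`, `s`, `b s`, `b (s+1)`), labels `l' = i`, `l' = j`, others; shifts `u = 0`, `u = ± v`, others (`v ≠ 0`). -/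
def StKW : Prop := ∀ (Γ : ℤ → ℂ → Prop) (P : Fin 3 → ℂ) (v : ℂ) (i j : ℤ) (b : Fin 3 → Bool) (e : ℝ),
  v ≠ 0 → i ≠ j → e * e = 1 → Γ i 0 → Γ j 0 → Γ i v → Γ j v → Γ i (-v) → Γ j (-v) →
  ClusOK Γ (clW P v i j b e) ∧
  (∀ (a : Fin 2) s t, 0 ≤ t → t ≤ 1 → crow (clW P v i j b e) a (ez s t) = (fW v i j b e a s).row t) ∧
  (∀ (a : Fin 2) s, crow (clW P v i j b e) a (Pi.single s 1) =
    prow (if (a = 0) = (b s = true) then i else j)) ∧
  ∀ a s, (fW v i j b e a s).ok

/-- Map of the simplex to the octant of the sphere. -/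
def FF (z : Fin 3 → ℝ) (s : Fin 3) : ℝ :=
  Real.sin (Real.pi / 2 * z s) / Real.sqrt (∑ i, Real.sin (Real.pi / 2 * z i) ^ 2)

/-- **FF** (the map to the octant).  PROOF.  For `z` in the simplex some `z i ≥ 1/3`, `sin (π/2 z i) ≥ sin (π/6) = 1/2`, so the sum of squares is positive (and near `z` too): smooth, sum of squares `1`.
On the side `s`: the values of `sin` are `sin (π/2 (1-t)) = cos (π/2 t)`, `sin (π/2 t)`, `0`, all `≥ 0`, sum of squares `1`. -/
def StFF : Prop := (∀ z ∈ Sx, ContDiffAt ℝ ∞ FF z) ∧ (∀ z ∈ Sx, ∑ s, FF z s ^ 2 = 1) ∧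
  (∀ s t, 0 ≤ t → t ≤ 1 → FF (ez s t) s = Real.cos (Real.pi / 2 * t) ∧
    FF (ez s t) (s + 1) = Real.sin (Real.pi / 2 * t) ∧ FF (ez s t) (s + 2) = 0) ∧
  ∀ s i, FF (Pi.single s 1) i = if i = s then 1 else 0

/-- The three involutions of `{0,1,2,3}` (for the vertices `0`, `1`, `2`). -/
def inv4 (s : Fin 3) (a : Fin 4) : Fin 4 :=
  (![![1, 0, 3, 2], ![3, 2, 1, 0], ![2, 3, 0, 1]] : Fin 3 → Fin 4 → Fin 4) s a

/-- Signs of the zero diagonal orthogonal matrix (label `m`, copy `a`). -/
def sU (m a : Fin 4) : ℤ :=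
  (![![0, 1, 1, 1], ![-1, 0, 1, -1], ![-1, -1, 0, 1], ![-1, 1, -1, 0]] : Fin 4 → Fin 4 → ℤ) m a

/-- Entry of the label `m` at the copy `a`. -/
def UU (u : Fin 3 → ℝ) (m a : Fin 4) : ℝ := ∑ s, if inv4 s a = m then (sU m a : ℝ) * u s else 0

/-- Cluster kind 2 (tetrahedral node): four triangles, four labels `L m`, the label `m` is missing at the copy `m`; at the vertex `s` the copy `a` has the label `L (inv4 s a)`. -/
def clT (P : Fin 3 → ℂ) (w : Fin 4 → ℂ) (L : Fin 4 → ℤ) (σ : Fin 4 → ℤ) : Clus where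
  n := 4
  P := P
  w := w
  S := Finset.univ.image L
  M := fun l z => Matrix.of fun a b => ∑ m, if L m = l then
    (σ a : ℝ) * (σ b : ℝ) * (UU (FF z) m a * UU (FF z) m b) else 0

/-- Edge forms of a tetrahedral cluster. -/
def fT (w : Fin 4 → ℂ) (L : Fin 4 → ℤ) (σ : Fin 4 → ℤ) (a : Fin 4) (s : Fin 3) : EF :=
  .wall (L (inv4 s a)) (L (inv4 (s + 1) a)) (w (inv4 (s + 2) a) - w a)
    ((σ a * σ (inv4 (s + 2) a) * sU (inv4 s a) a * sU (inv4 s a) (inv4 (s + 2) a) : ℤ) : ℝ)

/-- **KT** (hypothesis `hf : StFF`).  PROOF.  `UU u 0 = (0, u0, u2, u1)`, `UU u 1 = (-u0, 0, u1, -u2)`, `UU u 2 = (-u2, -u1, 0, u0)`, `UU u 3 = (-u1, u2, -u0, 0)` are the rows of an orthogonal matrix when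
`∑ u² = 1` (check the six products), so for distinct labels the matrices `M (L m)` are orthogonal projections of rank one with sum `1` (also the columns are orthonormal).  `loc`: `UU u m a ≠ 0` implies `m ≠ a`.
Forms: on the side `s` the point is `u s = cos`, `u (s+1) = sin`, `u (s+2) = 0` (`hf`); at the copy `a` only the labels `inv4 s a`, `inv4 (s+1) a` have a nonzero entry, and besides `a` only the copy
`inv4 (s+2) a` has a nonzero entry of them.  `4 × 3` cases, each by `simp` with `Fin.sum_univ_four`; use injectivity of `w` to decide the conditions `u = w b - w a`. -/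
def StKT : Prop := ∀ (Γ : ℤ → ℂ → Prop) (P : Fin 3 → ℂ) (w : Fin 4 → ℂ) (L σ : Fin 4 → ℤ),
  Function.Injective w → Function.Injective L → (∀ a, σ a * σ a = 1) →
  (∀ a b m, a ≠ m → b ≠ m → Γ (L m) (w b - w a)) →
  ClusOK Γ (clT P w L σ) ∧
  (∀ (a : Fin 4) s t, 0 ≤ t → t ≤ 1 → crow (clT P w L σ) a (ez s t) = (fT w L σ a s).row t) ∧
  (∀ (a : Fin 4) s, crow (clT P w L σ) a (Pi.single s 1) = prow (L (inv4 s a))) ∧
  ∀ a s, (fT w L σ a s).ok

/-- Cluster kind 3 (three triangles, two labels): the label `i` has rank one with the vector `FF z`, the label `j` is the complement; at the vertex `s` the copy `s` has the label `i`, the others `j`. -/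
def clE (P : Fin 3 → ℂ) (w : Fin 3 → ℂ) (i j : ℤ) : Clus where
  n := 3
  P := P
  w := w
  S := {i, j}
  M := fun l z => if l = i then Matrix.of (fun a b => FF z a * FF z b)
    else if l = j then 1 - Matrix.of (fun a b => FF z a * FF z b) else 0

/-- Edge forms of a three-cluster. -/
def fE (w : Fin 3 → ℂ) (i j : ℤ) (a : Fin 3) (s : Fin 3) : EF :=
  if a = s then .wall i j (w (s + 1) - w s) 1
  else if a = s + 1 then .wall j i (w s - w (s + 1)) (-1) else .pure j

/-- **KE** (hypothesis `hf : StFF`).  PROOF.  `M i` is the projection to a unit vector, `M j = 1 - M i`.  On the side `s` the vector is `cos` at `s`, `sin` at `s+1`, `0` at `s+2`: copy `s`: label `i` has `cos²` and off-diagonal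
`cos sin` to the copy `s+1`, label `j` has `sin²`, `- cos sin`; copy `s+1`: label `j` has `cos²`, `- cos sin`, label `i` has `sin²`, `cos sin`; copy `s+2`: pure `j`. -/
def StKE : Prop := ∀ (Γ : ℤ → ℂ → Prop) (P : Fin 3 → ℂ) (w : Fin 3 → ℂ) (i j : ℤ),
  Function.Injective w → i ≠ j → (∀ a b, Γ i (w b - w a)) → (∀ a b, Γ j (w b - w a)) →
  ClusOK Γ (clE P w i j) ∧
  (∀ (a : Fin 3) s t, 0 ≤ t → t ≤ 1 → crow (clE P w i j) a (ez s t) = (fE w i j a s).row t) ∧
  (∀ (a : Fin 3) s, crow (clE P w i j) a (Pi.single s 1) = prow (if a = s then i else j)) ∧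
  ∀ a s, (fE w i j a s).ok

end Pool.Agent.Helper54.TRI
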