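import Pool.Agent.Helper54.TRI.Cert

/-!
# Project TRI, part 5: from a checked certificate to an atlas
-/

set_option autoImplicit false

open Set Filter Topology

noncomputable section

namespace Pool.Agent.Helper54.TRI

/-- The tribonacci root in the upper half plane. -/
structure Root (α : ℂ) : Prop where
  eq : α ^ 3 = α ^ 2 + α + 1
  im : 0 < α.im

/-- Embedding of `ℤ³`. -/
def emb (α : ℂ) (v : Z3) : ℂ := (v.1 : ℂ) + (v.2.1 : ℂ) * α + (v.2.2 : ℂ) * α ^ 2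

/-- `u ∈ β^l D (ℤ + ℤ α)`, `β = α⁻¹`. -/
def Gam (α : ℂ) (D : ℤ) (l : ℤ) (u : ℂ) : Prop :=
  ∃ m n : ℤ, u = α⁻¹ ^ l * ((D : ℂ) * ((m : ℂ) + (n : ℂ) * α))

/-- **RT** (the tribonacci constant).  PROOF.  (1) Existence: `f x = x³ - x² - x - 1` changes sign on `[1839286755214/10^12, 1839286755215/10^12]`; let `τ` be a root there,
`a = (1-τ)/2`, `n = 1/τ = τ² - τ - 1 > a²`, `α = a + i sqrt (n - a²)`; then `α² = 2 a α - n` and `α³ = α² + α + 1`.  (2) Let `Root α`, `a = Re α`, `n = |α|²`: `α² = 2 a α - n`, so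
`α³ = (4a² - n) α - 2 a n`; comparing imaginary parts (`Im α ≠ 0`) and then real parts in `α³ = (2 a α - n) + α + 1`: `4a² - n = 2a + 1` and `- 2 a n = 1 - n`.  With `τ = 1 - 2a`: `n τ = 1` and `τ² - τ - 1 = n`, so
`τ³ = τ² + τ + 1`; `n > 0`, so `τ > 0`; the bounds by `nlinarith` (`f < 0` on `(0, 1839286755214/10^12]`, `f > 0` on `[1839286755215/10^12, ∞)`).  `|α|² = 1/τ < 1`.  `τ` is irrational: a rational root of a monic integer polynomial is an integer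
(`isInteger_of_is_root_of_monic` or directly), but `1 < τ < 2`. -/
def StRT : Prop := (∃ α, Root α) ∧ ∀ α, Root α →
  (1 - 2 * α.re) ^ 3 = (1 - 2 * α.re) ^ 2 + (1 - 2 * α.re) + 1 ∧
  1839286755214 / 10 ^ 12 < 1 - 2 * α.re ∧ 1 - 2 * α.re < 1839286755215 / 10 ^ 12 ∧
  Complex.normSq α * (1 - 2 * α.re) = 1 ∧ 1 < ‖α⁻¹‖ ∧ Irrational (1 - 2 * α.re)

/-- **EM** (arithmetic of `emb`; hypothesis `hr : StRT`).  PROOF.  `emb (Az v) = α * emb v` by `α³ = α² + α + 1`; `emb (Bz v) = α⁻¹ * emb v` because `Az (Bz v) = v`; induction for `Azn`, `Bzn`, `Bp`.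
Injective: if `a + b α + c α² = 0` then (imaginary part) `b + c (1-τ) = 0` (`Im α² = 2 Re α Im α = (1-τ) Im α`), so `c = 0` (`τ` irrational), `b = 0`, `a = 0`.  `nrm (Az v) = nrm v` and `nrm (Bz v) = nrm v`: `simp [nrm, Az, Bz]; ring`. -/
def StEM : Prop := (∀ α, Root α →
  (∀ (k : ℤ) v, emb α (Bp k v) = α⁻¹ ^ k * emb α v) ∧
  (∀ u v, emb α (subz u v) = emb α u - emb α v) ∧ (∀ u, emb α (negz u) = - emb α u) ∧
  emb α (0, 0, 0) = 0 ∧ Function.Injective (emb α)) ∧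
  ∀ (k : ℤ) v, nrm (Bp k v) = nrm v

/-- **PZ** (orientation test; hypothesis `hr : StRT`).  PROOF.  With `u = q - p`, `v = r - p` in `ℤ³`, `a = u₀v₁ - u₁v₀`, `b = u₀v₂ - u₂v₀`, `c = u₁v₂ - u₂v₁`:
`Im (conj (emb u) * emb v) = a Im α + b Im (α²) + c |α|² Im α = (Im α / τ) (τ a + (τ - τ²) b + c)`.  By the bounds of `hr`, `|10^12 τ - 1839286755214| < 1` and `|10^12 (τ - τ²) + 1543689012692| < 3`
(`τ² - τ` is increasing; at the two rational bounds it is `1.5436890126916..` and `1.5436890126944..`), so the test implies that the bracket is positive.  `ht p q r = Im (conj (q-p) (r-p)) / ‖q-p‖²`. -/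
def StPZ : Prop := ∀ α, Root α → ∀ p q r : Z3, posz p q r = true →
  0 < ht (emb α p) (emb α q) (emb α r)

/-- **IG** (lattice test; hypothesis `he : StEM`).  PROOF.  `emb (Bp (-l) v) = α⁻¹ ^ (-l) * emb v` is `D (m + n α)`.  The other items are immediate. -/
def StIG : Prop := ∀ α, Root α → ∀ D : ℤ,
  (∀ l v, inG D l v = true → Gam α D l (emb α v)) ∧ (∀ l, Gam α D l 0) ∧
  (∀ l u, Gam α D l u → Gam α D l (-u)) ∧
  (∀ l k u, Gam α D l u → Gam α D (l + k) (α⁻¹ ^ k * u))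

/-- Conversion of integer edge forms. -/
def ZF.toEF (α : ℂ) : ZF → EF
  | .pure l => .pure l
  | .wall i j v e => .wall i j (emb α v) (e : ℝ)

namespace Cert

variable (X : Cert)

/-- The point of a vertex reference. -/
def pt (α : ℂ) (r : Rf) : ℂ := emb α (X.vz r)

/-- The triangle of a triple of references. -/
def ptr (α : ℂ) (t : Tr) (s : Fin 3) : ℂ := X.pt α (trv t s)

/-- The cluster of cluster data. -/
def clus (α : ℂ) : CD → Clus
  | .P t => clP (X.ptr α t) (X.lz t.1)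
  | .W e t0 t1 => clW (X.ptr α t0) (emb α (subz (X.vz t1.1) (X.vz t0.1))) (X.lz t0.1) (X.lz t1.1)
      (fun s => decide (X.lz (trv t0 s) = X.lz t0.1)) (e : ℝ)
  | .T t0 t1 t2 t3 => clT (X.ptr α t0) (fun a => emb α (X.wz (.T t0 t1 t2 t3) a.val))
      (X.LT (.T t0 t1 t2 t3)) sT
  | .E t0 t1 t2 => clE (X.ptr α t0) (fun a => emb α (X.wz (.E t0 t1 t2) a.val))
      (X.lz t0.1) (X.lz t0.2.1)

/-- Geometric part of a good cluster. -/
def Good1 (α : ℂ) (c : CD) : Prop :=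
  (X.clus α c).n = c.n ∧ Pos (X.clus α c).P ∧
  (∀ (a : Fin (X.clus α c).n) s, (X.clus α c).P s + (X.clus α c).w a = X.ptr α (c.tr a.val) s) ∧
  ∀ (a : Fin (X.clus α c).n), (0 : ℂ) ∉ Cls (fun s => (X.clus α c).P s + (X.clus α c).w a)

/-- Algebraic part of a good cluster. -/
def Good2 (α : ℂ) (c : CD) : Prop :=
  ClusOK (Gam α X.D) (X.clus α c) ∧
  (∀ (a : Fin (X.clus α c).n) s t, 0 ≤ t → t ≤ 1 →
    crow (X.clus α c) a (ez s t) = ((X.zf c a.val s).toEF α).row t) ∧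
  (∀ (a : Fin (X.clus α c).n) s,
    crow (X.clus α c) a (Pi.single s 1) = prow (X.lz (trv (c.tr a.val) s))) ∧
  ∀ (a : Fin (X.clus α c).n) s, ((X.zf c a.val s).toEF α).ok

end Cert

/-- **GG** (hypotheses `he : StEM`, `hp : StPZ`).  PROOF.  Cases on `c`; the translations from `okG` (for the vertex `0` it is the definition of `wz`; `wz c 0 = 0`), positivity from `hp`.  `0 ∉ Cls`: one of the three tests gives
`0 < ht 0 (vertex (s+1)) (vertex s)`, that is `det (P (s+1), P s) > 0`, so `det (P (s+1) - P s, 0 - P s) = det (P s, P (s+1)) < 0` and `ht (P s) (P (s+1)) 0 < 0`. -/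
def StGG : Prop := ∀ α, Root α → ∀ (X : Cert) (c : CD), X.okG c = true → X.Good1 α c

/-- **GP** (hypotheses `hi : StIG`, `hk : StKP`).  PROOF: `hk`, and the labels of the three vertices are equal (`okL`). -/
def StGP : Prop := ∀ α, Root α → ∀ (X : Cert) (t : Tr), X.okL (.P t) = true → X.Good2 α (.P t)

/-- **GW** (hypotheses `he : StEM`, `hi : StIG`, `hk : StKW`).  PROOF.  `hk` with `v ≠ 0` by injectivity of `emb`; `fW` and `zf` agree after `toEF` (same case distinction; `emb (negz v) = - emb v`); `okL` says that at each vertex the labels of the copies `0`, `1` are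
`i, j` (`b s = true`) or `j, i` (`b s = false`, as `i ≠ j`). -/
def StGW : Prop := ∀ α, Root α → ∀ (X : Cert) (e : ℤ) (t0 t1 : Tr), X.okL (.W e t0 t1) = true →
  X.Good2 α (.W e t0 t1)

/-- **GT** (hypotheses `he : StEM`, `hi : StIG`, `hk : StKT`).  PROOF.  `hk` with `L = X.LT c`, `σ = sT`, `w a = emb (wz c a)` (injective because the `wz` are different and `emb` is injective), `emb (subz x y) = emb x - emb y`; `Fin.ofNat 4 a.val = a`. -/
def StGT : Prop := ∀ α, Root α → ∀ (X : Cert) (t0 t1 t2 t3 : Tr), X.okL (.T t0 t1 t2 t3) = true →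
  X.Good2 α (.T t0 t1 t2 t3)

/-- **GE** (hypotheses `he : StEM`, `hi : StIG`, `hk : StKE`).  PROOF: as for `GT`. -/
def StGE : Prop := ∀ α, Root α → ∀ (X : Cert) (t0 t1 t2 : Tr), X.okL (.E t0 t1 t2) = true →
  X.Good2 α (.E t0 t1 t2)

/-- The clusters of a certificate. -/
def Cert.C (X : Cert) (α : ℂ) (c : Fin X.CS.length) : Clus := X.clus α (X.cl c.val)

/-- The edge forms. -/
def Cert.F (X : Cert) (α : ℂ) (i : Ix (X.C α)) (s : Fin 3) : EF :=
  (X.zf (X.cl i.1.val) i.2.val s).toEF α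

/-- The vertex labels. -/
def Cert.lab (X : Cert) (α : ℂ) (i : Ix (X.C α)) (s : Fin 3) : ℤ :=
  X.lz (trv ((X.cl i.1.val).tr i.2.val) s)

/-- **NB** (neighbours; hypothesis `he : StEM`).  PROOF.  `i = ⟨c, a⟩`, `a.val < (X.cl c).n` (`Good1`), so `okN c a s = true` (`List.all`, `List.range`); `r = X.nb c a s` gives `j = ⟨⟨r.1, _⟩, ⟨r.2.1, _⟩⟩`, `t = Fin.ofNat 3 r.2.2.1`, `m = r.2.2.2`.
`X.pt α (shr m r) = α⁻¹ ^ m * X.pt α r` (`vz (shr m r) = Bp (r.2+m) ..`, `he`, `α ≠ 0`).  The forms: `((f.rev).act m).toEF α = ((f.toEF α).rev).act α⁻¹ m` (`emb (Bp m v) = α⁻¹ ^ m * emb v`, cast of `-e`). -/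
def StNB : Prop := ∀ α, Root α → ∀ X : Cert, X.chkN = true → (∀ c : Fin X.CS.length, X.Good1 α (X.cl c.val)) →
  ∀ (i : Ix (X.C α)) (s : Fin 3), ∃ (j : Ix (X.C α)) (t : Fin 3) (m : ℤ),
    TT (X.C α) i s = α⁻¹ ^ m * TT (X.C α) j (t + 1) ∧ TT (X.C α) i (s + 1) = α⁻¹ ^ m * TT (X.C α) j t ∧
    X.F α i s = ((X.F α j t).rev).act α⁻¹ m

/-- **CH** (chain identity; hypothesis `he : StEM`).  PROOF.  (1) `cancel n L = true` and `G` antisymmetric on the elements of `L` (`G e.2 e.1 = - G e.1 e.2` for `e ∈ L`) imply `(L.map (fun e => G e.1 e.2)).sum = 0` (induction on `n`; `List.sum_erase`/`List.perm_cons_erase`; elements of `t.erase _` are in `L`).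
(2) Apply it to `G r r' = g (X.pt α r) (X.pt α r')` and the list of `chkC`; `X.pt α (shr 1 r) = α⁻¹ * X.pt α r`.  (3) `(X.darts.map ..).sum = ∑ i : Ix (X.C α), ∑ s, g (TT i s) (TT i (s+1))`: `Fintype.sum_sigma`, `Fin.sum_univ_three`, the lists `X.CS` (`X.cl c = X.CS.getD c _`) and
`List.range c.n` (`Good1`: `(X.clus α c).n = c.n`, `TT i s = X.ptr α ..`). -/
def StCH : Prop := ∀ α, Root α → ∀ X : Cert, X.chkC = true → (∀ c : Fin X.CS.length, X.Good1 α (X.cl c.val)) →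
  ∀ g : ℂ → ℂ → ℝ, (∀ (i : Ix (X.C α)) (s : Fin 3), g (TT (X.C α) i (s + 1)) (TT (X.C α) i s) = - g (TT (X.C α) i s) (TT (X.C α) i (s + 1))) →
    (∀ e ∈ (Cert.cyc X.seam).map (fun e => (X.pt α e.1, X.pt α e.2)), g e.2 e.1 = - g e.1 e.2) →
    (∀ e ∈ (Cert.cyc X.seam).map (fun e => (X.pt α e.1, X.pt α e.2)),
      g (α⁻¹ * e.2) (α⁻¹ * e.1) = - g (α⁻¹ * e.1) (α⁻¹ * e.2)) →
    ∑ i : Ix (X.C α), ∑ s : Fin 3, g (TT (X.C α) i s) (TT (X.C α) i (s + 1)) =
      (((Cert.cyc X.seam).map (fun e => (X.pt α e.1, X.pt α e.2))).map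
        (fun e => g (α⁻¹ * e.1) (α⁻¹ * e.2) - g e.1 e.2)).sum

/-- **WI** (winding number of the seam; hypotheses `he : StEM`, `hp : StPZ`).  PROOF.  Signs: `sgI v = 1` implies `0 < Im (emb v)` (`posz 0 (1,0,0) v`: `0 < ht 0 1 (emb v) = Im (emb v)`), `sgI v = -1` implies `Im < 0` (`ht 0 v 1 > 0`, `Im (1 / emb v) > 0`); `sgD p q = 1` implies `0 < Im (q/p)`, `-1` implies `Im (q/p) < 0`.
So `q/p` is in the slit plane.  For `p, q` with nonzero imaginary parts and `Im (q/p) ≠ 0`: `arg (q/p) = arg q - arg p + 2π n`, where `n = 1` if `Im p > 0 > Im q`, `Im (q/p) > 0`; `n = -1` if `Im p < 0 < Im q`, `Im (q/p) < 0`; `n = 0` otherwise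
(`arg (q/p) - arg q + arg p ∈ 2πℤ`; `arg ∈ (0,π)` for `Im > 0`, `(-π,0)` for `Im < 0`; each of the eight sign cases by size).  Sum over the cyclic list: `∑ (arg q - arg p) = 0` (the second components of `cyc L` are a permutation (rotation) of the first ones), and `∑ n = ∑ crossz = 1`. -/
def StWI : Prop := ∀ α, Root α → ∀ X : Cert, X.chkS = true →
  (∀ e ∈ (Cert.cyc X.seam).map (fun e => (X.pt α e.1, X.pt α e.2)), e.1 ≠ 0 ∧ e.2 / e.1 ∈ Complex.slitPlane) ∧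
  (((Cert.cyc X.seam).map (fun e => (X.pt α e.1, X.pt α e.2))).map (fun e => Complex.arg (e.2 / e.1))).sum =
    2 * Real.pi

/-- **VL** (vertex labels; hypotheses `hr : StRT`, `he : StEM`).  PROOF.  `TT i s = emb (vz r)`, `r = (id, k₀)` the reference of the vertex (`Good1`), `TT i' s' = emb (vz r')`.  From `emb (vz r) = α⁻¹ ^ k * emb (vz r') = emb (Bp k (vz r'))` and injectivity `vz r = Bp k (vz r')`, so
the norms of the table entries `id`, `id'` are equal.  If `id, id' < V.length` then `id = id'` (`Nodup`), and `α⁻¹ ^ k₀ * e = α⁻¹ ^ (k + k₀') * e` with `e = emb (V id) ≠ 0` (otherwise `TT i s = 0 ∈ Cls`, excluded by `Good1`), `‖α⁻¹‖ > 1`, so `k₀ = k + k₀'`.  An `id` outside the table gives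
the point `0`, also excluded.  Then `lz r = label id + k₀ = lz r' + k`. -/
def StVL : Prop := ∀ α, Root α → ∀ X : Cert, X.chkV = true → (∀ c : Fin X.CS.length, X.Good1 α (X.cl c.val)) →
  ∀ (i : Ix (X.C α)) (s : Fin 3) (i' : Ix (X.C α)) (s' : Fin 3) (k : ℤ), TT (X.C α) i s = α⁻¹ ^ k * TT (X.C α) i' s' →
    X.lab α i s = X.lab α i' s' + k

/-- **TL** (tiling from the degree argument; hypotheses `hT : StTG`, `hG : StGEN`, `hD : StDEG`).  PROOF.  `Tiling` for `nb` is clear except `gen`: the generic points of `hG` (for `c`; `Pos` gives `T i s ≠ T i (s+1)`; `e.1 ≠ e.2` because `e.2/e.1`... see the hypothesis `hne`) satisfy the condition by `hD`;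
`Dense.mono`. -/
def StTL : Prop := ∀ (ι : Type) [Fintype ι] (T : ι → Fin 3 → ℂ) (β : ℂ) (nb : ι → Fin 3 → ι × Fin 3 × ℤ) (c : List (ℂ × ℂ)),
  1 < ‖β‖ → (∀ i, Pos (T i)) → (∀ i, (0 : ℂ) ∉ Cls (T i)) →
  (∀ i s, T i s = β ^ (nb i s).2.2 * T (nb i s).1 ((nb i s).2.1 + 1)) →
  (∀ i s, T i (s + 1) = β ^ (nb i s).2.2 * T (nb i s).1 (nb i s).2.1) →
  (∀ g : ℂ → ℂ → ℝ, (∀ i s, g (T i (s + 1)) (T i s) = - g (T i s) (T i (s + 1))) →
    (∀ e ∈ c, g e.2 e.1 = - g e.1 e.2) → (∀ e ∈ c, g (β * e.2) (β * e.1) = - g (β * e.1) (β * e.2)) →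
    ∑ i, ∑ s : Fin 3, g (T i s) (T i (s + 1)) =
      (c.map (fun e => g (β * e.1) (β * e.2) - g e.1 e.2)).sum) →
  (∀ e ∈ c, e.1 ≠ 0 ∧ e.2 / e.1 ∈ Complex.slitPlane) → (∀ e ∈ c, e.1 ≠ e.2) →
  (c.map (fun e => Complex.arg (e.2 / e.1))).sum = 2 * Real.pi →
  Tiling ι T β nb

/-- **AT** (the atlas of a certificate; all the statements `StRT StEM StPZ StIG StGG StGP StGW StGT StGE StNB StCH StWI StVL StTL` as hypotheses).  PROOF.  `X.check` gives `chkG` (so `okG`, `okL` for all clusters, so `Good1`, `Good2`), `chkN`, `chkC`, `chkS`, `chkV`.  `nb` by choice from `StNB`.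
`Tiling` by `StTL` with `c = (cyc X.seam).map ..` (`e.1 ≠ e.2` because `sgD ≠ 0`: `Im (e.2/e.1) ≠ 0`), the fields `ok`, `form`, `vert`, `fok` by `Good2`, `edge` by `StNB`, `vlab` by `StVL`, `lat` by `StIG`. -/
def StAT : Prop := ∀ α, Root α → ∀ X : Cert, X.check = true →
  ∃ nb : Ix (X.C α) → Fin 3 → Ix (X.C α) × Fin 3 × ℤ, Atlas (X.C α) α⁻¹ (Gam α X.D) nb (X.F α) (X.lab α)

end Pool.Agent.Helper54.TRI
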